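import Pool.Agent.SAIL.ARI.Targets
import Pool.Agent.SAIL.ERG.Targets

/-!
SAIL, part A: the objects of the problem and the objects used in the counting of faces.
-/

namespace SAIL.F

open Matrix MeasureTheory Filter SAIL SAIL.A

/-! ### The objects of the problem -/

/-- The integer points of `R^3`. -/
def Zp : Set (Fin 3 → ℝ) := {x | ∃ z : Fin 3 → ℤ, x = fun i => (z i : ℝ)}

/-- The convex hull of the nonzero integer points of the closed cone. Its boundary is the sail. -/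
def hull (C : Set (Fin 3 → ℝ)) : Set (Fin 3 → ℝ) :=
  convexHull ℝ {x | x ∈ closure C ∧ x ∈ Zp ∧ x ≠ 0}

/-- Bounded two-dimensional faces of the sail of `C`. -/
def BFace (C F : Set (Fin 3 → ℝ)) : Prop :=
  IsExposed ℝ (hull C) F ∧ Bornology.IsBounded F ∧ Module.finrank ℝ (vectorSpan ℝ F) = 2

/-- The open simplicial cones determined by the eigenlines of `A`. -/
def ACone (A : IM) (C : Set (Fin 3 → ℝ)) : Prop :=
  ∃ (v : Fin 3 → Fin 3 → ℝ) (l : Fin 3 → ℝ), Function.Injective l ∧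
    (∀ i, v i ≠ 0 ∧ (A.map fun z : ℤ => (z : ℝ)) *ᵥ v i = l i • v i) ∧
    C = {x | ∃ t : Fin 3 → ℝ, (∀ i, 0 < t i) ∧ x = ∑ i, t i • v i}

/-- The set `A_3(m)`: integer matrices with rational pairwise distinct eigenvalues and with
sum of the absolute values of the entries at most `m`. -/
def A3 (m : ℕ) : Set IM :=
  {A | (∃ a b c : ℚ, a ≠ b ∧ b ≠ c ∧ a ≠ c ∧
    (A.map fun z : ℤ => (z : ℚ)).charpoly =
      (Polynomial.X - Polynomial.C a) * (Polynomial.X - Polynomial.C b) *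
        (Polynomial.X - Polynomial.C c)) ∧
    ∑ i, ∑ j, |A i j| ≤ (m : ℤ)}

/-- Triples (matrix, cone, face) where the face has `k` vertices. -/
def Trip (m k : ℕ) : Set (IM × Set (Fin 3 → ℝ) × Set (Fin 3 → ℝ)) :=
  {p | p.1 ∈ A3 m ∧ ACone p.1 p.2.1 ∧ BFace p.2.1 p.2.2 ∧
    (Set.extremePoints ℝ p.2.2).ncard = k}

/-! ### Cones of integer matrices -/

/-- An integer vector as a real vector. -/
def zr (z : Fin 3 → ℤ) : Fin 3 → ℝ := fun i => (z i : ℝ)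

/-- The open cone spanned by the columns. -/
def cV (V : IM) : Set (Fin 3 → ℝ) :=
  {x | ∃ t : Fin 3 → ℝ, (∀ i, 0 < t i) ∧ x = ∑ i, t i • zr (vcol V i)}

/-- The faces with `k` vertices. -/
def fc (k : ℕ) (V : IM) : Set (Set (Fin 3 → ℝ)) :=
  {F | BFace (cV V) F ∧ (Set.extremePoints ℝ F).ncard = k}

/-- Nonzero integer points of the closed cone. -/
def Lp (V : IM) : Set (Fin 3 → ℤ) := {z | z ≠ 0 ∧ ∀ i, 0 ≤ (V.adjugate *ᵥ z) i}

/-- The columns of `W` are the vertices of a triangular face of the sail of `cV V`: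
they lie in the closed cone, and an integer point `z = W ξ` of the closed cone with `∑ ξ ≤ 1` lies
in the triangle (here `adj W z = det W * ξ`). -/
def FT (V W : IM) : Prop :=
  0 < W.det ∧ (∀ j, vcol W j ∈ Lp V) ∧
  ∀ z ∈ Lp V, ∑ j, (W.adjugate *ᵥ z) j ≤ W.det →
    (∀ j, 0 ≤ (W.adjugate *ᵥ z) j) ∧ ∑ j, (W.adjugate *ᵥ z) j = W.det

/-- The covectors of distance-one faces containing a unit parallelogram. -/
def Nn (V : IM) : Set (Fin 3 → ℤ) :=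
  {n | (∀ i, 0 < n ⬝ᵥ vcol V i) ∧ ∃ w d e : Fin 3 → ℤ,
    (Matrix.of fun r => ![w r, d r, e r]).det = 1 ∧ n ⬝ᵥ w = 1 ∧ n ⬝ᵥ d = 0 ∧ n ⬝ᵥ e = 0 ∧
    w ∈ Lp V ∧ w + d ∈ Lp V ∧ w + e ∈ Lp V ∧ w + d + e ∈ Lp V}

/-- The three numbers `n · v_i`. -/
def nv (V : IM) (n : Fin 3 → ℤ) (i : Fin 3) : ℤ := n ⬝ᵥ vcol V i

/-- The normalised covolume of a covector. -/
noncomputable def dn (V : IM) (n : Fin 3 → ℤ) : ℝ :=
  (nv V n 0 : ℝ) * nv V n 1 * nv V n 2 / V.det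

/-- The position of a covector: `exp (y_i) = n_i * dn ^ (-1/3)`. -/
noncomputable def yn (V : IM) (n : Fin 3 → ℤ) : ℝ × ℝ :=
  (Real.log (nv V n 0) - Real.log (dn V n) / 3, Real.log (nv V n 1) - Real.log (dn V n) / 3)

/-- The unit window at the position of `n` lies in the hexagon. -/
def Ins (V : IM) (n : Fin 3 → ℤ) : Prop :=
  ∀ s t : ℝ, 0 ≤ s → s ≤ 1 → 0 ≤ t → t ≤ 1 → yn V n + (s, t) ∈ Hex V

/-! ### Sets of real matrices -/

/-- The first row of the inverse. -/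
noncomputable def nn (M : M3) (i : Fin 3) : ℝ := M.adjugate 0 i / M.det

/-- The matrix with rows multiplied by `nn`: its column sums are `1, 0, 0`. -/
noncomputable def BB (M : M3) : M3 := Matrix.diagonal (nn M) * M

/-- The normalised covolume. -/
noncomputable def dl (M : M3) : ℝ := nn M 0 * nn M 1 * nn M 2 * M.det

/-- The window of positions for covectors (`nn M i > 0` is required). -/
def WdQ (M : M3) : Prop := (∀ i, 0 < nn M i) ∧ ∀ i : Fin 3, i ≠ 2 →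
  nn M i ^ 3 ≤ nn M 0 * nn M 1 * nn M 2 ∧
  nn M 0 * nn M 1 * nn M 2 ≤ Real.exp 3 * nn M i ^ 3

/-- The window of positions for vertex matrices (row sums). -/
def WdT (M : M3) : Prop := (∀ i, 0 < ∑ j, M i j) ∧ ∀ i : Fin 3, i ≠ 2 →
  (∑ j, M 0 j) * (∑ j, M 1 j) * (∑ j, M 2 j) < (∑ j, M i j) ^ 3 ∧
  (∑ j, M i j) ^ 3 < Real.exp 3 * ((∑ j, M 0 j) * (∑ j, M 1 j) * (∑ j, M 2 j))

/-- Columns `b, e, e'` of `BB M`: `(e, e')` is a reduced basis (in the first two coordinates),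
`e` in a half plane, and `b = (0,0,1) + s e + t e'` with `0 ≤ s, t ≤ 1`. -/
def Rdc (M : M3) : Prop :=
  let B := BB M
  B 0 1 ^ 2 + B 1 1 ^ 2 ≤ B 0 2 ^ 2 + B 1 2 ^ 2 ∧ B 0 2 ^ 2 + B 1 2 ^ 2 ≤ 2 ∧
  2 * |B 0 1 * B 0 2 + B 1 1 * B 1 2| ≤ B 0 1 ^ 2 + B 1 1 ^ 2 ∧ 0 ≤ B 1 1 ∧
  0 ≤ B 0 0 * B 1 2 - B 1 0 * B 0 2 ∧ B 0 0 * B 1 2 - B 1 0 * B 0 2 ≤ dl M ∧
  0 ≤ B 0 1 * B 1 0 - B 1 1 * B 0 0 ∧ B 0 1 * B 1 0 - B 1 1 * B 0 0 ≤ dl M

/-- First set of matrices (base point, reduced basis) of covolume between `a` and `b`. -/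
def K1 (a b : ℝ) : Set M3 := {M | 0 < M.det ∧ WdQ M ∧ Rdc M ∧ a ≤ dl M ∧ dl M ≤ b}

/-- Second set: the parallelogram `b, b+e, b+e', b+e+e'` lies in the triangle, covolume at
least `a`. -/
def K2 (a : ℝ) : Set M3 := {M | 0 < M.det ∧ WdQ M ∧ a ≤ dl M ∧
  ∀ i, 0 ≤ BB M i 0 ∧ 0 ≤ BB M i 0 + BB M i 1 ∧ 0 ≤ BB M i 0 + BB M i 2 ∧
    0 ≤ BB M i 0 + BB M i 1 + BB M i 2}

/-- A good family of triangular faces: an integer matrix `E` and an open set `U` of matrices,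
invariant under positive scalings of the rows, with positive entries and determinant, in which
every mixed vector of the lattice `E^{-1} Z^3` with coordinate sum at most `1` is cut. -/
structure Fam (E : IM) (U : Set M3) : Prop where
  detE : 0 < E.det
  isOpen : IsOpen U
  ent : ∀ D ∈ U, 0 < D.det ∧ ∀ i j, 0 < D i j
  scal : ∀ s : Fin 3 → ℝ, (∀ i, 0 < s i) → ∀ D ∈ U, Matrix.diagonal s * D ∈ U
  cut : ∀ D ∈ U, ∀ z : Fin 3 → ℤ, z ≠ 0 →
    (∀ i, 0 ≤ (D *ᵥ fun j => ((E.adjugate *ᵥ z) j : ℝ)) i) →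
    ∑ j, (E.adjugate *ᵥ z) j ≤ E.det →
    (∀ j, 0 ≤ (E.adjugate *ᵥ z) j) ∧ ∑ j, (E.adjugate *ᵥ z) j = E.det

/-- Volume of a family in the window. -/
noncomputable def vU (U : Set M3) : ENNReal := volume {M | M ∈ U ∧ WdT M ∧ M ∈ Co}

end SAIL.F
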