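import Pool.Agent.SAIL.FAC.Targets

/-!
SAIL / FAC, item ALL: upper bound for the number of all covectors.
-/

namespace SAIL.F

open Matrix MeasureTheory Filter SAIL SAIL.A

namespace ALLx

/-- Membership in the set of pairs. -/
theorem mem_PPf {m : ℕ} {P : IM × IM} (h : P ∈ PPf m) : nrm P.1 ≤ m ∧ ∃ l, Eig P.1 P.2 l := by
  classical
  unfold PPf at h
  rw [Finset.mem_filter] at h
  exact h.2

/-- The normalised covolume is at most `1`. -/
theorem dn_le_one (hNB : tNB) {V : IM} (hV : 0 < V.det) (hp : ∀ i, prim (vcol V i))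
    {n : Fin 3 → ℤ} (hn : n ∈ Nn V) : dn V n ≤ 1 := by
  have h := (hNB V hV hp n hn).2
  have h' : (nv V n 0 : ℝ) * nv V n 1 * nv V n 2 ≤ (V.det : ℝ) := by exact_mod_cast h
  have hV' : (0 : ℝ) < (V.det : ℝ) := by exact_mod_cast hV
  unfold dn
  rw [div_le_one hV']
  exact h'

/-- The inside part. -/
theorem inside (hTHN : tTHN) (hNB : tNB) {V : IM} (hV : 0 < V.det)
    (hp : ∀ i, prim (vcol V i)) {B : ℝ} (hB : 0 ≤ B) (hvol : volume (Hex V) ≤ ENNReal.ofReal B)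
    (S : Finset (Fin 3 → ℤ)) (hS : ∀ n ∈ S, n ∈ Nn V ∧ Ins V n) :
    (S.card : ℝ) ≤ 16 * B := by
  have h1 := hTHN V hV hp 2 (by norm_num) S (fun n hn =>
    ⟨(hS n hn).1, (hS n hn).2, lt_of_le_of_lt (dn_le_one hNB hV hp (hS n hn).1) (by norm_num)⟩)
  have h2 : volume {y | y ∈ Hex V ∧ ¬ Thick (5 * 2) (gmat V y)} ≤ volume (Hex V) :=
    measure_mono (fun y hy => hy.1)
  have h3 : (S.card : ENNReal) ≤ ENNReal.ofReal (16 * B) := by
    calc (S.card : ENNReal) ≤ 16 * volume {y | y ∈ Hex V ∧ ¬ Thick (5 * 2) (gmat V y)} := h1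
      _ ≤ 16 * ENNReal.ofReal B := by gcongr; exact h2.trans hvol
      _ = ENNReal.ofReal (16 * B) := by
          rw [ENNReal.ofReal_mul (by norm_num)]
          norm_num
  have h4 := ENNReal.toReal_mono ENNReal.ofReal_ne_top h3
  rw [ENNReal.toReal_natCast, ENNReal.toReal_ofReal (by positivity)] at h4
  exact h4

end ALLx

open ALLx in
/-- ALL: there are at most `C log^2 m` covectors. -/
theorem p_ALL (hTHN : tTHN) (hOUT : tOUT) (hNB : tNB) (hY5 : tY5) (hC8 : tC8) : tALL := by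
  classical
  obtain ⟨C1, hC1, hO⟩ := hOUT
  obtain ⟨C2, hC2, hH⟩ := hC8
  have hl2 : 0 < Real.log 2 := Real.log_pos (by norm_num)
  refine ⟨C1 / Real.log 2 + 16 * C2, by positivity, ?_⟩
  intro m hm P hP
  obtain ⟨-, l, -, -, -, hp, hV⟩ := mem_PPf hP
  have hm' : (2 : ℝ) ≤ m := by exact_mod_cast hm
  have hL2 : Real.log 2 ≤ Real.log m := Real.log_le_log (by norm_num) hm'
  have hfin : (Nn P.2).Finite := (hY5 P.2 hV).1
  have hfin1 : {n | n ∈ Nn P.2 ∧ ¬ Ins P.2 n}.Finite := hfin.subset (fun n hn => hn.1)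
  have hfin2 : {n | n ∈ Nn P.2 ∧ Ins P.2 n}.Finite := hfin.subset (fun n hn => hn.1)
  have hsplit : Nn P.2 = {n | n ∈ Nn P.2 ∧ ¬ Ins P.2 n} ∪ {n | n ∈ Nn P.2 ∧ Ins P.2 n} := by
    ext n
    constructor
    · intro hn
      by_cases hi : Ins P.2 n
      · exact Or.inr ⟨hn, hi⟩
      · exact Or.inl ⟨hn, hi⟩
    · rintro (hn | hn)
      · exact hn.1
      · exact hn.1
  have hcard : ((Nn P.2).ncard : ℝ) ≤ ({n | n ∈ Nn P.2 ∧ ¬ Ins P.2 n}.ncard : ℝ) +
      ({n | n ∈ Nn P.2 ∧ Ins P.2 n}.ncard : ℝ) := by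
    have h := Set.ncard_union_le {n | n ∈ Nn P.2 ∧ ¬ Ins P.2 n} {n | n ∈ Nn P.2 ∧ Ins P.2 n}
    rw [← hsplit] at h
    exact_mod_cast h
  have h1 : ({n | n ∈ Nn P.2 ∧ ¬ Ins P.2 n}.ncard : ℝ) ≤ C1 / Real.log 2 * Real.log m ^ 2 := by
    refine (hO m hm P hP).trans ?_
    rw [div_mul_eq_mul_div, le_div_iff₀ hl2]
    have : Real.log m * Real.log 2 ≤ Real.log m ^ 2 := by nlinarith
    nlinarith
  have h2 : ({n | n ∈ Nn P.2 ∧ Ins P.2 n}.ncard : ℝ) ≤ 16 * (C2 * Real.log m ^ 2) := by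
    have h := inside hTHN hNB hV hp (B := C2 * Real.log m ^ 2) (by positivity) (hH m hm P hP)
      hfin2.toFinset (fun n hn => by
        rw [Set.Finite.mem_toFinset] at hn
        exact hn)
    rw [Set.ncard_eq_toFinset_card _ hfin2]
    exact h
  calc ((Nn P.2).ncard : ℝ) ≤ C1 / Real.log 2 * Real.log m ^ 2 + 16 * (C2 * Real.log m ^ 2) := by
        linarith
    _ = (C1 / Real.log 2 + 16 * C2) * Real.log m ^ 2 := by ring

end SAIL.F
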