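import Pool.Agent.SAIL.FAC.Targets

/-!
SAIL, part A: the answer.
-/

namespace SAIL.F

open Matrix MeasureTheory Filter SAIL SAIL.A

namespace ANSx

lemma hex_fin (V : IM) : volume (Hex V) < ⊤ := by
  have hsub : Hex V ⊆ Set.Icc ((0 : ℝ), (0 : ℝ)) (Real.log V.det, Real.log V.det) := by
    intro y hy
    have h0 := (hy 0).1
    have h1 := (hy 1).1
    have h2 := (hy 2).1
    simp only [pos, Matrix.cons_val_zero, Matrix.cons_val_one, Matrix.cons_val] at h0 h1 h2
    refine ⟨⟨h0, h1⟩, ⟨?_, ?_⟩⟩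
    · change y.1 ≤ Real.log V.det
      linarith
    · change y.2 ≤ Real.log V.det
      linarith
  exact lt_of_le_of_lt (measure_mono hsub) isCompact_Icc.measure_lt_top

lemma sum_hex (m : ℕ) (x : ℝ) (h : ENNReal.ofReal x ≤ ∑ P ∈ PPf m, volume (Hex P.2)) :
    x ≤ ∑ P ∈ PPf m, (volume (Hex P.2)).toReal := by
  have hfin : ∑ P ∈ PPf m, volume (Hex P.2) ≠ ⊤ := by
    rw [ENNReal.sum_ne_top]
    intro P _
    exact (hex_fin P.2).ne
  have h1 := (ENNReal.ofReal_le_iff_le_toReal hfin).1 h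
  rwa [ENNReal.toReal_sum (fun P _ => (hex_fin P.2).ne)] at h1

/-- the matrix with the given eigenbasis -/
def AV (V : IM) : IM := V * Matrix.diagonal ![0, 1, 2] * V.adjugate

lemma AV_mul (V : IM) : AV V * V = V * Matrix.diagonal (V.det • ![0, 1, 2]) := by
  unfold AV
  rw [Matrix.mul_assoc, Matrix.adjugate_mul, Matrix.mul_assoc]
  congr 1
  rw [Matrix.mul_smul, Matrix.mul_one]
  ext i j
  rw [Matrix.smul_apply]
  by_cases h : i = j
  · subst h
    rw [Matrix.diagonal_apply_eq, Matrix.diagonal_apply_eq]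
    rfl
  · rw [Matrix.diagonal_apply_ne _ h, Matrix.diagonal_apply_ne _ h, smul_zero]

lemma AV_eig (V : IM) (hV : 0 < V.det) (hp : ∀ i, prim (vcol V i)) :
    Eig (AV V) V (V.det • ![0, 1, 2]) := by
  refine ⟨AV_mul V, ?_, ?_, hp, hV⟩
  · simp only [Pi.smul_apply, Matrix.cons_val_zero, Matrix.cons_val_one, smul_eq_mul]
    linarith
  · simp only [Pi.smul_apply, Matrix.cons_val_one, Matrix.cons_val, smul_eq_mul]
    linarith

lemma AV_charpoly (V : IM) (hV : 0 < V.det) :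
    ((AV V).map fun z : ℤ => (z : ℚ)).charpoly =
      (Polynomial.X - Polynomial.C 0) * (Polynomial.X - Polynomial.C (V.det : ℚ)) *
        (Polynomial.X - Polynomial.C (2 * V.det : ℚ)) := by
  have hdet : (V.map fun z : ℤ => (z : ℚ)).det = (V.det : ℚ) := by
    have := (Int.castRingHom ℚ).map_det V
    exact this.symm
  have hne : (V.det : ℚ) ≠ 0 := by
    have : V.det ≠ 0 := hV.ne'
    exact_mod_cast this
  have hu : IsUnit (V.map fun z : ℤ => (z : ℚ)) := by
    rw [Matrix.isUnit_iff_isUnit_det, hdet]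
    exact IsUnit.mk0 _ hne
  obtain ⟨u, hu⟩ := hu
  have h1 := congrArg (fun M : IM => M.map fun z : ℤ => (z : ℚ)) (AV_mul V)
  have h2 : ∀ M N : IM, (M * N).map (fun z : ℤ => (z : ℚ)) =
      M.map (fun z : ℤ => (z : ℚ)) * N.map (fun z : ℤ => (z : ℚ)) := by
    intro M N
    exact Matrix.map_mul (f := Int.castRingHom ℚ)
  simp only [h2] at h1
  have h3 : (Matrix.diagonal (V.det • ![0, 1, 2]) : IM).map (fun z : ℤ => (z : ℚ)) =
      Matrix.diagonal ![0, (V.det : ℚ), 2 * V.det] := by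
    rw [Matrix.diagonal_map (by norm_num)]
    congr 1
    ext i
    fin_cases i
    · simp
    · simp
    · simp [mul_comm]
  rw [h3, ← hu] at h1
  have h4 : (AV V).map (fun z : ℤ => (z : ℚ)) =
      u.val * Matrix.diagonal ![0, (V.det : ℚ), 2 * V.det] * (u⁻¹).val := by
    rw [← h1, Matrix.mul_assoc, Units.mul_inv, Matrix.mul_one]
  rw [h4, Matrix.coe_units_inv, Matrix.charpoly_units_conj, Matrix.charpoly_diagonal, Fin.prod_univ_three]
  rfl

lemma AV_A3 (V : IM) (hV : 0 < V.det) (m : ℕ) (hm : nrm (AV V) ≤ m) : AV V ∈ A3 m := by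
  have hne : (0 : ℚ) < (V.det : ℚ) := by exact_mod_cast hV
  refine ⟨⟨0, V.det, 2 * V.det, hne.ne, ?_, ?_, AV_charpoly V hV⟩, hm⟩
  · intro h
    linarith
  · intro h
    linarith

lemma prim_ne {v : Fin 3 → ℤ} (h : prim v) : v ≠ 0 := by
  rintro rfl
  have := h 0 (fun i => dvd_refl _)
  exact not_isUnit_zero this

lemma AV_cone (V : IM) (hV : 0 < V.det) (hp : ∀ i, prim (vcol V i)) : ACone (AV V) (cV V) := by
  have hpos : (0 : ℝ) < (V.det : ℝ) := by exact_mod_cast hV
  refine ⟨fun i => zr (vcol V i), fun i => (((V.det • ![0, 1, 2] : Fin 3 → ℤ) i : ℤ) : ℝ),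
    ?_, ?_, rfl⟩
  · intro i j hij
    have h1 : (V.det • ![0, 1, 2] : Fin 3 → ℤ) i = (V.det • ![0, 1, 2] : Fin 3 → ℤ) j :=
      Int.cast_injective (α := ℝ) hij
    rw [Pi.smul_apply, Pi.smul_apply, smul_eq_mul, smul_eq_mul] at h1
    have h2 := mul_left_cancel₀ hV.ne' h1
    fin_cases i <;> fin_cases j <;> simp_all
  · intro i
    constructor
    · intro h
      apply prim_ne (hp i)
      funext r
      have := congrFun h r
      simp only [zr, Pi.zero_apply, Int.cast_eq_zero] at this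
      exact this
    · funext r
      have h1 := congrFun (congrFun (AV_mul V) r) i
      rw [Matrix.mul_apply, Matrix.mul_diagonal] at h1
      rw [Matrix.mulVec, dotProduct, Pi.smul_apply, smul_eq_mul]
      have h2 := congrArg (fun z : ℤ => (z : ℝ)) h1
      push_cast at h2
      simp only [Matrix.map_apply, zr, vcol]
      rw [h2]
      ring

end ANSx

theorem p_ANS (hZ1 : tZ1) (hUPQ : tUPQ) (hLOT : tLOT) (hHAAR : tHAAR) (hLB : tLB) (hQP : tQP)
    (hFD : T_FD) (hFV : T_FV) : tANS := by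
  refine ⟨fun m k => (hZ1 m k).1, ?_⟩
  obtain ⟨s, hs⟩ := hFD
  obtain ⟨hv1, hv2⟩ := hFV s hs
  have hv : 0 < (volume s).toReal := ENNReal.toReal_pos hv2.ne' hv1.ne
  obtain ⟨N, E, U, b, xT, xQ, hF, hne, hb, hxQ, hlt, hT, hQ⟩ := hHAAR
  obtain ⟨c1, m1, hc1, hlb⟩ := hLB
  obtain ⟨V, hV, hprim, F, hFf⟩ := hQP
  have hxT : 0 < xT := hxQ.trans hlt
  set v := (volume s).toReal with hvdef
  set c := (xT + xQ) / (2 * xQ) with hcdef
  have hc : 1 < c := by
    rw [hcdef, lt_div_iff₀ (by linarith)]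
    linarith
  set ε := (xT - xQ) * c1 / (2 * v * (c + 1)) with hεdef
  have hε : 0 < ε := by
    rw [hεdef]
    have : 0 < xT - xQ := by linarith
    positivity
  obtain ⟨m2, h2⟩ := hUPQ s hs b xQ hb hxQ hQ ε hε
  obtain ⟨m3, h3⟩ := hLOT s hs N E U xT hF hne hxT hT ε hε
  refine ⟨c, max (max m1 m2) (max m3 (nrm (ANSx.AV V))), hc, ?_⟩
  intro m hm
  have hm1 : m1 ≤ m := le_trans (le_trans (le_max_left _ _) (le_max_left _ _)) hm
  have hm2 : m2 ≤ m := le_trans (le_trans (le_max_right _ _) (le_max_left _ _)) hm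
  have hm3 : m3 ≤ m := le_trans (le_trans (le_max_left _ _) (le_max_right _ _)) hm
  have hm4 : ((nrm (ANSx.AV V) : ℤ) : ℝ) ≤ m :=
    le_trans (le_trans (le_max_right _ _) (le_max_right _ _)) hm
  have hm4' : nrm (ANSx.AV V) ≤ m := by exact_mod_cast hm4
  constructor
  · rw [Set.ncard_pos (hZ1 m 4).1]
    exact ⟨(ANSx.AV V, cV V, F), ANSx.AV_A3 V hV m hm4', ANSx.AV_cone V hV hprim, hFf.1, hFf.2⟩
  · have hS := ANSx.sum_hex m _ (hlb m hm1)
    have e2 := h2 m hm2
    have e3 := h3 m hm3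
    rw [(hZ1 m 4).2, (hZ1 m 3).2]
    set S := ∑ P ∈ PPf m, (volume (Hex P.2)).toReal with hSdef
    set M := (m : ℝ) ^ 6 * Real.log m ^ 4 with hMdef
    have hS' : c1 * M ≤ S := by
      rw [hMdef, ← mul_assoc]
      exact hS
    have e2' : ((∑ P ∈ PPf m, (fc 4 P.2).ncard : ℕ) : ℝ) ≤ xQ / v * S + ε * M := by
      rw [hMdef, ← mul_assoc]
      exact e2
    have e3' : xT / v * S - ε * M ≤ ((∑ P ∈ PPf m, (fc 3 P.2).ncard : ℕ) : ℝ) := by
      rw [hMdef, ← mul_assoc]
      exact e3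
    have hc0 : 0 < c := by linarith
    have k1 : c * ((∑ P ∈ PPf m, (fc 4 P.2).ncard : ℕ) : ℝ) ≤ c * (xQ / v * S + ε * M) :=
      mul_le_mul_of_nonneg_left e2' hc0.le
    have k2 : c * (xQ / v * S + ε * M) ≤ xT / v * S - ε * M := by
      have k3 : (c + 1) * ε * M ≤ (xT - xQ) / (2 * v) * S := by
        have k4 : (c + 1) * ε * M = (xT - xQ) / (2 * v) * (c1 * M) := by
          rw [hεdef]
          field_simp
        rw [k4]
        have : 0 < xT - xQ := by linarith
        exact mul_le_mul_of_nonneg_left hS' (by positivity)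
      have k5 : c * (xQ / v * S) = (xT + xQ) / (2 * v) * S := by
        rw [hcdef]
        field_simp
      have k6 : xT / v * S = (xT + xQ) / (2 * v) * S + (xT - xQ) / (2 * v) * S := by
        field_simp
        ring
      rw [mul_add, k5, k6]
      nlinarith
    push_cast at k1 e3' ⊢
    nlinarith

end SAIL.F
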