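import Pool.Agent.SAIL.FAC.Targets2
import Pool.Agent.SAIL.FAC.P_ANS

/-!
SAIL, part A: the answer, with an explicit constant.
-/

namespace SAIL.F

open Matrix MeasureTheory Filter SAIL SAIL.A

theorem p_ANSc (hZ1 : tZ1) (hUPQ : tUPQ) (hLOT : tLOTc) (hLB : tLB) (hQP : tQP)
    (hFD : T_FD) (hFV : T_FV) {x y c : ℝ} (hx : 0 < x) (hc : 0 < c) (hxy : c * x < y)
    (hq : tHQ x) (ht : tHT y) :
    (∀ m k : ℕ, (Trip m k).Finite) ∧ ∃ m₀ : ℝ, ∀ m : ℕ, m₀ ≤ m →
      0 < (Trip m 4).ncard ∧ c * ((Trip m 4).ncard : ℝ) ≤ ((Trip m 3).ncard : ℝ) := by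
  refine ⟨fun m k => (hZ1 m k).1, ?_⟩
  obtain ⟨s, hs⟩ := hFD
  obtain ⟨hv1, hv2⟩ := hFV s hs
  have hv : 0 < (volume s).toReal := ENNReal.toReal_pos hv2.ne' hv1.ne
  obtain ⟨b, hb, hQ⟩ := hq
  obtain ⟨N, E, U, hF, hCor, hne, hT⟩ := ht
  obtain ⟨c1, m1, hc1, hlb⟩ := hLB
  obtain ⟨V, hV, hprim, F, hFf⟩ := hQP
  have hy : 0 < y := lt_trans (mul_pos hc hx) hxy
  set v := (volume s).toReal with hvdef
  set ε := (y - c * x) * c1 / (v * (c + 1)) with hεdef
  have hε : 0 < ε := by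
    rw [hεdef]
    have : 0 < y - c * x := by linarith
    positivity
  obtain ⟨m2, h2⟩ := hUPQ s hs b x hb hx hQ ε hε
  obtain ⟨m3, h3⟩ := hLOT s hs N E U y hF hCor hne hy hT ε hε
  refine ⟨max (max m1 m2) (max m3 (nrm (ANSx.AV V))), ?_⟩
  intro m hm
  have hm1 : m1 ≤ m := le_trans (le_trans (le_max_left _ _) (le_max_left _ _)) hm
  have hm2 : m2 ≤ m := le_trans (le_trans (le_max_right _ _) (le_max_left _ _)) hm
  have hm3 : m3 ≤ m := le_trans (le_trans (le_max_left _ _) (le_max_right _ _)) hm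
  have hm4 : ((nrm (ANSx.AV V) : ℤ) : ℝ) ≤ m :=
    le_trans (le_trans (le_max_right _ _) (le_max_right _ _)) hm
  have hm4' : nrm (ANSx.AV V) ≤ m := by exact_mod_cast hm4
  constructor
  · rw [Set.ncard_pos (hZ1 m 4).1]
    exact ⟨(ANSx.AV V, cV V, F), ANSx.AV_A3 V hV m hm4', ANSx.AV_cone V hV hprim, hFf.1, hFf.2⟩
  · have hS := ANSx.sum_hex m _ (hlb m hm1)
    have e2 := h2 m hm2
    have e3 := h3 m hm3
    rw [(hZ1 m 4).2, (hZ1 m 3).2]
    set S := ∑ P ∈ PPf m, (volume (Hex P.2)).toReal with hSdef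
    set M := (m : ℝ) ^ 6 * Real.log m ^ 4 with hMdef
    have hS' : c1 * M ≤ S := by
      rw [hMdef, ← mul_assoc]
      exact hS
    have e2' : ((∑ P ∈ PPf m, (fc 4 P.2).ncard : ℕ) : ℝ) ≤ x / v * S + ε * M := by
      rw [hMdef, ← mul_assoc]
      exact e2
    have e3' : y / v * S - ε * M ≤ ((∑ P ∈ PPf m, (fc 3 P.2).ncard : ℕ) : ℝ) := by
      rw [hMdef, ← mul_assoc]
      exact e3
    have k1 : c * ((∑ P ∈ PPf m, (fc 4 P.2).ncard : ℕ) : ℝ) ≤ c * (x / v * S + ε * M) :=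
      mul_le_mul_of_nonneg_left e2' hc.le
    have k2 : c * (x / v * S + ε * M) ≤ y / v * S - ε * M := by
      have k3 : (c + 1) * ε * M ≤ (y - c * x) / v * S := by
        have k4 : (c + 1) * ε * M = (y - c * x) / v * (c1 * M) := by
          rw [hεdef]
          field_simp
        rw [k4]
        have : 0 < y - c * x := by linarith
        exact mul_le_mul_of_nonneg_left hS' (by positivity)
      have k5 : c * (x / v * S) = c * x / v * S := by ring
      have k6 : y / v * S = c * x / v * S + (y - c * x) / v * S := by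
        field_simp
        ring
      rw [mul_add, k5, k6]
      nlinarith
    push_cast at k1 e3' ⊢
    nlinarith

end SAIL.F
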