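import Pool.Agent.SAIL.FAC.Targets

/-!
SAIL, part A: approximation of open cones from below.
-/

open MeasureTheory Set Filter Topology SAIL SAIL.A

namespace SAIL.F

namespace APMx

/-- the matrix of determinant one on the ray of `M` -/
noncomputable def hh (M : M3) : M3 := (M.det ^ (-(1 / 3 : ℝ))) • M

lemma hh_pos {M : M3} (hM : M ∈ Om) : 0 < M.det ^ (-(1 / 3 : ℝ)) := Real.rpow_pos_of_pos hM _

lemma hh_smul {t : ℝ} (ht : 0 < t) {M : M3} (hM : M ∈ Om) : hh (t • M) = hh M := by
  have hd : 0 < M.det := hM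
  unfold hh
  rw [det_smul3, smul_smul, Real.mul_rpow (pow_pos ht 3).le hd.le]
  congr 1
  have h : (t ^ 3) ^ (-(1 / 3 : ℝ)) * t = 1 := by
    have h1 : (t ^ 3 : ℝ) = t ^ (3 : ℝ) := by
      rw [← Real.rpow_natCast]; norm_num
    rw [h1, ← Real.rpow_mul ht.le]
    norm_num
    rw [Real.rpow_neg_one]
    exact inv_mul_cancel₀ ht.ne'
  calc (t ^ 3) ^ (-(1 / 3 : ℝ)) * M.det ^ (-(1 / 3 : ℝ)) * t
      = ((t ^ 3) ^ (-(1 / 3 : ℝ)) * t) * M.det ^ (-(1 / 3 : ℝ)) := by ring
    _ = M.det ^ (-(1 / 3 : ℝ)) := by rw [h, one_mul]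

lemma hh_cont : ContinuousOn hh Om := by
  have h1 : ContinuousOn (fun M : M3 => M.det ^ (-(1 / 3 : ℝ))) Om := by
    refine ContinuousOn.rpow_const continuous_det.continuousOn ?_
    intro M hM
    exact Or.inl (ne_of_gt hM)
  exact h1.smul continuousOn_id

lemma norm_hh {M : M3} (hM : M ∈ Om) : ‖hh M‖ ^ 3 * M.det = ‖M‖ ^ 3 := by
  have hd : 0 < M.det := hM
  unfold hh
  rw [norm_smul, Real.norm_of_nonneg (hh_pos hM).le, mul_pow]
  have h : (M.det ^ (-(1 / 3 : ℝ))) ^ 3 * M.det = 1 := by
    rw [← Real.rpow_natCast, ← Real.rpow_mul hd.le]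
    norm_num
    rw [Real.rpow_neg_one]
    exact inv_mul_cancel₀ hd.ne'
  calc (M.det ^ (-(1 / 3 : ℝ))) ^ 3 * ‖M‖ ^ 3 * M.det
      = ((M.det ^ (-(1 / 3 : ℝ))) ^ 3 * M.det) * ‖M‖ ^ 3 := by ring
    _ = ‖M‖ ^ 3 := by rw [h, one_mul]

open Classical in
/-- the approximating functions -/
noncomputable def psi (O : Set M3) (j : ℕ) (M : M3) : ℝ :=
  if M ∈ Om then min 1 (j * Metric.infDist (hh M) Oᶜ) * min 1 (max 0 (j - ‖hh M‖)) else 0

lemma psi_nonneg (O : Set M3) (j : ℕ) (M : M3) : 0 ≤ psi O j M := by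
  unfold psi
  split_ifs
  · exact mul_nonneg (le_min zero_le_one (mul_nonneg (Nat.cast_nonneg _) Metric.infDist_nonneg))
      (le_min zero_le_one (le_max_left _ _))
  · exact le_rfl

lemma psi_le_one (O : Set M3) (j : ℕ) (M : M3) : psi O j M ≤ 1 := by
  unfold psi
  split_ifs
  · exact mul_le_one₀ (min_le_left _ _) (le_min zero_le_one (le_max_left _ _)) (min_le_left _ _)
  · exact zero_le_one

lemma psi_mono (O : Set M3) (M : M3) : Monotone fun j => psi O j M := by
  intro i j hij
  have hij' : (i : ℝ) ≤ j := Nat.cast_le.mpr hij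
  simp only [psi]
  split_ifs
  · refine mul_le_mul (min_le_min le_rfl (mul_le_mul_of_nonneg_right hij' Metric.infDist_nonneg))
      (min_le_min le_rfl (max_le_max le_rfl (by linarith)))
      (le_min zero_le_one (le_max_left _ _))
      (le_min zero_le_one (mul_nonneg (Nat.cast_nonneg _) Metric.infDist_nonneg))
  · exact le_rfl

lemma psi_cont (O : Set M3) (j : ℕ) : ContinuousOn (psi O j) Om := by
  have h : ContinuousOn (fun M : M3 => min 1 ((j : ℝ) * Metric.infDist (hh M) Oᶜ) *
      min 1 (max 0 ((j : ℝ) - ‖hh M‖))) Om := by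
    have c1 : Continuous (fun x : M3 => min 1 ((j : ℝ) * Metric.infDist x Oᶜ)) :=
      continuous_const.min (continuous_const.mul (Metric.continuous_infDist_pt Oᶜ))
    have c2 : Continuous (fun x : M3 => min 1 (max 0 ((j : ℝ) - ‖x‖))) :=
      continuous_const.min (continuous_const.max (continuous_const.sub continuous_norm))
    exact (c1.mul c2).comp_continuousOn hh_cont
  refine h.congr fun M hM => ?_
  simp only [psi, hM, if_true]

lemma psi_supp {O : Set M3} {j : ℕ} {M : M3} (h : psi O j M ≠ 0) :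
    M ∈ Om ∧ Metric.infDist (hh M) Oᶜ ≠ 0 ∧ ‖hh M‖ ≤ j := by
  unfold psi at h
  split_ifs at h with hM
  · refine ⟨hM, fun h0 => ?_, ?_⟩
    · rw [h0] at h
      simp at h
    · by_contra hlt
      push Not at hlt
      have : max 0 ((j : ℝ) - ‖hh M‖) = 0 := max_eq_left (by linarith)
      rw [this] at h
      simp at h
  · exact absurd rfl h

lemma mem_of_hh {O : Set M3} (hO : ∀ t : ℝ, 0 < t → ∀ M ∈ O, t • M ∈ O) {M : M3} (hM : M ∈ Om)
    (h : hh M ∈ O) : M ∈ O := by
  have h1 := hO (M.det ^ (-(1 / 3 : ℝ)))⁻¹ (inv_pos.mpr (hh_pos hM)) _ h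
  unfold hh at h1
  rwa [smul_smul, inv_mul_cancel₀ (hh_pos hM).ne', one_smul] at h1

lemma csf {O : Set M3} (j : ℕ) : CSF ((j : ℝ) ^ 3) (psi O j) where
  cont := psi_cont O j
  scale := by
    intro t ht M
    unfold psi
    by_cases hM : M ∈ Om
    · rw [if_pos hM, if_pos ((smul_mem_Om ht M).mpr hM), hh_smul ht hM]
    · rw [if_neg hM, if_neg (fun h => hM ((smul_mem_Om ht M).mp h))]
  supp := by
    intro M h
    obtain ⟨h1, -, h3⟩ := psi_supp h
    have hd : 0 < M.det := h1
    refine ⟨hd, ?_⟩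
    rw [← norm_hh h1]
    exact mul_le_mul_of_nonneg_right (pow_le_pow_left₀ (norm_nonneg _) h3 3) hd.le

end APMx

open APMx in
/-- the target `tAPM` -/
theorem p_APM : tAPM := by
  intro O hOo hOsub hOsc c hc hvol
  have h0 : (0 : M3) ∉ O := by
    intro h
    have h1 : 0 < (0 : M3).det := hOsub h
    simp at h1
  have hne : (Oᶜ : Set M3).Nonempty := ⟨0, h0⟩
  have hcl : IsClosed (Oᶜ : Set M3) := hOo.isClosed_compl
  have hmem : ∀ {x : M3}, Metric.infDist x Oᶜ ≠ 0 → x ∈ O := by
    intro x hx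
    by_contra hxO
    exact hx (Metric.infDist_zero_of_mem hxO)
  -- convergence of the integrals
  have hlim : Tendsto (fun j : ℕ => ∫⁻ M in Co, ENNReal.ofReal (psi O j M)) atTop
      (𝓝 (∫⁻ M in Co, O.indicator (fun _ => (1 : ENNReal)) M)) := by
    refine lintegral_tendsto_of_tendsto_of_monotone ?_ ?_ ?_
    · intro j
      exact (((psi_cont O j).mono Co_subset_Om).aemeasurable measurableSet_Co).ennreal_ofReal
    · refine Eventually.of_forall fun M => ?_
      intro i j hij
      exact ENNReal.ofReal_le_ofReal (psi_mono O M hij)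
    · refine (ae_restrict_iff' measurableSet_Co).mpr (Eventually.of_forall fun M hM => ?_)
      have hMO : M ∈ Om := Co_subset_Om hM
      by_cases h : M ∈ O
      · have hhO : hh M ∈ O := hOsc _ (hh_pos hMO) _ h
        have hpos : 0 < Metric.infDist (hh M) Oᶜ := by
          rcases (Metric.infDist_nonneg (x := hh M) (s := Oᶜ)).lt_or_eq with h1 | h1
          · exact h1
          · exfalso
            have : hh M ∈ (Oᶜ : Set M3) := (hcl.mem_iff_infDist_zero hne).mpr h1.symm
            exact this hhO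
        rw [indicator_of_mem h]
        obtain ⟨n1, hn1⟩ := exists_nat_ge (1 / Metric.infDist (hh M) Oᶜ)
        obtain ⟨n2, hn2⟩ := exists_nat_ge (‖hh M‖ + 1)
        refine tendsto_const_nhds.congr' ?_
        filter_upwards [eventually_ge_atTop (max n1 n2)] with j hj
        have hj1 : (n1 : ℝ) ≤ j := Nat.cast_le.mpr ((le_max_left _ _).trans hj)
        have hj2 : (n2 : ℝ) ≤ j := Nat.cast_le.mpr ((le_max_right _ _).trans hj)
        have e1 : 1 ≤ (j : ℝ) * Metric.infDist (hh M) Oᶜ := by
          have := hn1.trans hj1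
          rwa [div_le_iff₀ hpos] at this
        have e2 : 1 ≤ max 0 ((j : ℝ) - ‖hh M‖) := le_max_of_le_right (by linarith)
        have : psi O j M = 1 := by
          unfold psi
          rw [if_pos hMO, min_eq_left e1, min_eq_left e2, one_mul]
        rw [this, ENNReal.ofReal_one]
      · rw [indicator_of_notMem h]
        refine tendsto_const_nhds.congr fun j => ?_
        have : psi O j M = 0 := by
          by_contra hne0
          exact h (mem_of_hh hOsc hMO (hmem (psi_supp hne0).2.1))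
        rw [this, ENNReal.ofReal_zero]
  have hval : ∫⁻ M in Co, O.indicator (fun _ => (1 : ENNReal)) M = volume (O ∩ Co) := by
    rw [lintegral_indicator_const hOo.measurableSet, one_mul,
      Measure.restrict_apply hOo.measurableSet]
  rw [hval] at hlim
  obtain ⟨j, hj⟩ := ((tendsto_order.1 hlim).1 _ hvol).exists
  refine ⟨(j : ℝ) ^ 3, psi O j, csf j, fun M => ⟨psi_nonneg O j M, psi_le_one O j M⟩,
    fun M hM => ?_, ?_⟩
  · obtain ⟨h1, h2, -⟩ := psi_supp hM
    exact mem_of_hh hOsc h1 (hmem h2)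
  · -- finiteness
    have hfin : ∫⁻ M in Co, ENNReal.ofReal (psi O j M) < ⊤ := by
      have hb : ∀ M ∈ Co, ENNReal.ofReal (psi O j M) ≤
          (Metric.closedBall (0 : M3) j).indicator (fun _ => (1 : ENNReal)) M := by
        intro M hM
        by_cases hz : psi O j M = 0
        · rw [hz, ENNReal.ofReal_zero]; exact bot_le
        · obtain ⟨h1, -, h3⟩ := psi_supp hz
          have hn : ‖M‖ ^ 3 ≤ (j : ℝ) ^ 3 := by
            rw [← norm_hh h1]
            calc ‖hh M‖ ^ 3 * M.det ≤ ‖hh M‖ ^ 3 * 1 :=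
                  mul_le_mul_of_nonneg_left hM.2 (by positivity)
              _ = ‖hh M‖ ^ 3 := mul_one _
              _ ≤ (j : ℝ) ^ 3 := pow_le_pow_left₀ (norm_nonneg _) h3 3
          have hn' : ‖M‖ ≤ j := le_of_pow_le_pow_left₀ (by norm_num) (Nat.cast_nonneg _) hn
          have hmb : M ∈ Metric.closedBall (0 : M3) j := by
            rw [mem_closedBall_zero_iff]; exact hn'
          rw [indicator_of_mem hmb]
          exact ENNReal.ofReal_le_one.mpr (psi_le_one O j M)
      have hbm : MeasurableSet (Metric.closedBall (0 : M3) j) :=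
        Metric.isClosed_closedBall.measurableSet
      calc ∫⁻ M in Co, ENNReal.ofReal (psi O j M)
          ≤ ∫⁻ M in Co, (Metric.closedBall (0 : M3) j).indicator (fun _ => (1 : ENNReal)) M :=
            setLIntegral_mono' measurableSet_Co hb
        _ = volume.restrict Co (Metric.closedBall (0 : M3) j) := by
            rw [lintegral_indicator_const hbm, one_mul]
        _ ≤ volume (Metric.closedBall (0 : M3) j) := Measure.restrict_apply_le _ _
        _ < ⊤ := measure_closedBall_lt_top
    have hint : ∫ M in Co, psi O j M =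
        (∫⁻ M in Co, ENNReal.ofReal (psi O j M)).toReal := by
      refine integral_eq_lintegral_of_nonneg_ae (Eventually.of_forall fun M => psi_nonneg O j M) ?_
      exact ((psi_cont O j).mono Co_subset_Om).aestronglyMeasurable measurableSet_Co
    rw [hint]
    exact (ENNReal.ofReal_le_iff_le_toReal hfin.ne).mp hj.le

end SAIL.F
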