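import Pool.Agent.SAIL.FAC.Targets

/-!
SAIL / FAC, APX: approximation of closed cones from above.
-/

set_option autoImplicit false

open MeasureTheory Set Filter Topology

namespace SAIL.F

open SAIL SAIL.A

namespace APXx

/-- the scaling factor -/
noncomputable def sc (M : M3) : ℝ := M.det ^ (-(1 / 3) : ℝ)

lemma sc_pos {M : M3} (h : 0 < M.det) : 0 < sc M := Real.rpow_pos_of_pos h _

lemma sc_cube {M : M3} (h : 0 < M.det) : sc M ^ 3 * M.det = 1 := by
  unfold sc
  rw [← Real.rpow_natCast, ← Real.rpow_mul h.le]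
  norm_num
  rw [Real.rpow_neg_one]
  exact inv_mul_cancel₀ h.ne'

/-- the matrix scaled to determinant one -/
noncomputable def hat (M : M3) : M3 := sc M • M

lemma det_hat {M : M3} (h : 0 < M.det) : (hat M).det = 1 := by
  unfold hat
  rw [det_smul3]; exact sc_cube h

lemma hat_smul {t : ℝ} (ht : 0 < t) {M : M3} (h : 0 < M.det) : hat (t • M) = hat M := by
  have hd : 0 < (t • M).det := by rw [det_smul3]; positivity
  have h1 := sc_cube hd
  have h2 := sc_cube h
  have h3 : sc (t • M) * t = sc M := by
    have p1 := sc_pos hd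
    have p2 := sc_pos h
    have e : (sc (t • M) * t) ^ 3 = sc M ^ 3 := by
      have : ((sc (t • M) * t) ^ 3 - sc M ^ 3) * M.det = 0 := by
        rw [det_smul3] at h1
        linear_combination h1 - h2
      rcases mul_eq_zero.1 this with h | h
      · linarith
      · exact absurd h (ne_of_gt (by assumption))
    exact (pow_left_inj₀ (by positivity) p2.le (by norm_num)).1 e
  unfold hat
  rw [smul_smul, h3]

lemma smul_hat {M : M3} (h : 0 < M.det) : (sc M)⁻¹ • hat M = M := by
  unfold hat
  rw [smul_smul, inv_mul_cancel₀ (sc_pos h).ne', one_smul]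

lemma cont_sc : ContinuousOn sc Om := by
  unfold sc
  refine ContinuousOn.rpow_const continuous_det.continuousOn ?_
  intro M hM
  left
  exact ne_of_gt hM

lemma cont_hat : ContinuousOn hat Om := by
  unfold hat
  exact cont_sc.smul continuousOn_id

open Classical in
/-- the approximating functions -/
noncomputable def ps (K1 : Set M3) (j : ℕ) (M : M3) : ℝ :=
  if 0 < M.det then max 0 (1 - (j + 1 : ℝ) * Metric.infDist (hat M) K1) else 0

lemma ps_nonneg (K1 : Set M3) (j : ℕ) (M : M3) : 0 ≤ ps K1 j M := by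
  unfold ps
  split_ifs
  · exact le_max_left _ _
  · exact le_rfl

lemma ps_le_one (K1 : Set M3) (j : ℕ) (M : M3) : ps K1 j M ≤ 1 := by
  unfold ps
  split_ifs
  · refine max_le zero_le_one ?_
    have := Metric.infDist_nonneg (x := hat M) (s := K1)
    have h : 0 ≤ (j + 1 : ℝ) * Metric.infDist (hat M) K1 := by positivity
    linarith
  · exact zero_le_one

lemma ps_csf (K1 : Set M3) (hne : K1.Nonempty) (R : ℝ)
    (hK : ∀ M ∈ K1, M.det = 1 ∧ ‖M‖ ^ 3 ≤ R) (j : ℕ) : CSF ((|R| + 2) ^ 3) (ps K1 j) := by
  refine ⟨?_, ?_, ?_⟩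
  · have h1 : ContinuousOn
        (fun M : M3 => max 0 (1 - (j + 1 : ℝ) * Metric.infDist (hat M) K1)) Om := by
      refine ContinuousOn.sup continuousOn_const ?_
      refine continuousOn_const.sub (continuousOn_const.mul ?_)
      exact (Metric.continuous_infDist_pt K1).comp_continuousOn cont_hat
    refine h1.congr fun M hM => ?_
    have hM' : 0 < M.det := hM
    simp only [ps, if_pos hM']
  · intro t ht M
    have h3 : (0 < (t • M).det) ↔ 0 < M.det := by
      rw [det_smul3]
      exact mul_pos_iff_of_pos_left (pow_pos ht 3)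
    by_cases hM : 0 < M.det
    · simp only [ps, if_pos hM, if_pos (h3.2 hM), hat_smul ht hM]
    · simp only [ps, if_neg hM, if_neg (fun h => hM (h3.1 h))]
  · intro M hM
    by_cases hd : 0 < M.det
    · refine ⟨hd, ?_⟩
      have h1 : Metric.infDist (hat M) K1 < 1 := by
        by_contra hge
        push Not at hge
        apply hM
        simp only [ps, if_pos hd]
        refine max_eq_left ?_
        have : (1 : ℝ) * 1 ≤ (j + 1 : ℝ) * Metric.infDist (hat M) K1 := by
          have hj : (1 : ℝ) ≤ (j : ℝ) + 1 := by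
            have := (Nat.cast_nonneg j : (0 : ℝ) ≤ j)
            linarith
          gcongr
        linarith
      obtain ⟨k, hk, hdist⟩ := (Metric.infDist_lt_iff hne).1 h1
      have h2 : ‖k‖ ≤ |R| + 1 := by
        have h3 := (hK k hk).2
        have h4 := le_abs_self R
        by_contra hlt
        push Not at hlt
        have h5 : 1 < ‖k‖ := by
          have := abs_nonneg R
          linarith
        have h6 : ‖k‖ ≤ ‖k‖ ^ 3 := by nlinarith [sq_nonneg (‖k‖ - 1)]
        linarith
      have h3 : ‖hat M‖ ≤ |R| + 2 := by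
        have h4 : ‖hat M‖ ≤ ‖hat M - k‖ + ‖k‖ := by
          have := norm_add_le (hat M - k) k
          rwa [sub_add_cancel] at this
        rw [dist_eq_norm] at hdist
        linarith
      have h4 : ‖hat M‖ ^ 3 ≤ (|R| + 2) ^ 3 := by gcongr
      have h5 : ‖hat M‖ ^ 3 * M.det ^ 1 = ‖M‖ ^ 3 * 1 := by
        unfold hat
        rw [norm_smul, Real.norm_of_nonneg (sc_pos hd).le, ← sc_cube hd]
        ring
      calc ‖M‖ ^ 3 = ‖hat M‖ ^ 3 * M.det := by linarith
        _ ≤ (|R| + 2) ^ 3 * M.det := by gcongr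
    · exact absurd (by simp only [ps, if_neg hd]) hM

end APXx

theorem p_APX : tAPX := by
  intro K R hKR hsc hcl c hc
  have hc0 : 0 < c := by
    have : 0 < ENNReal.ofReal c := lt_of_le_of_lt zero_le hc
    exact ENNReal.ofReal_pos.1 this
  set K1 : Set M3 := {M | M ∈ K ∧ M.det = 1} with hK1
  have hhat : ∀ M : M3, 0 < M.det → (APXx.hat M ∈ K1 ↔ M ∈ K) := by
    intro M hM
    constructor
    · intro h
      have := hsc (APXx.sc M)⁻¹ (inv_pos.2 (APXx.sc_pos hM)) _ h.1
      rwa [APXx.smul_hat hM] at this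
    · intro h
      exact ⟨hsc _ (APXx.sc_pos hM) _ h, APXx.det_hat hM⟩
  rcases Set.eq_empty_or_nonempty K1 with hemp | hne
  · refine ⟨0, fun _ => 0, ⟨continuousOn_const, fun _ _ _ => rfl, fun M h => absurd rfl h⟩,
      fun _ => ⟨le_rfl, zero_le_one⟩, ?_, ?_⟩
    · intro M hM
      have hd : 0 < M.det := (hKR hM).1
      have := (hhat M hd).2 hM
      rw [hemp] at this
      exact absurd this (Set.notMem_empty _)
    · simp only [integral_zero]; exact hc0.le
  have hKb : ∀ M ∈ K1, M.det = 1 ∧ ‖M‖ ^ 3 ≤ R := by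
    intro M hM
    refine ⟨hM.2, ?_⟩
    have := (hKR hM.1).2
    rw [hM.2, mul_one] at this
    exact this
  set R' : ℝ := (|R| + 2) ^ 3 with hR'
  have hR1 : 1 ≤ R' := by
    have := abs_nonneg R
    rw [hR']
    nlinarith [sq_nonneg (|R| + 2), sq_nonneg (|R|)]
  have hcsf := APXx.ps_csf K1 hne R hKb
  -- measurability
  have hmK : MeasurableSet K := by
    have ho : IsOpen (Om ∩ APXx.hat ⁻¹' K1ᶜ) :=
      APXx.cont_hat.isOpen_inter_preimage isOpen_Om hcl.isOpen_compl
    have he : K = Om \ (Om ∩ APXx.hat ⁻¹' K1ᶜ) := by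
      ext M
      constructor
      · intro h
        have hd : 0 < M.det := (hKR h).1
        exact ⟨hd, fun h' => h'.2 ((hhat M hd).2 h)⟩
      · rintro ⟨h1, h2⟩
        have hd : 0 < M.det := h1
        by_contra h3
        exact h2 ⟨h1, fun h4 => h3 ((hhat M hd).1 h4)⟩
    rw [he]
    exact measurableSet_Om.diff ho.measurableSet
  have hlim : ∀ M ∈ Co, Tendsto (fun j : ℕ => APXx.ps K1 j M) atTop
      (𝓝 (K.indicator (1 : M3 → ℝ) M)) := by
    intro M hM
    have hd : 0 < M.det := hM.1
    by_cases h : M ∈ K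
    · rw [Set.indicator_of_mem h]
      have h0 : Metric.infDist (APXx.hat M) K1 = 0 :=
        Metric.infDist_zero_of_mem ((hhat M hd).2 h)
      have : ∀ j : ℕ, APXx.ps K1 j M = 1 := by
        intro j
        simp only [APXx.ps, if_pos hd, h0, mul_zero, sub_zero]
        exact max_eq_right zero_le_one
      simp only [this]
      exact tendsto_const_nhds
    · rw [Set.indicator_of_notMem h]
      have h1 : APXx.hat M ∉ K1 := fun h' => h ((hhat M hd).1 h')
      have h2 : 0 < Metric.infDist (APXx.hat M) K1 :=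
        (IsClosed.notMem_iff_infDist_pos hcl hne).1 h1
      obtain ⟨N, hN⟩ := exists_nat_gt (1 / Metric.infDist (APXx.hat M) K1)
      refine tendsto_atTop_of_eventually_const (i₀ := N) fun j hj => ?_
      simp only [APXx.ps, if_pos hd]
      refine max_eq_left ?_
      have h3 : 1 / Metric.infDist (APXx.hat M) K1 < (j : ℝ) + 1 := by
        have : (N : ℝ) ≤ j := by exact_mod_cast hj
        linarith
      rw [div_lt_iff₀ h2] at h3
      linarith
  -- dominated convergence
  set bd : M3 → ℝ := (Metric.closedBall (0 : M3) R').indicator 1 with hbd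
  have hint : Integrable bd (volume.restrict Co) := by
    have h1 : IntegrableOn (1 : M3 → ℝ) (Metric.closedBall (0 : M3) R') (volume.restrict Co) := by
      refine integrableOn_const ?_ (by simp)
      refine ne_of_lt (lt_of_le_of_lt (Measure.restrict_apply_le _ _) ?_)
      exact measure_closedBall_lt_top
    exact h1.integrable_indicator Metric.isClosed_closedBall.measurableSet
  have hdom : ∀ j : ℕ, ∀ᵐ M ∂(volume.restrict Co), ‖APXx.ps K1 j M‖ ≤ bd M := by
    intro j
    refine ae_restrict_of_forall_mem measurableSet_Co fun M hM => ?_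
    rw [Real.norm_of_nonneg (APXx.ps_nonneg K1 j M)]
    by_cases h0 : APXx.ps K1 j M = 0
    · rw [h0, hbd]
      exact Set.indicator_nonneg (fun _ _ => zero_le_one) _
    · have h1 := (hcsf j).supp M h0
      have h2 : ‖M‖ ^ 3 ≤ R' := by
        refine h1.2.trans ?_
        have := hM.2
        nlinarith
      have h3 : M ∈ Metric.closedBall (0 : M3) R' := by
        rw [mem_closedBall_zero_iff]
        by_contra hlt
        push Not at hlt
        have h5 : 1 < ‖M‖ := by linarith
        have h6 : ‖M‖ ≤ ‖M‖ ^ 3 := by nlinarith [sq_nonneg (‖M‖ - 1)]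
        linarith
      rw [hbd, Set.indicator_of_mem h3]
      exact APXx.ps_le_one K1 j M
  have hmeas : ∀ j : ℕ, AEStronglyMeasurable (APXx.ps K1 j) (volume.restrict Co) := by
    intro j
    exact ((hcsf j).cont.mono Co_subset_Om).aestronglyMeasurable measurableSet_Co
  have htend := tendsto_integral_of_dominated_convergence bd hmeas hint hdom
    (ae_restrict_of_forall_mem measurableSet_Co hlim)
  have hval : ∫ M in Co, K.indicator (1 : M3 → ℝ) M = (volume (K ∩ Co)).toReal := by
    rw [integral_indicator_one hmK]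
    rw [measureReal_def, Measure.restrict_apply hmK]
  rw [hval] at htend
  have hlt : (volume (K ∩ Co)).toReal < c := ENNReal.toReal_lt_of_lt_ofReal hc
  obtain ⟨j, hj⟩ := (htend.eventually (gt_mem_nhds hlt)).exists
  refine ⟨R', APXx.ps K1 j, hcsf j, fun M => ⟨APXx.ps_nonneg _ _ _, APXx.ps_le_one _ _ _⟩, ?_,
    le_of_lt hj⟩
  intro M hM
  have hd : 0 < M.det := (hKR hM).1
  have h0 : Metric.infDist (APXx.hat M) K1 = 0 :=
    Metric.infDist_zero_of_mem ((hhat M hd).2 hM)
  simp only [APXx.ps, if_pos hd, h0, mul_zero, sub_zero]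
  exact max_eq_right zero_le_one

end SAIL.F
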