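import Pool.Agent.SAIL.FAC.Targets

/-!
SAIL, part A, item KC: `K1 a b` and `K2 a` are closed cones over compact sets.
-/

namespace SAIL.F

open Matrix MeasureTheory Filter SAIL SAIL.A

namespace KCx

/-- column sums of `BB M` -/
lemma colsum {M : M3} (hM : 0 < M.det) (j : Fin 3) :
    BB M 0 j + BB M 1 j + BB M 2 j = if j = 0 then 1 else 0 := by
  have h := congrFun (congrFun (Matrix.adjugate_mul M) 0) j
  simp only [Matrix.mul_apply, Fin.sum_univ_three, Matrix.smul_apply, smul_eq_mul] at h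
  have hd : M.det ≠ 0 := hM.ne'
  simp only [BB, Matrix.diagonal_mul, nn]
  have e : M.adjugate 0 0 / M.det * M 0 j + M.adjugate 0 1 / M.det * M 1 j +
      M.adjugate 0 2 / M.det * M 2 j
      = (M.adjugate 0 0 * M 0 j + M.adjugate 0 1 * M 1 j + M.adjugate 0 2 * M 2 j) / M.det := by
    field_simp
  rw [e, h]
  by_cases hj : j = 0
  · subst hj
    simp [hd]
  · rw [Matrix.one_apply_ne (Ne.symm hj), if_neg hj]
    simp

/-- `dl` is the determinant of `BB M`. -/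
lemma dl_eq {M : M3} (hM : 0 < M.det) :
    dl M = BB M 0 1 * BB M 1 2 - BB M 0 2 * BB M 1 1 ∧
    BB M 2 0 = 1 - BB M 0 0 - BB M 1 0 ∧ BB M 2 1 = - BB M 0 1 - BB M 1 1 ∧
    BB M 2 2 = - BB M 0 2 - BB M 1 2 := by
  have h0 := colsum hM 0
  have h1 := colsum hM 1
  have h2 := colsum hM 2
  have hdet : dl M = (BB M).det := by
    simp only [BB, Matrix.det_mul, Matrix.det_diagonal, Fin.prod_univ_three, dl]
  rw [hdet, Matrix.det_fin_three]
  simp only [Fin.isValue, if_true, one_ne_zero, if_false] at h0 h1 h2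
  have h2' : (2 : Fin 3) ≠ 0 := by decide
  simp only [h2', if_false] at h1 h2
  have e20 : BB M 2 0 = 1 - BB M 0 0 - BB M 1 0 := by linarith
  have e21 : BB M 2 1 = - BB M 0 1 - BB M 1 1 := by linarith
  have e22 : BB M 2 2 = - BB M 0 2 - BB M 1 2 := by linarith
  refine ⟨?_, e20, e21, e22⟩
  rw [e20, e21, e22]
  ring

/-- the window bounds the numbers `nn` from below -/
lemma nn_low {M : M3} (hW : WdQ M) (i : Fin 3) :
    nn M 0 * nn M 1 * nn M 2 ≤ Real.exp 3 * nn M i ^ 3 := by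
  obtain ⟨hpos, hw⟩ := hW
  have h0 := hw 0 (by decide)
  have h1 := hw 1 (by decide)
  have p0 := hpos 0
  have p1 := hpos 1
  have p2 := hpos 2
  have he : (1 : ℝ) ≤ Real.exp 3 := Real.one_le_exp (by norm_num)
  have hi : i = 0 ∨ i = 1 ∨ i = 2 := by fin_cases i <;> simp
  rcases hi with rfl | rfl | rfl
  · exact h0.2
  · exact h1.2
  · set p := nn M 0 * nn M 1 * nn M 2 with hp
    have hpp : 0 < p := by positivity
    have h3 : p ^ 3 ≤ p * p * nn M 2 ^ 3 := by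
      have : p ^ 3 = nn M 0 ^ 3 * nn M 1 ^ 3 * nn M 2 ^ 3 := by rw [hp]; ring
      rw [this]
      have : nn M 0 ^ 3 * nn M 1 ^ 3 ≤ p * p := by
        apply mul_le_mul h0.1 h1.1 (by positivity) hpp.le
      exact mul_le_mul_of_nonneg_right this (by positivity)
    have h4 : p ≤ nn M 2 ^ 3 := by
      have : p * p * p ≤ p * p * nn M 2 ^ 3 := by
        calc p * p * p = p ^ 3 := by ring
          _ ≤ _ := h3
      exact le_of_mul_le_mul_left this (by positivity)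
    have h5 : 1 * nn M 2 ^ 3 ≤ Real.exp 3 * nn M 2 ^ 3 :=
      mul_le_mul_of_nonneg_right he (by positivity)
    linarith

/-- bounded entries of `BB M` imply `M ∈ KK R` -/
lemma mem_KK {M : M3} {a : ℝ} (ha : 0 < a) (hM : 0 < M.det) (hW : WdQ M) (hd : a ≤ dl M)
    (hB : ∀ i j, |BB M i j| ≤ 7) : M ∈ KK (343 * Real.exp 3 / a) := by
  refine ⟨hM, ?_⟩
  have key : ∀ i j, |M i j| ^ 3 ≤ 343 * Real.exp 3 / a * M.det := by
    intro i j
    have hb := hB i j
    have hn := hW.1 i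
    have hbb : BB M i j = nn M i * M i j := by simp [BB, Matrix.diagonal_mul]
    rw [hbb, abs_mul, abs_of_pos hn] at hb
    have h3 : (nn M i * |M i j|) ^ 3 ≤ 7 ^ 3 :=
      pow_le_pow_left₀ (by positivity) hb 3
    have hl := nn_low hW i
    have hda : a ≤ nn M 0 * nn M 1 * nn M 2 * M.det := hd
    have h4 : a ≤ Real.exp 3 * nn M i ^ 3 * M.det :=
      hda.trans (mul_le_mul_of_nonneg_right hl hM.le)
    have hx : 0 ≤ |M i j| ^ 3 := by positivity
    have h5 : a * |M i j| ^ 3 ≤ 343 * Real.exp 3 * M.det := by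
      calc a * |M i j| ^ 3 ≤ Real.exp 3 * nn M i ^ 3 * M.det * |M i j| ^ 3 :=
            mul_le_mul_of_nonneg_right h4 hx
        _ = Real.exp 3 * M.det * (nn M i * |M i j|) ^ 3 := by ring
        _ ≤ Real.exp 3 * M.det * 7 ^ 3 :=
            mul_le_mul_of_nonneg_left h3 (by positivity)
        _ = 343 * Real.exp 3 * M.det := by ring
    rw [div_mul_eq_mul_div, le_div_iff₀ ha]
    linarith
  set c := 343 * Real.exp 3 / a * M.det with hc
  have hc0 : 0 ≤ c := by positivity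
  have hr0 : 0 ≤ c ^ ((1 : ℝ) / 3) := Real.rpow_nonneg hc0 _
  have hr3 : (c ^ ((1 : ℝ) / 3)) ^ 3 = c := by
    rw [← Real.rpow_natCast, ← Real.rpow_mul hc0]
    norm_num
  have hn : ‖M‖ ≤ c ^ ((1 : ℝ) / 3) := by
    rw [Matrix.norm_le_iff hr0]
    intro i j
    rw [Real.norm_eq_abs]
    have := key i j
    rw [← hr3] at this
    exact le_of_pow_le_pow_left₀ (by norm_num) hr0 this
  calc ‖M‖ ^ 3 ≤ (c ^ ((1 : ℝ) / 3)) ^ 3 := pow_le_pow_left₀ (norm_nonneg _) hn 3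
    _ = c := hr3

lemma abs_le_of_sq {x y : ℝ} (h : x ^ 2 + y ^ 2 ≤ 2) : |x| ≤ 3 / 2 := by
  have : |x| ^ 2 ≤ (3 / 2) ^ 2 := by
    rw [sq_abs]
    nlinarith [sq_nonneg y]
  exact le_of_pow_le_pow_left₀ (by norm_num) (by norm_num) this

lemma BB_bound1 {M : M3} (hM : 0 < M.det) (hR : Rdc M) (hd0 : 0 < dl M) (i j : Fin 3) :
    |BB M i j| ≤ 7 := by
  obtain ⟨hdl, e20, e21, e22⟩ := dl_eq hM
  simp only [Rdc] at hR
  obtain ⟨r1, r2, -, -, r5, r6, r7, r8⟩ := hR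
  have b01 : |BB M 0 1| ≤ 3 / 2 := abs_le_of_sq (r1.trans r2)
  have b11 : |BB M 1 1| ≤ 3 / 2 := abs_le_of_sq (by rw [add_comm]; exact r1.trans r2)
  have b02 : |BB M 0 2| ≤ 3 / 2 := abs_le_of_sq r2
  have b12 : |BB M 1 2| ≤ 3 / 2 := abs_le_of_sq (by rw [add_comm]; exact r2)
  set x := BB M 0 0 * BB M 1 2 - BB M 1 0 * BB M 0 2 with hx
  set y := BB M 0 1 * BB M 1 0 - BB M 1 1 * BB M 0 0 with hy
  have c0 : dl M * BB M 0 0 = x * BB M 0 1 + y * BB M 0 2 := by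
    rw [hdl, hx, hy]; ring
  have c1 : dl M * BB M 1 0 = x * BB M 1 1 + y * BB M 1 2 := by
    rw [hdl, hx, hy]; ring
  have bnd : ∀ u v z : ℝ, |u| ≤ 3 / 2 → |v| ≤ 3 / 2 → dl M * z = x * u + y * v → |z| ≤ 3 := by
    intro u v z hu hv hz
    have h1 : dl M * |z| ≤ dl M * 3 := by
      calc dl M * |z| = |dl M * z| := by rw [abs_mul, abs_of_pos hd0]
        _ = |x * u + y * v| := by rw [hz]
        _ ≤ |x * u| + |y * v| := abs_add_le _ _
        _ = x * |u| + y * |v| := by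
            rw [abs_mul, abs_mul, abs_of_nonneg r5, abs_of_nonneg r7]
        _ ≤ dl M * (3 / 2) + dl M * (3 / 2) := by
            apply add_le_add
            · exact mul_le_mul r6 hu (abs_nonneg _) hd0.le
            · exact mul_le_mul r8 hv (abs_nonneg _) hd0.le
        _ = dl M * 3 := by ring
    exact le_of_mul_le_mul_left h1 hd0
  have b00 : |BB M 0 0| ≤ 3 := bnd _ _ _ b01 b02 c0
  have b10 : |BB M 1 0| ≤ 3 := bnd _ _ _ b11 b12 c1
  have hi : i = 0 ∨ i = 1 ∨ i = 2 := by fin_cases i <;> simp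
  have hj : j = 0 ∨ j = 1 ∨ j = 2 := by fin_cases j <;> simp
  rw [abs_le] at b00 b10 b01 b11 b02 b12
  rcases hi with rfl | rfl | rfl <;> rcases hj with rfl | rfl | rfl
  · rw [abs_le]; constructor <;> linarith [b00.1, b00.2]
  · rw [abs_le]; constructor <;> linarith [b01.1, b01.2]
  · rw [abs_le]; constructor <;> linarith [b02.1, b02.2]
  · rw [abs_le]; constructor <;> linarith [b10.1, b10.2]
  · rw [abs_le]; constructor <;> linarith [b11.1, b11.2]
  · rw [abs_le]; constructor <;> linarith [b12.1, b12.2]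
  · rw [e20, abs_le]; constructor <;> linarith [b00.1, b00.2, b10.1, b10.2]
  · rw [e21, abs_le]; constructor <;> linarith [b01.1, b01.2, b11.1, b11.2]
  · rw [e22, abs_le]; constructor <;> linarith [b02.1, b02.2, b12.1, b12.2]

lemma BB_bound2 {M : M3} (hM : 0 < M.det)
    (hR : ∀ i, 0 ≤ BB M i 0 ∧ 0 ≤ BB M i 0 + BB M i 1 ∧ 0 ≤ BB M i 0 + BB M i 2 ∧
    0 ≤ BB M i 0 + BB M i 1 + BB M i 2) (i j : Fin 3) :
    |BB M i j| ≤ 7 := by
  obtain ⟨hdl, e20, e21, e22⟩ := dl_eq hM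
  obtain ⟨a0, a1, a2, -⟩ := hR 0
  obtain ⟨b0, b1, b2, -⟩ := hR 1
  obtain ⟨c0, c1, c2, -⟩ := hR 2
  have hi : i = 0 ∨ i = 1 ∨ i = 2 := by fin_cases i <;> simp
  have hj : j = 0 ∨ j = 1 ∨ j = 2 := by fin_cases j <;> simp
  rcases hi with rfl | rfl | rfl <;> rcases hj with rfl | rfl | rfl <;>
    (rw [abs_le]; constructor <;> linarith)

/-! ### scaling -/

lemma det_smul3 (t : ℝ) (M : M3) : (t • M).det = t ^ 3 * M.det := by
  rw [Matrix.det_smul]; simp

lemma nn_smul {t : ℝ} (ht : 0 < t) (M : M3) (i : Fin 3) : nn (t • M) i = nn M i / t := by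
  have h : (t • M).adjugate = t ^ 2 • M.adjugate := by
    rw [Matrix.adjugate_smul]; simp
  simp only [nn, h, det_smul3, Matrix.smul_apply, smul_eq_mul]
  have ht' : t ≠ 0 := ht.ne'
  by_cases hd : M.det = 0
  · simp [hd]
  · field_simp

lemma BB_smul {t : ℝ} (ht : 0 < t) (M : M3) : BB (t • M) = BB M := by
  ext i j
  simp only [BB, Matrix.diagonal_mul, nn_smul ht, Matrix.smul_apply, smul_eq_mul]
  have ht' : t ≠ 0 := ht.ne'
  field_simp

lemma dl_smul {t : ℝ} (ht : 0 < t) (M : M3) : dl (t • M) = dl M := by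
  simp only [dl, nn_smul ht, det_smul3]
  have ht' : t ≠ 0 := ht.ne'
  field_simp

lemma WdQ_smul {t : ℝ} (ht : 0 < t) {M : M3} (h : WdQ M) : WdQ (t • M) := by
  obtain ⟨h1, h2⟩ := h
  refine ⟨fun i => ?_, fun i hi => ?_⟩
  · rw [nn_smul ht]; exact div_pos (h1 i) ht
  · simp only [nn_smul ht]
    obtain ⟨h3, h4⟩ := h2 i hi
    have ht3 : 0 < t ^ 3 := by positivity
    have e1 : (nn M i / t) ^ 3 = nn M i ^ 3 / t ^ 3 := by rw [div_pow]
    have e2 : nn M 0 / t * (nn M 1 / t) * (nn M 2 / t) =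
        nn M 0 * nn M 1 * nn M 2 / t ^ 3 := by
      have ht' : t ≠ 0 := ht.ne'
      field_simp
    rw [e1, e2]
    constructor
    · exact div_le_div_of_nonneg_right h3 ht3.le
    · rw [← mul_div_assoc]
      exact div_le_div_of_nonneg_right h4 ht3.le

lemma Rdc_smul {t : ℝ} (ht : 0 < t) {M : M3} (h : Rdc M) : Rdc (t • M) := by
  simp only [Rdc, BB_smul ht, dl_smul ht] at h ⊢
  exact h

/-! ### closedness -/

/-- numerators -/
noncomputable def nq (M : M3) (i : Fin 3) : ℝ := M.adjugate 0 i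
/-- matrix of numerators -/
noncomputable def Bq (M : M3) (i j : Fin 3) : ℝ := M.adjugate 0 i * M i j
/-- product of numerators -/
noncomputable def dq (M : M3) : ℝ := nq M 0 * nq M 1 * nq M 2

lemma cont_adj (i j : Fin 3) : Continuous (fun M : M3 => M.adjugate i j) := by
  have h : Continuous (fun M : M3 => M.adjugate) := Continuous.matrix_adjugate continuous_id
  exact h.matrix_elem i j

lemma cont_ent (i j : Fin 3) : Continuous (fun M : M3 => M i j) :=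
  continuous_id.matrix_elem i j

lemma cont_nq (i : Fin 3) : Continuous (fun M : M3 => nq M i) := cont_adj 0 i

lemma cont_Bq (i j : Fin 3) : Continuous (fun M : M3 => Bq M i j) :=
  (cont_adj 0 i).mul (cont_ent i j)

lemma cont_dq : Continuous (fun M : M3 => dq M) :=
  ((cont_nq 0).mul (cont_nq 1)).mul (cont_nq 2)

lemma nn_one {M : M3} (h : M.det = 1) (i : Fin 3) : nn M i = nq M i := by
  simp [nn, nq, h]

lemma BB_one {M : M3} (h : M.det = 1) (i j : Fin 3) : BB M i j = Bq M i j := by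
  simp [BB, Bq, Matrix.diagonal_mul, nn_one h, nq]

lemma dl_one {M : M3} (h : M.det = 1) : dl M = dq M := by
  simp [dl, dq, nn_one h, h]

/-- closed form of the window -/
def Wc (M : M3) : Prop := (∀ i, 0 ≤ nq M i) ∧ ∀ i : Fin 3, i ≠ 2 →
  nq M i ^ 3 ≤ dq M ∧ dq M ≤ Real.exp 3 * nq M i ^ 3

lemma closed_Wc : IsClosed {M : M3 | Wc M} := by
  have h1 : IsClosed {M : M3 | ∀ i, 0 ≤ nq M i} := by
    have : {M : M3 | ∀ i, 0 ≤ nq M i} = ⋂ i, {M : M3 | 0 ≤ nq M i} := by ext M; simp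
    rw [this]
    exact isClosed_iInter fun i => isClosed_le continuous_const (cont_nq i)
  have h2 : IsClosed {M : M3 | ∀ i : Fin 3, i ≠ 2 →
      nq M i ^ 3 ≤ dq M ∧ dq M ≤ Real.exp 3 * nq M i ^ 3} := by
    have : {M : M3 | ∀ i : Fin 3, i ≠ 2 →
      nq M i ^ 3 ≤ dq M ∧ dq M ≤ Real.exp 3 * nq M i ^ 3} =
      ⋂ i : Fin 3, ⋂ (_ : i ≠ 2), ({M : M3 | nq M i ^ 3 ≤ dq M} ∩
        {M : M3 | dq M ≤ Real.exp 3 * nq M i ^ 3}) := by ext M; simp
    rw [this]
    exact isClosed_iInter fun i => isClosed_iInter fun _ =>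
      (isClosed_le ((cont_nq i).pow 3) cont_dq).inter
        (isClosed_le cont_dq (continuous_const.mul ((cont_nq i).pow 3)))
  exact h1.inter h2

lemma WdQ_one {M : M3} (h : M.det = 1) {a : ℝ} (ha : 0 < a) (hd : a ≤ dq M) :
    WdQ M ↔ Wc M := by
  simp only [WdQ, Wc, nn_one h]
  constructor
  · rintro ⟨h1, h2⟩
    exact ⟨fun i => (h1 i).le, h2⟩
  · rintro ⟨h1, h2⟩
    refine ⟨fun i => ?_, h2⟩
    rcases (h1 i).lt_or_eq with h3 | h3
    · exact h3
    · exfalso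
      have : dq M = 0 := by
        have hi : i = 0 ∨ i = 1 ∨ i = 2 := by fin_cases i <;> simp
        rcases hi with rfl | rfl | rfl <;> simp [dq, ← h3]
      linarith

/-- closed form of the reduction conditions -/
def Rc (M : M3) : Prop :=
  Bq M 0 1 ^ 2 + Bq M 1 1 ^ 2 ≤ Bq M 0 2 ^ 2 + Bq M 1 2 ^ 2 ∧ Bq M 0 2 ^ 2 + Bq M 1 2 ^ 2 ≤ 2 ∧
  2 * |Bq M 0 1 * Bq M 0 2 + Bq M 1 1 * Bq M 1 2| ≤ Bq M 0 1 ^ 2 + Bq M 1 1 ^ 2 ∧ 0 ≤ Bq M 1 1 ∧
  0 ≤ Bq M 0 0 * Bq M 1 2 - Bq M 1 0 * Bq M 0 2 ∧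
  Bq M 0 0 * Bq M 1 2 - Bq M 1 0 * Bq M 0 2 ≤ dq M ∧
  0 ≤ Bq M 0 1 * Bq M 1 0 - Bq M 1 1 * Bq M 0 0 ∧
  Bq M 0 1 * Bq M 1 0 - Bq M 1 1 * Bq M 0 0 ≤ dq M

lemma closed_Rc : IsClosed {M : M3 | Rc M} := by
  have c := cont_Bq
  have cd := cont_dq
  refine (isClosed_le (((c 0 1).pow 2).add ((c 1 1).pow 2))
    (((c 0 2).pow 2).add ((c 1 2).pow 2))).inter ?_
  refine (isClosed_le (((c 0 2).pow 2).add ((c 1 2).pow 2)) continuous_const).inter ?_
  refine (isClosed_le (continuous_const.mul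
    ((((c 0 1).mul (c 0 2)).add ((c 1 1).mul (c 1 2))).abs))
    (((c 0 1).pow 2).add ((c 1 1).pow 2))).inter ?_
  refine (isClosed_le continuous_const (c 1 1)).inter ?_
  refine (isClosed_le continuous_const (((c 0 0).mul (c 1 2)).sub ((c 1 0).mul (c 0 2)))).inter ?_
  refine (isClosed_le (((c 0 0).mul (c 1 2)).sub ((c 1 0).mul (c 0 2))) cd).inter ?_
  refine (isClosed_le continuous_const (((c 0 1).mul (c 1 0)).sub ((c 1 1).mul (c 0 0)))).inter ?_
  exact isClosed_le (((c 0 1).mul (c 1 0)).sub ((c 1 1).mul (c 0 0))) cd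

lemma Rdc_one {M : M3} (h : M.det = 1) : Rdc M ↔ Rc M := by
  simp only [Rdc, Rc, BB_one h, dl_one h]

/-- closed form of the parallelogram conditions -/
def Pc (M : M3) : Prop := ∀ i, 0 ≤ Bq M i 0 ∧ 0 ≤ Bq M i 0 + Bq M i 1 ∧ 0 ≤ Bq M i 0 + Bq M i 2 ∧
    0 ≤ Bq M i 0 + Bq M i 1 + Bq M i 2

lemma closed_Pc : IsClosed {M : M3 | Pc M} := by
  have c := cont_Bq
  have : {M : M3 | Pc M} = ⋂ i : Fin 3, {M : M3 | 0 ≤ Bq M i 0 ∧ 0 ≤ Bq M i 0 + Bq M i 1 ∧
      0 ≤ Bq M i 0 + Bq M i 2 ∧ 0 ≤ Bq M i 0 + Bq M i 1 + Bq M i 2} := by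
    ext M; simp [Pc]
  rw [this]
  refine isClosed_iInter fun i => ?_
  refine (isClosed_le continuous_const (c i 0)).inter ?_
  refine (isClosed_le continuous_const ((c i 0).add (c i 1))).inter ?_
  refine (isClosed_le continuous_const ((c i 0).add (c i 2))).inter ?_
  exact isClosed_le continuous_const (((c i 0).add (c i 1)).add (c i 2))

lemma closed1 {a b : ℝ} (ha : 0 < a) : IsClosed {M | M ∈ K1 a b ∧ M.det = 1} := by
  have : {M | M ∈ K1 a b ∧ M.det = 1} = {M : M3 | M.det = 1} ∩ ({M : M3 | a ≤ dq M} ∩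
      ({M : M3 | dq M ≤ b} ∩ ({M : M3 | Wc M} ∩ {M : M3 | Rc M}))) := by
    ext M
    simp only [K1, Set.mem_inter_iff, Set.mem_ofPred_eq]
    constructor
    · rintro ⟨⟨-, h2, h3, h4, h5⟩, h6⟩
      rw [dl_one h6] at h4 h5
      exact ⟨h6, h4, h5, (WdQ_one h6 ha h4).1 h2, (Rdc_one h6).1 h3⟩
    · rintro ⟨h6, h4, h5, h2, h3⟩
      refine ⟨⟨by rw [h6]; exact one_pos, (WdQ_one h6 ha h4).2 h2, (Rdc_one h6).2 h3, ?_, ?_⟩, h6⟩
      · rw [dl_one h6]; exact h4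
      · rw [dl_one h6]; exact h5
  rw [this]
  exact (isClosed_eq SAIL.continuous_det continuous_const).inter
    ((isClosed_le continuous_const cont_dq).inter ((isClosed_le cont_dq continuous_const).inter
      (closed_Wc.inter closed_Rc)))

lemma closed2 {a : ℝ} (ha : 0 < a) : IsClosed {M | M ∈ K2 a ∧ M.det = 1} := by
  have : {M | M ∈ K2 a ∧ M.det = 1} = {M : M3 | M.det = 1} ∩ ({M : M3 | a ≤ dq M} ∩
      ({M : M3 | Wc M} ∩ {M : M3 | Pc M})) := by
    ext M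
    simp only [K2, Set.mem_inter_iff, Set.mem_ofPred_eq]
    constructor
    · rintro ⟨⟨-, h2, h4, h3⟩, h6⟩
      rw [dl_one h6] at h4
      refine ⟨h6, h4, (WdQ_one h6 ha h4).1 h2, ?_⟩
      intro i
      have := h3 i
      simp only [BB_one h6] at this
      exact this
    · rintro ⟨h6, h4, h2, h3⟩
      refine ⟨⟨by rw [h6]; exact one_pos, (WdQ_one h6 ha h4).2 h2, ?_, ?_⟩, h6⟩
      · rw [dl_one h6]; exact h4
      · intro i
        simp only [BB_one h6]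
        exact h3 i
  rw [this]
  exact (isClosed_eq SAIL.continuous_det continuous_const).inter
    ((isClosed_le continuous_const cont_dq).inter (closed_Wc.inter closed_Pc))

end KCx

open KCx in
theorem p_KC : tKC := by
  intro a b ha
  refine ⟨⟨⟨343 * Real.exp 3 / a, ?_⟩, ?_, closed1 ha⟩, ⟨⟨343 * Real.exp 3 / a, ?_⟩, ?_, closed2 ha⟩⟩
  · rintro M ⟨h1, h2, h3, h4, -⟩
    exact mem_KK ha h1 h2 h4 (BB_bound1 h1 h3 (ha.trans_le h4))
  · rintro t ht M ⟨h1, h2, h3, h4, h5⟩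
    refine ⟨?_, WdQ_smul ht h2, Rdc_smul ht h3, ?_, ?_⟩
    · rw [det_smul3]; positivity
    · rw [dl_smul ht]; exact h4
    · rw [dl_smul ht]; exact h5
  · rintro M ⟨h1, h2, h4, h3⟩
    exact mem_KK ha h1 h2 h4 (BB_bound2 h1 h3)
  · rintro t ht M ⟨h1, h2, h4, h3⟩
    refine ⟨?_, WdQ_smul ht h2, ?_, ?_⟩
    · rw [det_smul3]; positivity
    · rw [dl_smul ht]; exact h4
    · intro i
      rw [BB_smul ht]
      exact h3 i

end SAIL.F
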