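import Pool.Agent.SAIL.FAC.Targets
import Pool.Agent.SAIL.ARI.P_BAS

/-!
SAIL, part A: the level lemma (distance one and unit parallelogram).
-/

namespace SAIL.F.LEVx

open Matrix MeasureTheory Filter SAIL SAIL.A SAIL.F

/-- the three integer coordinates of an integer point -/
def xc (V : IM) (z : Fin 3 → ℤ) (i : Fin 3) : ℤ := (V.adjugate *ᵥ z) i

lemma xc_add (V : IM) (y z : Fin 3 → ℤ) (i : Fin 3) : xc V (y + z) i = xc V y i + xc V z i := by
  unfold xc; rw [Matrix.mulVec_add]; rfl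

lemma xc_sub (V : IM) (y z : Fin 3 → ℤ) (i : Fin 3) : xc V (y - z) i = xc V y i - xc V z i := by
  unfold xc; rw [Matrix.mulVec_sub]; rfl

lemma xc_smul (V : IM) (c : ℤ) (z : Fin 3 → ℤ) (i : Fin 3) : xc V (c • z) i = c * xc V z i := by
  unfold xc; rw [Matrix.mulVec_smul]; rfl

lemma mem_Lp {V : IM} {z : Fin 3 → ℤ} : z ∈ Lp V ↔ z ≠ 0 ∧ ∀ i, 0 ≤ xc V z i := Iff.rfl

lemma ne_zero_of_dot {n z : Fin 3 → ℤ} (h : n ⬝ᵥ z ≠ 0) : z ≠ 0 := by
  rintro rfl
  exact h (by simp)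

/-- a parallelogram from a cross -/
lemma corner {V : IM} {n : Fin 3 → ℤ} {h : ℤ} (hh : 1 ≤ h) {p u v : Fin 3 → ℤ}
    (hp : n ⬝ᵥ p = h) (huv : crossProduct u v = n) (h0 : p ∈ Lp V) (h1 : p + u ∈ Lp V)
    (h2 : p + v ∈ Lp V) (h3 : p - u ∈ Lp V) (h4 : p - v ∈ Lp V) :
    ∃ p' u' v' : Fin 3 → ℤ, n ⬝ᵥ p' = h ∧ crossProduct u' v' = n ∧ p' ∈ Lp V ∧ p' + u' ∈ Lp V ∧
      p' + v' ∈ Lp V ∧ p' + u' + v' ∈ Lp V := by
  have hu : n ⬝ᵥ u = 0 := by rw [← huv]; simp [crossProduct, dotProduct, Fin.sum_univ_three]; ring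
  have hv : n ⬝ᵥ v = 0 := by rw [← huv]; simp [crossProduct, dotProduct, Fin.sum_univ_three]; ring
  by_contra hcon
  have key : ∀ s t : ℤ, (s = 1 ∨ s = -1) → (t = 1 ∨ t = -1) →
      ∃ i, xc V p i + s * xc V u i + t * xc V v i < 0 := by
    intro s t hs ht
    by_contra hno
    push Not at hno
    apply hcon
    have hc : p + s • u + t • v ∈ Lp V := by
      refine ⟨ne_zero_of_dot (n := n) ?_, fun i => ?_⟩
      · rw [dotProduct_add, dotProduct_add, dotProduct_smul, dotProduct_smul, hu, hv, hp]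
        simp only [smul_zero, add_zero]
        omega
      · change 0 ≤ xc V _ i
        rw [xc_add, xc_add, xc_smul, xc_smul]
        exact hno i
    have hsu : p + s • u ∈ Lp V := by
      rcases hs with rfl | rfl
      · simpa using h1
      · simpa [sub_eq_add_neg] using h3
    have htv : p + t • v ∈ Lp V := by
      rcases ht with rfl | rfl
      · simpa using h2
      · simpa [sub_eq_add_neg] using h4
    have hst : s * t = 1 ∨ s * t = -1 := by
      rcases hs with rfl | rfl <;> rcases ht with rfl | rfl <;> simp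
    have hcr : crossProduct (s • u) (t • v) = (s * t) • n := by
      rw [← huv, LinearMap.map_smul₂, LinearMap.map_smul, smul_smul]
    rcases hst with hst | hst
    · refine ⟨p, s • u, t • v, hp, ?_, h0, hsu, htv, hc⟩
      rw [hcr, hst, one_smul]
    · refine ⟨p, t • v, s • u, hp, ?_, h0, htv, hsu, ?_⟩
      · rw [← cross_anticomm, hcr, hst]; simp
      · rw [add_right_comm]; exact hc
  obtain ⟨i1, k1⟩ := key 1 1 (Or.inl rfl) (Or.inl rfl)
  obtain ⟨i2, k2⟩ := key 1 (-1) (Or.inl rfl) (Or.inr rfl)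
  obtain ⟨i3, k3⟩ := key (-1) 1 (Or.inr rfl) (Or.inl rfl)
  obtain ⟨i4, k4⟩ := key (-1) (-1) (Or.inr rfl) (Or.inr rfl)
  have e0 := fun i => h0.2 i
  have e1 := fun i => h1.2 i
  have e2 := fun i => h2.2 i
  have e3 := fun i => h3.2 i
  have e4 := fun i => h4.2 i
  change ∀ i, 0 ≤ xc V _ i at e0 e1 e2 e3 e4
  simp only [xc_add, xc_sub] at e1 e2 e3 e4
  have pig : ∀ i1 i2 i3 i4 : Fin 3,
      i1 = i2 ∨ i1 = i3 ∨ i1 = i4 ∨ i2 = i3 ∨ i2 = i4 ∨ i3 = i4 := by decide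
  have pig := pig i1 i2 i3 i4
  rcases pig with rfl | rfl | rfl | rfl | rfl | rfl
  · have := e1 i1; omega
  · have := e2 i1; omega
  · have := e0 i1; omega
  · have := e0 i2; omega
  · have := e4 i2; omega
  · have := e3 i3; omega

/-- a unit parallelogram at level `h` forces `h = 1` -/
lemma level {V : IM} {n : Fin 3 → ℤ} {h : ℤ} (hh : 1 ≤ h) (hn : prim n)
    (hlev : ∀ z ∈ Lp V, h ≤ n ⬝ᵥ z) {p u v : Fin 3 → ℤ}
    (hp : n ⬝ᵥ p = h) (huv : crossProduct u v = n) (h0 : p ∈ Lp V) (h1 : p + u ∈ Lp V)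
    (h2 : p + v ∈ Lp V) (h3 : p + u + v ∈ Lp V) : h = 1 := by
  by_contra hne
  have hh2 : 2 ≤ h := by omega
  obtain ⟨γ, hγ⟩ := SAIL.A.BASx.row hn
  obtain ⟨w, hw⟩ : ∃ w : Fin 3 → ℤ, n ⬝ᵥ w = 1 := by
    refine ⟨fun i => γ.1 i 2, ?_⟩
    have := congrFun hγ 2
    simpa [Matrix.vecMul, dotProduct] using this
  have hu : n ⬝ᵥ u = 0 := by rw [← huv]; simp [crossProduct, dotProduct, Fin.sum_univ_three]; ring
  have hv : n ⬝ᵥ v = 0 := by rw [← huv]; simp [crossProduct, dotProduct, Fin.sum_univ_three]; ring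
  -- coordinates of p
  obtain ⟨a1, ha1⟩ : ∃ a1 : ℤ, a1 = crossProduct v w ⬝ᵥ p := ⟨_, rfl⟩
  obtain ⟨a2, ha2⟩ : ∃ a2 : ℤ, a2 = crossProduct w u ⬝ᵥ p := ⟨_, rfl⟩
  have hpw : p = a1 • u + a2 • v + h • w := by
    have hdet : crossProduct u v ⬝ᵥ w = 1 := by rw [huv, hw]
    have hh' : crossProduct u v ⬝ᵥ p = h := by rw [huv, hp]
    have gen : ∀ i, (crossProduct u v ⬝ᵥ w) * p i = (crossProduct v w ⬝ᵥ p) * u i +
        (crossProduct w u ⬝ᵥ p) * v i + (crossProduct u v ⬝ᵥ p) * w i := by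
      intro i
      fin_cases i <;>
        simp [crossProduct, dotProduct, Fin.sum_univ_three] <;> ring
    funext i
    have := gen i
    rw [hdet, hh', ← ha1, ← ha2, one_mul] at this
    rw [this]
    simp [Pi.add_apply, Pi.smul_apply, smul_eq_mul]
  have d1 := Int.emod_add_mul_ediv a1 h
  have d2 := Int.emod_add_mul_ediv a2 h
  have m1 := Int.emod_nonneg a1 (show h ≠ 0 by omega)
  have m2 := Int.emod_nonneg a2 (show h ≠ 0 by omega)
  have l1 := Int.emod_lt_of_pos a1 (show 0 < h by omega)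
  have l2 := Int.emod_lt_of_pos a2 (show 0 < h by omega)
  obtain ⟨k1, hk1⟩ : ∃ k, k = a1 / h := ⟨_, rfl⟩
  obtain ⟨k2, hk2⟩ : ∃ k, k = a2 / h := ⟨_, rfl⟩
  obtain ⟨r1, hr1⟩ : ∃ k, k = a1 % h := ⟨_, rfl⟩
  obtain ⟨r2, hr2⟩ : ∃ k, k = a2 % h := ⟨_, rfl⟩
  rw [← hk1, ← hr1] at d1
  rw [← hk2, ← hr2] at d2
  rw [← hr1] at m1 l1
  rw [← hr2] at m2 l2
  obtain ⟨z, hz⟩ : ∃ z : Fin 3 → ℤ, z = p - k1 • u - k2 • v - w := ⟨_, rfl⟩
  have hnz : n ⬝ᵥ z = h - 1 := by
    rw [hz, dotProduct_sub, dotProduct_sub, dotProduct_sub, dotProduct_smul, dotProduct_smul, hu,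
      hv, hw, hp]
    simp
  have hx : ∀ i, h * xc V z i = (h - 1) * xc V p i + r1 * xc V u i + r2 * xc V v i := by
    intro i
    have e1 : xc V z i = xc V p i - k1 * xc V u i - k2 * xc V v i - xc V w i := by
      rw [hz, xc_sub, xc_sub, xc_sub, xc_smul, xc_smul]
    have e2 : xc V p i = a1 * xc V u i + a2 * xc V v i + h * xc V w i := by
      conv_lhs => rw [hpw]
      rw [xc_add, xc_add, xc_smul, xc_smul, xc_smul]
    rw [e1]
    linear_combination (1 : ℤ) * e2 - xc V u i * d1 - xc V v i * d2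
  have e0 := fun i => h0.2 i
  have e1 := fun i => h1.2 i
  have e2 := fun i => h2.2 i
  have e3 := fun i => h3.2 i
  change ∀ i, 0 ≤ xc V _ i at e0 e1 e2 e3
  simp only [xc_add] at e1 e2 e3
  have hzL : z ∈ Lp V := by
    refine ⟨ne_zero_of_dot (n := n) (by rw [hnz]; omega), fun i => ?_⟩
    change 0 ≤ xc V z i
    have hx := hx i
    have f0 := e0 i
    have f1 := e1 i
    have f2 := e2 i
    have f3 := e3 i
    have : 0 ≤ h * xc V z i := by
      rw [hx]
      rcases le_total r1 r2 with hr | hr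
      · have g0 := mul_nonneg (show 0 ≤ h - 1 - r2 by omega) f0
        have g1 := mul_nonneg (show 0 ≤ r2 - r1 by omega) f2
        have g2 := mul_nonneg m1 f3
        have : (h - 1) * xc V p i + r1 * xc V u i + r2 * xc V v i =
          (h - 1 - r2) * xc V p i + (r2 - r1) * (xc V p i + xc V v i) +
            r1 * (xc V p i + xc V u i + xc V v i) := by ring
        rw [this]
        linarith
      · have g0 := mul_nonneg (show 0 ≤ h - 1 - r1 by omega) f0
        have g1 := mul_nonneg (show 0 ≤ r1 - r2 by omega) f1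
        have g2 := mul_nonneg m2 f3
        have : (h - 1) * xc V p i + r1 * xc V u i + r2 * xc V v i =
          (h - 1 - r1) * xc V p i + (r1 - r2) * (xc V p i + xc V u i) +
            r2 * (xc V p i + xc V u i + xc V v i) := by ring
        rw [this]
        linarith
    exact nonneg_of_mul_nonneg_right this (by omega)
  have := hlev z hzL
  omega

end SAIL.F.LEVx

namespace SAIL.F

open Matrix MeasureTheory Filter SAIL SAIL.A SAIL.F.LEVx

theorem p_LEV : tLEV := by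
  intro V _ n h hn hh hpos hlev p u v hp huv h0 h1 h2 h3
  obtain ⟨p, u, v, hp, huv, h0, h1, h2, h3⟩ : ∃ p' u' v' : Fin 3 → ℤ, n ⬝ᵥ p' = h ∧
      crossProduct u' v' = n ∧ p' ∈ Lp V ∧ p' + u' ∈ Lp V ∧
      p' + v' ∈ Lp V ∧ p' + u' + v' ∈ Lp V := by
    rcases h3 with h3 | ⟨h3, h4⟩
    · exact ⟨p, u, v, hp, huv, h0, h1, h2, h3⟩
    · exact corner hh hp huv h0 h1 h2 h3 h4
  have hh1 := level hh hn hlev hp huv h0 h1 h2 h3
  subst hh1
  refine ⟨rfl, hpos, p, u, v, ?_, hp, ?_, ?_, h0, h1, h2, h3⟩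
  · rw [← hp, ← huv, Matrix.det_fin_three]
    simp [crossProduct, dotProduct, Fin.sum_univ_three]
    ring
  · rw [← huv]; simp [crossProduct, dotProduct, Fin.sum_univ_three]; ring
  · rw [← huv]; simp [crossProduct, dotProduct, Fin.sum_univ_three]; ring

end SAIL.F
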