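import Pool.Agent.SAIL.FAC.Targets

/-!
SAIL, part A: lower bound for triangles, assembly (helper82)
-/

namespace SAIL.F

open Matrix MeasureTheory Filter SAIL SAIL.A

namespace LOTx

/-- choice of real numbers below the volumes -/
theorem choose_c {N : ℕ} (a : Fin N → ENNReal) (r : ℝ) (hr : 0 < r)
    (h : ENNReal.ofReal r < ∑ i, a i) :
    ∃ c : Fin N → ℝ, (∀ i, 0 ≤ c i) ∧ (∀ i, c i = 0 ∨ ENNReal.ofReal (c i) < a i) ∧
      r ≤ ∑ i, c i := by
  classical
  set b : Fin N → ENNReal := fun i => min (a i) (ENNReal.ofReal (r + 1)) with hb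
  have hbt : ∀ i, b i ≠ ⊤ := fun i =>
    ne_top_of_le_ne_top ENNReal.ofReal_ne_top (min_le_right _ _)
  have hba : ∀ i, b i ≤ a i := fun i => min_le_left _ _
  have hs : ENNReal.ofReal r < ∑ i, b i := by
    by_cases hc : ∃ i, ENNReal.ofReal (r + 1) ≤ a i
    · obtain ⟨i, hi⟩ := hc
      have h1 : b i = ENNReal.ofReal (r + 1) := min_eq_right hi
      have h2 : b i ≤ ∑ j, b j :=
        Finset.single_le_sum (f := b) (fun _ _ => bot_le) (Finset.mem_univ i)
      calc ENNReal.ofReal r < ENNReal.ofReal (r + 1) := by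
            rw [ENNReal.ofReal_lt_ofReal_iff (by linarith)]; linarith
        _ = b i := h1.symm
        _ ≤ ∑ j, b j := h2
    · push Not at hc
      have h1 : ∀ i, b i = a i := fun i => min_eq_left (hc i).le
      have h2 : ∑ i, b i = ∑ i, a i := Finset.sum_congr rfl fun i _ => h1 i
      rw [h2]; exact h
  have hst : (∑ i, b i) ≠ ⊤ := by
    rw [ne_eq, ENNReal.sum_eq_top]
    push Not
    exact fun i _ => hbt i
  set t : Fin N → ℝ := fun i => (b i).toReal with ht
  have hsum : (∑ i, b i).toReal = ∑ i, t i := ENNReal.toReal_sum fun i _ => hbt i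
  have hrt : r < ∑ i, t i := by
    rw [← hsum]
    have := (ENNReal.toReal_lt_toReal ENNReal.ofReal_ne_top hst).2 hs
    rwa [ENNReal.toReal_ofReal hr.le] at this
  have hN : (0 : ℝ) < N := by
    rcases Nat.eq_zero_or_pos N with h0 | h0
    · subst h0
      simp at hrt
      linarith
    · exact_mod_cast h0
  set η : ℝ := (∑ i, t i - r) / N with hη
  have hη0 : 0 < η := div_pos (by linarith) hN
  refine ⟨fun i => max 0 (t i - η), fun i => le_max_left _ _, fun i => ?_, ?_⟩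
  · rcases le_or_gt (t i) η with h1 | h1
    · left
      exact max_eq_left (by linarith)
    · right
      have h2 : max 0 (t i - η) = t i - η := max_eq_right (by linarith)
      show ENNReal.ofReal (max 0 (t i - η)) < a i
      rw [h2]
      calc ENNReal.ofReal (t i - η) < ENNReal.ofReal (t i) := by
            rw [ENNReal.ofReal_lt_ofReal_iff (by linarith)]; linarith
        _ = b i := ENNReal.ofReal_toReal (hbt i)
        _ ≤ a i := hba i
  · calc r = ∑ i, (t i - η) := by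
          rw [Finset.sum_sub_distrib]
          simp only [Finset.sum_const, Finset.card_univ, Fintype.card_fin, nsmul_eq_mul]
          rw [hη]; field_simp; ring
      _ ≤ ∑ i, max 0 (t i - η) := Finset.sum_le_sum fun i _ => le_max_right _ _

theorem det_toR (V : IM) : (toR V).det = (V.det : ℝ) := by
  have h : toR V = (Int.castRingHom ℝ).mapMatrix V := by ext i j; rfl
  rw [h, ← RingHom.map_det]; rfl

theorem gmat_Om (V : IM) (hV : 0 < V.det) (y : ℝ × ℝ) : gmat V y ∈ Om := by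
  show 0 < (gmat V y).det
  unfold gmat
  rw [Matrix.det_mul, Matrix.det_diagonal, Matrix.det_nonsing_inv, det_toR]
  refine mul_pos (Finset.prod_pos fun i _ => Real.exp_pos _) ?_
  rw [Ring.inverse_eq_inv']
  have : (0 : ℝ) < V.det := by exact_mod_cast hV
  positivity

theorem cont_gmat (V : IM) : Continuous (fun y : ℝ × ℝ => gmat V y) := by
  unfold gmat
  refine Continuous.matrix_mul (Continuous.matrix_diagonal ?_) continuous_const
  refine continuous_pi fun i => ?_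
  refine Real.continuous_exp.comp ?_
  fin_cases i
  · exact continuous_fst
  · exact continuous_snd
  · show Continuous (fun y : ℝ × ℝ => Real.log V.det - y.1 - y.2)
    fun_prop

theorem int_PS (hPS : SAIL.T_PS) (V : IM) (hV : 0 < V.det) (hf : volume (Hex V) < ⊤)
    (R : ℝ) (ψ : M3 → ℝ) (hψ : CSF R ψ) :
    IntegrableOn (fun y => PS ψ (gmat V y)) (Hex V) volume := by
  have hL := hPS R ψ hψ
  have hc : Continuous (fun y => PS ψ (gmat V y)) :=
    hL.cont.comp_continuous (cont_gmat V) fun y => gmat_Om V hV y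
  obtain ⟨B, hB⟩ := hL.bdd
  refine Measure.integrableOn_of_bounded (M := B) hf.ne hc.aestronglyMeasurable ?_
  exact Filter.Eventually.of_forall fun y => by
    rw [Real.norm_eq_abs]; exact hB _

theorem PS_nonneg (ψ : M3 → ℝ) (h : ∀ M, 0 ≤ ψ M) (M : M3) : 0 ≤ PS ψ M :=
  tsum_nonneg fun _ => h _

end LOTx

open LOTx

/-- the target `tLOT` -/
theorem p_LOT (hEQ : SAIL.A.tEQ) (hC8 : SAIL.A.tC8) (hT1 : tT1) (hT2 : tT2) (hAPM : tAPM)
    (hSC : tSC) (hFV : SAIL.T_FV) (hPS : SAIL.T_PS) : tLOT := by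
  classical
  intro s hs N E U xT hFam hne hxT hlt ε hε
  have hv : 0 < (volume s).toReal := ENNReal.toReal_pos (hFV s hs).2.ne' (hFV s hs).1.ne
  set v : ℝ := (volume s).toReal with hvdef
  obtain ⟨c, hc0, hc1, hc2⟩ := choose_c (fun i => vU (U i)) (3 * xT) (by linarith) hlt
  -- the functions
  have hex : ∀ i, ∃ (R : ℝ) (ψ : M3 → ℝ), CSF R ψ ∧ (∀ M, 0 ≤ ψ M ∧ ψ M ≤ 1) ∧
      (∀ M, ψ M ≠ 0 → M * toR (E i) ∈ U i ∧ WdT (M * toR (E i))) ∧ c i ≤ ∫ M in Co, ψ M := by
    intro i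
    rcases hc1 i with h0 | h1
    · refine ⟨0, fun _ => 0, ⟨continuousOn_const, fun _ _ _ => rfl, fun M h => absurd rfl h⟩,
        fun M => ⟨le_rfl, zero_le_one⟩, fun M h => absurd rfl h, ?_⟩
      rw [h0]; simp
    · obtain ⟨h2, h3, h4, h5⟩ := hSC (E i) (U i) (hFam i)
      obtain ⟨R, ψ, h6, h7, h8, h9⟩ := hAPM _ h3 h4 h5 (c i) (hc0 i) (by rw [h2]; exact h1)
      exact ⟨R, ψ, h6, h7, h8, h9⟩
  choose R ψ hψ h01 hsup hint using hex
  -- equidistribution
  have hev : ∀ᶠ m : ℕ in atTop, ∀ i, -(3 * ε / (N + 1)) <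
      (∑ P ∈ PPf m, ∫ y in Hex P.2,
        (PS (ψ i) (gmat P.2 y) - (∫ M in Co, ψ i M) / v)) / ((m : ℝ) ^ 6 * Real.log m ^ 4) := by
    rw [eventually_all]
    intro i
    refine (hEQ s hs (R i) (ψ i) (hψ i)).eventually_const_lt ?_
    have : 0 < 3 * ε / (N + 1) := by positivity
    linarith
  obtain ⟨m₁, hm₁⟩ := eventually_atTop.1 hev
  obtain ⟨C, hC, hC8'⟩ := hC8
  refine ⟨max m₁ 2, fun m hm => ?_⟩
  have hm1 : m₁ ≤ m := by
    have : (m₁ : ℝ) ≤ m := le_trans (le_max_left _ _) hm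
    exact_mod_cast this
  have hm2 : 2 ≤ m := by
    have : (2 : ℝ) ≤ m := le_trans (le_max_right _ _) hm
    exact_mod_cast this
  have hD := hm₁ m hm1
  set W : ℝ := (m : ℝ) ^ 6 * Real.log m ^ 4 with hW
  have hWpos : 0 < W := by
    have h2 : (2 : ℝ) ≤ m := by exact_mod_cast hm2
    have h3 : 0 < Real.log m := Real.log_pos (by linarith)
    positivity
  have hdet : ∀ P ∈ PPf m, 0 < P.2.det := by
    intro P hP
    unfold PPf at hP
    rw [Finset.mem_filter] at hP
    obtain ⟨-, -, l, hl⟩ := hP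
    exact hl.2.2.2.2
  have hfin : ∀ P ∈ PPf m, volume (Hex P.2) < ⊤ := fun P hP =>
    lt_of_le_of_lt (hC8' m hm2 P hP) ENNReal.ofReal_lt_top
  -- the integral over one hexagon
  have key : ∀ P ∈ PPf m, ∑ i, ∫ y in Hex P.2, PS (ψ i) (gmat P.2 y) ≤
      3 * ((fc 3 P.2).ncard : ℝ) := by
    intro P hP
    obtain ⟨hf, hle⟩ := hT1 N E U hFam hne P.2 (hdet P hP)
    have h1 : ∀ i, ∫ y in Hex P.2, PS (ψ i) (gmat P.2 y) ≤
        ({γ : GZ | (toR P.2)⁻¹ * toR (γ.1 * E i) ∈ U i}.ncard : ℝ) := by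
      intro i
      have h2 := hT2 (E i) (U i) (hFam i) (R i) (ψ i) (hψ i) (h01 i) (hsup i) P.2 (hdet P hP)
        (hf i)
      rw [integral_eq_lintegral_of_nonneg_ae
        (Filter.Eventually.of_forall fun y => PS_nonneg _ (fun M => (h01 i M).1) _)
        (int_PS hPS P.2 (hdet P hP) (hfin P hP) (R i) (ψ i) (hψ i)).aestronglyMeasurable]
      have h3 := ENNReal.toReal_mono (ENNReal.natCast_ne_top _) h2
      simpa using h3
    calc ∑ i, ∫ y in Hex P.2, PS (ψ i) (gmat P.2 y) ≤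
        ∑ i, ({γ : GZ | (toR P.2)⁻¹ * toR (γ.1 * E i) ∈ U i}.ncard : ℝ) :=
          Finset.sum_le_sum fun i _ => h1 i
      _ = ((∑ i, {γ : GZ | (toR P.2)⁻¹ * toR (γ.1 * E i) ∈ U i}.ncard : ℕ) : ℝ) := by
          push_cast; rfl
      _ ≤ ((3 * (fc 3 P.2).ncard : ℕ) : ℝ) := by exact_mod_cast hle
      _ = 3 * ((fc 3 P.2).ncard : ℝ) := by push_cast; rfl
  -- splitting
  set H : ℝ := ∑ P ∈ PPf m, (volume (Hex P.2)).toReal with hH
  have hH0 : 0 ≤ H := Finset.sum_nonneg fun P _ => ENNReal.toReal_nonneg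
  have split : ∀ i, ∑ P ∈ PPf m, ∫ y in Hex P.2,
      (PS (ψ i) (gmat P.2 y) - (∫ M in Co, ψ i M) / v) =
      (∑ P ∈ PPf m, ∫ y in Hex P.2, PS (ψ i) (gmat P.2 y)) - (∫ M in Co, ψ i M) / v * H := by
    intro i
    rw [hH, Finset.mul_sum, ← Finset.sum_sub_distrib]
    refine Finset.sum_congr rfl fun P hP => ?_
    rw [integral_sub (int_PS hPS P.2 (hdet P hP) (hfin P hP) (R i) (ψ i) (hψ i))
      (integrableOn_const (hfin P hP).ne)]
    congr 1
    rw [setIntegral_const, smul_eq_mul, mul_comm]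
    rfl
  have low : ∀ i, -(3 * ε / (N + 1)) * W ≤
      (∑ P ∈ PPf m, ∫ y in Hex P.2, PS (ψ i) (gmat P.2 y)) - (∫ M in Co, ψ i M) / v * H := by
    intro i
    have h1 := hD i
    rw [lt_div_iff₀ hWpos, split i] at h1
    exact h1.le
  have sumlow := Finset.sum_le_sum fun (i : Fin N) (_ : i ∈ Finset.univ) => low i
  rw [Finset.sum_sub_distrib] at sumlow
  have e1 : ∑ _i : Fin N, -(3 * ε / (N + 1)) * W = -(3 * ε / (N + 1)) * W * N := by
    simp [Finset.sum_const, Finset.card_univ]; ring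
  have e2 : ∑ i : Fin N, ∑ P ∈ PPf m, ∫ y in Hex P.2, PS (ψ i) (gmat P.2 y) ≤
      3 * ((∑ P ∈ PPf m, (fc 3 P.2).ncard : ℕ) : ℝ) := by
    rw [Finset.sum_comm]
    calc ∑ P ∈ PPf m, ∑ i : Fin N, ∫ y in Hex P.2, PS (ψ i) (gmat P.2 y) ≤
        ∑ P ∈ PPf m, 3 * ((fc 3 P.2).ncard : ℝ) := Finset.sum_le_sum key
      _ = 3 * ((∑ P ∈ PPf m, (fc 3 P.2).ncard : ℕ) : ℝ) := by
          rw [← Finset.mul_sum]; push_cast; rfl
  have e3 : 3 * xT / v * H ≤ ∑ i : Fin N, (∫ M in Co, ψ i M) / v * H := by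
    rw [← Finset.sum_mul, ← Finset.sum_div]
    refine mul_le_mul_of_nonneg_right ?_ hH0
    refine div_le_div_of_nonneg_right ?_ hv.le
    exact le_trans hc2 (Finset.sum_le_sum fun i _ => hint i)
  have e4 : -(3 * ε) * W ≤ -(3 * ε / (N + 1)) * W * N := by
    have h1 : (N : ℝ) / (N + 1) ≤ 1 := by
      rw [div_le_one (by positivity)]; linarith
    have h2 : -(3 * ε / (N + 1)) * W * N = -(3 * ε) * W * ((N : ℝ) / (N + 1)) := by
      field_simp
    rw [h2]
    have h3 : 0 < 3 * ε * W := by positivity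
    nlinarith
  rw [e1] at sumlow
  have e5 : xT / v * H = (3 * xT / v * H) / 3 := by ring
  have e6 : ε * (m : ℝ) ^ 6 * Real.log m ^ 4 = ε * W := by rw [hW]; ring
  rw [e5, e6]
  linarith

end SAIL.F
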