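import Pool.Agent.SAIL.FAC.Targets2
import Pool.Agent.SAIL.FAC.P_LOT

/-!
SAIL, part A: lower bound for triangles, corner families (from P_LOT)
-/

namespace SAIL.F

open Matrix MeasureTheory Filter SAIL SAIL.A


open LOTx

/-- the target `tLOTc` -/
theorem p_LOTc (hEQ : SAIL.A.tEQ) (hC8 : SAIL.A.tC8) (hT1 : tT1c) (hT2 : tT2) (hAPM : tAPM)
    (hSC : tSC) (hFV : SAIL.T_FV) (hPS : SAIL.T_PS) : tLOTc := by
  classical
  intro s hs N E U xT hFam hCor hne hxT hlt ε hε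
  have hv : 0 < (volume s).toReal := ENNReal.toReal_pos (hFV s hs).2.ne' (hFV s hs).1.ne
  set v : ℝ := (volume s).toReal with hvdef
  obtain ⟨c, hc0, hc1, hc2⟩ := choose_c (fun i => vU (U i)) xT hxT hlt
  -- the functions
  have hex : ∀ i, ∃ (R : ℝ) (ψ : M3 → ℝ), CSF R ψ ∧ (∀ M, 0 ≤ ψ M ∧ ψ M ≤ 1) ∧
      (∀ M, ψ M ≠ 0 → M * toR (E i) ∈ U i ∧ WdT (M * toR (E i))) ∧ c i ≤ ∫ M in Co, ψ M := by
    intro i
    rcases hc1 i with h0 | h1
    · refine ⟨0, fun _ => 0, ⟨continuousOn_const, fun _ _ _ => rfl, fun M h => absurd rfl h⟩,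
        fun M => ⟨le_rfl, zero_le_one⟩, fun M h => absurd rfl h, ?_⟩
      rw [h0]; simp
    · obtain ⟨h2, h3, h4, h5⟩ := hSC (E i) (U i) (hFam i)
      obtain ⟨R, ψ, h6, h7, h8, h9⟩ := hAPM _ h3 h4 h5 (c i) (hc0 i) (by rw [h2]; exact h1)
      exact ⟨R, ψ, h6, h7, h8, h9⟩
  choose R ψ hψ h01 hsup hint using hex
  -- equidistribution
  have hev : ∀ᶠ m : ℕ in atTop, ∀ i, -(ε / (N + 1)) <
      (∑ P ∈ PPf m, ∫ y in Hex P.2,
        (PS (ψ i) (gmat P.2 y) - (∫ M in Co, ψ i M) / v)) / ((m : ℝ) ^ 6 * Real.log m ^ 4) := by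
    rw [eventually_all]
    intro i
    refine (hEQ s hs (R i) (ψ i) (hψ i)).eventually_const_lt ?_
    have : 0 < ε / (N + 1) := by positivity
    linarith
  obtain ⟨m₁, hm₁⟩ := eventually_atTop.1 hev
  obtain ⟨C, hC, hC8'⟩ := hC8
  refine ⟨max m₁ 2, fun m hm => ?_⟩
  have hm1 : m₁ ≤ m := by
    have : (m₁ : ℝ) ≤ m := le_trans (le_max_left _ _) hm
    exact_mod_cast this
  have hm2 : 2 ≤ m := by
    have : (2 : ℝ) ≤ m := le_trans (le_max_right _ _) hm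
    exact_mod_cast this
  have hD := hm₁ m hm1
  set W : ℝ := (m : ℝ) ^ 6 * Real.log m ^ 4 with hW
  have hWpos : 0 < W := by
    have h2 : (2 : ℝ) ≤ m := by exact_mod_cast hm2
    have h3 : 0 < Real.log m := Real.log_pos (by linarith)
    positivity
  have hdet : ∀ P ∈ PPf m, 0 < P.2.det := by
    intro P hP
    unfold PPf at hP
    rw [Finset.mem_filter] at hP
    obtain ⟨-, -, l, hl⟩ := hP
    exact hl.2.2.2.2
  have hfin : ∀ P ∈ PPf m, volume (Hex P.2) < ⊤ := fun P hP =>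
    lt_of_le_of_lt (hC8' m hm2 P hP) ENNReal.ofReal_lt_top
  -- the integral over one hexagon
  have key : ∀ P ∈ PPf m, ∑ i, ∫ y in Hex P.2, PS (ψ i) (gmat P.2 y) ≤
      ((fc 3 P.2).ncard : ℝ) := by
    intro P hP
    obtain ⟨hf, hle⟩ := hT1 N E U hFam hCor hne P.2 (hdet P hP)
    have h1 : ∀ i, ∫ y in Hex P.2, PS (ψ i) (gmat P.2 y) ≤
        ({γ : GZ | (toR P.2)⁻¹ * toR (γ.1 * E i) ∈ U i}.ncard : ℝ) := by
      intro i
      have h2 := hT2 (E i) (U i) (hFam i) (R i) (ψ i) (hψ i) (h01 i) (hsup i) P.2 (hdet P hP)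
        (hf i)
      rw [integral_eq_lintegral_of_nonneg_ae
        (Filter.Eventually.of_forall fun y => PS_nonneg _ (fun M => (h01 i M).1) _)
        (int_PS hPS P.2 (hdet P hP) (hfin P hP) (R i) (ψ i) (hψ i)).aestronglyMeasurable]
      have h3 := ENNReal.toReal_mono (ENNReal.natCast_ne_top _) h2
      simpa using h3
    calc ∑ i, ∫ y in Hex P.2, PS (ψ i) (gmat P.2 y) ≤
        ∑ i, ({γ : GZ | (toR P.2)⁻¹ * toR (γ.1 * E i) ∈ U i}.ncard : ℝ) :=
          Finset.sum_le_sum fun i _ => h1 i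
      _ = ((∑ i, {γ : GZ | (toR P.2)⁻¹ * toR (γ.1 * E i) ∈ U i}.ncard : ℕ) : ℝ) := by
          push_cast; rfl
      _ ≤ (((fc 3 P.2).ncard : ℕ) : ℝ) := by exact_mod_cast hle
  -- splitting
  set H : ℝ := ∑ P ∈ PPf m, (volume (Hex P.2)).toReal with hH
  have hH0 : 0 ≤ H := Finset.sum_nonneg fun P _ => ENNReal.toReal_nonneg
  have split : ∀ i, ∑ P ∈ PPf m, ∫ y in Hex P.2,
      (PS (ψ i) (gmat P.2 y) - (∫ M in Co, ψ i M) / v) =
      (∑ P ∈ PPf m, ∫ y in Hex P.2, PS (ψ i) (gmat P.2 y)) - (∫ M in Co, ψ i M) / v * H := by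
    intro i
    rw [hH, Finset.mul_sum, ← Finset.sum_sub_distrib]
    refine Finset.sum_congr rfl fun P hP => ?_
    rw [integral_sub (int_PS hPS P.2 (hdet P hP) (hfin P hP) (R i) (ψ i) (hψ i))
      (integrableOn_const (hfin P hP).ne)]
    congr 1
    rw [setIntegral_const, smul_eq_mul, mul_comm]
    rfl
  have low : ∀ i, -(ε / (N + 1)) * W ≤
      (∑ P ∈ PPf m, ∫ y in Hex P.2, PS (ψ i) (gmat P.2 y)) - (∫ M in Co, ψ i M) / v * H := by
    intro i
    have h1 := hD i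
    rw [lt_div_iff₀ hWpos, split i] at h1
    exact h1.le
  have sumlow := Finset.sum_le_sum fun (i : Fin N) (_ : i ∈ Finset.univ) => low i
  rw [Finset.sum_sub_distrib] at sumlow
  have e1 : ∑ _i : Fin N, -(ε / (N + 1)) * W = -(ε / (N + 1)) * W * N := by
    simp [Finset.sum_const, Finset.card_univ]; ring
  have e2 : ∑ i : Fin N, ∑ P ∈ PPf m, ∫ y in Hex P.2, PS (ψ i) (gmat P.2 y) ≤
      ((∑ P ∈ PPf m, (fc 3 P.2).ncard : ℕ) : ℝ) := by
    rw [Finset.sum_comm]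
    calc ∑ P ∈ PPf m, ∑ i : Fin N, ∫ y in Hex P.2, PS (ψ i) (gmat P.2 y) ≤
        ∑ P ∈ PPf m, ((fc 3 P.2).ncard : ℝ) := Finset.sum_le_sum key
      _ = ((∑ P ∈ PPf m, (fc 3 P.2).ncard : ℕ) : ℝ) := by
          push_cast; rfl
  have e3 : xT / v * H ≤ ∑ i : Fin N, (∫ M in Co, ψ i M) / v * H := by
    rw [← Finset.sum_mul, ← Finset.sum_div]
    refine mul_le_mul_of_nonneg_right ?_ hH0
    refine div_le_div_of_nonneg_right ?_ hv.le
    exact le_trans hc2 (Finset.sum_le_sum fun i _ => hint i)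
  have e4 : -ε * W ≤ -(ε / (N + 1)) * W * N := by
    have h1 : (N : ℝ) / (N + 1) ≤ 1 := by
      rw [div_le_one (by positivity)]; linarith
    have h2 : -(ε / (N + 1)) * W * N = -ε * W * ((N : ℝ) / (N + 1)) := by
      field_simp
    rw [h2]
    have h3 : 0 < ε * W := by positivity
    nlinarith
  rw [e1] at sumlow
  have e6 : ε * (m : ℝ) ^ 6 * Real.log m ^ 4 = ε * W := by rw [hW]; ring
  rw [e6]
  linarith

end SAIL.F
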