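import Pool.Agent.SAIL.FAC.Targets

/-!
SAIL, part F: sizes of covectors (NB).
-/

namespace SAIL.F

open Matrix SAIL SAIL.A

namespace NBx

/-- A nonnegative matrix with equal column sums. -/
theorem det_le (Y : IM) (D : ℤ) (hY : ∀ i j, 0 ≤ Y i j) (hs : ∀ j, ∑ i, Y i j = D) :
    Y.det ≤ D ^ 3 := by
  have h0 := hs 0
  have h1 := hs 1
  have h2 := hs 2
  rw [Fin.sum_univ_three] at h0 h1 h2
  have h : D ^ 3 = (Y 0 0 + Y 1 0 + Y 2 0) * (Y 0 1 + Y 1 1 + Y 2 1) *
      (Y 0 2 + Y 1 2 + Y 2 2) := by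
    rw [h0, h1, h2]; ring
  have key : ∀ i j k, 0 ≤ Y i 0 * Y j 1 * Y k 2 := fun i j k =>
    mul_nonneg (mul_nonneg (hY i 0) (hY j 1)) (hY k 2)
  rw [h, Matrix.det_fin_three]
  nlinarith [key 0 0 0, key 0 0 1, key 0 0 2, key 0 1 0, key 0 1 1, key 0 2 0, key 0 2 1,
    key 0 2 2, key 1 0 0, key 1 0 1, key 1 0 2, key 1 1 0, key 1 1 1, key 1 1 2, key 1 2 1,
    key 1 2 2, key 2 0 0, key 2 0 2, key 2 1 0, key 2 1 1, key 2 1 2, key 2 2 0, key 2 2 1,
    key 2 2 2]

theorem col_sum (V : IM) (n z : Fin 3 → ℤ) :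
    ∑ i, nv V n i * (V.adjugate *ᵥ z) i = V.det * (n ⬝ᵥ z) := by
  have h1 : (n ᵥ* V) ⬝ᵥ (V.adjugate *ᵥ z) = V.det * (n ⬝ᵥ z) := by
    rw [← Matrix.dotProduct_mulVec, Matrix.mulVec_mulVec, Matrix.mul_adjugate,
      Matrix.smul_mulVec, Matrix.one_mulVec, dotProduct_smul, smul_eq_mul]
  exact h1

end NBx

theorem p_NB (hADJ : tADJ) : tNB := by
  intro V hV hp n hn
  obtain ⟨hn0, w, d, e, hdet, hw, hd, he, hz0, hz1, hz2, -⟩ := hn
  have hnv : ∀ i, 1 ≤ nv V n i := fun i => hn0 i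
  obtain ⟨hc, -, hadj, -⟩ := hADJ V hV hp
  -- the three integer points
  obtain ⟨z, hz⟩ : ∃ z : Fin 3 → Fin 3 → ℤ, z = ![w, w + d, w + e] := ⟨_, rfl⟩
  have hzL : ∀ j, z j ∈ Lp V := by
    intro j
    rw [hz]
    fin_cases j
    · exact hz0
    · exact hz1
    · exact hz2
  have hzn : ∀ j, n ⬝ᵥ z j = 1 := by
    intro j
    rw [hz]
    fin_cases j
    · exact hw
    · change n ⬝ᵥ (w + d) = 1
      rw [dotProduct_add, hw, hd, add_zero]
    · change n ⬝ᵥ (w + e) = 1
      rw [dotProduct_add, hw, he, add_zero]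
  obtain ⟨W, hW⟩ : ∃ W : IM, W = Matrix.of fun r j => z j r := ⟨_, rfl⟩
  have hWdet : W.det = 1 := by
    rw [← hdet, hW, hz]
    simp [Matrix.det_fin_three]
    ring
  have hX : ∀ i j, (V.adjugate * W) i j = (V.adjugate *ᵥ z j) i := by
    intro i j
    rw [hW]
    rfl
  have hX0 : ∀ i j, 0 ≤ (V.adjugate * W) i j := fun i j => by
    rw [hX]
    exact (hzL j).2 i
  have hXdet : (V.adjugate * W).det = V.det ^ 2 := by
    rw [Matrix.det_mul, Matrix.det_adjugate, hWdet, mul_one]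
    rfl
  have hsum : ∀ j, ∑ i, nv V n i * (V.adjugate * W) i j = V.det := by
    intro j
    rw [← mul_one V.det, ← hzn j, ← NBx.col_sum V n (z j)]
    exact Finset.sum_congr rfl fun i _ => by rw [hX]
  refine ⟨fun i => ⟨hnv i, ?_⟩, ?_⟩
  · -- a positive entry of the row `i`
    have hex : ∃ j, (V.adjugate * W) i j ≠ 0 := by
      by_contra hcon
      push Not at hcon
      have := Matrix.det_eq_zero_of_row_eq_zero (A := V.adjugate * W) i hcon
      rw [hXdet] at this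
      exact absurd this (pow_ne_zero 2 hV.ne')
    obtain ⟨j, hj⟩ := hex
    have hpos : 0 < (V.adjugate * W) i j := lt_of_le_of_ne (hX0 i j) (Ne.symm hj)
    have hdvd : (cn V i : ℤ) ∣ (V.adjugate * W) i j := by
      rw [Matrix.mul_apply]
      refine Finset.dvd_sum fun k _ => ?_
      rw [hadj i k]
      exact Dvd.dvd.mul_right (dvd_mul_right _ _) _
    have hle : (cn V i : ℤ) ≤ (V.adjugate * W) i j := Int.le_of_dvd hpos hdvd
    have h1 : nv V n i * (V.adjugate * W) i j ≤ V.det := by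
      rw [← hsum j]
      exact Finset.single_le_sum (f := fun i => nv V n i * (V.adjugate * W) i j)
        (fun k _ => mul_nonneg (by linarith [hnv k]) (hX0 k j)) (Finset.mem_univ i)
    calc (cn V i : ℤ) * nv V n i ≤ (V.adjugate * W) i j * nv V n i :=
          mul_le_mul_of_nonneg_right hle (by linarith [hnv i])
      _ = nv V n i * (V.adjugate * W) i j := mul_comm _ _
      _ ≤ V.det := h1
  · have h := NBx.det_le (Matrix.diagonal (nv V n) * (V.adjugate * W)) V.det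
      (fun i j => by
        rw [Matrix.diagonal_mul]
        exact mul_nonneg (by linarith [hnv i]) (hX0 i j))
      (fun j => by
        simp only [Matrix.diagonal_mul]
        exact hsum j)
    rw [Matrix.det_mul, Matrix.det_diagonal, hXdet, Fin.prod_univ_three] at h
    have h2 : nv V n 0 * nv V n 1 * nv V n 2 * V.det ^ 2 ≤ V.det * V.det ^ 2 := by
      linarith [h, (by ring : V.det ^ 3 = V.det * V.det ^ 2)]
    exact le_of_mul_le_mul_right h2 (pow_pos hV 2)

end SAIL.F
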