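import Pool.Agent.SAIL.FAC.Targets

/-!
SAIL, part F: covectors outside of the hexagon (NI).
-/

namespace SAIL.F

open Matrix SAIL SAIL.A

namespace NIx

theorem exp3_lt : Real.exp 3 < 21 := by
  have h1 : Real.exp 3 = Real.exp 1 ^ 3 := by
    rw [← Real.exp_nat_mul]
    norm_num
  have h2 : Real.exp 1 < 2.7182818286 := Real.exp_one_lt_d9
  have h3 : (0 : ℝ) ≤ Real.exp 1 := (Real.exp_pos 1).le
  rw [h1]
  calc Real.exp 1 ^ 3 ≤ 2.7182818286 ^ 3 := pow_le_pow_left₀ h3 h2.le 3
    _ < 21 := by norm_num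

theorem exp2_lt : Real.exp 2 < 8 := by
  have h1 : Real.exp 2 = Real.exp 1 ^ 2 := by
    rw [← Real.exp_nat_mul]
    norm_num
  have h2 : Real.exp 1 < 2.7182818286 := Real.exp_one_lt_d9
  have h3 : (0 : ℝ) ≤ Real.exp 1 := (Real.exp_pos 1).le
  rw [h1]
  calc Real.exp 1 ^ 2 ≤ 2.7182818286 ^ 2 := pow_le_pow_left₀ h3 h2.le 2
    _ < 8 := by norm_num

/-- the second alternative from logarithms -/
theorem prod_lt (a b c : ℤ) (ha : 1 ≤ a) (hb : 1 ≤ b) (hc : 0 < c)
    (h : Real.log a + Real.log b < Real.log c + 3) : a * b < 21 * c := by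
  have ha' : (0 : ℝ) < a := by exact_mod_cast lt_of_lt_of_le one_pos ha
  have hb' : (0 : ℝ) < b := by exact_mod_cast lt_of_lt_of_le one_pos hb
  have hc' : (0 : ℝ) < c := by exact_mod_cast hc
  have h1 : Real.log (a * b) < Real.log (c * Real.exp 3) := by
    rw [Real.log_mul ha'.ne' hb'.ne', Real.log_mul hc'.ne' (Real.exp_pos 3).ne', Real.log_exp]
    exact h
  have h2 : (a : ℝ) * b < c * Real.exp 3 :=
    (Real.log_lt_log_iff (mul_pos ha' hb') (mul_pos hc' (Real.exp_pos 3))).1 h1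
  have h3 : (a : ℝ) * b < 21 * c := by
    have := mul_lt_mul_of_pos_left exp3_lt hc'
    linarith
  exact_mod_cast h3

end NIx

theorem p_NI (hADJ : tADJ) (hNB : tNB) : tNI := by
  intro V hV hp n hn hIns
  obtain ⟨hNB1, hNB2⟩ := hNB V hV hp n hn
  obtain ⟨hc, -⟩ := hADJ V hV hp
  have hD : (0 : ℝ) < V.det := by exact_mod_cast hV
  have hnr : ∀ i, (1 : ℝ) ≤ nv V n i := fun i => by exact_mod_cast (hNB1 i).1
  have hn0 : ∀ i, (0 : ℝ) < nv V n i := fun i => lt_of_lt_of_le one_pos (hnr i)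
  have hcr : ∀ i, (0 : ℝ) < (cn V i : ℝ) := fun i => by exact_mod_cast hc i
  have hL : ∀ i, 0 ≤ Real.log (nv V n i) := fun i => Real.log_nonneg (hnr i)
  -- the contents
  have hCL : ∀ i, Real.log (cn V i) + Real.log (nv V n i) ≤ Real.log V.det := by
    intro i
    rw [← Real.log_mul (hcr i).ne' (hn0 i).ne']
    apply Real.log_le_log (mul_pos (hcr i) (hn0 i))
    exact_mod_cast (hNB1 i).2
  -- the logarithm of the covolume
  have hdn : Real.log (dn V n) = Real.log (nv V n 0) + Real.log (nv V n 1) +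
      Real.log (nv V n 2) - Real.log V.det := by
    rw [dn, Real.log_div (mul_pos (mul_pos (hn0 0) (hn0 1)) (hn0 2)).ne' hD.ne',
      Real.log_mul (mul_pos (hn0 0) (hn0 1)).ne' (hn0 2).ne',
      Real.log_mul (hn0 0).ne' (hn0 1).ne']
  have hd0 : Real.log (dn V n) ≤ 0 := by
    rw [hdn]
    have h1 : Real.log ((nv V n 0 : ℝ) * nv V n 1 * nv V n 2) ≤ Real.log V.det := by
      apply Real.log_le_log (mul_pos (mul_pos (hn0 0) (hn0 1)) (hn0 2))
      exact_mod_cast hNB2
    rw [Real.log_mul (mul_pos (hn0 0) (hn0 1)).ne' (hn0 2).ne',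
      Real.log_mul (hn0 0).ne' (hn0 1).ne'] at h1
    linarith
  unfold Ins at hIns
  push Not at hIns
  obtain ⟨s, t, hs0, hs1, ht0, ht1, hy⟩ := hIns
  -- positions
  obtain ⟨y, hyd⟩ : ∃ y, y = yn V n + (s, t) := ⟨_, rfl⟩
  rw [← hyd] at hy
  have hp0 : pos V y 0 = Real.log (nv V n 0) - Real.log (dn V n) / 3 + s := by
    rw [hyd]
    rfl
  have hp1 : pos V y 1 = Real.log (nv V n 1) - Real.log (dn V n) / 3 + t := by
    rw [hyd]
    rfl
  have hp2 : pos V y 2 = Real.log (nv V n 2) - Real.log (dn V n) / 3 - s - t := by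
    have h1 : pos V y 2 = Real.log V.det - (Real.log (nv V n 0) - Real.log (dn V n) / 3 + s) -
        (Real.log (nv V n 1) - Real.log (dn V n) / 3 + t) := by
      rw [hyd]
      rfl
    rw [h1]
    linarith [hdn]
  have hpu : ∀ i, pos V y i ≤ Real.log (nv V n i) - Real.log (dn V n) / 3 + 1 := by
    intro i
    fin_cases i
    · change pos V y 0 ≤ Real.log (nv V n 0) - Real.log (dn V n) / 3 + 1
      rw [hp0]; linarith
    · change pos V y 1 ≤ Real.log (nv V n 1) - Real.log (dn V n) / 3 + 1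
      rw [hp1]; linarith
    · change pos V y 2 ≤ Real.log (nv V n 2) - Real.log (dn V n) / 3 + 1
      rw [hp2]; linarith
  have hy' : ∃ i, pos V y i < 0 ∨ dpos V y i < 0 := by
    by_contra hcon
    push Not at hcon
    exact hy hcon
  obtain ⟨i, hi | hi⟩ := hy'
  · left
    refine ⟨2, ?_⟩
    have h2 : pos V y 2 < 0 := by
      fin_cases i
      · exfalso
        have h : pos V y 0 < 0 := hi
        rw [hp0] at h
        linarith [hL 0]
      · exfalso
        have h : pos V y 1 < 0 := hi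
        rw [hp1] at h
        linarith [hL 1]
      · exact hi
    rw [hp2] at h2
    have h3 : Real.log (nv V n 2) < 2 := by linarith
    have h4 : (nv V n 2 : ℝ) < Real.exp 2 := (Real.log_lt_iff_lt_exp (hn0 2)).1 h3
    have h5 : (nv V n 2 : ℝ) < 8 := lt_trans h4 NIx.exp2_lt
    exact_mod_cast h5
  · right
    refine ⟨i, NIx.prod_lt _ _ _ (hNB1 _).1 (hNB1 _).1 (by exact_mod_cast hc i) ?_⟩
    have h1 : Real.log V.det - Real.log (cn V i) - pos V y i < 0 := hi
    have h2 := hpu i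
    have h3 := hCL i
    have hsum : Real.log (nv V n i) + Real.log (nv V n (i + 1)) + Real.log (nv V n (i + 2)) =
        Real.log (nv V n 0) + Real.log (nv V n 1) + Real.log (nv V n 2) := by
      fin_cases i
      · rfl
      · change Real.log (nv V n 1) + Real.log (nv V n 2) + Real.log (nv V n 0) = _
        ring
      · change Real.log (nv V n 2) + Real.log (nv V n 0) + Real.log (nv V n 1) = _
        ring
    have h4 : Real.log ((cn V i : ℤ) : ℝ) = Real.log (cn V i) := by
      rw [Int.cast_natCast]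
    rw [h4]
    linarith [hdn]

end SAIL.F
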