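import Pool.Agent.SAIL.FAC.Targets

/-!
SAIL, part A, item OUT: only `O(log m)` covectors have a window which is not in the hexagon.
-/

namespace SAIL.F

open Matrix MeasureTheory Filter SAIL SAIL.A

namespace OUTx

/-- two positive numbers with the same binary logarithm -/
lemma log_lt {x y : ℤ} (hx : 1 ≤ x) (hy : 1 ≤ y)
    (h : Nat.log 2 x.toNat = Nat.log 2 y.toNat) : y < 2 * x := by
  have h1 : 2 ^ Nat.log 2 x.toNat ≤ x.toNat := Nat.pow_log_le_self 2 (by omega)
  have h2 : y.toNat < 2 ^ (Nat.log 2 y.toNat + 1) := Nat.lt_pow_succ_log_self (by norm_num) _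
  rw [← h, pow_succ] at h2
  omega

lemma log_mono {x : ℤ} {D : ℤ} (hx : x ≤ D) : Nat.log 2 x.toNat ≤ Nat.log 2 D.toNat :=
  Nat.log_mono_right (Int.toNat_le_toNat hx)

lemma pos_of (hNB : tNB) {V : IM} (hV : 0 < V.det) (hp : ∀ i, prim (vcol V i))
    {n : Fin 3 → ℤ} (hn : n ∈ Nn V) (i : Fin 3) : 1 ≤ nv V n i := ((hNB V hV hp n hn).1 i).1

lemma le_det (hA : tADJ) (hNB : tNB) {V : IM} (hV : 0 < V.det) (hp : ∀ i, prim (vcol V i))
    {n : Fin 3 → ℤ} (hn : n ∈ Nn V) (i : Fin 3) : nv V n i ≤ V.det := by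
  have h1 := (hNB V hV hp n hn).1 i
  have h2 := (hA V hV hp).1 i
  have h3 : (1 : ℤ) ≤ cn V i := by exact_mod_cast h2
  nlinarith

/-- the determinant of two coordinates is a multiple of the content -/
lemma cross_eq (hA : tADJ) {V : IM} (hV : 0 < V.det) (hp : ∀ i, prim (vcol V i))
    (n n' : Fin 3 → ℤ) (i : Fin 3) :
    nv V n (i + 1) * nv V n' (i + 2) - nv V n (i + 2) * nv V n' (i + 1) =
      cn V i * (crossProduct n n' ⬝ᵥ vst V i) := by
  have h := (hA V hV hp).2.2.2.2.2.2.1 i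
  have h1 : crossProduct n n' ⬝ᵥ crossProduct (vcol V (i + 1)) (vcol V (i + 2)) =
      nv V n (i + 1) * nv V n' (i + 2) - nv V n (i + 2) * nv V n' (i + 1) := by
    rw [cross_dot_cross]
    unfold nv
    ring
  rw [← h1, h, dotProduct_smul, smul_eq_mul]

/-- distinct covectors in a cell are not parallel -/
lemma not_par (hPK : tPK) (hNB : tNB) {V : IM} (hV : 0 < V.det) (hp : ∀ i, prim (vcol V i))
    {n n' : Fin 3 → ℤ} (hn : n ∈ Nn V) (hn' : n' ∈ Nn V) (hne : n ≠ n') (i : Fin 3)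
    (h1 : nv V n' (i + 1) < 2 * nv V n (i + 1)) (h2 : nv V n (i + 1) < 2 * nv V n' (i + 1)) :
    nv V n (i + 1) * nv V n' (i + 2) - nv V n (i + 2) * nv V n' (i + 1) ≠ 0 := by
  intro h0
  have hpos := fun t => pos_of hNB hV hp hn t
  have hpos' := fun t => pos_of hNB hV hp hn' t
  have hcas : ∀ t : Fin 3, t = i ∨ t = i + 1 ∨ t = i + 2 := by
    intro t
    fin_cases i <;> fin_cases t <;> simp
  have a1 : nv V n' (i + 2) < 2 * nv V n (i + 2) := by
    by_contra hc
    push Not at hc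
    nlinarith [hpos (i + 1), hpos (i + 2), hpos' (i + 1), hpos' (i + 2)]
  have a2 : nv V n (i + 2) < 2 * nv V n' (i + 2) := by
    by_contra hc
    push Not at hc
    nlinarith [hpos (i + 1), hpos (i + 2), hpos' (i + 1), hpos' (i + 2)]
  have b1 : 2 * nv V n i ≤ nv V n' i := by
    obtain ⟨t, ht⟩ := hPK V hV n hn n' hn' hne
    rcases hcas t with rfl | rfl | rfl
    · exact ht
    · omega
    · omega
  have b2 : 2 * nv V n' i ≤ nv V n i := by
    obtain ⟨t, ht⟩ := hPK V hV n' hn' n hn hne.symm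
    rcases hcas t with rfl | rfl | rfl
    · exact ht
    · omega
    · omega
  have := hpos i
  have := hpos' i
  omega

/-- the codes -/
abbrev Code : Type := (Fin 3 × ℕ × ℕ) ⊕ (Fin 3 × ℕ × ℕ)

/-- `c` is a code of `n` -/
def Rel (V : IM) (n : Fin 3 → ℤ) : Code → Prop
  | Sum.inl q => nv V n q.1 = q.2.1 ∧ Nat.log 2 (nv V n (q.1 + 1)).toNat = q.2.2
  | Sum.inr q => nv V n (q.1 + 1) * nv V n (q.1 + 2) < 21 * (cn V q.1 : ℤ) ∧
      Nat.log 2 (nv V n (q.1 + 1)).toNat = q.2.1 ∧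
      ⌊(nv V n (q.1 + 2) : ℝ) * 4 ^ (q.2.1 + 1) / (nv V n (q.1 + 1) * cn V q.1)⌋₊ = q.2.2

lemma rel_inj (hA : tADJ) (hPK : tPK) (hNB : tNB) {V : IM} (hV : 0 < V.det)
    (hp : ∀ i, prim (vcol V i)) {n n' : Fin 3 → ℤ} (hn : n ∈ Nn V) (hn' : n' ∈ Nn V) (c : Code)
    (h : Rel V n c) (h' : Rel V n' c) : n = n' := by
  by_contra hne
  have hpos := fun t => pos_of hNB hV hp hn t
  have hpos' := fun t => pos_of hNB hV hp hn' t
  rcases c with ⟨i, c, l⟩ | ⟨i, a, f⟩
  · obtain ⟨h1, h2⟩ := h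
    obtain ⟨h1', h2'⟩ := h'
    simp only at h1 h2 h1' h2'
    have e1 := log_lt (hpos (i + 1)) (hpos' (i + 1)) (h2.trans h2'.symm)
    have e2 := log_lt (hpos' (i + 1)) (hpos (i + 1)) (h2'.trans h2.symm)
    have hcas : ∀ t : Fin 3, t = i ∨ t = i + 1 ∨ t = i + 2 := by
      intro t
      fin_cases i <;> fin_cases t <;> simp
    have b1 : 2 * nv V n (i + 2) ≤ nv V n' (i + 2) := by
      obtain ⟨t, ht⟩ := hPK V hV n hn n' hn' hne
      rcases hcas t with rfl | rfl | rfl
      · have := hpos t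
        omega
      · omega
      · exact ht
    have b2 : 2 * nv V n' (i + 2) ≤ nv V n (i + 2) := by
      obtain ⟨t, ht⟩ := hPK V hV n' hn' n hn (Ne.symm hne)
      rcases hcas t with rfl | rfl | rfl
      · have := hpos t
        omega
      · omega
      · exact ht
    have := hpos (i + 2)
    have := hpos' (i + 2)
    omega
  · obtain ⟨h1, h2, h3⟩ := h
    obtain ⟨h1', h2', h3'⟩ := h'
    simp only at h1 h2 h3 h1' h2' h3'
    have e1 := log_lt (hpos (i + 1)) (hpos' (i + 1)) (h2.trans h2'.symm)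
    have e2 := log_lt (hpos' (i + 1)) (hpos (i + 1)) (h2'.trans h2.symm)
    have hx := not_par hPK hNB hV hp hn hn' hne i e1 e2
    have hdv := cross_eq hA hV hp n n' i
    have hcn : (1 : ℤ) ≤ cn V i := by
      have := (hA V hV hp).1 i
      exact_mod_cast this
    set D : ℤ := nv V n (i + 1) * nv V n' (i + 2) - nv V n (i + 2) * nv V n' (i + 1) with hD
    have hge : (cn V i : ℤ) ≤ |D| := by
      rw [hdv, abs_mul, abs_of_nonneg (by linarith : (0 : ℤ) ≤ cn V i)]
      have : 1 ≤ |crossProduct n n' ⬝ᵥ vst V i| := by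
        refine Int.one_le_abs ?_
        intro h0
        rw [h0, mul_zero] at hdv
        exact hx hdv
      nlinarith
    -- sizes
    have hub : ∀ m : Fin 3 → ℤ, 1 ≤ nv V m (i + 1) → Nat.log 2 (nv V m (i + 1)).toNat = a →
        (nv V m (i + 1) : ℝ) < 2 ^ (a + 1) := by
      intro m hm1 hm2
      have h5 : (nv V m (i + 1)).toNat < 2 ^ (Nat.log 2 (nv V m (i + 1)).toNat + 1) :=
        Nat.lt_pow_succ_log_self (by norm_num) _
      rw [hm2] at h5
      have h6 : nv V m (i + 1) < ((2 ^ (a + 1) : ℕ) : ℤ) := by omega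
      have h7 : ((nv V m (i + 1) : ℤ) : ℝ) < (((2 ^ (a + 1) : ℕ) : ℤ) : ℝ) := by exact_mod_cast h6
      push_cast at h7
      exact h7
    have u1 := hub n (hpos (i + 1)) h2
    have u2 := hub n' (hpos' (i + 1)) h2'
    have p1 : (1 : ℝ) ≤ nv V n (i + 1) := by exact_mod_cast hpos (i + 1)
    have p2 : (1 : ℝ) ≤ nv V n' (i + 1) := by exact_mod_cast hpos' (i + 1)
    have p3 : (1 : ℝ) ≤ nv V n (i + 2) := by exact_mod_cast hpos (i + 2)
    have p4 : (1 : ℝ) ≤ nv V n' (i + 2) := by exact_mod_cast hpos' (i + 2)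
    have p5 : (1 : ℝ) ≤ cn V i := by exact_mod_cast hcn
    set X : ℝ := (nv V n (i + 2) : ℝ) * 4 ^ (a + 1) / (nv V n (i + 1) * cn V i) with hX
    set X' : ℝ := (nv V n' (i + 2) : ℝ) * 4 ^ (a + 1) / (nv V n' (i + 1) * cn V i) with hX'
    have hX0 : 0 ≤ X := by positivity
    have hX'0 : 0 ≤ X' := by positivity
    have hdist : |X - X'| < 1 := by
      have f1 := Nat.floor_le hX0
      have f2 := Nat.lt_floor_add_one X
      have f3 := Nat.floor_le hX'0
      have f4 := Nat.lt_floor_add_one X'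
      rw [h3] at f1 f2
      rw [h3'] at f3 f4
      rw [abs_lt]
      constructor <;> linarith
    have hDr : (cn V i : ℝ) ≤ |(D : ℝ)| := by
      have : ((cn V i : ℤ) : ℝ) ≤ ((|D| : ℤ) : ℝ) := by exact_mod_cast hge
      push_cast at this
      exact this
    have hXX : X - X' = -(D : ℝ) * 4 ^ (a + 1) /
        (nv V n (i + 1) * nv V n' (i + 1) * cn V i) := by
      rw [hX, hX', hD]
      push_cast
      have q1 : (nv V n (i + 1) : ℝ) ≠ 0 := by linarith
      have q2 : (nv V n' (i + 1) : ℝ) ≠ 0 := by linarith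
      have q3 : (cn V i : ℝ) ≠ 0 := by linarith
      field_simp
      ring
    have h4 : (nv V n (i + 1) : ℝ) * nv V n' (i + 1) < 4 ^ (a + 1) := by
      have e4 : (4 : ℝ) ^ (a + 1) = 2 ^ (a + 1) * 2 ^ (a + 1) := by
        rw [← mul_pow]
        norm_num
      rw [e4]
      exact mul_lt_mul'' u1 u2 (by linarith) (by linarith)
    rw [hXX, abs_div, abs_mul, abs_neg, abs_of_pos (by positivity : (0 : ℝ) < 4 ^ (a + 1)),
      abs_of_pos (by positivity : (0 : ℝ) < nv V n (i + 1) * nv V n' (i + 1) * cn V i),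
      div_lt_one (by positivity)] at hdist
    have h5 : (nv V n (i + 1) : ℝ) * nv V n' (i + 1) * cn V i < 4 ^ (a + 1) * |(D : ℝ)| := by
      calc (nv V n (i + 1) : ℝ) * nv V n' (i + 1) * cn V i < 4 ^ (a + 1) * cn V i := by
            apply mul_lt_mul_of_pos_right h4
            linarith
        _ ≤ 4 ^ (a + 1) * |(D : ℝ)| := by gcongr
    linarith [mul_comm |(D : ℝ)| (4 ^ (a + 1))]

/-- the set of codes -/
def codes (L : ℕ) : Finset Code :=
  (Finset.univ ×ˢ Finset.range 8 ×ˢ Finset.range (L + 1)).disjSum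
    (Finset.univ ×ˢ Finset.range (L + 1) ×ˢ Finset.range 84)

lemma card_codes (L : ℕ) : (codes L).card = 276 * (L + 1) := by
  unfold codes
  rw [Finset.card_disjSum, Finset.card_product, Finset.card_product, Finset.card_product,
    Finset.card_product, Finset.card_univ, Fintype.card_fin, Finset.card_range,
    Finset.card_range, Finset.card_range]
  ring

lemma exists_code (hA : tADJ) (hNB : tNB) (hNI : tNI) {V : IM} (hV : 0 < V.det)
    (hp : ∀ i, prim (vcol V i)) {n : Fin 3 → ℤ} (hn : n ∈ Nn V) (hi : ¬ Ins V n) :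
    ∃ c ∈ codes (Nat.log 2 V.det.toNat), Rel V n c := by
  have hpos := fun t => pos_of hNB hV hp hn t
  have hle := fun t => le_det hA hNB hV hp hn t
  rcases hNI V hV hp n hn hi with ⟨i, h⟩ | ⟨i, h⟩
  · refine ⟨Sum.inl (i, (nv V n i).toNat, Nat.log 2 (nv V n (i + 1)).toNat), ?_, ?_, rfl⟩
    · unfold codes
      rw [Finset.inl_mem_disjSum]
      simp only [Finset.mem_product, Finset.mem_univ, Finset.mem_range, true_and]
      have := hpos i
      have := log_mono (hle (i + 1))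
      omega
    · simp only
      have := hpos i
      omega
  · set a : ℕ := Nat.log 2 (nv V n (i + 1)).toNat with ha
    refine ⟨Sum.inr (i, a,
      ⌊(nv V n (i + 2) : ℝ) * 4 ^ (a + 1) / (nv V n (i + 1) * cn V i)⌋₊), ?_, h, rfl, rfl⟩
    unfold codes
    rw [Finset.inr_mem_disjSum]
    simp only [Finset.mem_product, Finset.mem_univ, Finset.mem_range, true_and]
    have h1 := log_mono (hle (i + 1))
    refine ⟨by omega, ?_⟩
    have hcn : (1 : ℝ) ≤ cn V i := by
      have := (hA V hV hp).1 i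
      exact_mod_cast this
    have p1 : (1 : ℝ) ≤ nv V n (i + 1) := by exact_mod_cast hpos (i + 1)
    have p3 : (1 : ℝ) ≤ nv V n (i + 2) := by exact_mod_cast hpos (i + 2)
    rw [Nat.floor_lt (by positivity), div_lt_iff₀ (by positivity)]
    have hlow : (2 : ℝ) ^ a ≤ nv V n (i + 1) := by
      have h2 : 2 ^ Nat.log 2 (nv V n (i + 1)).toNat ≤ (nv V n (i + 1)).toNat :=
        Nat.pow_log_le_self 2 (by have := hpos (i + 1); omega)
      rw [← ha] at h2
      have h3 : ((2 ^ a : ℕ) : ℤ) ≤ nv V n (i + 1) := by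
        have := hpos (i + 1)
        omega
      have h4 : (((2 ^ a : ℕ) : ℤ) : ℝ) ≤ ((nv V n (i + 1) : ℤ) : ℝ) := by exact_mod_cast h3
      push_cast at h4
      exact h4
    have h4 : (4 : ℝ) ^ (a + 1) ≤ 4 * (nv V n (i + 1) : ℝ) ^ 2 := by
      have e4 : (4 : ℝ) ^ (a + 1) = 4 * ((2 : ℝ) ^ a) ^ 2 := by
        rw [pow_succ, ← pow_mul, mul_comm a 2, pow_mul]
        norm_num
        ring
      rw [e4]
      gcongr
    have h5 : (nv V n (i + 1) : ℝ) * nv V n (i + 2) < 21 * cn V i := by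
      have : ((nv V n (i + 1) * nv V n (i + 2) : ℤ) : ℝ) < ((21 * (cn V i : ℤ) : ℤ) : ℝ) := by
        exact_mod_cast h
      push_cast at this
      exact this
    push_cast
    calc (nv V n (i + 2) : ℝ) * 4 ^ (a + 1) ≤ nv V n (i + 2) * (4 * (nv V n (i + 1) : ℝ) ^ 2) := by
          gcongr
      _ = 4 * nv V n (i + 1) * (nv V n (i + 1) * nv V n (i + 2)) := by ring
      _ < 4 * nv V n (i + 1) * (21 * cn V i) := by
          apply mul_lt_mul_of_pos_left h5
          linarith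
      _ = 84 * (nv V n (i + 1) * cn V i) := by ring

end OUTx

open OUTx in
theorem p_OUT (hA : tADJ) (hS : tSPEC) (hPK : tPK) (hNB : tNB) (hNI : tNI) (hY5 : tY5) :
    tOUT := by
  refine ⟨4000, by norm_num, ?_⟩
  rintro m hm ⟨A, V⟩ hP
  have hP' := hP
  simp only [PPf, Finset.mem_filter] at hP'
  obtain ⟨_, hnrm, l, hE⟩ := hP'
  simp only at hnrm hE ⊢
  have hV : 0 < V.det := hE.2.2.2.2
  have hp : ∀ i, prim (vcol V i) := hE.2.2.2.1
  have hdet := (hS m A V l hE hnrm).2.2.2.1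
  have hfin : (Nn V).Finite := (hY5 V hV).1
  have hfin' : {n | n ∈ Nn V ∧ ¬ Ins V n}.Finite := hfin.subset (fun n hn => hn.1)
  set L : ℕ := Nat.log 2 V.det.toNat with hL
  have hcard : {n | n ∈ Nn V ∧ ¬ Ins V n}.ncard ≤ (codes L).card := by
    rw [Set.ncard_eq_toFinset_card _ hfin']
    refine Finset.card_le_card_of_forall_subsingleton (Rel V) ?_ ?_
    · intro n hn
      rw [Set.Finite.mem_toFinset] at hn
      exact exists_code hA hNB hNI hV hp hn.1 hn.2
    · intro c _ n hn n' hn'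
      simp only [Set.Finite.mem_toFinset, Set.mem_ofPred_eq] at hn hn'
      exact rel_inj hA hPK hNB hV hp hn.1.1 hn'.1.1 c hn.2 hn'.2
  rw [card_codes] at hcard
  have hm' : (2 : ℝ) ≤ m := by exact_mod_cast hm
  have hlog2 : 0 < Real.log 2 := Real.log_pos (by norm_num)
  have hlogm : Real.log 2 ≤ Real.log m := Real.log_le_log (by norm_num) hm'
  have hLr : (L : ℝ) * Real.log 2 ≤ Real.log (8 * (m : ℝ) ^ 3) := by
    have h1 : 2 ^ L ≤ V.det.toNat := Nat.pow_log_le_self 2 (by omega)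
    have h2 : ((2 ^ L : ℕ) : ℤ) ≤ V.det := by omega
    have h3 : (((2 ^ L : ℕ) : ℤ) : ℝ) ≤ ((V.det : ℤ) : ℝ) := Int.cast_le.2 h2
    rw [Int.cast_natCast, Nat.cast_pow, Nat.cast_ofNat] at h3
    have h4 : (2 : ℝ) ^ L ≤ 8 * (m : ℝ) ^ 3 := h3.trans hdet
    have h5 := Real.log_le_log (by positivity) h4
    rwa [Real.log_pow] at h5
  have hlog8 : Real.log (8 * (m : ℝ) ^ 3) = 3 * Real.log 2 + 3 * Real.log m := by
    rw [Real.log_mul (by norm_num) (by positivity), Real.log_pow,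
      show (8 : ℝ) = 2 ^ 3 by norm_num, Real.log_pow]
    push_cast
    ring
  rw [hlog8] at hLr
  have h6 : ((L : ℝ) + 1) * Real.log 2 ≤ 7 * Real.log m := by nlinarith
  have h7 : ((L : ℝ) + 1) ≤ 14 * Real.log m := by
    have h8 : (1 / 2 : ℝ) < Real.log 2 := by linarith [Real.log_two_gt_d9]
    have h9 : (0 : ℝ) ≤ (L : ℝ) + 1 := by positivity
    nlinarith
  have h10 : ({n | n ∈ Nn V ∧ ¬ Ins V n}.ncard : ℝ) ≤ ((276 * (L + 1) : ℕ) : ℝ) := by
    exact_mod_cast hcard
  push_cast at h10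
  have h11 : 0 ≤ Real.log m := by linarith
  calc ({n | n ∈ Nn V ∧ ¬ Ins V n}.ncard : ℝ) ≤ 276 * (L + 1) := h10
    _ ≤ 276 * (14 * Real.log m) := by gcongr
    _ ≤ 4000 * Real.log m := by nlinarith

end SAIL.F
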