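import Pool.Agent.SAIL.FAC.Targets

/-!
SAIL / FAC P1: a lattice quadrilateral in a convex set gives a unit parallelogram or a unit cross.
-/

namespace SAIL.F

open Matrix MeasureTheory Filter SAIL SAIL.A

namespace P1x

lemma plu (a b c x p q : ℤ × ℤ) : ori a b c * ori p q x =
    ori b c x * ori p q a + ori c a x * ori p q b + ori a b x * ori p q c := by
  unfold ori; ring

lemma rot (a b c : ℤ × ℤ) : ori b c a = ori a b c := by unfold ori; ring

lemma swp (a b c : ℤ × ℤ) : ori b a c = -ori a b c := by unfold ori; ring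

lemma deg (a b : ℤ × ℤ) : ori a b a = 0 ∧ ori a b b = 0 := by
  unfold ori; constructor <;> ring

lemma add (a b c x : ℤ × ℤ) : ori a b x + ori b c x + ori c a x = ori a b c := by
  unfold ori; ring

lemma bar1 (a b c x : ℤ × ℤ) :
    ori a b c * x.1 = ori b c x * a.1 + ori c a x * b.1 + ori a b x * c.1 := by
  unfold ori; ring

lemma bar2 (a b c x : ℤ × ℤ) :
    ori a b c * x.2 = ori b c x * a.2 + ori c a x * b.2 + ori a b x * c.2 := by
  unfold ori; ring

lemma eq_vertex {a b c x : ℤ × ℤ} (h : 0 < ori a b c) (h1 : ori c a x = 0) (h2 : ori a b x = 0) :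
    x = a := by
  have h3 := add a b c x
  have h4 := bar1 a b c x
  have h5 := bar2 a b c x
  rw [h1, h2] at h3 h4 h5
  have h6 : ori b c x = ori a b c := by linarith
  rw [h6] at h4 h5
  refine Prod.ext ?_ ?_
  · refine mul_left_cancel₀ h.ne' ?_
    linarith
  · refine mul_left_cancel₀ h.ne' ?_
    linarith

/-- a lattice triangle of double area at least two contains a further lattice point -/
lemma tri {a b c : ℤ × ℤ} (h : 2 ≤ ori a b c) : ∃ x, x ≠ a ∧ x ≠ b ∧ x ≠ c ∧
    0 ≤ ori a b x ∧ 0 ≤ ori b c x ∧ 0 ≤ ori c a x := by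
  set D := ori a b c with hD
  have hD0 : 0 < D := by omega
  obtain ⟨a1, a2⟩ := a
  obtain ⟨b1, b2⟩ := b
  obtain ⟨c1, c2⟩ := c
  simp only [ori] at hD
  -- a lattice point with given coordinates not both divisible
  have key : ∃ z1 z2 : ℤ, ¬ (D ∣ z1 * (c2 - a2) - z2 * (c1 - a1) ∧
      D ∣ (b1 - a1) * z2 - (b2 - a2) * z1) := by
    by_contra hcon
    push Not at hcon
    obtain ⟨⟨k1, e1⟩, k2, e2⟩ := hcon 1 0
    obtain ⟨⟨k3, e3⟩, k4, e4⟩ := hcon 0 1
    have h1 : D = D * D * (k1 * k4 - k2 * k3) := by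
      have : D = (b1 - a1) * (c2 - a2) - (b2 - a2) * (c1 - a1) := hD
      have f1 : c2 - a2 = D * k1 := by linarith
      have f2 : b2 - a2 = -(D * k2) := by linarith
      have f3 : c1 - a1 = -(D * k3) := by linarith
      have f4 : b1 - a1 = D * k4 := by linarith
      rw [f1, f2, f3, f4] at this
      linear_combination this
    have h2 : D * (D * (k1 * k4 - k2 * k3)) = D * 1 := by linarith
    have h3 := mul_left_cancel₀ hD0.ne' h2
    have h4 : D ∣ 1 := ⟨_, h3.symm⟩
    have h5 := Int.le_of_dvd one_pos h4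
    omega
  obtain ⟨z1, z2, hz⟩ := key
  set s0 := z1 * (c2 - a2) - z2 * (c1 - a1) with hs0
  set t0 := (b1 - a1) * z2 - (b2 - a2) * z1 with ht0
  set s := s0 % D with hs
  set t := t0 % D with ht
  have hs1 : 0 ≤ s := Int.emod_nonneg _ hD0.ne'
  have hs2 : s < D := Int.emod_lt_of_pos _ hD0
  have ht1 : 0 ≤ t := Int.emod_nonneg _ hD0.ne'
  have ht2 : t < D := Int.emod_lt_of_pos _ hD0
  have hs3 : s = s0 - D * (s0 / D) := by rw [hs, Int.emod_def]
  have ht3 : t = t0 - D * (t0 / D) := by rw [ht, Int.emod_def]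
  have hst : ¬ (s = 0 ∧ t = 0) := by
    rintro ⟨e1, e2⟩
    exact hz ⟨Int.dvd_of_emod_eq_zero e1, Int.dvd_of_emod_eq_zero e2⟩
  set m := s0 / D with hm
  set k := t0 / D with hk
  set w1 := z1 - m * (b1 - a1) - k * (c1 - a1) with hw1
  set w2 := z2 - m * (b2 - a2) - k * (c2 - a2) with hw2
  have es : w1 * (c2 - a2) - w2 * (c1 - a1) = s := by
    rw [hs3, hw1, hw2, hs0, hD]; ring
  have et : (b1 - a1) * w2 - (b2 - a2) * w1 = t := by
    rw [ht3, hw1, hw2, ht0, hD]; ring
  clear_value w1 w2 m k s t s0 t0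
  rcases le_or_gt (s + t) D with hle | hlt
  · refine ⟨(a1 + w1, a2 + w2), ?_, ?_, ?_, ?_, ?_, ?_⟩
    · intro h
      simp only [Prod.mk.injEq] at h
      have e1 : w1 = 0 := by linarith
      have e2 : w2 = 0 := by linarith
      apply hst
      rw [← es, ← et, e1, e2]
      constructor <;> ring
    · intro h
      simp only [Prod.mk.injEq] at h
      have e1 : w1 = b1 - a1 := by linarith
      have e2 : w2 = b2 - a2 := by linarith
      rw [e1, e2, ← hD] at es
      omega
    · intro h
      simp only [Prod.mk.injEq] at h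
      have e1 : w1 = c1 - a1 := by linarith
      have e2 : w2 = c2 - a2 := by linarith
      rw [e1, e2, ← hD] at et
      omega
    · have : ori (a1, a2) (b1, b2) (a1 + w1, a2 + w2) = t := by
        simp only [ori]; rw [← et]; ring
      rw [this]; exact ht1
    · have : ori (b1, b2) (c1, c2) (a1 + w1, a2 + w2) = D - s - t := by
        simp only [ori]; rw [← et, ← es, hD]; ring
      rw [this]; linarith
    · have : ori (c1, c2) (a1, a2) (a1 + w1, a2 + w2) = s := by
        simp only [ori]; rw [← es]; ring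
      rw [this]; exact hs1
  · refine ⟨(b1 + c1 - a1 - w1, b2 + c2 - a2 - w2), ?_, ?_, ?_, ?_, ?_, ?_⟩
    · intro h
      simp only [Prod.mk.injEq] at h
      have e1 : w1 = (b1 - a1) + (c1 - a1) := by linarith
      have e2 : w2 = (b2 - a2) + (c2 - a2) := by linarith
      have : s = D := by rw [← es, e1, e2, hD]; ring
      omega
    · intro h
      simp only [Prod.mk.injEq] at h
      have e1 : w1 = c1 - a1 := by linarith
      have e2 : w2 = c2 - a2 := by linarith
      rw [e1, e2, ← hD] at et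
      omega
    · intro h
      simp only [Prod.mk.injEq] at h
      have e1 : w1 = b1 - a1 := by linarith
      have e2 : w2 = b2 - a2 := by linarith
      rw [e1, e2, ← hD] at es
      omega
    · have : ori (a1, a2) (b1, b2) (b1 + c1 - a1 - w1, b2 + c2 - a2 - w2) = D - t := by
        simp only [ori]; rw [← et, hD]; ring
      rw [this]; linarith
    · have : ori (b1, b2) (c1, c2) (b1 + c1 - a1 - w1, b2 + c2 - a2 - w2) = s + t - D := by
        simp only [ori]; rw [← et, ← es, hD]; ring
      rw [this]; linarith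
    · have : ori (c1, c2) (a1, a2) (b1 + c1 - a1 - w1, b2 + c2 - a2 - w2) = D - s := by
        simp only [ori]; rw [← es, hD]; ring
      rw [this]; linarith

variable {K : Set (ℝ × ℝ)}

lemma mem3 (hK : Convex ℝ K) {P Q R : ℝ × ℝ} (hP : P ∈ K) (hQ : Q ∈ K) (hR : R ∈ K)
    {α β γ : ℝ} (hα : 0 ≤ α) (hβ : 0 ≤ β) (hγ : 0 ≤ γ) (h : α + β + γ = 1) :
    α • P + β • Q + γ • R ∈ K := by
  have := hK.sum_mem (t := Finset.univ) (w := ![α, β, γ]) (z := ![P, Q, R])
    (by intro i _; fin_cases i <;> simpa) (by simpa [Fin.sum_univ_three] using h)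
    (by intro i _; fin_cases i <;> simpa)
  simpa [Fin.sum_univ_three] using this

lemma memK (hK : Convex ℝ K) {a b c x : ℤ × ℤ} (ha : pr a ∈ K) (hb : pr b ∈ K) (hc : pr c ∈ K)
    (h : 0 < ori a b c) (h1 : 0 ≤ ori a b x) (h2 : 0 ≤ ori b c x) (h3 : 0 ≤ ori c a x) :
    pr x ∈ K := by
  have hD : (0 : ℝ) < ori a b c := by exact_mod_cast h
  have e : pr x = ((ori b c x : ℝ) / ori a b c) • pr a + ((ori c a x : ℝ) / ori a b c) • pr b +
      ((ori a b x : ℝ) / ori a b c) • pr c := by
    have e1 : ((ori a b c * x.1 : ℤ) : ℝ) = _ := congrArg _ (bar1 a b c x)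
    have e2 : ((ori a b c * x.2 : ℤ) : ℝ) = _ := congrArg _ (bar2 a b c x)
    push_cast at e1 e2
    refine Prod.ext ?_ ?_
    · simp only [pr, Prod.fst_add, Prod.smul_fst, smul_eq_mul]
      field_simp
      linarith
    · simp only [pr, Prod.snd_add, Prod.smul_snd, smul_eq_mul]
      field_simp
      linarith
  rw [e]
  refine mem3 hK ha hb hc (div_nonneg (by exact_mod_cast h2) hD.le)
    (div_nonneg (by exact_mod_cast h3) hD.le) (div_nonneg (by exact_mod_cast h1) hD.le) ?_
  have e3 : ((ori a b x + ori b c x + ori c a x : ℤ) : ℝ) = _ := congrArg _ (add a b c x)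
  push_cast at e3
  field_simp
  linarith

/-- Strictly convex lattice quadrilateral in `K`. -/
def Qd (K : Set (ℝ × ℝ)) (a b c d : ℤ × ℤ) : Prop :=
  pr a ∈ K ∧ pr b ∈ K ∧ pr c ∈ K ∧ pr d ∈ K ∧
  0 < ori a b c ∧ 0 < ori b c d ∧ 0 < ori c d a ∧ 0 < ori d a b

/-- Minimal such quadrilateral. -/
def Mn (K : Set (ℝ × ℝ)) (a b c d : ℤ × ℤ) : Prop :=
  Qd K a b c d ∧ ∀ a' b' c' d', Qd K a' b' c' d' →
    ori a b c + ori c d a ≤ ori a' b' c' + ori c' d' a'

lemma Mn.rot {a b c d : ℤ × ℤ} (h : Mn K a b c d) : Mn K b c d a := by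
  obtain ⟨⟨h1, h2, h3, h4, h5, h6, h7, h8⟩, h9⟩ := h
  refine ⟨⟨h2, h3, h4, h1, h6, h7, h8, h5⟩, fun a' b' c' d' h => ?_⟩
  have e : ori b c d + ori d a b = ori a b c + ori c d a := by unfold ori; ring
  rw [e]
  exact h9 a' b' c' d' h

lemma step (hK : Convex ℝ K) {a b c d : ℤ × ℤ} (h : Mn K a b c d) {x : ℤ × ℤ} (hx : x ≠ b)
    (x1 : 0 ≤ ori a b x) (x2 : 0 ≤ ori b c x) (x3 : 0 ≤ ori c a x) : ori c a x = 0 := by
  by_contra hne
  have x3' : 0 < ori c a x := lt_of_le_of_ne x3 (Ne.symm hne)
  obtain ⟨⟨h1, h2, h3, h4, h5, h6, h7, h8⟩, h9⟩ := h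
  have hxK : pr x ∈ K := memK hK h1 h2 h3 h5 x1 x2 x3
  have q1 : ori a x c = ori c a x := by unfold ori; ring
  have q2 : 0 < ori x c d := by
    have e1 : ori x c d = ori c d x := by unfold ori; ring
    have e2 := plu a b c x c d
    have e3 : ori c d c = 0 := (deg c d).1
    have e4 : ori c d b = ori b c d := by unfold ori; ring
    rw [e3, e4, mul_zero, add_zero] at e2
    rw [e1]
    have : 0 < ori a b c * ori c d x := by rw [e2]; positivity
    exact (mul_pos_iff_of_pos_left h5).mp this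
  have q3 : 0 < ori d a x := by
    have e2 := plu a b c x d a
    have e3 : ori d a a = 0 := (deg d a).2
    have e4 : ori d a c = ori c d a := by unfold ori; ring
    rw [e3, e4, mul_zero, zero_add] at e2
    have : 0 < ori a b c * ori d a x := by rw [e2]; positivity
    exact (mul_pos_iff_of_pos_left h5).mp this
  have q4 := h9 a x c d ⟨h1, hxK, h3, h4, by rw [q1]; exact x3', q2, h7, q3⟩
  rw [q1] at q4
  have e := add a b c x
  have e1 : ori a b x = 0 := by linarith
  have e2 : ori b c x = 0 := by linarith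
  exact hx (eq_vertex (a := b) (b := c) (c := a) (by rw [rot]; exact h5) e1 e2)

lemma small (hK : Convex ℝ K) {a b c d : ℤ × ℤ} (h : Mn K a b c d) {x : ℤ × ℤ}
    (x1 : 0 < ori a b x) (x2 : 0 < ori b c x) (x4 : 0 < ori d a x)
    (y1 : ori c a x = 0) (y2 : ori b d x = 0) : ori a b x = 1 := by
  by_contra hne
  have e0 : ori x a b = ori a b x := by unfold ori; ring
  have hD : 2 ≤ ori x a b := by rw [e0]; omega
  have hD0 : 0 < ori x a b := by omega
  obtain ⟨y, n1, n2, n3, z1, z2, z3⟩ := tri hD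
  obtain ⟨⟨h1, h2, h3, h4, h5, h6, h7, h8⟩, h9⟩ := id h
  -- `y` in the triangle `abc`
  have b1 : 0 ≤ ori b c y := by
    have e := plu x a b y b c
    have e3 : ori b c b = 0 := (deg b c).1
    have e4 : ori b c a = ori a b c := rot a b c
    rw [e3, e4, mul_zero, add_zero] at e
    have : 0 ≤ ori x a b * ori b c y := by rw [e]; positivity
    exact (mul_nonneg_iff_of_pos_left hD0).mp this
  have b2 : ori x a b * ori c a y = ori x a y * ori a b c := by
    have e := plu x a b y c a
    have e3 : ori c a a = 0 := (deg c a).2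
    have e4 : ori c a b = ori a b c := by unfold ori; ring
    rw [e3, e4, y1, mul_zero, mul_zero, zero_add, zero_add] at e
    exact e
  have b3 : 0 ≤ ori c a y := by
    have : 0 ≤ ori x a b * ori c a y := by rw [b2]; positivity
    exact (mul_nonneg_iff_of_pos_left hD0).mp this
  have b4 := step hK h n3 z2 b1 b3
  have b5 : ori x a y = 0 := by
    rw [b4, mul_zero] at b2
    exact (mul_eq_zero.mp b2.symm).resolve_right h5.ne'
  -- `y` in the triangle `dab`
  have c1 : 0 ≤ ori d a y := by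
    have e := plu x a b y d a
    have e3 : ori d a a = 0 := (deg d a).2
    rw [e3, mul_zero, add_zero] at e
    have : 0 ≤ ori x a b * ori d a y := by rw [e]; positivity
    exact (mul_nonneg_iff_of_pos_left hD0).mp this
  have c2 : ori x a b * ori b d y = ori b x y * ori d a b := by
    have e := plu x a b y b d
    have e3 : ori b d b = 0 := (deg b d).1
    have e4 : ori b d a = ori d a b := by unfold ori; ring
    rw [e3, e4, y2, mul_zero, mul_zero, zero_add, add_zero] at e
    exact e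
  have c3 : 0 ≤ ori b d y := by
    have : 0 ≤ ori x a b * ori b d y := by rw [c2]; positivity
    exact (mul_nonneg_iff_of_pos_left hD0).mp this
  have c4 := step hK h.rot.rot.rot n2 c1 z2 c3
  have c5 : ori b x y = 0 := by
    rw [c4, mul_zero] at c2
    exact (mul_eq_zero.mp c2.symm).resolve_right h8.ne'
  exact n1 (eq_vertex (a := x) (b := a) (c := b) hD0 c5 b5)

/-- The conclusion. -/
def Goal (K : Set (ℝ × ℝ)) : Prop :=
  ∃ p u v : ℤ × ℤ, u.1 * v.2 - u.2 * v.1 = 1 ∧ pr p ∈ K ∧ pr (p + u) ∈ K ∧ pr (p + v) ∈ K ∧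
    (pr (p + u + v) ∈ K ∨ (pr (p - u) ∈ K ∧ pr (p - v) ∈ K))

lemma cross (hK : Convex ℝ K) {a b c d : ℤ × ℤ} (h : Mn K a b c d) (h2 : 2 ≤ ori a b c) :
    Goal K := by
  obtain ⟨⟨ha, hb, hc, hd, h5, h6, h7, h8⟩, h9⟩ := id h
  obtain ⟨x, n1, n2, n3, z1, z2, z3⟩ := tri h2
  have y1 : ori c a x = 0 := step hK h n2 z1 z2 z3
  have hadd := add a b c x
  have x1 : 0 < ori a b x := by
    refine lt_of_le_of_ne z1 fun e => n1 ?_
    exact eq_vertex h5 y1 e.symm
  have x2 : 0 < ori b c x := by
    refine lt_of_le_of_ne z2 fun e => n3 ?_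
    exact eq_vertex (a := c) (b := a) (c := b) (by rw [rot, rot]; exact h5) e.symm y1
  have x3 : 0 < ori c d x := by
    have e2 := plu a b c x c d
    have e3 : ori c d c = 0 := (deg c d).1
    rw [e3, y1, mul_zero, zero_mul, add_zero, add_zero] at e2
    have : 0 < ori a b c * ori c d x := by rw [e2]; positivity
    exact (mul_pos_iff_of_pos_left h5).mp this
  have x4 : 0 < ori d a x := by
    have e2 := plu a b c x d a
    have e3 : ori d a a = 0 := (deg d a).2
    have e4 : ori d a c = ori c d a := by unfold ori; ring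
    rw [e3, e4, y1, mul_zero, zero_mul, zero_add, zero_add] at e2
    have : 0 < ori a b c * ori d a x := by rw [e2]; positivity
    exact (mul_pos_iff_of_pos_left h5).mp this
  have y2 : ori b d x = 0 := by
    rcases le_or_gt 0 (ori b d x) with hs | hs
    · exact step hK h.rot.rot.rot n1 x4.le x1.le hs
    · have e : ori d b x = -ori b d x := by unfold ori; ring
      have := step hK h.rot n3 x2.le x3.le (by rw [e]; omega)
      rw [e] at this
      omega
  have y1' : ori a c x = 0 := by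
    have e : ori a c x = -ori c a x := by unfold ori; ring
    rw [e, y1]; rfl
  have y2' : ori d b x = 0 := by
    have e : ori d b x = -ori b d x := by unfold ori; ring
    rw [e, y2]; rfl
  have t1 : ori a b x = 1 := small hK h x1 x2 x4 y1 y2
  have t2 : ori b c x = 1 := small hK h.rot x2 x3 x1 y2' y1
  have t3 : ori c d x = 1 := small hK h.rot.rot x3 x4 x2 y1' y2'
  have xK : pr x ∈ K := memK hK ha hb hc h5 x1.le x2.le y1.ge
  -- `a + c = 2 x`, `b + d = 2 x`
  have hD1 : ori a b c = 2 := by rw [← hadd, t1, t2, y1]; rfl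
  have hD2 : ori b c d = 2 := by
    have := add b c d x
    rw [← this, t2, t3, y2']; rfl
  have p1 := bar1 a b c x
  have p2 := bar2 a b c x
  have r1 := bar1 b c d x
  have r2 := bar2 b c d x
  rw [hD1, t1, t2, y1] at p1 p2
  rw [hD2, t2, t3, y2'] at r1 r2
  refine ⟨x, a - x, b - x, ?_, xK, ?_, ?_, Or.inr ⟨?_, ?_⟩⟩
  · rw [← t1]
    simp only [Prod.fst_sub, Prod.snd_sub, ori]
    ring
  · rw [add_sub_cancel]; exact ha
  · rw [add_sub_cancel]; exact hb
  · have : x - (a - x) = c := by
      refine Prod.ext ?_ ?_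
      · simp only [Prod.fst_sub]; linarith
      · simp only [Prod.snd_sub]; linarith
    rw [this]; exact hc
  · have : x - (b - x) = d := by
      refine Prod.ext ?_ ?_
      · simp only [Prod.fst_sub]; linarith
      · simp only [Prod.snd_sub]; linarith
    rw [this]; exact hd

lemma para {a b c d : ℤ × ℤ} (h : Qd K a b c d) (h1 : ori a b c = 1) (h2 : ori b c d = 1)
    (h4 : ori d a b = 1) : Goal K := by
  obtain ⟨ha, hb, hc, hd, -, -, -, -⟩ := h
  refine ⟨b, c - b, a - b, ?_, hb, ?_, ?_, Or.inl ?_⟩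
  · rw [← h1]
    simp only [Prod.fst_sub, Prod.snd_sub, ori]
    ring
  · rw [add_sub_cancel]; exact hc
  · rw [add_sub_cancel]; exact ha
  · have : b + (c - b) + (a - b) = d := by
      have p1 := bar1 a b c d
      have p2 := bar2 a b c d
      have e1 : ori c a d = -1 := by
        have e2 := add a b c d
        have e3 : ori a b d = 1 := by rw [← h4]; unfold ori; ring
        rw [e3, h2, h1] at e2
        linarith
      have e3 : ori a b d = 1 := by rw [← h4]; unfold ori; ring
      rw [h1, h2, e1, e3] at p1 p2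
      refine Prod.ext ?_ ?_
      · simp only [Prod.fst_add, Prod.fst_sub]; linarith
      · simp only [Prod.snd_add, Prod.snd_sub]; linarith
    rw [this]; exact hd

lemma exists_min {a b c d : ℤ × ℤ} (h : Qd K a b c d) : ∃ a b c d, Mn K a b c d := by
  classical
  let P : ℕ → Prop := fun N => ∃ a b c d, Qd K a b c d ∧ ori a b c + ori c d a = N
  have hP : ∃ N, P N := by
    obtain ⟨h1, h2, h3, h4, h5, h6, h7, h8⟩ := id h
    exact ⟨(ori a b c + ori c d a).toNat, a, b, c, d, h, (Int.toNat_of_nonneg (by omega)).symm⟩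
  obtain ⟨a, b, c, d, hq, hN⟩ := Nat.find_spec hP
  refine ⟨a, b, c, d, hq, fun a' b' c' d' h' => ?_⟩
  obtain ⟨h1, h2, h3, h4, h5, h6, h7, h8⟩ := id h'
  have hP' : P (ori a' b' c' + ori c' d' a').toNat :=
    ⟨a', b', c', d', h', (Int.toNat_of_nonneg (by omega)).symm⟩
  have := Nat.find_min' hP hP'
  rw [hN]
  omega

end P1x

open P1x in
theorem p_P1 : tP1 := by
  intro K hK a b c d ha hb hc hd h1 h2 h3 h4
  change Goal K
  obtain ⟨a, b, c, d, h⟩ := exists_min (K := K) (a := a) (b := b) (c := c) (d := d)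
    ⟨ha, hb, hc, hd, h1, h2, h3, h4⟩
  obtain ⟨⟨ha, hb, hc, hd, h5, h6, h7, h8⟩, h9⟩ := id h
  by_cases e1 : ori a b c = 1
  · by_cases e2 : ori b c d = 1
    · by_cases e4 : ori d a b = 1
      · exact para h.1 e1 e2 e4
      · exact cross hK h.rot.rot.rot (by omega)
    · exact cross hK h.rot (by omega)
  · exact cross hK h (by omega)

end SAIL.F
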