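import Pool.Agent.SAIL.FAC.Targets

/-!
SAIL, part A: packing of the covectors of distance-one faces.
-/

namespace SAIL.F

open Matrix MeasureTheory Filter SAIL SAIL.A

namespace PKx

lemma sum_nv (V : IM) (n z : Fin 3 → ℤ) :
    ∑ i, nv V n i * (V.adjugate *ᵥ z) i = V.det * (n ⬝ᵥ z) := by
  have h1 : ∑ i, nv V n i * (V.adjugate *ᵥ z) i = (n ᵥ* V) ⬝ᵥ (V.adjugate *ᵥ z) := by
    simp only [dotProduct]
    rfl
  rw [h1, Matrix.dotProduct_mulVec, Matrix.vecMul_vecMul, Matrix.mul_adjugate,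
    Matrix.vecMul_smul, Matrix.vecMul_one, smul_dotProduct, smul_eq_mul]

lemma zero_of (V : IM) (hV : 0 < V.det) (n n' z : Fin 3 → ℤ) (hz : z ∈ Lp V)
    (hnz : n ⬝ᵥ z = 1) (h0 : ∀ i, 0 < nv V n' i)
    (h : ∀ i, nv V n' i < 2 * nv V n i) : n' ⬝ᵥ z = 1 := by
  have e1 := sum_nv V n z
  have e2 := sum_nv V n' z
  rw [hnz, mul_one] at e1
  have hX := hz.2
  -- some coordinate is positive
  have hex : ∃ i, 0 < (V.adjugate *ᵥ z) i := by
    by_contra hc
    push Not at hc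
    have : ∑ i, nv V n i * (V.adjugate *ᵥ z) i = 0 := by
      refine Finset.sum_eq_zero fun i _ => ?_
      rw [le_antisymm (hc i) (hX i), mul_zero]
    omega
  obtain ⟨i0, hi0⟩ := hex
  have l1 : ∑ i, nv V n' i * (V.adjugate *ᵥ z) i < ∑ i, (2 * nv V n i) * (V.adjugate *ᵥ z) i := by
    refine Finset.sum_lt_sum (fun i _ => mul_le_mul_of_nonneg_right (h i).le (hX i))
      ⟨i0, Finset.mem_univ _, mul_lt_mul_of_pos_right (h i0) hi0⟩
  have l2 : 0 < ∑ i, nv V n' i * (V.adjugate *ᵥ z) i :=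
    Finset.sum_pos' (fun i _ => mul_nonneg (h0 i).le (hX i))
      ⟨i0, Finset.mem_univ _, mul_pos (h0 i0) hi0⟩
  have e3 : ∑ i, (2 * nv V n i) * (V.adjugate *ᵥ z) i = 2 * V.det := by
    rw [← e1, Finset.mul_sum]
    exact Finset.sum_congr rfl fun i _ => by ring
  rw [e2] at l1 l2
  rw [e3] at l1
  have h3 : 0 < n' ⬝ᵥ z := by
    rcases lt_or_ge 0 (n' ⬝ᵥ z) with h | h
    · exact h
    · nlinarith
  have h4 : n' ⬝ᵥ z < 2 := by
    by_contra hc
    push Not at hc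
    nlinarith
  omega

end PKx

theorem p_PK : tPK := by
  intro V hV n hn n' hn' hne
  by_contra hc
  push Not at hc
  obtain ⟨h0, w, d, e, hdet, hw, hd, he, z0, z1, z2, -⟩ := hn
  obtain ⟨h0', -⟩ := hn'
  have a0 := PKx.zero_of V hV n n' w z0 hw h0' hc
  have a1 := PKx.zero_of V hV n n' (w + d) z1 (by rw [dotProduct_add, hw, hd]; norm_num) h0' hc
  have a2 := PKx.zero_of V hV n n' (w + e) z2 (by rw [dotProduct_add, hw, he]; norm_num) h0' hc
  rw [dotProduct_add, a0] at a1 a2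
  apply hne
  have b0 : (n' - n) ⬝ᵥ w = 0 := by rw [sub_dotProduct, a0, hw]; norm_num
  have b1 : (n' - n) ⬝ᵥ d = 0 := by rw [sub_dotProduct, hd]; omega
  have b2 : (n' - n) ⬝ᵥ e = 0 := by rw [sub_dotProduct, he]; omega
  have h1 : (n' - n) ᵥ* (Matrix.of fun r => ![w r, d r, e r]) = 0 := by
    funext j
    fin_cases j
    · simpa [Matrix.vecMul, dotProduct] using b0
    · simpa [Matrix.vecMul, dotProduct] using b1
    · simpa [Matrix.vecMul, dotProduct] using b2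
  have h2 : n' - n = 0 := by
    by_contra hne'
    exact absurd (Matrix.exists_vecMul_eq_zero_iff.1 ⟨_, hne', h1⟩) (by rw [hdet]; norm_num)
  exact (sub_eq_zero.1 h2).symm

end SAIL.F
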