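import Pool.Agent.SAIL.FAC.Targets

/-!
SAIL, part A: four bases for every unit parallelogram.
-/

namespace SAIL.F

open Matrix MeasureTheory Filter SAIL SAIL.A

namespace PRx

lemma toR_det (V : IM) : (toR V).det = ((V.det : ℤ) : ℝ) := by
  unfold toR
  exact (Int.cast_det V).symm

lemma ic_det (γ : GZ) : (ic γ).det = 1 := by
  unfold ic
  have h := (Int.cast_det (R := ℝ) (γ : Matrix (Fin 3) (Fin 3) ℤ)).symm
  have h2 : (γ : Matrix (Fin 3) (Fin 3) ℤ).det = 1 := γ.2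
  rw [h2] at h
  simpa using h

lemma nn_eq (V : IM) (hV : 0 < V.det) (n : Fin 3 → ℤ) (γ : GZ) (hγ : n ᵥ* γ.1 = ![1, 0, 0])
    (i : Fin 3) : nn ((toR V)⁻¹ * ic γ) i = ((n ⬝ᵥ vcol V i : ℤ) : ℝ) := by
  have hVd : (toR V).det ≠ 0 := by
    rw [toR_det]; exact_mod_cast hV.ne'
  have hVu : IsUnit (toR V).det := isUnit_iff_ne_zero.2 hVd
  have hgu : IsUnit (ic γ).det := by rw [ic_det]; exact isUnit_one
  have h0 : ∀ M : M3, nn M i = M⁻¹ 0 i := by
    intro M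
    rw [Matrix.inv_def, Ring.inverse_eq_inv']
    show M.adjugate 0 i / M.det = (M.det)⁻¹ * M.adjugate 0 i
    rw [div_eq_inv_mul]
  have h1 : nn ((toR V)⁻¹ * ic γ) i = ((toR V)⁻¹ * ic γ)⁻¹ 0 i := h0 _
  rw [h1, Matrix.mul_inv_rev, Matrix.nonsing_inv_nonsing_inv _ hVu]
  have h2 : (fun k => (n k : ℝ)) ᵥ* ic γ = ![1, 0, 0] := by
    ext j
    have h3 := congrFun hγ j
    have h4 : (((n ᵥ* γ.1) j : ℤ) : ℝ) = ((fun k => (n k : ℝ)) ᵥ* ic γ) j := by
      simp [Matrix.vecMul, dotProduct, ic]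
    rw [← h4, h3]
    fin_cases j <;> simp
  have h5 : (![1, 0, 0] : Fin 3 → ℝ) ᵥ* (ic γ)⁻¹ = fun k => (n k : ℝ) := by
    rw [← h2, Matrix.vecMul_vecMul, Matrix.mul_nonsing_inv _ hgu, Matrix.vecMul_one]
  have h6 : ((ic γ)⁻¹ * toR V) 0 i = ((![1, 0, 0] : Fin 3 → ℝ) ᵥ* ((ic γ)⁻¹ * toR V)) i := by
    simp [Matrix.vecMul, dotProduct, Fin.sum_univ_three]
  rw [h6, ← Matrix.vecMul_vecMul, h5]
  simp [Matrix.vecMul, dotProduct, toR, vcol]

lemma BB_eq (V : IM) (hV : 0 < V.det) (n : Fin 3 → ℤ) (γ : GZ) (hγ : n ᵥ* γ.1 = ![1, 0, 0])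
    (i j : Fin 3) : BB ((toR V)⁻¹ * ic γ) i j =
      ((n ⬝ᵥ vcol V i : ℤ) : ℝ) * (V.det : ℝ)⁻¹ *
        (((V.adjugate *ᵥ (fun r => γ.1 r j)) i : ℤ) : ℝ) := by
  unfold BB
  rw [Matrix.diagonal_mul, nn_eq V hV n γ hγ, mul_assoc]
  congr 1
  rw [Matrix.inv_def, Ring.inverse_eq_inv', toR_det, Matrix.smul_mul, Matrix.smul_apply,
    smul_eq_mul]
  congr 1
  have h : (toR V).adjugate = toR V.adjugate := by
    unfold toR
    have := (Int.castRingHom ℝ).map_adjugate V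
    exact this.symm
  rw [h]
  simp [Matrix.mul_apply, Matrix.mulVec, dotProduct, toR, ic]

/-- nonnegativity of a combination of the columns -/
lemma BB_comb (V : IM) (hV : 0 < V.det) (n : Fin 3 → ℤ) (hn : ∀ i, 0 < n ⬝ᵥ vcol V i)
    (γ : GZ) (hγ : n ᵥ* γ.1 = ![1, 0, 0]) (i : Fin 3) (b c : ℤ) (z : Fin 3 → ℤ)
    (hz : z ∈ Lp V) (h : ∀ r, γ.1 r 0 + b * γ.1 r 1 + c * γ.1 r 2 = z r) :
    0 ≤ BB ((toR V)⁻¹ * ic γ) i 0 + b * BB ((toR V)⁻¹ * ic γ) i 1 +
      c * BB ((toR V)⁻¹ * ic γ) i 2 := by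
  rw [BB_eq V hV n γ hγ, BB_eq V hV n γ hγ, BB_eq V hV n γ hγ]
  have h1 : (V.adjugate *ᵥ (fun r => γ.1 r 0)) i + b * (V.adjugate *ᵥ (fun r => γ.1 r 1)) i +
      c * (V.adjugate *ᵥ (fun r => γ.1 r 2)) i = (V.adjugate *ᵥ z) i := by
    simp only [Matrix.mulVec, dotProduct, Fin.sum_univ_three, ← h]
    ring
  have h2 := hz.2 i
  rw [← h1] at h2
  have h3 : (0 : ℝ) ≤ (((V.adjugate *ᵥ (fun r => γ.1 r 0)) i : ℤ) : ℝ) +
      b * (((V.adjugate *ᵥ (fun r => γ.1 r 1)) i : ℤ) : ℝ) +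
      c * (((V.adjugate *ᵥ (fun r => γ.1 r 2)) i : ℤ) : ℝ) := by exact_mod_cast h2
  have h4 : (0 : ℝ) ≤ ((n ⬝ᵥ vcol V i : ℤ) : ℝ) * (V.det : ℝ)⁻¹ := by
    have := hn i
    have h5 : (0 : ℝ) ≤ ((n ⬝ᵥ vcol V i : ℤ) : ℝ) := by exact_mod_cast this.le
    have h6 : (0 : ℝ) ≤ ((V.det : ℤ) : ℝ) := by exact_mod_cast hV.le
    positivity
  have h7 := mul_nonneg h4 h3
  calc (0 : ℝ) ≤ _ := h7
    _ = _ := by ring

lemma good (V : IM) (hV : 0 < V.det) (n : Fin 3 → ℤ) (hn : ∀ i, 0 < n ⬝ᵥ vcol V i)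
    (γ : GZ) (hγ : n ᵥ* γ.1 = ![1, 0, 0])
    (h0 : (fun r => γ.1 r 0) ∈ Lp V) (h1 : (fun r => γ.1 r 0 + γ.1 r 1) ∈ Lp V)
    (h2 : (fun r => γ.1 r 0 + γ.1 r 2) ∈ Lp V)
    (h3 : (fun r => γ.1 r 0 + γ.1 r 1 + γ.1 r 2) ∈ Lp V) (i : Fin 3) :
    0 ≤ BB ((toR V)⁻¹ * ic γ) i 0 ∧
    0 ≤ BB ((toR V)⁻¹ * ic γ) i 0 + BB ((toR V)⁻¹ * ic γ) i 1 ∧
    0 ≤ BB ((toR V)⁻¹ * ic γ) i 0 + BB ((toR V)⁻¹ * ic γ) i 2 ∧
    0 ≤ BB ((toR V)⁻¹ * ic γ) i 0 + BB ((toR V)⁻¹ * ic γ) i 1 +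
      BB ((toR V)⁻¹ * ic γ) i 2 := by
  have e0 := BB_comb V hV n hn γ hγ i 0 0 _ h0 (fun r => by simp)
  have e1 := BB_comb V hV n hn γ hγ i 1 0 _ h1 (fun r => by simp)
  have e2 := BB_comb V hV n hn γ hγ i 0 1 _ h2 (fun r => by simp)
  have e3 := BB_comb V hV n hn γ hγ i 1 1 _ h3 (fun r => by simp)
  simp only [Int.cast_zero, Int.cast_one, zero_mul, one_mul, add_zero] at e0 e1 e2 e3
  exact ⟨e0, e1, e2, e3⟩

end PRx

open PRx in
theorem p_PR : tPR := by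
  intro V hV n hn
  obtain ⟨hpos, w, d, e, hdet, hw, hd, he, m0, m1, m2, m3⟩ := hn
  have hdet' := hdet
  rw [Matrix.det_fin_three] at hdet'
  simp only [Matrix.of_apply, Matrix.cons_val_zero, Matrix.cons_val_one, Matrix.cons_val] at hdet'
  simp only [dotProduct, Fin.sum_univ_three] at hw hd he
  have key : ∀ (a b c : Fin 3 → ℤ), (Matrix.of fun r => ![a r, b r, c r]).det = 1 →
      n 0 * a 0 + n 1 * a 1 + n 2 * a 2 = 1 → n 0 * b 0 + n 1 * b 1 + n 2 * b 2 = 0 →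
      n 0 * c 0 + n 1 * c 1 + n 2 * c 2 = 0 → a ∈ Lp V → a + b ∈ Lp V → a + c ∈ Lp V →
      a + b + c ∈ Lp V → ∃ γ : GZ, (∀ r, γ.1 r 0 = a r) ∧ (n ᵥ* γ.1 = ![1, 0, 0] ∧
        ∀ i, 0 ≤ BB ((toR V)⁻¹ * ic γ) i 0 ∧
        0 ≤ BB ((toR V)⁻¹ * ic γ) i 0 + BB ((toR V)⁻¹ * ic γ) i 1 ∧
        0 ≤ BB ((toR V)⁻¹ * ic γ) i 0 + BB ((toR V)⁻¹ * ic γ) i 2 ∧
        0 ≤ BB ((toR V)⁻¹ * ic γ) i 0 + BB ((toR V)⁻¹ * ic γ) i 1 +
          BB ((toR V)⁻¹ * ic γ) i 2) := by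
    intro a b c hD ha hb hc k0 k1 k2 k3
    have hγ : n ᵥ* (⟨Matrix.of fun r => ![a r, b r, c r], hD⟩ : GZ).1 = ![1, 0, 0] := by
      ext j
      fin_cases j <;>
        simp [Matrix.vecMul, dotProduct, Fin.sum_univ_three, ha, hb, hc]
    refine ⟨⟨Matrix.of fun r => ![a r, b r, c r], hD⟩, fun r => by simp, hγ, ?_⟩
    exact good V hV n hpos _ hγ k0 k1 k2 k3
  obtain ⟨g1, a1, p1⟩ := key w d e hdet hw hd he m0 m1 m2 m3
  obtain ⟨g2, a2, p2⟩ := key (w + d) e (-d)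
    (by
      rw [Matrix.det_fin_three]
      simp only [Matrix.of_apply, Matrix.cons_val_zero, Matrix.cons_val_one, Matrix.cons_val,
        Pi.add_apply, Pi.neg_apply]
      linarith)
    (by simp only [Pi.add_apply]; linarith) he (by simp only [Pi.neg_apply]; linarith)
    m1 m3 (by simpa using m0) (by
      have : w + d + e + -d = w + e := by abel
      rw [this]; exact m2)
  obtain ⟨g3, a3, p3⟩ := key (w + d + e) (-d) (-e)
    (by
      rw [Matrix.det_fin_three]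
      simp only [Matrix.of_apply, Matrix.cons_val_zero, Matrix.cons_val_one, Matrix.cons_val,
        Pi.add_apply, Pi.neg_apply]
      linarith)
    (by simp only [Pi.add_apply]; linarith) (by simp only [Pi.neg_apply]; linarith)
    (by simp only [Pi.neg_apply]; linarith)
    m3 (by
      have : w + d + e + -d = w + e := by abel
      rw [this]; exact m2) (by
      have : w + d + e + -e = w + d := by abel
      rw [this]; exact m1) (by
      have : w + d + e + -d + -e = w := by abel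
      rw [this]; exact m0)
  obtain ⟨g4, a4, p4⟩ := key (w + e) (-e) d
    (by
      rw [Matrix.det_fin_three]
      simp only [Matrix.of_apply, Matrix.cons_val_zero, Matrix.cons_val_one, Matrix.cons_val,
        Pi.add_apply, Pi.neg_apply]
      linarith)
    (by simp only [Pi.add_apply]; linarith) (by simp only [Pi.neg_apply]; linarith) hd
    m2 (by
      have : w + e + -e = w := by abel
      rw [this]; exact m0) (by
      have : w + e + d = w + d + e := by abel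
      rw [this]; exact m3) (by
      have : w + e + -e + d = w + d := by abel
      rw [this]; exact m1)
  have hd0 : ¬ (∀ r, d r = 0) := by
    intro h
    rw [h 0, h 1, h 2] at hdet'
    simp at hdet'
  have he0 : ¬ (∀ r, e r = 0) := by
    intro h
    rw [h 0, h 1, h 2] at hdet'
    simp at hdet'
  have hde : ¬ (∀ r, d r = e r) := by
    intro h
    rw [h 0, h 1, h 2] at hdet'
    have : (0 : ℤ) = 1 := by rw [← hdet']; ring
    exact absurd this (by norm_num)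
  have hde' : ¬ (∀ r, d r + e r = 0) := by
    intro h
    have h0 : d 0 = - e 0 := by linarith [h 0]
    have h1 : d 1 = - e 1 := by linarith [h 1]
    have h2 : d 2 = - e 2 := by linarith [h 2]
    rw [h0, h1, h2] at hdet'
    have : (0 : ℤ) = 1 := by rw [← hdet']; ring
    exact absurd this (by norm_num)
  have n12 : g1 ≠ g2 := by
    intro h
    apply hd0
    intro r
    have h1 := a1 r
    have h2 := a2 r
    rw [h] at h1
    simp only [Pi.add_apply] at h2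
    linarith
  have n13 : g1 ≠ g3 := by
    intro h
    apply hde'
    intro r
    have h1 := a1 r
    have h2 := a3 r
    rw [h] at h1
    simp only [Pi.add_apply] at h2
    linarith
  have n14 : g1 ≠ g4 := by
    intro h
    apply he0
    intro r
    have h1 := a1 r
    have h2 := a4 r
    rw [h] at h1
    simp only [Pi.add_apply] at h2
    linarith
  have n23 : g2 ≠ g3 := by
    intro h
    apply he0
    intro r
    have h1 := a2 r
    have h2 := a3 r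
    rw [h] at h1
    simp only [Pi.add_apply] at h1 h2
    linarith
  have n24 : g2 ≠ g4 := by
    intro h
    apply hde
    intro r
    have h1 := a2 r
    have h2 := a4 r
    rw [h] at h1
    simp only [Pi.add_apply] at h1 h2
    linarith
  have n34 : g3 ≠ g4 := by
    intro h
    apply hd0
    intro r
    have h1 := a3 r
    have h2 := a4 r
    rw [h] at h1
    simp only [Pi.add_apply] at h1 h2
    linarith
  refine ⟨{g1, g2, g3, g4}, ?_, ?_⟩
  · rw [Finset.card_insert_of_notMem (by simp [n12, n13, n14]),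
      Finset.card_insert_of_notMem (by simp [n23, n24]),
      Finset.card_insert_of_notMem (by simp [n34]), Finset.card_singleton]
  · intro γ hγ
    simp only [Finset.mem_insert, Finset.mem_singleton] at hγ
    rcases hγ with rfl | rfl | rfl | rfl
    · exact p1
    · exact p2
    · exact p3
    · exact p4

end SAIL.F
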