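import Pool.Agent.SAIL.FAC.Targets

/-!
SAIL, part A, Q1: covectors of covolume between `a` and `b` are counted by `K1 a b`.
-/

namespace SAIL.F

open Matrix MeasureTheory Filter SAIL SAIL.A

namespace Q1x

/-- the unit window at the position of `n` -/
noncomputable def Wi (V : IM) (n : Fin 3 → ℤ) : Set (ℝ × ℝ) :=
  Set.Icc (yn V n).1 ((yn V n).1 + 1) ×ˢ Set.Icc (yn V n).2 ((yn V n).2 + 1)

lemma vol_Wi (V : IM) (n : Fin 3 → ℤ) : volume (Wi V n) = 1 := by
  unfold Wi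
  rw [Measure.volume_eq_prod, Measure.prod_prod, Real.volume_Icc, Real.volume_Icc]
  simp

lemma meas_Wi (V : IM) (n : Fin 3 → ℤ) : MeasurableSet (Wi V n) :=
  measurableSet_Icc.prod measurableSet_Icc

lemma Wi_eq {V : IM} {n : Fin 3 → ℤ} {y : ℝ × ℝ} (hy : y ∈ Wi V n) :
    ∃ s t : ℝ, 0 ≤ s ∧ s ≤ 1 ∧ 0 ≤ t ∧ t ≤ 1 ∧ y = yn V n + (s, t) := by
  obtain ⟨h1, h2⟩ := hy
  refine ⟨y.1 - (yn V n).1, y.2 - (yn V n).2, ?_, ?_, ?_, ?_, ?_⟩
  · linarith [h1.1]
  · linarith [h1.2]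
  · linarith [h2.1]
  · linarith [h2.2]
  · ext
    · simp
    · simp

lemma Wi_sub {V : IM} {n : Fin 3 → ℤ} (h : Ins V n) : Wi V n ⊆ Hex V := by
  intro y hy
  obtain ⟨s, t, h1, h2, h3, h4, rfl⟩ := Wi_eq hy
  exact h s t h1 h2 h3 h4

/-- `n` is determined by `γ` -/
lemma inj {n n' : Fin 3 → ℤ} {γ : GZ} (h : n ᵥ* γ.1 = ![1, 0, 0]) (h' : n' ᵥ* γ.1 = ![1, 0, 0]) :
    n = n' := by
  have e : ∀ m : Fin 3 → ℤ, (m ᵥ* γ.1) ᵥ* (γ⁻¹).1 = m := by
    intro m
    rw [Matrix.vecMul_vecMul]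
    have : γ.1 * (γ⁻¹).1 = 1 := by
      rw [Matrix.SpecialLinearGroup.coe_inv, Matrix.mul_adjugate, γ.2, one_smul]
    rw [this, Matrix.vecMul_one]
  rw [← e n, ← e n', h, h']

lemma det_gmat_pos {V : IM} (hV : 0 < V.det) (y : ℝ × ℝ) : 0 < (gmat V y).det := by
  unfold gmat
  rw [Matrix.det_mul, Matrix.det_diagonal]
  refine mul_pos (Finset.prod_pos fun i _ => Real.exp_pos _) ?_
  rw [Matrix.det_nonsing_inv, Ring.inverse_eq_inv']
  have h : (toR V).det = ((V.det : ℤ) : ℝ) := by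
    have : toR V = (Int.castRingHom ℝ).mapMatrix V := by ext i j; rfl
    rw [this, ← RingHom.map_det]; simp
  rw [h]
  exact inv_pos.mpr (by exact_mod_cast hV)

/-- orbit sums dominate the number of `γ` where the function is at least one -/
lemma card_le_PS (hFIN : T_FIN) {R : ℝ} {ψ : M3 → ℝ} (hψ : CSF R ψ) (h0 : ∀ M, 0 ≤ ψ M)
    {M : M3} (hM : M ∈ Om) (T : Finset GZ) (hT : ∀ γ ∈ T, 1 ≤ ψ (M * ic γ)) :
    (T.card : ℝ) ≤ PS ψ M := by
  obtain ⟨N, hN⟩ := hFIN R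
  have hfin := (hN M hM).1
  have hsum : Summable fun γ : GZ => ψ (M * ic γ) := by
    refine summable_of_hasFiniteSupport ?_
    exact hfin.subset fun γ hγ => hψ.supp _ hγ
  have h1 : ∑ γ ∈ T, ψ (M * ic γ) ≤ PS ψ M := by
    unfold PS
    exact hsum.sum_le_tsum T fun γ _ => h0 _
  calc (T.card : ℝ) = ∑ _γ ∈ T, (1 : ℝ) := by simp
    _ ≤ ∑ γ ∈ T, ψ (M * ic γ) := Finset.sum_le_sum hT
    _ ≤ PS ψ M := h1

lemma Rdc_congr {M N : M3} (h1 : BB M = BB N) (h2 : dl M = dl N) (h : Rdc N) : Rdc M := by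
  unfold Rdc at *
  rw [h1, h2]
  exact h

end Q1x

open Q1x in
theorem p_Q1 (hRD : tRD) (hWN : tWN) (hFIN : T_FIN) : tQ1 := by
  classical
  intro V hV a b ha R ψ hψ h0 h1 S hS
  have hex : ∀ n : Fin 3 → ℤ, ∃ γ : GZ, n ∈ S → n ᵥ* γ.1 = ![1, 0, 0] ∧
      Rdc ((toR V)⁻¹ * ic γ) := by
    intro n
    by_cases hn : n ∈ S
    · obtain ⟨γ, hγ⟩ := hRD V hV n (hS n hn).1
      exact ⟨γ, fun _ => hγ⟩
    · exact ⟨1, fun h => absurd h hn⟩
  choose g hg using hex
  have hinj : Set.InjOn g (S : Set (Fin 3 → ℤ)) := by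
    intro n hn n' hn' h
    have e1 := (hg n hn).1
    have e2 := (hg n' hn').1
    rw [← h] at e2
    exact inj e1 e2
  have hpt : ∀ y : ℝ × ℝ, (∑ n ∈ S, (Wi V n).indicator (fun _ => (1 : ENNReal)) y) ≤
      ENNReal.ofReal (PS ψ (gmat V y)) := by
    intro y
    have e : (∑ n ∈ S, (Wi V n).indicator (fun _ => (1 : ENNReal)) y) =
        ((S.filter fun n => y ∈ Wi V n).card : ENNReal) := by
      rw [Finset.card_filter]
      push_cast
      refine Finset.sum_congr rfl fun n _ => ?_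
      by_cases hy : y ∈ Wi V n
      · rw [Set.indicator_of_mem hy, if_pos hy]
      · rw [Set.indicator_of_notMem hy, if_neg hy]
    rw [e]
    have hcard : ((S.filter fun n => y ∈ Wi V n).image g).card =
        (S.filter fun n => y ∈ Wi V n).card := by
      refine Finset.card_image_of_injOn (hinj.mono ?_)
      exact fun n hn => (Finset.mem_filter.mp hn).1
    have h2 := card_le_PS hFIN hψ h0 (M := gmat V y) (det_gmat_pos hV y)
      ((S.filter fun n => y ∈ Wi V n).image g) (by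
        intro γ hγ
        obtain ⟨n, hn, rfl⟩ := Finset.mem_image.mp hγ
        obtain ⟨hn1, hn2⟩ := Finset.mem_filter.mp hn
        obtain ⟨hs1, hs2, hs3, hs4⟩ := hS n hn1
        obtain ⟨hg1, hg2⟩ := hg n hn1
        obtain ⟨w1, w2, w3⟩ := hWN V hV n hs1 (g n) hg1
        obtain ⟨s, t, i1, i2, i3, i4, rfl⟩ := Wi_eq hn2
        obtain ⟨v1, v2, v3⟩ := w3 s t i1 i2 i3 i4
        refine h1 _ ⟨?_, v1, ?_, ?_, ?_⟩
        · rw [det_mul_ic]; exact det_gmat_pos hV _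
        · exact Rdc_congr v3 (v2.trans w2.symm) hg2
        · rw [v2]; exact hs3
        · rw [v2]; exact hs4)
    rw [hcard] at h2
    calc ((S.filter fun n => y ∈ Wi V n).card : ENNReal)
        = ENNReal.ofReal ((S.filter fun n => y ∈ Wi V n).card : ℝ) := by
          rw [ENNReal.ofReal_natCast]
      _ ≤ ENNReal.ofReal (PS ψ (gmat V y)) := ENNReal.ofReal_le_ofReal h2
  calc (S.card : ENNReal) = ∑ n ∈ S, volume (Wi V n) := by
        simp [vol_Wi]
    _ = ∑ n ∈ S, ∫⁻ y in Hex V, (Wi V n).indicator (fun _ => (1 : ENNReal)) y := by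
        refine Finset.sum_congr rfl fun n hn => ?_
        rw [lintegral_indicator (meas_Wi V n), lintegral_const, one_mul,
          Measure.restrict_restrict (meas_Wi V n), Measure.restrict_apply MeasurableSet.univ,
          Set.univ_inter, Set.inter_eq_left.mpr (Wi_sub (hS n hn).2.1)]
    _ = ∫⁻ y in Hex V, ∑ n ∈ S, (Wi V n).indicator (fun _ => (1 : ENNReal)) y := by
        rw [lintegral_finsetSum]
        exact fun n _ => measurable_const.indicator (meas_Wi V n)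
    _ ≤ ∫⁻ y in Hex V, ENNReal.ofReal (PS ψ (gmat V y)) := lintegral_mono fun y => hpt y

end SAIL.F
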