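import Pool.Agent.SAIL.FAC.Targets

/-!
SAIL, part A, item Q2: covectors are counted by `K2`, four matrices for every covector.
-/

namespace SAIL.F

open Matrix MeasureTheory Filter SAIL SAIL.A

namespace Q2x

lemma det_toR (V : IM) : (toR V).det = (V.det : ℝ) := by
  have h := (Int.castRingHom ℝ).map_det V
  rw [eq_intCast] at h
  rw [h]
  rfl

lemma det_ic (γ : GZ) : (ic γ).det = 1 := by
  have h := det_toR γ.1
  rw [γ.2, Int.cast_one] at h
  exact h

lemma det_gmat (V : IM) (hV : 0 < V.det) (y : ℝ × ℝ) : (gmat V y).det = 1 := by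
  have hV' : (0 : ℝ) < (V.det : ℝ) := by exact_mod_cast hV
  unfold gmat
  rw [Matrix.det_mul, Matrix.det_diagonal, Fin.prod_univ_three, ← Real.exp_add, ← Real.exp_add,
    Matrix.det_nonsing_inv, det_toR, Ring.inverse_eq_inv']
  have e : pos V y 0 + pos V y 1 + pos V y 2 = Real.log V.det := by
    have e0 : pos V y 0 = y.1 := rfl
    have e1 : pos V y 1 = y.2 := rfl
    have e2 : pos V y 2 = Real.log V.det - y.1 - y.2 := rfl
    rw [e0, e1, e2]
    ring
  rw [e, Real.exp_log hV']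
  exact mul_inv_cancel₀ hV'.ne'

/-- the orbit sum of a nonnegative function is at least every finite partial sum -/
lemma sum_le_PS (hFIN : T_FIN) {R : ℝ} {ψ : M3 → ℝ} (hψ : CSF R ψ) (h0 : ∀ M, 0 ≤ ψ M)
    {M : M3} (hM : M ∈ Om) (T : Finset GZ) : ∑ γ ∈ T, ψ (M * ic γ) ≤ PS ψ M := by
  unfold PS
  refine Summable.sum_le_tsum T (fun γ _ => h0 _) ?_
  obtain ⟨N, hN⟩ := hFIN R
  refine summable_of_hasFiniteSupport ((hN M hM).1.subset ?_)
  intro γ hγ
  exact hψ.supp _ hγ

/-- the covector is determined by the matrix -/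
lemma vec_inj {n n' : Fin 3 → ℤ} {γ : GZ} (h : n ᵥ* γ.1 = n' ᵥ* γ.1) : n = n' := by
  have h1 : ∀ v : Fin 3 → ℤ, (v ᵥ* γ.1) ᵥ* (γ⁻¹).1 = v := by
    intro v
    rw [Matrix.vecMul_vecMul, ← Matrix.SpecialLinearGroup.coe_mul, mul_inv_cancel,
      Matrix.SpecialLinearGroup.coe_one, Matrix.vecMul_one]
  rw [← h1 n, ← h1 n', h]

/-- the window of a covector -/
def W (V : IM) (n : Fin 3 → ℤ) : Set (ℝ × ℝ) :=
  Set.Icc (yn V n).1 ((yn V n).1 + 1) ×ˢ Set.Icc (yn V n).2 ((yn V n).2 + 1)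

lemma meas_W (V : IM) (n : Fin 3 → ℤ) : MeasurableSet (W V n) :=
  measurableSet_Icc.prod measurableSet_Icc

lemma vol_W (V : IM) (n : Fin 3 → ℤ) : volume (W V n) = 1 := by
  unfold W
  rw [Measure.volume_eq_prod, Measure.prod_prod, Real.volume_Icc, Real.volume_Icc,
    add_sub_cancel_left, add_sub_cancel_left, ENNReal.ofReal_one, one_mul]

lemma mem_W {V : IM} {n : Fin 3 → ℤ} {y : ℝ × ℝ} (h : y ∈ W V n) :
    ∃ s t : ℝ, 0 ≤ s ∧ s ≤ 1 ∧ 0 ≤ t ∧ t ≤ 1 ∧ y = yn V n + (s, t) := by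
  obtain ⟨⟨h1, h2⟩, h3, h4⟩ := h
  refine ⟨y.1 - (yn V n).1, y.2 - (yn V n).2, by linarith, by linarith, by linarith,
    by linarith, ?_⟩
  ext
  · simp
  · simp

lemma W_sub {V : IM} {n : Fin 3 → ℤ} (h : Ins V n) : W V n ⊆ Hex V := by
  intro y hy
  obtain ⟨s, t, h1, h2, h3, h4, rfl⟩ := mem_W hy
  exact h s t h1 h2 h3 h4

end Q2x

open Q2x in
/-- Q2. Covectors are counted by `K2`. -/
theorem p_Q2 (hPR : tPR) (hWN : tWN) (hFIN : T_FIN) : tQ2 := by
  intro V hV a ha R ψ hψ h0 h1 S hS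
  classical
  have hPR' := hPR V hV
  choose! G hG using hPR'
  -- the pointwise inequality
  have key : ∀ y : ℝ × ℝ, 4 * ∑ n ∈ S, (W V n).indicator (fun _ => (1 : ENNReal)) y ≤
      ENNReal.ofReal (PS ψ (gmat V y)) := by
    intro y
    set Sy := S.filter (fun n => y ∈ W V n) with hSy
    have hsum : ∑ n ∈ S, (W V n).indicator (fun _ => (1 : ENNReal)) y = (Sy.card : ENNReal) := by
      rw [hSy, Finset.card_filter]
      push_cast
      refine Finset.sum_congr rfl fun n _ => ?_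
      by_cases hn : y ∈ W V n
      · rw [Set.indicator_of_mem hn, if_pos hn]
      · rw [Set.indicator_of_notMem hn, if_neg hn]
    have hcard : (Sy.biUnion G).card = 4 * Sy.card := by
      rw [Finset.card_biUnion]
      · rw [Finset.sum_congr rfl (fun n hn => (hG n (hS n (Finset.mem_filter.1 hn).1).1).1),
          Finset.sum_const, smul_eq_mul, mul_comm]
      · intro n hn n' hn' hne
        show Disjoint (G n) (G n')
        rw [Finset.disjoint_left]
        intro γ hγ hγ'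
        have hn1 := (hS n (Finset.mem_filter.1 hn).1).1
        have hn2 := (hS n' (Finset.mem_filter.1 hn').1).1
        exact hne (vec_inj (((hG n hn1).2 γ hγ).1.trans ((hG n' hn2).2 γ hγ').1.symm))
    have hone : ∀ γ ∈ Sy.biUnion G, 1 ≤ ψ (gmat V y * ic γ) := by
      intro γ hγ
      obtain ⟨n, hn, hγn⟩ := Finset.mem_biUnion.1 hγ
      obtain ⟨hnS, hyW⟩ := Finset.mem_filter.1 hn
      obtain ⟨hn1, -, hn3⟩ := hS n hnS
      obtain ⟨s, t, hs0, hs1, ht0, ht1, hy⟩ := mem_W hyW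
      obtain ⟨hγ1, hγ2⟩ := (hG n hn1).2 γ hγn
      obtain ⟨-, -, hw⟩ := hWN V hV n hn1 γ hγ1
      obtain ⟨hw1, hw2, hw3⟩ := hw s t hs0 hs1 ht0 ht1
      rw [← hy] at hw1 hw2 hw3
      refine h1 _ ⟨?_, hw1, ?_, ?_⟩
      · rw [Matrix.det_mul, det_gmat V hV, det_ic, one_mul]
        exact one_pos
      · rw [hw2]
        exact hn3
      · rw [hw3]
        exact hγ2
    have hOm : gmat V y ∈ Om := by
      show 0 < (gmat V y).det
      rw [det_gmat V hV]
      exact one_pos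
    have hps : ((4 * Sy.card : ℕ) : ℝ) ≤ PS ψ (gmat V y) := by
      rw [← hcard]
      calc ((Sy.biUnion G).card : ℝ) = ∑ _γ ∈ Sy.biUnion G, (1 : ℝ) := by simp
        _ ≤ ∑ γ ∈ Sy.biUnion G, ψ (gmat V y * ic γ) := Finset.sum_le_sum hone
        _ ≤ PS ψ (gmat V y) := sum_le_PS hFIN hψ h0 hOm _
    rw [hsum]
    calc 4 * (Sy.card : ENNReal) = ENNReal.ofReal ((4 * Sy.card : ℕ) : ℝ) := by
          rw [ENNReal.ofReal_natCast]
          push_cast
          rfl
      _ ≤ ENNReal.ofReal (PS ψ (gmat V y)) := ENNReal.ofReal_le_ofReal hps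
  -- integration
  have hmeas : ∀ n ∈ S, Measurable ((W V n).indicator (fun _ => (1 : ENNReal))) := fun n _ =>
    measurable_const.indicator (meas_W V n)
  have hint : ∫⁻ y in Hex V, 4 * ∑ n ∈ S, (W V n).indicator (fun _ => (1 : ENNReal)) y =
      4 * (S.card : ENNReal) := by
    rw [lintegral_const_mul _ (Finset.measurable_fun_sum S hmeas),
      lintegral_finsetSum S hmeas]
    congr 1
    calc ∑ n ∈ S, ∫⁻ y in Hex V, (W V n).indicator (fun _ => (1 : ENNReal)) y
        = ∑ _n ∈ S, (1 : ENNReal) := by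
          refine Finset.sum_congr rfl fun n hn => ?_
          rw [lintegral_indicator (meas_W V n), lintegral_const, one_mul,
            Measure.restrict_apply_univ, Measure.restrict_apply (meas_W V n),
            Set.inter_eq_left.2 (W_sub (hS n hn).2.1), vol_W]
      _ = (S.card : ENNReal) := by simp
  rw [← hint]
  exact lintegral_mono fun y => key y

end SAIL.F
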