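import Pool.Agent.SAIL.FAC.Targets

/-!
SAIL, part A: an explicit quadrangular face.
-/

namespace SAIL.F

open Matrix MeasureTheory Filter SAIL SAIL.A

namespace QPx

/-- The matrix. -/
def V0 : IM := !![4, 9, -7; -1, 31, -3; 2, 14, 6]

lemma det_V0 : V0.det = 1444 := by
  simp [V0, Matrix.det_fin_three]

lemma adj_V0 : V0.adjugate = !![228, -152, 190; 0, 38, 19; -76, -38, 133] := by
  rw [V0, Matrix.adjugate_fin_three_of]
  norm_num

lemma mem_Lp (z : Fin 3 → ℤ) : z ∈ Lp V0 ↔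
    z ≠ 0 ∧ 0 ≤ 6 * z 0 - 4 * z 1 + 5 * z 2 ∧ 0 ≤ 2 * z 1 + z 2 ∧
      0 ≤ -4 * z 0 - 2 * z 1 + 7 * z 2 := by
  simp only [Lp, Set.mem_ofPred_eq, adj_V0, Fin.forall_fin_succ]
  simp [Matrix.mulVec, dotProduct, Fin.sum_univ_three]
  intro _
  constructor
  · rintro ⟨h1, h2, h3⟩
    refine ⟨by linarith, by linarith, by linarith⟩
  · rintro ⟨h1, h2, h3⟩
    refine ⟨by linarith, by linarith, by linarith⟩

/-- The level of the integer points is at least one, and the points of level one are known. -/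
lemma level (z : Fin 3 → ℤ) (hz : z ∈ Lp V0) : 1 ≤ z 2 ∧
    (z 2 = 1 → (z 0 = 0 ∨ z 0 = 1) ∧ (z 1 = 0 ∨ z 1 = 1)) := by
  rw [mem_Lp] at hz
  obtain ⟨h0, h1, h2, h3⟩ := hz
  have h4 : 1 ≤ z 2 := by
    by_contra hc
    apply h0
    have h5 : z 2 = 0 := by omega
    have h6 : z 1 = 0 := by omega
    have h7 : z 0 = 0 := by omega
    funext i
    fin_cases i <;> simp [h5, h6, h7]
  refine ⟨h4, fun h5 => ?_⟩
  constructor <;> omega

/-- The four points. -/
def P : Set (Fin 3 → ℝ) := {![0, 0, 1], ![1, 0, 1], ![0, 1, 1], ![1, 1, 1]}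

lemma P_sub : P ⊆ zr '' Lp V0 := by
  intro x hx
  simp only [P, Set.mem_insert_iff, Set.mem_singleton_iff] at hx
  rcases hx with rfl | rfl | rfl | rfl
  · refine ⟨![0, 0, 1], ?_, ?_⟩
    · rw [mem_Lp]
      refine ⟨fun h => by simpa using congrFun h 2, by simp, by simp, by simp⟩
    · funext i
      fin_cases i <;> simp [zr]
  · refine ⟨![1, 0, 1], ?_, ?_⟩
    · rw [mem_Lp]
      refine ⟨fun h => by simpa using congrFun h 2, by simp, by simp, by simp⟩
    · funext i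
      fin_cases i <;> simp [zr]
  · refine ⟨![0, 1, 1], ?_, ?_⟩
    · rw [mem_Lp]
      refine ⟨fun h => by simpa using congrFun h 2, by simp, by simp, by simp⟩
    · funext i
      fin_cases i <;> simp [zr]
  · refine ⟨![1, 1, 1], ?_, ?_⟩
    · rw [mem_Lp]
      refine ⟨fun h => by simpa using congrFun h 2, by simp, by simp, by simp⟩
    · funext i
      fin_cases i <;> simp [zr]

lemma P_level {x : Fin 3 → ℝ} (hx : x ∈ convexHull ℝ P) :
    (0 ≤ x 0 ∧ x 0 ≤ 1) ∧ (0 ≤ x 1 ∧ x 1 ≤ 1) ∧ x 2 = 1 := by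
  have hconv : Convex ℝ {x : Fin 3 → ℝ | (0 ≤ x 0 ∧ x 0 ≤ 1) ∧ (0 ≤ x 1 ∧ x 1 ≤ 1) ∧
      x 2 = 1} := by
    rintro x ⟨⟨a1, a2⟩, ⟨a3, a4⟩, a5⟩ y ⟨⟨b1, b2⟩, ⟨b3, b4⟩, b5⟩ a b ha hb hab
    simp only [Set.mem_ofPred_eq, Pi.add_apply, Pi.smul_apply, smul_eq_mul]
    refine ⟨⟨by positivity, ?_⟩, ⟨by positivity, ?_⟩, ?_⟩
    · nlinarith
    · nlinarith
    · rw [a5, b5]
      linarith
  have hsub : P ⊆ {x : Fin 3 → ℝ | (0 ≤ x 0 ∧ x 0 ≤ 1) ∧ (0 ≤ x 1 ∧ x 1 ≤ 1) ∧ x 2 = 1} := by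
    intro y hy
    simp only [P, Set.mem_insert_iff, Set.mem_singleton_iff] at hy
    rcases hy with rfl | rfl | rfl | rfl <;> simp
  exact convexHull_min hsub hconv hx

lemma mem_P_of_level {z : Fin 3 → ℤ} (hz : z ∈ Lp V0) (h : z 2 = 1) : zr z ∈ P := by
  obtain ⟨h1, h2⟩ := (level z hz).2 h
  have h3 : zr z = ![(z 0 : ℝ), (z 1 : ℝ), (z 2 : ℝ)] := by
    funext i
    fin_cases i <;> simp [zr]
  rw [h3, h]
  simp only [P, Set.mem_insert_iff, Set.mem_singleton_iff]
  rcases h1 with h1 | h1 <;> rcases h2 with h2 | h2 <;> simp [h1, h2]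

/-- Points of the hull. -/
lemma hull_sub : convexHull ℝ (zr '' Lp V0) ⊆ {x | 1 < x 2} ∪ convexHull ℝ P := by
  refine convexHull_min ?_ ?_
  · rintro _ ⟨z, hz, rfl⟩
    rcases eq_or_lt_of_le (level z hz).1 with h | h
    · right
      exact subset_convexHull ℝ P (mem_P_of_level hz h.symm)
    · left
      show (1 : ℝ) < zr z 2
      simp only [zr]
      exact_mod_cast h
  · rw [convex_iff_forall_pos]
    intro x hx y hy a b ha hb hab
    have hge : ∀ w : Fin 3 → ℝ, w ∈ {x : Fin 3 → ℝ | 1 < x 2} ∪ convexHull ℝ P → 1 ≤ w 2 := by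
      rintro w (hw | hw)
      · exact le_of_lt hw
      · exact (P_level hw).2.2.ge
    have hx1 := hge x hx
    have hy1 := hge y hy
    have key : (a • x + b • y) 2 = a * x 2 + b * y 2 := by
      simp
    rcases hx with hx | hx
    · left
      show 1 < (a • x + b • y) 2
      have hx' : 1 < x 2 := hx
      rw [key]
      nlinarith
    · rcases hy with hy | hy
      · left
        show 1 < (a • x + b • y) 2
        have hy' : 1 < y 2 := hy
        rw [key]
        nlinarith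
      · right
        exact convex_convexHull ℝ P hx hy ha.le hb.le hab

/-- The face. -/
lemma exposed : IsExposed ℝ (convexHull ℝ (zr '' Lp V0)) (convexHull ℝ P) := by
  intro _
  refine ⟨-(ContinuousLinearMap.proj 2 : (Fin 3 → ℝ) →L[ℝ] ℝ), ?_⟩
  have hsub : convexHull ℝ P ⊆ convexHull ℝ (zr '' Lp V0) := convexHull_mono P_sub
  have hlev : ∀ y ∈ convexHull ℝ (zr '' Lp V0), 1 ≤ y 2 := by
    intro y hy
    rcases hull_sub hy with h | h
    · exact le_of_lt h
    · exact (P_level h).2.2.ge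
  ext x
  simp only [_root_.neg_apply, ContinuousLinearMap.proj_apply, Set.mem_ofPred_eq,
    neg_le_neg_iff]
  constructor
  · intro hx
    refine ⟨hsub hx, fun y hy => ?_⟩
    rw [(P_level hx).2.2]
    exact hlev y hy
  · rintro ⟨hx, hmin⟩
    rcases hull_sub hx with h | h
    · exfalso
      have h1 : (![0, 0, 1] : Fin 3 → ℝ) ∈ P := by simp [P]
      have h2 := hmin _ (hsub (subset_convexHull ℝ P h1))
      have h3 : 1 < x 2 := h
      simp at h2
      linarith
    · exact h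

lemma P_fin : P.Finite := by
  unfold P
  exact Set.toFinite _

lemma bdd : Bornology.IsBounded (convexHull ℝ P) :=
  isBounded_convexHull.mpr P_fin.isBounded

lemma extreme : Set.extremePoints ℝ (convexHull ℝ P) = P := by
  apply Set.Subset.antisymm extremePoints_convexHull_subset
  intro p hp
  rw [mem_extremePoints]
  refine ⟨subset_convexHull ℝ P hp, fun x hx y hy hseg => ?_⟩
  obtain ⟨a, b, ha, hb, hab, hxy⟩ := hseg
  obtain ⟨⟨x1, x2⟩, ⟨x3, x4⟩, x5⟩ := P_level hx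
  obtain ⟨⟨y1, y2⟩, ⟨y3, y4⟩, y5⟩ := P_level hy
  have e0 : a * x 0 + b * y 0 = p 0 := by rw [← hxy]; simp
  have e1 : a * x 1 + b * y 1 = p 1 := by rw [← hxy]; simp
  have hp2 : (p 0 = 0 ∨ p 0 = 1) ∧ (p 1 = 0 ∨ p 1 = 1) ∧ p 2 = 1 := by
    simp only [P, Set.mem_insert_iff, Set.mem_singleton_iff] at hp
    rcases hp with rfl | rfl | rfl | rfl <;> simp
  have key : ∀ u v w : ℝ, 0 ≤ u → u ≤ 1 → 0 ≤ v → v ≤ 1 → (w = 0 ∨ w = 1) →
      a * u + b * v = w → u = w ∧ v = w := by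
    intro u v w hu hu' hv hv' hw he
    rcases hw with rfl | rfl
    · have h1 : 0 ≤ a * u := mul_nonneg ha.le hu
      have h2 : 0 ≤ b * v := mul_nonneg hb.le hv
      have h3 : a * u = 0 := by linarith
      have h4 : b * v = 0 := by linarith
      exact ⟨(mul_eq_zero.mp h3).resolve_left ha.ne', (mul_eq_zero.mp h4).resolve_left hb.ne'⟩
    · have h1 : 0 ≤ a * (1 - u) := mul_nonneg ha.le (by linarith)
      have h2 : 0 ≤ b * (1 - v) := mul_nonneg hb.le (by linarith)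
      have h3 : a * (1 - u) = 0 := by nlinarith
      have h4 : b * (1 - v) = 0 := by nlinarith
      have h5 := (mul_eq_zero.mp h3).resolve_left ha.ne'
      have h6 := (mul_eq_zero.mp h4).resolve_left hb.ne'
      exact ⟨by linarith, by linarith⟩
  obtain ⟨k0, k0'⟩ := key _ _ _ x1 x2 y1 y2 hp2.1 e0
  obtain ⟨k1, k1'⟩ := key _ _ _ x3 x4 y3 y4 hp2.2.1 e1
  constructor
  · funext i
    fin_cases i
    · exact k0
    · exact k1
    · exact x5.trans hp2.2.2.symm
  · funext i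
    fin_cases i
    · exact k0'
    · exact k1'
    · exact y5.trans hp2.2.2.symm

lemma card_P : P.ncard = 4 := by
  have h : P = (({![0, 0, 1], ![1, 0, 1], ![0, 1, 1], ![1, 1, 1]} : Finset (Fin 3 → ℝ)) :
      Set (Fin 3 → ℝ)) := by
    simp [P]
  rw [h, Set.ncard_coe_finset]
  rw [Finset.card_insert_of_notMem, Finset.card_insert_of_notMem, Finset.card_insert_of_notMem,
    Finset.card_singleton]
  · simp
  · simp
  · simp

lemma dim : Module.finrank ℝ (vectorSpan ℝ (convexHull ℝ P)) = 2 := by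
  have h1 : vectorSpan ℝ (convexHull ℝ P) = vectorSpan ℝ P := by
    rw [← direction_affineSpan, affineSpan_convexHull, direction_affineSpan]
  have h0 : (![0, 0, 1] : Fin 3 → ℝ) ∈ P := by simp [P]
  have h2 : vectorSpan ℝ P =
      Submodule.span ℝ (Set.range (![![1, 0, 0], ![0, 1, 0]] : Fin 2 → Fin 3 → ℝ)) := by
    rw [vectorSpan_eq_span_vsub_set_right ℝ h0]
    apply le_antisymm
    · rw [Submodule.span_le]
      rintro _ ⟨p, hp, rfl⟩
      have a1 : (![1, 0, 0] : Fin 3 → ℝ) ∈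
          Submodule.span ℝ (Set.range (![![1, 0, 0], ![0, 1, 0]] : Fin 2 → Fin 3 → ℝ)) :=
        Submodule.subset_span ⟨0, rfl⟩
      have a2 : (![0, 1, 0] : Fin 3 → ℝ) ∈
          Submodule.span ℝ (Set.range (![![1, 0, 0], ![0, 1, 0]] : Fin 2 → Fin 3 → ℝ)) :=
        Submodule.subset_span ⟨1, rfl⟩
      have hp2 : p 2 = 1 := (P_level (subset_convexHull ℝ P hp)).2.2
      have h3 : (p -ᵥ (![0, 0, 1] : Fin 3 → ℝ)) =
          p 0 • (![1, 0, 0] : Fin 3 → ℝ) + p 1 • (![0, 1, 0] : Fin 3 → ℝ) := by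
        funext i
        fin_cases i <;> simp [hp2]
      show (p -ᵥ (![0, 0, 1] : Fin 3 → ℝ)) ∈ _
      rw [h3]
      exact Submodule.add_mem _ (Submodule.smul_mem _ _ a1) (Submodule.smul_mem _ _ a2)
    · rw [Submodule.span_le]
      rintro _ ⟨i, rfl⟩
      fin_cases i
      · refine Submodule.subset_span ⟨![1, 0, 1], by simp [P], ?_⟩
        funext i
        fin_cases i <;> simp
      · refine Submodule.subset_span ⟨![0, 1, 1], by simp [P], ?_⟩
        funext i
        fin_cases i <;> simp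
  rw [h1, h2, finrank_span_eq_card]
  · simp
  · rw [LinearIndependent.pair_iff]
    intro s t hst
    have a1 := congrFun hst 0
    have a2 := congrFun hst 1
    simp at a1 a2
    exact ⟨a1, a2⟩

lemma prim_V0 (i : Fin 3) : prim (vcol V0 i) := by
  intro d hd
  fin_cases i
  · have h := hd 1
    simp [vcol, V0] at h
    exact isUnit_of_dvd_one h
  · have h0 := hd 0
    have h1 := hd 1
    simp [vcol, V0] at h0 h1
    have h2 : d ∣ 7 * 9 - 2 * 31 := dvd_sub (h0.mul_left 7) (h1.mul_left 2)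
    norm_num at h2
    exact isUnit_of_dvd_one h2
  · have h0 := hd 0
    have h1 := hd 1
    simp [vcol, V0] at h0 h1
    have h2 : d ∣ 7 - 2 * 3 := dvd_sub h0 (h1.mul_left 2)
    norm_num at h2
    exact isUnit_of_dvd_one h2

end QPx

theorem p_QP (hY1 : tY1) : tQP := by
  have hdet : 0 < QPx.V0.det := by rw [QPx.det_V0]; norm_num
  refine ⟨QPx.V0, hdet, QPx.prim_V0, convexHull ℝ QPx.P, ?_⟩
  have hh : hull (cV QPx.V0) = convexHull ℝ (zr '' Lp QPx.V0) := by
    unfold hull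
    rw [(hY1 QPx.V0 hdet).2]
  refine ⟨⟨?_, QPx.bdd, QPx.dim⟩, ?_⟩
  · rw [hh]
    exact QPx.exposed
  · rw [QPx.extreme, QPx.card_P]

end SAIL.F
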