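import Pool.Agent.SAIL.FAC.Targets

/-!
SAIL, part A, item RD: Gauss reduction in the plane of a face.
-/

namespace SAIL.F.RDx

open Matrix SAIL SAIL.A SAIL.F

/-- `n_i (adj V z)_i`: the coordinates of `z` in the plane, times `det V`. -/
def u (V : IM) (n z : Fin 3 → ℤ) (i : Fin 3) : ℤ := nv V n i * (V.adjugate *ᵥ z) i

lemma u_add (V : IM) (n z z' : Fin 3 → ℤ) (i : Fin 3) :
    u V n (z + z') i = u V n z i + u V n z' i := by
  unfold u
  rw [Matrix.mulVec_add, Pi.add_apply]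
  ring

lemma u_smul (V : IM) (n z : Fin 3 → ℤ) (c : ℤ) (i : Fin 3) :
    u V n (c • z) i = c * u V n z i := by
  unfold u
  rw [Matrix.mulVec_smul, Pi.smul_apply, smul_eq_mul]
  ring

lemma u_neg (V : IM) (n z : Fin 3 → ℤ) (i : Fin 3) : u V n (-z) i = -u V n z i := by
  unfold u
  rw [Matrix.mulVec_neg, Pi.neg_apply]
  ring

lemma u_sub (V : IM) (n z z' : Fin 3 → ℤ) (i : Fin 3) :
    u V n (z - z') i = u V n z i - u V n z' i := by
  rw [sub_eq_add_neg, u_add, u_neg]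
  ring

lemma u_sum (V : IM) (n z : Fin 3 → ℤ) :
    u V n z 0 + u V n z 1 + u V n z 2 = V.det * (n ⬝ᵥ z) := by
  have h1 : n ⬝ᵥ (V *ᵥ (V.adjugate *ᵥ z)) = V.det * (n ⬝ᵥ z) := by
    rw [Matrix.mulVec_mulVec, Matrix.mul_adjugate, Matrix.smul_mulVec, Matrix.one_mulVec,
      dotProduct_smul, smul_eq_mul]
  rw [← h1]
  simp only [u, nv, dotProduct, Matrix.mulVec, Fin.sum_univ_three, vcol]
  ring

/-- The matrix with the given columns. -/
def cols (w e e' : Fin 3 → ℤ) : IM := Matrix.of fun r => ![w r, e r, e' r]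

lemma cols_det (w e e' : Fin 3 → ℤ) : (cols w e e').det =
    w 0 * e 1 * e' 2 - w 0 * e' 1 * e 2 - e 0 * w 1 * e' 2 + e 0 * e' 1 * w 2 +
      e' 0 * w 1 * e 2 - e' 0 * e 1 * w 2 := by
  rw [Matrix.det_fin_three]
  rfl

lemma cross (V : IM) (hV : 0 < V.det) (n w e e' : Fin 3 → ℤ) (hw : n ⬝ᵥ w = 1)
    (he : n ⬝ᵥ e = 0) (he' : n ⬝ᵥ e' = 0) (hdet : (cols w e e').det = 1) :
    u V n e 0 * u V n e' 1 - u V n e 1 * u V n e' 0 =
      V.det * (nv V n 0 * nv V n 1 * nv V n 2) := by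
  have h1 : (Matrix.diagonal (nv V n) * (V.adjugate * cols w e e')).det =
      nv V n 0 * nv V n 1 * nv V n 2 * V.det ^ 2 := by
    rw [Matrix.det_mul, Matrix.det_mul, hdet, Matrix.det_diagonal, Matrix.det_adjugate,
      Fin.prod_univ_three, mul_one]
    rfl
  have h2 : Matrix.diagonal (nv V n) * (V.adjugate * cols w e e') =
      cols (u V n w) (u V n e) (u V n e') := by
    ext i j
    rw [Matrix.diagonal_mul]
    fin_cases j <;> simp [cols, u, Matrix.mul_apply, Matrix.mulVec, dotProduct]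
  rw [h2, cols_det] at h1
  have s0 := u_sum V n w
  have s1 := u_sum V n e
  have s2 := u_sum V n e'
  rw [hw] at s0
  rw [he] at s1
  rw [he'] at s2
  have h3 : V.det * (u V n e 0 * u V n e' 1 - u V n e 1 * u V n e' 0) =
      V.det * (V.det * (nv V n 0 * nv V n 1 * nv V n 2)) := by
    linear_combination h1 - (u V n e 0 * u V n e' 1 - u V n e' 0 * u V n e 1) * s0 -
      (u V n e' 0 * u V n w 1 - u V n w 0 * u V n e' 1) * s1 -
      (u V n w 0 * u V n e 1 - u V n e 0 * u V n w 1) * s2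
  exact mul_left_cancel₀ hV.ne' h3

/-- squared length -/
def q (V : IM) (n z : Fin 3 → ℤ) : ℤ := u V n z 0 ^ 2 + u V n z 1 ^ 2

/-- scalar product -/
def dt (V : IM) (n z z' : Fin 3 → ℤ) : ℤ := u V n z 0 * u V n z' 0 + u V n z 1 * u V n z' 1

lemma q_nonneg (V : IM) (n z : Fin 3 → ℤ) : 0 ≤ q V n z := by
  unfold q
  positivity

lemma q_add (V : IM) (n z z' : Fin 3 → ℤ) :
    q V n (z + z') = q V n z + q V n z' + 2 * dt V n z z' := by
  unfold q dt
  rw [u_add, u_add]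
  ring

lemma q_sub (V : IM) (n z z' : Fin 3 → ℤ) :
    q V n (z - z') = q V n z + q V n z' - 2 * dt V n z z' := by
  unfold q dt
  rw [u_sub, u_sub]
  ring

lemma q_neg (V : IM) (n z : Fin 3 → ℤ) : q V n (-z) = q V n z := by
  unfold q
  rw [u_neg, u_neg]
  ring

lemma exists_min {α : Type} (p : α → Prop) (f : α → ℕ) (h : ∃ x, p x) :
    ∃ x, p x ∧ ∀ y, p y → f x ≤ f y := by
  obtain ⟨a, ha, hmin⟩ := (measure f).wf.has_min {x | p x} h
  exact ⟨a, ha, fun y hy => not_lt.1 (hmin y hy)⟩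

/-- reduced basis -/
lemma red (V : IM) (n w d f : Fin 3 → ℤ) (m : ℤ) (hd : n ⬝ᵥ d = 0) (hf : n ⬝ᵥ f = 0)
    (hdet : (cols w d f).det = 1) (qd : q V n d ≤ m) (qf : q V n f ≤ m) :
    ∃ e e' : Fin 3 → ℤ, n ⬝ᵥ e = 0 ∧ n ⬝ᵥ e' = 0 ∧ (cols w e e').det = 1 ∧
      q V n e ≤ q V n e' ∧ q V n e' ≤ m ∧ 2 * |dt V n e e'| ≤ q V n e ∧ 0 ≤ u V n e 1 := by
  obtain ⟨⟨e, e'⟩, ⟨he, he', hD, qe, qe'⟩, hmin⟩ := exists_min
    (fun p : (Fin 3 → ℤ) × (Fin 3 → ℤ) => n ⬝ᵥ p.1 = 0 ∧ n ⬝ᵥ p.2 = 0 ∧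
      (cols w p.1 p.2).det = 1 ∧ q V n p.1 ≤ m ∧ q V n p.2 ≤ m)
    (fun p => (q V n p.1 + q V n p.2).toNat) ⟨(d, f), hd, hf, hdet, qd, qf⟩
  simp only at he he' hD qe qe' hmin
  have key1 : ∀ x : Fin 3 → ℤ, n ⬝ᵥ x = 0 → (cols w e x).det = 1 → q V n e' ≤ q V n x := by
    intro x hx hdx
    by_contra hc
    have h1 := hmin (e, x) ⟨he, hx, hdx, qe, by linarith⟩
    simp only at h1
    have h2 := q_nonneg V n e
    have h3 := q_nonneg V n e'
    have h4 := q_nonneg V n x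
    omega
  have key2 : ∀ x : Fin 3 → ℤ, n ⬝ᵥ x = 0 → (cols w x e').det = 1 → q V n e ≤ q V n x := by
    intro x hx hdx
    by_contra hc
    have h1 := hmin (x, e') ⟨hx, he', hdx, by linarith, qe'⟩
    simp only at h1
    have h2 := q_nonneg V n e
    have h3 := q_nonneg V n e'
    have h4 := q_nonneg V n x
    omega
  have hD' := hD
  rw [cols_det] at hD'
  have a1 := key1 (e' + e) (by rw [dotProduct_add, he, he', add_zero]) (by
    rw [cols_det]
    simp only [Pi.add_apply]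
    linear_combination hD')
  have a2 := key1 (e' - e) (by rw [dotProduct_sub, he, he', sub_zero]) (by
    rw [cols_det]
    simp only [Pi.sub_apply]
    linear_combination hD')
  have a3 := key2 (e + e') (by rw [dotProduct_add, he, he', add_zero]) (by
    rw [cols_det]
    simp only [Pi.add_apply]
    linear_combination hD')
  have a4 := key2 (e - e') (by rw [dotProduct_sub, he, he', sub_zero]) (by
    rw [cols_det]
    simp only [Pi.sub_apply]
    linear_combination hD')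
  rw [q_add] at a1 a3
  rw [q_sub] at a2 a4
  have hc : dt V n e' e = dt V n e e' := by
    unfold dt
    ring
  rw [hc] at a1 a2
  -- order the two vectors
  obtain ⟨f1, f2, b1, b2, b3, b4, b5, b6⟩ : ∃ f1 f2 : Fin 3 → ℤ, n ⬝ᵥ f1 = 0 ∧ n ⬝ᵥ f2 = 0 ∧
      (cols w f1 f2).det = 1 ∧ q V n f1 ≤ q V n f2 ∧ q V n f2 ≤ m ∧
      2 * |dt V n f1 f2| ≤ q V n f1 := by
    rcases le_total (q V n e) (q V n e') with h | h
    · refine ⟨e, e', he, he', hD, h, qe', ?_⟩
      rcases abs_cases (dt V n e e') with ⟨h1, -⟩ | ⟨h1, -⟩ <;> rw [h1] <;> linarith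
    · refine ⟨e', -e, he', ?_, ?_, ?_, ?_, ?_⟩
      · rw [dotProduct_neg, he, neg_zero]
      · rw [cols_det]
        simp only [Pi.neg_apply]
        linear_combination hD'
      · rw [q_neg]
        exact h
      · rw [q_neg]
        exact qe
      · have h2 : dt V n e' (-e) = -dt V n e e' := by
          unfold dt
          rw [u_neg, u_neg]
          ring
        rw [h2, abs_neg]
        rcases abs_cases (dt V n e e') with ⟨h1, -⟩ | ⟨h1, -⟩ <;> rw [h1] <;> linarith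
  -- the sign
  rcases le_total 0 (u V n f1 1) with h | h
  · exact ⟨f1, f2, b1, b2, b3, b4, b5, b6, h⟩
  · refine ⟨-f1, -f2, ?_, ?_, ?_, ?_, ?_, ?_, ?_⟩
    · rw [dotProduct_neg, b1, neg_zero]
    · rw [dotProduct_neg, b2, neg_zero]
    · rw [cols_det] at b3 ⊢
      simp only [Pi.neg_apply]
      linear_combination b3
    · rw [q_neg, q_neg]
      exact b4
    · rw [q_neg]
      exact b5
    · have h2 : dt V n (-f1) (-f2) = dt V n f1 f2 := by
        unfold dt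
        rw [u_neg, u_neg, u_neg, u_neg]
        ring
      rw [h2, q_neg]
      exact b6
    · rw [u_neg]
      linarith

/-- the base point -/
lemma base (V : IM) (n w e e' : Fin 3 → ℤ) (N : ℤ) (hN : 0 < N) (hw : n ⬝ᵥ w = 1)
    (he : n ⬝ᵥ e = 0) (he' : n ⬝ᵥ e' = 0) (hdet : (cols w e e').det = 1)
    (hc : u V n e 0 * u V n e' 1 - u V n e 1 * u V n e' 0 = N) :
    ∃ w' : Fin 3 → ℤ, n ⬝ᵥ w' = 1 ∧ (cols w' e e').det = 1 ∧
      0 ≤ u V n w' 0 * u V n e' 1 - u V n w' 1 * u V n e' 0 ∧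
      u V n w' 0 * u V n e' 1 - u V n w' 1 * u V n e' 0 ≤ N ∧
      0 ≤ u V n e 0 * u V n w' 1 - u V n e 1 * u V n w' 0 ∧
      u V n e 0 * u V n w' 1 - u V n e 1 * u V n w' 0 ≤ N := by
  set X := u V n w 0 * u V n e' 1 - u V n w 1 * u V n e' 0 with hX
  set Y := u V n e 0 * u V n w 1 - u V n e 1 * u V n w 0 with hY
  refine ⟨w + (-(X / N)) • e + (-(Y / N)) • e', ?_, ?_, ?_⟩
  · rw [dotProduct_add, dotProduct_add, dotProduct_smul, dotProduct_smul, hw, he, he']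
    simp
  · rw [cols_det] at hdet ⊢
    simp only [Pi.add_apply, Pi.smul_apply, smul_eq_mul]
    linear_combination hdet
  · have h1 : u V n (w + (-(X / N)) • e + (-(Y / N)) • e') 0 * u V n e' 1 -
        u V n (w + (-(X / N)) • e + (-(Y / N)) • e') 1 * u V n e' 0 = X - N * (X / N) := by
      simp only [u_add, u_smul]
      rw [hX]
      linear_combination (-(X / N)) * hc
    have h2 : u V n e 0 * u V n (w + (-(X / N)) • e + (-(Y / N)) • e') 1 -
        u V n e 1 * u V n (w + (-(X / N)) • e + (-(Y / N)) • e') 0 = Y - N * (Y / N) := by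
      simp only [u_add, u_smul]
      rw [hY]
      linear_combination (-(Y / N)) * hc
    rw [h1, h2]
    have m1 := Int.emod_add_mul_ediv X N
    have m2 := Int.emod_add_mul_ediv Y N
    have m3 := Int.emod_nonneg X hN.ne'
    have m4 := Int.emod_lt_of_pos X hN
    have m5 := Int.emod_nonneg Y hN.ne'
    have m6 := Int.emod_lt_of_pos Y hN
    refine ⟨?_, ?_, ?_, ?_⟩ <;> linarith

/-! ### the real matrices -/

lemma toR_det (W : IM) : (toR W).det = (W.det : ℝ) := by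
  unfold toR
  exact (Int.cast_det W).symm

lemma inv_apply (V : IM) (i j : Fin 3) :
    (toR V)⁻¹ i j = (V.adjugate i j : ℝ) / (V.det : ℝ) := by
  have h1 : (toR V).adjugate = toR V.adjugate := by
    have := RingHom.map_adjugate (Int.castRingHom ℝ) V
    exact this.symm
  rw [Matrix.inv_def, h1, toR_det, Ring.inverse_eq_inv', Matrix.smul_apply, smul_eq_mul]
  unfold toR
  rw [Matrix.map_apply, div_eq_inv_mul]

lemma M_apply (V : IM) (γ : GZ) (i j : Fin 3) :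
    ((toR V)⁻¹ * ic γ) i j = ((V.adjugate *ᵥ vcol γ.1 j) i : ℝ) / (V.det : ℝ) := by
  rw [Matrix.mul_apply]
  simp only [inv_apply, ic, Matrix.map_apply, Matrix.mulVec, dotProduct, vcol,
    Fin.sum_univ_three]
  push_cast
  ring

lemma M_det (V : IM) (γ : GZ) :
    ((toR V)⁻¹ * ic γ).det = 1 / (V.det : ℝ) := by
  have h1 : (ic γ).det = 1 := by
    have h2 : (ic γ).det = ((γ.1.det : ℤ) : ℝ) := (Int.cast_det γ.1).symm
    rw [h2, γ.2]
    norm_num
  rw [Matrix.det_mul, h1, Matrix.det_nonsing_inv, Ring.inverse_eq_inv', toR_det, mul_one,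
    one_div]

lemma nn_eq (V : IM) (hV : 0 < V.det) (n : Fin 3 → ℤ) (γ : GZ) (hγ : n ᵥ* γ.1 = ![1, 0, 0])
    (i : Fin 3) : nn ((toR V)⁻¹ * ic γ) i = nv V n i := by
  set M := (toR V)⁻¹ * ic γ with hM
  have hD : (0 : ℝ) < V.det := by exact_mod_cast hV
  have hdM : M.det = 1 / (V.det : ℝ) := M_det V γ
  -- the row vector
  have hrow : (fun i => (nv V n i : ℝ)) ᵥ* M = ![1, 0, 0] := by
    funext j
    have h1 := u_sum V n (vcol γ.1 j)
    have h2 : n ⬝ᵥ vcol γ.1 j = (![1, 0, 0] : Fin 3 → ℤ) j := congrFun hγ j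
    rw [h2] at h1
    unfold u at h1
    simp only [Matrix.vecMul, dotProduct, Fin.sum_univ_three]
    rw [hM, M_apply, M_apply, M_apply]
    have h3 : (nv V n 0 : ℝ) * ((V.adjugate *ᵥ vcol γ.1 j) 0 : ℝ) +
        (nv V n 1 : ℝ) * ((V.adjugate *ᵥ vcol γ.1 j) 1 : ℝ) +
        (nv V n 2 : ℝ) * ((V.adjugate *ᵥ vcol γ.1 j) 2 : ℝ) =
        (V.det : ℝ) * (((![1, 0, 0] : Fin 3 → ℤ) j : ℤ) : ℝ) := by exact_mod_cast h1
    have h4 : (((![1, 0, 0] : Fin 3 → ℤ) j : ℤ) : ℝ) = (![1, 0, 0] : Fin 3 → ℝ) j := by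
      fin_cases j <;> simp
    rw [h4] at h3
    field_simp
    linarith
  have h5 : ((fun i => (nv V n i : ℝ)) ᵥ* M) ᵥ* M.adjugate = M.det • (fun i => (nv V n i : ℝ)) := by
    rw [Matrix.vecMul_vecMul, Matrix.mul_adjugate, Matrix.vecMul_smul, Matrix.vecMul_one]
  rw [hrow] at h5
  have h6 := congrFun h5 i
  simp only [Matrix.vecMul, dotProduct, Fin.sum_univ_three, Pi.smul_apply, smul_eq_mul] at h6
  simp at h6
  unfold nn
  rw [h6]
  have : M.det ≠ 0 := by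
    rw [hdM]
    positivity
  field_simp

lemma BB_eq (V : IM) (hV : 0 < V.det) (n : Fin 3 → ℤ) (γ : GZ) (hγ : n ᵥ* γ.1 = ![1, 0, 0])
    (i j : Fin 3) : BB ((toR V)⁻¹ * ic γ) i j = (u V n (vcol γ.1 j) i : ℝ) / V.det := by
  unfold BB
  rw [Matrix.diagonal_mul, nn_eq V hV n γ hγ, M_apply]
  unfold u
  push_cast
  ring

end SAIL.F.RDx

namespace SAIL.F

open Matrix SAIL SAIL.A

theorem p_RD : tRD := by
  intro V hV n hn
  obtain ⟨hpos, w, d, f, hdet, hw, hd, hf, L1, L2, L3, -⟩ := hn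
  have hbd : ∀ z, z ∈ Lp V → n ⬝ᵥ z = 1 → ∀ i, 0 ≤ RDx.u V n z i ∧ RDx.u V n z i ≤ V.det := by
    intro z hz h1
    have h0 : ∀ i, 0 ≤ RDx.u V n z i := fun i => mul_nonneg (hpos i).le (hz.2 i)
    have hs := RDx.u_sum V n z
    rw [h1, mul_one] at hs
    intro i
    refine ⟨h0 i, ?_⟩
    have g0 := h0 0
    have g1 := h0 1
    have g2 := h0 2
    fin_cases i <;> simp <;> linarith
  have hq : ∀ z', n ⬝ᵥ z' = 0 → w + z' ∈ Lp V → RDx.q V n z' ≤ 2 * V.det ^ 2 := by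
    intro z' h1 h2
    have b1 := hbd w L1 hw
    have b2 := hbd (w + z') h2 (by rw [dotProduct_add, hw, h1, add_zero])
    have c : ∀ i, RDx.u V n z' i ^ 2 ≤ V.det ^ 2 := by
      intro i
      have e1 := b2 i
      rw [RDx.u_add] at e1
      have e2 := b1 i
      exact sq_le_sq' (by linarith [e1.1, e2.2]) (by linarith [e1.2, e2.1])
    unfold RDx.q
    linarith [c 0, c 1]
  obtain ⟨e, e', he, he', hde, q1, q2, q3, q4⟩ := RDx.red V n w d f (2 * V.det ^ 2) hd hf hdet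
    (hq d hd L2) (hq f hf L3)
  have hcr := RDx.cross V hV n w e e' hw he he' hde
  have hN : 0 < V.det * (nv V n 0 * nv V n 1 * nv V n 2) := by
    have := hpos 0
    have := hpos 1
    have := hpos 2
    unfold nv
    positivity
  obtain ⟨w', hw', hdw', x0, x1, y0, y1⟩ := RDx.base V n w e e' _ hN hw he he' hde hcr
  obtain ⟨γ, hγ1⟩ : ∃ γ : GZ, γ.1 = RDx.cols w' e e' := ⟨⟨RDx.cols w' e e', hdw'⟩, rfl⟩
  have hγ : n ᵥ* γ.1 = ![1, 0, 0] := by
    rw [hγ1]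
    funext j
    fin_cases j
    · exact hw'
    · exact he
    · exact he'
  refine ⟨γ, hγ, ?_⟩
  · have hB := RDx.BB_eq V hV n γ hγ
    have hdl : dl ((toR V)⁻¹ * ic γ) =
        ((V.det * (nv V n 0 * nv V n 1 * nv V n 2) : ℤ) : ℝ) / (V.det : ℝ) ^ 2 := by
      unfold dl
      rw [RDx.nn_eq V hV n _ hγ, RDx.nn_eq V hV n _ hγ, RDx.nn_eq V hV n _ hγ, RDx.M_det]
      have hD : (V.det : ℝ) ≠ 0 := by exact_mod_cast hV.ne'
      push_cast
      field_simp
    have c0 : vcol γ.1 0 = w' := by rw [hγ1]; rfl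
    have c1 : vcol γ.1 1 = e := by rw [hγ1]; rfl
    have c2 : vcol γ.1 2 = e' := by rw [hγ1]; rfl
    have hD : (0 : ℝ) < V.det := by exact_mod_cast hV
    unfold Rdc
    simp only [hB, hdl, c0, c1, c2]
    unfold RDx.q at q1 q2 q3
    unfold RDx.dt at q3
    have q1' : (RDx.u V n e 0 : ℝ) ^ 2 + (RDx.u V n e 1 : ℝ) ^ 2 ≤
        (RDx.u V n e' 0 : ℝ) ^ 2 + (RDx.u V n e' 1 : ℝ) ^ 2 := by exact_mod_cast q1
    have q2' : (RDx.u V n e' 0 : ℝ) ^ 2 + (RDx.u V n e' 1 : ℝ) ^ 2 ≤ 2 * (V.det : ℝ) ^ 2 := by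
      exact_mod_cast q2
    have q3' : 2 * |(RDx.u V n e 0 : ℝ) * RDx.u V n e' 0 + (RDx.u V n e 1 : ℝ) * RDx.u V n e' 1| ≤
        (RDx.u V n e 0 : ℝ) ^ 2 + (RDx.u V n e 1 : ℝ) ^ 2 := by exact_mod_cast q3
    have q4' : (0 : ℝ) ≤ RDx.u V n e 1 := by exact_mod_cast q4
    have x0' : (0 : ℝ) ≤ RDx.u V n w' 0 * RDx.u V n e' 1 - RDx.u V n w' 1 * RDx.u V n e' 0 := by
      exact_mod_cast x0
    have y0' : (0 : ℝ) ≤ RDx.u V n e 0 * RDx.u V n w' 1 - RDx.u V n e 1 * RDx.u V n w' 0 := by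
      exact_mod_cast y0
    have x1' : (RDx.u V n w' 0 : ℝ) * RDx.u V n e' 1 - RDx.u V n w' 1 * RDx.u V n e' 0 ≤
        ((V.det * (nv V n 0 * nv V n 1 * nv V n 2) : ℤ) : ℝ) := by exact_mod_cast x1
    have y1' : (RDx.u V n e 0 : ℝ) * RDx.u V n w' 1 - RDx.u V n e 1 * RDx.u V n w' 0 ≤
        ((V.det * (nv V n 0 * nv V n 1 * nv V n 2) : ℤ) : ℝ) := by exact_mod_cast y1
    have hD2 : (0 : ℝ) < (V.det : ℝ) ^ 2 := by positivity
    have e1 : ∀ a b : ℝ, (a / (V.det : ℝ)) ^ 2 + (b / (V.det : ℝ)) ^ 2 =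
        (a ^ 2 + b ^ 2) / (V.det : ℝ) ^ 2 := by
      intro a b
      ring
    have e2 : ∀ a b c d : ℝ, a / (V.det : ℝ) * (b / (V.det : ℝ)) -
        c / (V.det : ℝ) * (d / (V.det : ℝ)) = (a * b - c * d) / (V.det : ℝ) ^ 2 := by
      intro a b c d
      ring
    have e3 : ∀ a b c d : ℝ, a / (V.det : ℝ) * (b / (V.det : ℝ)) +
        c / (V.det : ℝ) * (d / (V.det : ℝ)) = (a * b + c * d) / (V.det : ℝ) ^ 2 := by
      intro a b c d
      ring
    rw [e1, e1, e2, e2, e3]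
    refine ⟨?_, ?_, ?_, ?_, ?_, ?_, ?_, ?_⟩
    · exact div_le_div_of_nonneg_right q1' hD2.le
    · rw [div_le_iff₀ hD2]
      exact q2'
    · rw [abs_div, abs_of_pos hD2, ← mul_div_assoc]
      exact div_le_div_of_nonneg_right q3' hD2.le
    · positivity
    · exact div_nonneg x0' hD2.le
    · exact div_le_div_of_nonneg_right x1' hD2.le
    · exact div_nonneg y0' hD2.le
    · exact div_le_div_of_nonneg_right y1' hD2.le

end SAIL.F
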