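import Pool.Agent.SAIL.FAC.Targets

/-!
SAIL, part A, target `tSC`: the volume of a family in the window.
-/

namespace SAIL.F.SCx

open Matrix MeasureTheory Filter SAIL SAIL.A SAIL.F

lemma det_toR (E : IM) : (toR E).det = (E.det : ℝ) := by
  have h : toR E = (Int.castRingHom ℝ).mapMatrix E := by
    ext i j; rfl
  rw [h, ← RingHom.map_det]
  simp

lemma rowsum_smul (t : ℝ) (M : M3) (i : Fin 3) : ∑ j, (t • M) i j = t * ∑ j, M i j := by
  rw [Finset.mul_sum]
  exact Finset.sum_congr rfl fun j _ => by simp [Matrix.smul_apply]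

lemma WdT_smul {t : ℝ} (ht : 0 < t) {M : M3} (h : WdT M) : WdT (t • M) := by
  refine ⟨fun i => ?_, fun i hi => ?_⟩
  · rw [rowsum_smul]
    exact mul_pos ht (h.1 i)
  · obtain ⟨h1, h2⟩ := h.2 i hi
    simp only [rowsum_smul]
    have ht3 : 0 < t ^ 3 := pow_pos ht 3
    constructor
    · calc (t * ∑ j, M 0 j) * (t * ∑ j, M 1 j) * (t * ∑ j, M 2 j)
          = t ^ 3 * ((∑ j, M 0 j) * (∑ j, M 1 j) * (∑ j, M 2 j)) := by ring
        _ < t ^ 3 * (∑ j, M i j) ^ 3 := (mul_lt_mul_iff_right₀ ht3).mpr h1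
        _ = (t * ∑ j, M i j) ^ 3 := by ring
    · calc (t * ∑ j, M i j) ^ 3 = t ^ 3 * (∑ j, M i j) ^ 3 := by ring
        _ < t ^ 3 * (Real.exp 3 * ((∑ j, M 0 j) * (∑ j, M 1 j) * (∑ j, M 2 j))) := by
            exact (mul_lt_mul_iff_right₀ ht3).mpr h2
        _ = _ := by ring

lemma U_smul {E : IM} {U : Set M3} (hF : Fam E U) {t : ℝ} (ht : 0 < t) {M : M3} (h : M ∈ U) :
    t • M ∈ U := by
  have := hF.scal (fun _ => t) (fun _ => ht) M h
  have h2 : Matrix.diagonal (fun _ : Fin 3 => t) * M = t • M := by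
    ext i j
    simp [Matrix.diagonal_mul]
  rwa [h2] at this

lemma isOpen_WdT : IsOpen {M : M3 | WdT M} := by
  have hc : ∀ i : Fin 3, Continuous fun M : M3 => ∑ j, M i j := fun i => by fun_prop
  have : {M : M3 | WdT M} = (⋂ i : Fin 3, {M : M3 | 0 < ∑ j, M i j}) ∩
      ⋂ i : Fin 3, ⋂ _ : i ≠ 2, ({M : M3 | (∑ j, M 0 j) * (∑ j, M 1 j) * (∑ j, M 2 j) <
          (∑ j, M i j) ^ 3} ∩ {M : M3 | (∑ j, M i j) ^ 3 <
          Real.exp 3 * ((∑ j, M 0 j) * (∑ j, M 1 j) * (∑ j, M 2 j))}) := by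
    ext M
    simp only [WdT, Set.mem_inter_iff, Set.mem_iInter, Set.mem_ofPred_eq]
  rw [this]
  refine IsOpen.inter (isOpen_iInter_of_finite fun i => isOpen_lt continuous_const (hc i))
    (isOpen_iInter_of_finite fun i => isOpen_iInter_of_finite fun _ => IsOpen.inter ?_ ?_)
  · exact isOpen_lt (((hc 0).mul (hc 1)).mul (hc 2)) ((hc i).pow 3)
  · exact isOpen_lt ((hc i).pow 3) (continuous_const.mul (((hc 0).mul (hc 1)).mul (hc 2)))

end SAIL.F.SCx

namespace SAIL.F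

open Matrix MeasureTheory Filter SAIL SAIL.A SAIL.F.SCx

theorem p_SC (hR : SAIL.T_RMUL) : tSC := by
  intro E U hF
  have hd : (0 : ℝ) < (toR E).det := by
    rw [det_toR]; exact_mod_cast hF.detE
  set d : ℝ := (toR E).det with hdd
  have hsc : ∀ t : ℝ, 0 < t → ∀ M : M3, (M * toR E ∈ U ∧ WdT (M * toR E)) →
      ((t • M) * toR E ∈ U ∧ WdT ((t • M) * toR E)) := by
    intro t ht M h
    rw [Matrix.smul_mul]
    exact ⟨U_smul hF ht h.1, WdT_smul ht h.2⟩
  refine ⟨?_, ?_, ?_, hsc⟩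
  · set c : ℝ := d ^ (1 / 3 : ℝ) with hc
    have hcpos : 0 < c := Real.rpow_pos_of_pos hd _
    have hc3 : c ^ 3 = d := by
      rw [hc, ← Real.rpow_natCast, ← Real.rpow_mul hd.le]
      norm_num
    have hg : (c⁻¹ • toR E).det = 1 := by
      rw [det_smul3, inv_pow, hc3, ← hdd]
      exact inv_mul_cancel₀ hd.ne'
    have key := hR (c⁻¹ • toR E) (by rw [hg]; exact one_ne_zero) {M | M ∈ U ∧ WdT M ∧ M ∈ Co}
    rw [hg] at key
    simp only [abs_one, inv_one, one_pow, ENNReal.ofReal_one, one_mul] at key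
    unfold vU
    rw [← key]
    congr 1
    ext M
    simp only [Set.mem_inter_iff, Set.mem_preimage, Set.mem_ofPred_eq]
    rw [Matrix.mul_smul]
    have hdet : (c⁻¹ • (M * toR E)).det = M.det := by
      rw [← Matrix.mul_smul, Matrix.det_mul, hg, mul_one]
    have hCo : c⁻¹ • (M * toR E) ∈ Co ↔ M ∈ Co := by
      simp only [Co, Set.mem_ofPred_eq, hdet]
    rw [hCo]
    constructor
    · rintro ⟨⟨h1, h2⟩, h3⟩
      exact ⟨U_smul hF (inv_pos.mpr hcpos) h1, WdT_smul (inv_pos.mpr hcpos) h2, h3⟩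
    · rintro ⟨h1, h2, h3⟩
      have e : c • (c⁻¹ • (M * toR E)) = M * toR E := by
        rw [smul_smul, mul_inv_cancel₀ hcpos.ne', one_smul]
      refine ⟨⟨?_, ?_⟩, h3⟩
      · have := U_smul hF hcpos h1
        rwa [e] at this
      · have := WdT_smul hcpos h2
        rwa [e] at this
  · have : IsOpen ((fun M : M3 => M * toR E) ⁻¹' (U ∩ {M : M3 | WdT M})) :=
      (hF.isOpen.inter isOpen_WdT).preimage (continuous_rmul _)
    exact this
  · intro M hM
    have h1 := (hF.ent _ hM.1).1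
    rw [Matrix.det_mul] at h1
    exact pos_of_mul_pos_left h1 hd.le

end SAIL.F
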