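import Pool.Agent.SAIL.FAC.P_SC

/-!
SAIL, part A, target `tT1`: families count triangular faces from below.
-/

namespace SAIL.F.T1x

open Matrix MeasureTheory Filter SAIL SAIL.A SAIL.F SAIL.F.SCx

lemma toR_mul (A B : IM) : toR (A * B) = toR A * toR B := by
  unfold toR
  ext i j
  simp [Matrix.mul_apply]

lemma toR_mulVec (A : IM) (z : Fin 3 → ℤ) (i : Fin 3) :
    ((A *ᵥ z) i : ℝ) = (toR A *ᵥ fun j => (z j : ℝ)) i := by
  unfold toR
  simp [Matrix.mulVec, dotProduct]

lemma zr_inj {a b : Fin 3 → ℤ} (h : zr a = zr b) : a = b := by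
  funext i
  have := congrFun h i
  unfold zr at this
  exact_mod_cast this

lemma det_gE (γ : GZ) (E : IM) : (γ.1 * E).det = E.det := by
  rw [Matrix.det_mul, γ.2, one_mul]

lemma toR_smul_one (d : ℤ) : toR (d • (1 : IM)) = (d : ℝ) • (1 : M3) := by
  unfold toR
  ext i j
  rw [Matrix.map_apply, Matrix.smul_apply, Matrix.smul_apply]
  by_cases hij : i = j
  · subst hij; simp
  · simp [Matrix.one_apply_ne hij]

/-- `V⁻¹ V = 1` -/
lemma toR_inv_mul (V : IM) (hV : 0 < V.det) : (toR V)⁻¹ * toR V = 1 := by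
  apply Matrix.nonsing_inv_mul
  rw [det_toR]
  exact isUnit_iff_ne_zero.mpr (by exact_mod_cast hV.ne')

/-- `adj V = det V * V⁻¹` as real matrices. -/
lemma toR_adj (V : IM) (hV : 0 < V.det) : toR V.adjugate = (V.det : ℝ) • (toR V)⁻¹ := by
  have h1 : (toR V)⁻¹ * (toR V * toR V.adjugate) = toR V.adjugate := by
    rw [← Matrix.mul_assoc, toR_inv_mul V hV, Matrix.one_mul]
  rw [← h1, ← toR_mul, Matrix.mul_adjugate]
  rw [toR_smul_one, Matrix.mul_smul, Matrix.mul_one]

lemma FT_of_fam {E : IM} {U : Set M3} (hF : Fam E U) {V : IM} (hV : 0 < V.det) {γ : GZ}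
    (h : (toR V)⁻¹ * toR (γ.1 * E) ∈ U) : FT V (γ.1 * E) := by
  have hVr : (0 : ℝ) < V.det := by exact_mod_cast hV
  have hdW : (γ.1 * E).det = E.det := det_gE γ E
  refine ⟨by rw [hdW]; exact hF.detE, ?_, ?_⟩
  · intro j
    refine ⟨?_, ?_⟩
    · intro h0
      have : (γ.1 * E).det = 0 := by
        apply Matrix.det_eq_zero_of_column_eq_zero j
        intro i
        exact congrFun h0 i
      rw [hdW] at this
      exact hF.detE.ne' this
    · intro i
      have hent := (hF.ent _ h).2 i j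
      have e1 : ((V.adjugate *ᵥ vcol (γ.1 * E) j) i : ℝ) =
          (V.det : ℝ) * ((toR V)⁻¹ * toR (γ.1 * E)) i j := by
        have : (V.adjugate *ᵥ vcol (γ.1 * E) j) i = (V.adjugate * (γ.1 * E)) i j := by
          simp [Matrix.mulVec, dotProduct, vcol, Matrix.mul_apply]
        rw [this]
        have h2 : ((V.adjugate * (γ.1 * E)) i j : ℝ) = (toR (V.adjugate * (γ.1 * E))) i j := rfl
        rw [h2, toR_mul, toR_adj V hV, Matrix.smul_mul, Matrix.smul_apply, smul_eq_mul]
      have : (0 : ℝ) < ((V.adjugate *ᵥ vcol (γ.1 * E) j) i : ℝ) := by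
        rw [e1]
        exact mul_pos hVr hent
      exact_mod_cast this.le
  · intro z hz hsum
    have hadj : ∀ z : Fin 3 → ℤ, (γ.1 * E).adjugate *ᵥ z = E.adjugate *ᵥ (γ⁻¹.1 *ᵥ z) := by
      intro z
      rw [Matrix.adjugate_mul_distrib, ← Matrix.mulVec_mulVec]
      rfl
    rw [hadj] at hsum ⊢
    rw [hdW] at hsum ⊢
    refine hF.cut _ h (γ⁻¹.1 *ᵥ z) ?_ ?_ hsum
    · intro h0
      apply hz.1
      have : γ.1 *ᵥ (γ⁻¹.1 *ᵥ z) = z := by
        rw [Matrix.mulVec_mulVec]
        have : γ.1 * γ⁻¹.1 = (γ * γ⁻¹).1 := rfl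
        rw [this, mul_inv_cancel]
        simp
      rw [← this, h0, Matrix.mulVec_zero]
    · intro i
      have e : (((toR V)⁻¹ * toR (γ.1 * E)) *ᵥ
          fun j => ((E.adjugate *ᵥ (γ⁻¹.1 *ᵥ z)) j : ℝ)) i =
          (E.det : ℝ) * ((toR V)⁻¹ *ᵥ fun j => (z j : ℝ)) i := by
        rw [← hadj]
        have h1 : (fun j => (((γ.1 * E).adjugate *ᵥ z) j : ℝ)) =
            toR (γ.1 * E).adjugate *ᵥ fun j => (z j : ℝ) := by
          funext j
          exact toR_mulVec _ _ _
        rw [h1, Matrix.mulVec_mulVec, Matrix.mul_assoc, ← toR_mul, Matrix.mul_adjugate, hdW]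
        rw [toR_smul_one, Matrix.mul_smul, Matrix.mul_one, Matrix.smul_mulVec]
        rfl
      rw [e]
      have hE : (0 : ℝ) < E.det := by exact_mod_cast hF.detE
      refine mul_nonneg hE.le ?_
      have h3 := hz.2 i
      have h4 : ((V.adjugate *ᵥ z) i : ℝ) = (V.det : ℝ) * ((toR V)⁻¹ *ᵥ fun j => (z j : ℝ)) i := by
        rw [toR_mulVec, toR_adj V hV, Matrix.smul_mulVec]
        rfl
      have h5 : (0 : ℝ) ≤ ((V.adjugate *ᵥ z) i : ℝ) := by exact_mod_cast h3
      rw [h4] at h5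
      exact nonneg_of_mul_nonneg_right h5 hVr

/-- The triangle of a matrix. -/
def tri (W : IM) : Set (Fin 3 → ℝ) := convexHull ℝ (Set.range fun j => zr (vcol W j))

/-- Even permutations. -/
def Ev : Finset (Equiv.Perm (Fin 3)) := Finset.univ.filter fun σ => Equiv.Perm.sign σ = 1

lemma card_Ev : Ev.card = 3 := by decide

lemma fibre (hY3 : tY3) {V : IM} (hV : 0 < V.det) {W W' : IM} (h : FT V W) (h' : FT V W')
    (he : tri W' = tri W) : ∃ σ ∈ Ev, W' = W.submatrix id σ := by
  obtain ⟨-, e1, -⟩ := hY3 V W hV h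
  obtain ⟨-, e2, -⟩ := hY3 V W' hV h'
  have hr : (Set.range fun j => zr (vcol W' j)) = Set.range fun j => zr (vcol W j) := by
    rw [← e1, ← e2]
    unfold tri at he
    rw [he]
  have hs : ∀ j, ∃ k, vcol W' j = vcol W k := by
    intro j
    have : zr (vcol W' j) ∈ Set.range fun j => zr (vcol W j) := by
      rw [← hr]; exact ⟨j, rfl⟩
    obtain ⟨k, hk⟩ := this
    exact ⟨k, (zr_inj hk).symm⟩
  choose σ hσ using hs
  have hinj : Function.Injective σ := by
    intro a b hab
    by_contra hne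
    have : W'.det = 0 := by
      apply Matrix.det_zero_of_column_eq hne
      intro i
      have h1 := congrFun (hσ a) i
      have h2 := congrFun (hσ b) i
      rw [hab] at h1
      exact h1.trans h2.symm
    exact h'.1.ne' this
  let τ : Equiv.Perm (Fin 3) := Equiv.ofBijective σ (Finite.injective_iff_bijective.mp hinj)
  have hW : W' = W.submatrix id τ := by
    ext i j
    exact congrFun (hσ j) i
  refine ⟨τ, ?_, hW⟩
  simp only [Ev, Finset.mem_filter, Finset.mem_univ, true_and]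
  have hdet : W'.det = Equiv.Perm.sign τ * W.det := by
    rw [hW]
    exact Matrix.det_permute' τ W
  rcases Int.units_eq_one_or (Equiv.Perm.sign τ) with h1 | h1
  · exact h1
  · exfalso
    rw [h1] at hdet
    have := h.1
    have := h'.1
    simp at hdet
    omega

lemma finite_FT (hY3 : tY3) (hZF : tZF) {V : IM} (hV : 0 < V.det) :
    {W | FT V W}.Finite ∧ {W | FT V W}.ncard ≤ 3 * (fc 3 V).ncard := by
  classical
  have hfc : (fc 3 V).Finite := (hZF V hV).subset fun F hF => hF.1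
  have hmem : ∀ W, FT V W → tri W ∈ fc 3 V := by
    intro W h
    obtain ⟨e0, e1, e2⟩ := hY3 V W hV h
    refine ⟨e0, ?_⟩
    unfold tri
    rw [e1, e2]
  have hfib : ∀ W, FT V W → {W' | FT V W' ∧ tri W' = tri W} ⊆
      ((Ev.image fun σ : Equiv.Perm (Fin 3) => W.submatrix id σ : Finset IM) : Set IM) := by
    intro W h W' h'
    obtain ⟨σ, hσ, hW⟩ := fibre hY3 hV h h'.1 h'.2
    simp only [Finset.coe_image, Set.mem_image, Finset.mem_coe]
    exact ⟨σ, hσ, hW.symm⟩
  have hfin : {W | FT V W}.Finite := by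
    have hsub : {W | FT V W} ⊆ ⋃ F ∈ fc 3 V, {W | FT V W ∧ tri W = F} := by
      intro W h
      simp only [Set.mem_iUnion]
      exact ⟨tri W, hmem W h, h, rfl⟩
    refine (hfc.biUnion fun F _ => ?_).subset hsub
    by_cases hne : ∃ W, FT V W ∧ tri W = F
    · obtain ⟨W, h, rfl⟩ := hne
      exact (Finset.finite_toSet _).subset (hfib W h)
    · have : {W | FT V W ∧ tri W = F} = ∅ := by
        ext W
        simp only [Set.mem_ofPred_eq, Set.mem_empty_iff_false, iff_false]
        exact fun hh => hne ⟨W, hh⟩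
      rw [this]
      exact Set.finite_empty
  refine ⟨hfin, ?_⟩
  rw [Set.ncard_eq_toFinset_card _ hfin, Set.ncard_eq_toFinset_card _ hfc]
  have h1 := Finset.card_le_mul_card_image (f := tri) hfin.toFinset 3 (by
    intro F hF
    rw [Finset.mem_image] at hF
    obtain ⟨W, hW, rfl⟩ := hF
    have hW' : FT V W := by simpa using hW
    calc (hfin.toFinset.filter fun x => tri x = tri W).card
        ≤ (Ev.image fun σ : Equiv.Perm (Fin 3) => W.submatrix id σ : Finset IM).card := by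
          apply Finset.card_le_card
          intro W' h'
          have h'' : FT V W' ∧ tri W' = tri W := by simpa using h'
          exact_mod_cast hfib W hW' h''
      _ ≤ Ev.card := Finset.card_image_le
      _ = 3 := card_Ev)
  refine h1.trans (Nat.mul_le_mul_left 3 (Finset.card_le_card ?_))
  intro F hF
  rw [Finset.mem_image] at hF
  obtain ⟨W, hW, rfl⟩ := hF
  have hW' : FT V W := by simpa using hW
  simpa using hmem W hW'

lemma gE_inj {E : IM} (hE : 0 < E.det) {γ γ' : GZ} (h : γ.1 * E = γ'.1 * E) : γ = γ' := by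
  apply Subtype.ext
  have h1 : γ.1 * (E * E.adjugate) = γ'.1 * (E * E.adjugate) := by
    rw [← Matrix.mul_assoc, ← Matrix.mul_assoc, h]
  rw [Matrix.mul_adjugate] at h1
  simp only [Matrix.mul_smul, Matrix.mul_one] at h1
  ext i j
  have h2 := congrFun (congrFun h1 i) j
  simp only [Matrix.smul_apply, smul_eq_mul] at h2
  exact mul_left_cancel₀ hE.ne' h2

end SAIL.F.T1x

namespace SAIL.F

open Matrix MeasureTheory Filter SAIL SAIL.A SAIL.F.T1x

theorem p_T1 (hY3 : tY3) (hZF : tZF) : tT1 := by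
  classical
  intro N E U hF hne V hV
  obtain ⟨hfin, hcard⟩ := finite_FT hY3 hZF hV
  have hmap : ∀ i, ∀ γ ∈ {γ : GZ | (toR V)⁻¹ * toR (γ.1 * E i) ∈ U i}, γ.1 * E i ∈ {W | FT V W} :=
    fun i γ h => FT_of_fam (hF i) hV h
  have hinj : ∀ i, Set.InjOn (fun γ : GZ => γ.1 * E i)
      {γ : GZ | (toR V)⁻¹ * toR (γ.1 * E i) ∈ U i} :=
    fun i γ _ γ' _ h => gE_inj (hF i).detE h
  have hf : ∀ i, {γ : GZ | (toR V)⁻¹ * toR (γ.1 * E i) ∈ U i}.Finite :=
    fun i => Set.Finite.of_injOn (hmap i) (hinj i) hfin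
  refine ⟨hf, le_trans ?_ hcard⟩
  have h1 : ∑ i, {γ : GZ | (toR V)⁻¹ * toR (γ.1 * E i) ∈ U i}.ncard =
      (Finset.univ.sigma fun i => (hf i).toFinset).card := by
    rw [Finset.card_sigma]
    exact Finset.sum_congr rfl fun i _ => Set.ncard_eq_toFinset_card _ (hf i)
  rw [h1, Set.ncard_eq_toFinset_card _ hfin]
  apply Finset.card_le_card_of_injOn (fun p : (Σ _ : Fin N, GZ) => p.2.1 * E p.1)
  · rintro ⟨i, γ⟩ hp
    have hp' : (toR V)⁻¹ * toR (γ.1 * E i) ∈ U i := by simpa using hp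
    have := hmap i γ hp'
    simpa using this
  · rintro ⟨i, γ⟩ _ ⟨j, γ'⟩ _ h
    simp only at h
    by_cases hij : i = j
    · subst hij
      rw [gE_inj (hF i).detE h]
    · exfalso
      refine hne i j hij (γ'⁻¹ * γ) ?_
      have : (γ'⁻¹ * γ).1 = γ'⁻¹.1 * γ.1 := rfl
      rw [this, Matrix.mul_assoc, h, ← Matrix.mul_assoc]
      have h2 : γ'⁻¹.1 * γ'.1 = (γ'⁻¹ * γ').1 := rfl
      rw [h2, inv_mul_cancel]
      simp

end SAIL.F
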