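import Pool.Agent.SAIL.FAC.Targets2
import Pool.Agent.SAIL.FAC.P_T1

/-!
SAIL, part A, target `tT1c`: corner families count triangular faces from below without the
factor three.
-/

namespace SAIL.F

open Matrix MeasureTheory Filter SAIL SAIL.A SAIL.F.T1x

theorem p_T1c (hY3 : tY3) (hZF : tZF) : tT1c := by
  classical
  intro N E U hF hCor hne V hV
  obtain ⟨hfin, -⟩ := finite_FT hY3 hZF hV
  have hfc : (fc 3 V).Finite := (hZF V hV).subset fun F hF => hF.1
  have hmem : ∀ W, FT V W → tri W ∈ fc 3 V := by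
    intro W h
    obtain ⟨e0, e1, e2⟩ := hY3 V W hV h
    refine ⟨e0, ?_⟩
    unfold tri
    rw [e1, e2]
  have hmap : ∀ i, ∀ γ ∈ {γ : GZ | (toR V)⁻¹ * toR (γ.1 * E i) ∈ U i}, γ.1 * E i ∈ {W | FT V W} :=
    fun i γ h => FT_of_fam (hF i) hV h
  have hinj : ∀ i, Set.InjOn (fun γ : GZ => γ.1 * E i)
      {γ : GZ | (toR V)⁻¹ * toR (γ.1 * E i) ∈ U i} :=
    fun i γ _ γ' _ h => gE_inj (hF i).detE h
  have hf : ∀ i, {γ : GZ | (toR V)⁻¹ * toR (γ.1 * E i) ∈ U i}.Finite :=
    fun i => Set.Finite.of_injOn (hmap i) (hinj i) hfin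
  refine ⟨hf, ?_⟩
  have h1 : ∑ i, {γ : GZ | (toR V)⁻¹ * toR (γ.1 * E i) ∈ U i}.ncard =
      (Finset.univ.sigma fun i => (hf i).toFinset).card := by
    rw [Finset.card_sigma]
    exact Finset.sum_congr rfl fun i _ => Set.ncard_eq_toFinset_card _ (hf i)
  rw [h1, Set.ncard_eq_toFinset_card _ hfc]
  apply Finset.card_le_card_of_injOn (fun p : (Σ _ : Fin N, GZ) => tri (p.2.1 * E p.1))
  · rintro ⟨i, γ⟩ hp
    have hp' : (toR V)⁻¹ * toR (γ.1 * E i) ∈ U i := by simpa using hp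
    have := hmem _ (hmap i γ hp')
    simpa using this
  · rintro ⟨i, γ⟩ hp ⟨j, γ'⟩ hq h
    simp only at h
    have hp' : (toR V)⁻¹ * toR (γ.1 * E i) ∈ U i := by simpa using hp
    have hq' : (toR V)⁻¹ * toR (γ'.1 * E j) ∈ U j := by simpa using hq
    obtain ⟨σ, -, hσ⟩ := fibre hY3 hV (hmap i γ hp') (hmap j γ' hq') h.symm
    -- corner matrices fix the labelling
    have hD := hCor i hp'
    have hD' := hCor j hq'
    have hent := ((hF i).ent _ hp').2
    have hent' := ((hF j).ent _ hq').2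
    have hsub : (toR V)⁻¹ * toR (γ'.1 * E j) =
        ((toR V)⁻¹ * toR (γ.1 * E i)).submatrix id σ := by
      rw [hσ]
      ext a b
      simp [Matrix.mul_apply, toR]
    have hσ1 : ∀ a, σ a = a := by
      intro a
      by_contra hne'
      have c1 := hD a
      have c2 := hD' a
      have hs : ∑ b, ((toR V)⁻¹ * toR (γ'.1 * E j)) a b =
          ∑ b, ((toR V)⁻¹ * toR (γ.1 * E i)) a b := by
        rw [hsub]
        simp only [Matrix.submatrix_apply, id]
        exact Equiv.sum_comp σ (fun b => ((toR V)⁻¹ * toR (γ.1 * E i)) a b)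
      have hd : ((toR V)⁻¹ * toR (γ'.1 * E j)) a a = ((toR V)⁻¹ * toR (γ.1 * E i)) a (σ a) := by
        rw [hsub]; rfl
      rw [hs, hd] at c2
      have h2 : ((toR V)⁻¹ * toR (γ.1 * E i)) a a + ((toR V)⁻¹ * toR (γ.1 * E i)) a (σ a) ≤
          ∑ b, ((toR V)⁻¹ * toR (γ.1 * E i)) a b := by
        have h3 : ∑ b ∈ ({a, σ a} : Finset (Fin 3)), ((toR V)⁻¹ * toR (γ.1 * E i)) a b ≤
            ∑ b, ((toR V)⁻¹ * toR (γ.1 * E i)) a b :=
          Finset.sum_le_sum_of_subset_of_nonneg (Finset.subset_univ _)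
            fun b _ _ => (hent a b).le
        rwa [Finset.sum_pair (fun hh => hne' hh.symm)] at h3
      linarith
    have hWW : γ'.1 * E j = γ.1 * E i := by
      rw [hσ]
      ext a b
      simp [hσ1]
    by_cases hij : i = j
    · subst hij
      rw [gE_inj (hF i).detE hWW]
    · exfalso
      refine hne i j hij (γ'⁻¹ * γ) ?_
      have : (γ'⁻¹ * γ).1 = γ'⁻¹.1 * γ.1 := rfl
      rw [this, Matrix.mul_assoc, ← hWW, ← Matrix.mul_assoc]
      have h2 : γ'⁻¹.1 * γ'.1 = (γ'⁻¹ * γ').1 := rfl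
      rw [h2, inv_mul_cancel]
      simp

end SAIL.F
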