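import Pool.Agent.SAIL.FAC.Targets

/-!
SAIL / FAC: target T2 (window integral of a family).
-/

namespace SAIL.F

open Matrix MeasureTheory Filter SAIL SAIL.A

namespace T2x

/-- row sums -/
def rs (M : M3) (i : Fin 3) : ℝ := ∑ j, M i j

/-- the constant product of the three row sums -/
noncomputable def kap (V : IM) (M : M3) : ℝ := (V.det : ℝ) * (rs M 0 * rs M 1 * rs M 2)

/-- lower end of the window -/
noncomputable def lo (V : IM) (M : M3) (i : Fin 3) : ℝ :=
  Real.log (kap V M) / 3 - Real.log (rs M i)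

/-- the window -/
noncomputable def sqw (V : IM) (M : M3) : Set (ℝ × ℝ) :=
  Set.Ioo (lo V M 0) (lo V M 0 + 1) ×ˢ Set.Ioo (lo V M 1) (lo V M 1 + 1)

lemma rs_diag (d : Fin 3 → ℝ) (M : M3) (i : Fin 3) :
    ∑ j, (Matrix.diagonal d * M) i j = d i * rs M i := by
  unfold rs
  rw [Finset.mul_sum]
  refine Finset.sum_congr rfl fun j _ => ?_
  rw [Matrix.diagonal_mul]

lemma exp_prod (V : IM) (hV : 0 < V.det) (y : ℝ × ℝ) :
    Real.exp (pos V y 0) * Real.exp (pos V y 1) * Real.exp (pos V y 2) = V.det := by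
  rw [← Real.exp_add, ← Real.exp_add]
  have h : pos V y 0 + pos V y 1 + pos V y 2 = Real.log V.det := by
    simp [pos]
  rw [h]
  apply Real.exp_log
  exact_mod_cast hV

/-- one coordinate of the window -/
lemma one {κ σ x : ℝ} (hκ : 0 < κ) (hσ : 0 < σ) (h1 : κ < (Real.exp x * σ) ^ 3)
    (h2 : (Real.exp x * σ) ^ 3 < Real.exp 3 * κ) :
    x ∈ Set.Ioo (Real.log κ / 3 - Real.log σ) (Real.log κ / 3 - Real.log σ + 1) := by
  have h3 : Real.log ((Real.exp x * σ) ^ 3) = 3 * (x + Real.log σ) := by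
    rw [Real.log_pow, Real.log_mul (Real.exp_ne_zero _) hσ.ne', Real.log_exp]
    norm_num
  have hp : 0 < (Real.exp x * σ) ^ 3 := by positivity
  have h4 := Real.log_lt_log hκ h1
  have h5 := Real.log_lt_log hp h2
  rw [Real.log_mul (Real.exp_ne_zero _) hκ.ne', Real.log_exp, h3] at h5
  rw [h3] at h4
  constructor <;> linarith

lemma window (V : IM) (hV : 0 < V.det) (M : M3) (y : ℝ × ℝ)
    (h : WdT (Matrix.diagonal (fun i => Real.exp (pos V y i)) * M)) : y ∈ sqw V M := by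
  obtain ⟨h0, h1⟩ := h
  have hσ : ∀ i, 0 < rs M i := by
    intro i
    have := h0 i
    rw [rs_diag] at this
    exact pos_of_mul_pos_right this (Real.exp_pos _).le
  have hdet : (0 : ℝ) < (V.det : ℝ) := by exact_mod_cast hV
  have hκ : 0 < kap V M := by
    unfold kap
    have := hσ 0
    have := hσ 1
    have := hσ 2
    positivity
  have hprod : (∑ j, (Matrix.diagonal (fun i => Real.exp (pos V y i)) * M) 0 j) *
      (∑ j, (Matrix.diagonal (fun i => Real.exp (pos V y i)) * M) 1 j) *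
      (∑ j, (Matrix.diagonal (fun i => Real.exp (pos V y i)) * M) 2 j) = kap V M := by
    rw [rs_diag, rs_diag, rs_diag]
    unfold kap
    rw [← exp_prod V hV y]
    ring
  have e0 : pos V y 0 = y.1 := rfl
  have e1 : pos V y 1 = y.2 := rfl
  constructor
  · obtain ⟨h2, h3⟩ := h1 0 (by decide)
    rw [hprod] at h2 h3
    rw [rs_diag, e0] at h2 h3
    exact one hκ (hσ 0) h2 h3
  · obtain ⟨h2, h3⟩ := h1 1 (by decide)
    rw [hprod] at h2 h3
    rw [rs_diag, e1] at h2 h3
    exact one hκ (hσ 1) h2 h3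

lemma sq_meas (V : IM) (M : M3) : MeasurableSet (sqw V M) :=
  measurableSet_Ioo.prod measurableSet_Ioo

lemma sq_vol (V : IM) (M : M3) : volume (sqw V M) = 1 := by
  unfold sqw
  rw [Measure.volume_eq_prod, Measure.prod_prod, Real.volume_Ioo, Real.volume_Ioo]
  simp

lemma mat (V E : IM) (y : ℝ × ℝ) (γ : GZ) :
    gmat V y * ic γ * toR E = Matrix.diagonal (fun i => Real.exp (pos V y i)) *
      ((toR V)⁻¹ * toR (γ.1 * E)) := by
  have h : ic γ * toR E = toR (γ.1 * E) := by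
    unfold ic toR
    exact (Matrix.map_mul (f := Int.castRingHom ℝ)).symm
  unfold gmat
  rw [Matrix.mul_assoc, h, Matrix.mul_assoc]

end T2x

open T2x

/-- T2. -/
theorem p_T2 : tT2 := by
  classical
  intro E U hF R ψ _ h01 hsupp V hV hfin
  have key : ∀ (y : ℝ × ℝ) (γ : GZ), ψ (gmat V y * ic γ) ≠ 0 →
      γ ∈ hfin.toFinset ∧ y ∈ sqw V ((toR V)⁻¹ * toR (γ.1 * E)) := by
    intro y γ hne
    obtain ⟨h1, h2⟩ := hsupp _ hne
    rw [mat] at h1 h2
    refine ⟨?_, window V hV _ y h2⟩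
    rw [Set.Finite.mem_toFinset]
    show (toR V)⁻¹ * toR (γ.1 * E) ∈ U
    have h3 := hF.scal (fun i => Real.exp (-pos V y i)) (fun i => Real.exp_pos _) _ h1
    have h4 : Matrix.diagonal (fun i => Real.exp (-pos V y i)) *
        (Matrix.diagonal (fun i => Real.exp (pos V y i)) * ((toR V)⁻¹ * toR (γ.1 * E))) =
        (toR V)⁻¹ * toR (γ.1 * E) := by
      rw [← Matrix.mul_assoc, Matrix.diagonal_mul_diagonal]
      have h5 : (fun i => Real.exp (-pos V y i) * Real.exp (pos V y i)) = fun _ => (1 : ℝ) := by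
        funext i
        rw [← Real.exp_add]
        simp
      rw [h5, Matrix.diagonal_one, Matrix.one_mul]
    rwa [h4] at h3
  have hle : ∀ y : ℝ × ℝ, ENNReal.ofReal (PS ψ (gmat V y)) ≤
      ∑ γ ∈ hfin.toFinset, (sqw V ((toR V)⁻¹ * toR (γ.1 * E))).indicator 1 y := by
    intro y
    have h1 : PS ψ (gmat V y) = ∑ γ ∈ hfin.toFinset, ψ (gmat V y * ic γ) := by
      unfold PS
      apply tsum_eq_sum
      intro γ hγ
      by_contra hne
      exact hγ (key y γ hne).1
    rw [h1, ENNReal.ofReal_sum_of_nonneg fun γ _ => (h01 _).1]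
    refine Finset.sum_le_sum fun γ _ => ?_
    by_cases hne : ψ (gmat V y * ic γ) = 0
    · rw [hne, ENNReal.ofReal_zero]
      exact zero_le
    · rw [Set.indicator_of_mem (key y γ hne).2]
      calc ENNReal.ofReal (ψ (gmat V y * ic γ)) ≤ ENNReal.ofReal 1 :=
            ENNReal.ofReal_le_ofReal (h01 _).2
        _ = (1 : ℝ × ℝ → ENNReal) y := by simp
  calc ∫⁻ y in Hex V, ENNReal.ofReal (PS ψ (gmat V y))
      ≤ ∫⁻ y, ENNReal.ofReal (PS ψ (gmat V y)) := setLIntegral_le_lintegral _ _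
    _ ≤ ∫⁻ y, ∑ γ ∈ hfin.toFinset, (sqw V ((toR V)⁻¹ * toR (γ.1 * E))).indicator 1 y :=
        lintegral_mono hle
    _ = ∑ γ ∈ hfin.toFinset, ∫⁻ y, (sqw V ((toR V)⁻¹ * toR (γ.1 * E))).indicator 1 y :=
        lintegral_finsetSum _ fun γ _ => measurable_one.indicator (sq_meas _ _)
    _ = ∑ γ ∈ hfin.toFinset, (1 : ENNReal) := by
        refine Finset.sum_congr rfl fun γ _ => ?_
        rw [lintegral_indicator_one (sq_meas _ _), sq_vol]
    _ = ({γ : GZ | (toR V)⁻¹ * toR (γ.1 * E) ∈ U}.ncard : ENNReal) := by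
        rw [Finset.sum_const, nsmul_eq_mul, mul_one, Set.ncard_eq_toFinset_card _ hfin]

end SAIL.F
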