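import Pool.Agent.SAIL.FAC.Targets

/-!
SAIL, part A: thin covectors and thin positions (target tTHN).
-/

namespace SAIL.F

open Matrix MeasureTheory Filter SAIL SAIL.A

namespace THNx

/-- the window -/
def W (V : IM) (n : Fin 3 → ℤ) : Set (ℝ × ℝ) :=
  Set.Ico (yn V n).1 ((yn V n).1 + 1 / 4) ×ˢ Set.Ico (yn V n).2 ((yn V n).2 + 1 / 4)

lemma W_meas (V : IM) (n : Fin 3 → ℤ) : MeasurableSet (W V n) :=
  measurableSet_Ico.prod measurableSet_Ico

lemma W_vol (V : IM) (n : Fin 3 → ℤ) : volume (W V n) = ENNReal.ofReal (1 / 16) := by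
  unfold W
  rw [Measure.volume_eq_prod, Measure.prod_prod, Real.volume_Ico, Real.volume_Ico]
  rw [add_sub_cancel_left, add_sub_cancel_left, ← ENNReal.ofReal_mul (by norm_num)]
  norm_num

lemma nv_pos {V : IM} {n : Fin 3 → ℤ} (hn : n ∈ Nn V) (i : Fin 3) : (0 : ℝ) < nv V n i := by
  have h := hn.1 i
  unfold nv
  exact_mod_cast h

lemma dn_pos {V : IM} (hV : 0 < V.det) {n : Fin 3 → ℤ} (hn : n ∈ Nn V) : 0 < dn V n := by
  unfold dn
  have h0 := nv_pos hn 0
  have h1 := nv_pos hn 1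
  have h2 := nv_pos hn 2
  have h3 : (0 : ℝ) < V.det := by exact_mod_cast hV
  positivity

lemma log_dn {V : IM} (hV : 0 < V.det) {n : Fin 3 → ℤ} (hn : n ∈ Nn V) :
    Real.log (dn V n) = Real.log (nv V n 0) + Real.log (nv V n 1) + Real.log (nv V n 2) -
      Real.log V.det := by
  have h0 := nv_pos hn 0
  have h1 := nv_pos hn 1
  have h2 := nv_pos hn 2
  have h3 : (0 : ℝ) < V.det := by exact_mod_cast hV
  unfold dn
  rw [Real.log_div (by positivity) h3.ne', Real.log_mul (by positivity) h2.ne',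
    Real.log_mul h0.ne' h1.ne']

/-- two windows which meet -/
lemma W_meet {V : IM} (hV : 0 < V.det) (hPK : tPK) {n n' : Fin 3 → ℤ} (hn : n ∈ Nn V)
    (hn' : n' ∈ Nn V) (hne : n ≠ n') (hd : dn V n' ≤ dn V n) {y : ℝ × ℝ} (h1 : y ∈ W V n)
    (h2 : y ∈ W V n') : False := by
  obtain ⟨i, hi⟩ := hPK V hV n hn n' hn' hne
  have hlog : Real.log (dn V n') ≤ Real.log (dn V n) := Real.log_le_log (dn_pos hV hn') hd
  have e1 := log_dn hV hn
  have e2 := log_dn hV hn'
  obtain ⟨⟨a1, a2⟩, ⟨a3, a4⟩⟩ := h1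
  obtain ⟨⟨b1, b2⟩, ⟨b3, b4⟩⟩ := h2
  unfold yn at a1 a2 a3 a4 b1 b2 b3 b4
  simp only at a1 a2 a3 a4 b1 b2 b3 b4
  have hi' : (2 : ℝ) * nv V n i ≤ nv V n' i := by exact_mod_cast hi
  have hp := nv_pos hn i
  have h3 : Real.log 2 + Real.log (nv V n i) ≤ Real.log (nv V n' i) := by
    rw [← Real.log_mul (by norm_num) hp.ne']
    exact Real.log_le_log (by positivity) hi'
  have h4 : (0.6931471803 : ℝ) < Real.log 2 := Real.log_two_gt_d9
  have h5 : Real.log (nv V n' i) < Real.log (nv V n i) + 1 / 2 := by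
    fin_cases i
    · show Real.log (nv V n' 0) < Real.log (nv V n 0) + 1 / 2
      linarith
    · show Real.log (nv V n' 1) < Real.log (nv V n 1) + 1 / 2
      linarith
    · show Real.log (nv V n' 2) < Real.log (nv V n 2) + 1 / 2
      linarith
  linarith

lemma W_disj {V : IM} (hV : 0 < V.det) (hPK : tPK) {n n' : Fin 3 → ℤ} (hn : n ∈ Nn V)
    (hn' : n' ∈ Nn V) (hne : n ≠ n') : Disjoint (W V n) (W V n') := by
  rw [Set.disjoint_left]
  intro y h1 h2
  rcases le_total (dn V n') (dn V n) with h | h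
  · exact W_meet hV hPK hn hn' hne h h1 h2
  · exact W_meet hV hPK hn' hn hne.symm h h2 h1

lemma W_thin {V : IM} (hV : 0 < V.det) (hGM : tGM) {n : Fin 3 → ℤ} (hn : n ∈ Nn V) {δ : ℝ}
    (hd : dn V n < δ) {y : ℝ × ℝ} (hy : y ∈ W V n) : ¬ Thick (5 * δ) (gmat V y) := by
  intro hT
  obtain ⟨hdet, -, -, -, hinv, -⟩ := hGM V hV y
  have hn0 : n ≠ 0 := by
    rintro rfl
    have h := hn.1 0
    rw [zero_dotProduct] at h
    exact lt_irrefl _ h
  have h1 := hT n hn0
  rw [hdet, one_pow, mul_one] at h1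
  have hadj : (gmat V y).adjugate = (gmat V y)⁻¹ := by
    rw [Matrix.inv_def, hdet, Ring.inverse_one, one_smul]
  have hdp := dn_pos hV hn
  have hl := log_dn hV hn
  obtain ⟨⟨a1, a2⟩, ⟨a3, a4⟩⟩ := hy
  unfold yn at a1 a2 a3 a4
  simp only at a1 a2 a3 a4
  -- the entries
  have hent : ∀ i, Matrix.vecMul (fun i => (n i : ℝ)) (gmat V y).adjugate i =
      nv V n i * Real.exp (-pos V y i) := by
    intro i
    rw [hadj]
    unfold Matrix.vecMul dotProduct
    simp only [hinv]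
    unfold nv dotProduct vcol
    push_cast
    rw [Finset.sum_mul]
    refine Finset.sum_congr rfl fun r _ => ?_
    ring
  have hpos : ∀ i : Fin 3, Real.log (nv V n i) - pos V y i ≤ Real.log (dn V n) / 3 + 1 / 2 := by
    intro i
    fin_cases i
    · show Real.log (nv V n 0) - y.1 ≤ Real.log (dn V n) / 3 + 1 / 2
      linarith
    · show Real.log (nv V n 1) - y.2 ≤ Real.log (dn V n) / 3 + 1 / 2
      linarith
    · show Real.log (nv V n 2) - (Real.log V.det - y.1 - y.2) ≤ Real.log (dn V n) / 3 + 1 / 2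
      linarith
  have hle : ∀ i, nv V n i * Real.exp (-pos V y i) ≤ Real.exp (Real.log (dn V n) / 3 + 1 / 2) := by
    intro i
    have hp := nv_pos hn i
    calc nv V n i * Real.exp (-pos V y i)
        = Real.exp (Real.log (nv V n i)) * Real.exp (-pos V y i) := by rw [Real.exp_log hp]
      _ = Real.exp (Real.log (nv V n i) - pos V y i) := by rw [← Real.exp_add]; ring_nf
      _ ≤ _ := Real.exp_le_exp.2 (hpos i)
  have hnorm : ‖Matrix.vecMul (fun i => (n i : ℝ)) (gmat V y).adjugate‖ ≤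
      Real.exp (Real.log (dn V n) / 3 + 1 / 2) := by
    refine (pi_norm_le_iff_of_nonneg (Real.exp_pos _).le).2 fun i => ?_
    rw [hent i, Real.norm_eq_abs, abs_of_pos (mul_pos (nv_pos hn i) (Real.exp_pos _))]
    exact hle i
  have h2 : ‖Matrix.vecMul (fun i => (n i : ℝ)) (gmat V y).adjugate‖ ^ 3 ≤
      Real.exp (Real.log (dn V n) / 3 + 1 / 2) ^ 3 := pow_le_pow_left₀ (norm_nonneg _) hnorm 3
  have h3 : Real.exp (Real.log (dn V n) / 3 + 1 / 2) ^ 3 = dn V n * Real.exp (3 / 2) := by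
    rw [← Real.exp_nat_mul]
    have e : ((3 : ℕ) : ℝ) * (Real.log (dn V n) / 3 + 1 / 2) = Real.log (dn V n) + 3 / 2 := by
      push_cast
      ring
    rw [e, Real.exp_add, Real.exp_log hdp]
  have h4 : Real.exp (3 / 2) < 5 := by
    have h5 : Real.exp (3 / 2) ^ 2 = Real.exp 1 ^ 3 := by
      rw [← Real.exp_nat_mul, ← Real.exp_nat_mul]
      norm_num
    have h6 := Real.exp_one_lt_d9
    have h7 : Real.exp 1 ^ 3 < 2.7182818286 ^ 3 := pow_lt_pow_left₀ h6 (Real.exp_pos _).le (by norm_num)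
    have h8 : Real.exp (3 / 2) ^ 2 < 5 ^ 2 := by
      rw [h5]
      exact lt_trans h7 (by norm_num)
    exact lt_of_pow_lt_pow_left₀ 2 (by norm_num) h8
  have h5 : dn V n * Real.exp (3 / 2) < 5 * δ := by
    have h6 := Real.exp_pos (3 / 2)
    nlinarith
  linarith

end THNx

open THNx

theorem p_THN (hPK : tPK) (hGM : tGM) : tTHN := by
  intro V hV _ δ _ S hS
  have hsub : ∀ n ∈ S, W V n ⊆ {y | y ∈ Hex V ∧ ¬ Thick (5 * δ) (gmat V y)} := by
    intro n hn y hy
    obtain ⟨h1, h2, h3⟩ := hS n hn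
    refine ⟨?_, W_thin hV hGM h1 h3 hy⟩
    have h4 := h2 (y.1 - (yn V n).1) (y.2 - (yn V n).2)
    obtain ⟨⟨a1, a2⟩, ⟨a3, a4⟩⟩ := hy
    have h5 := h4 (by linarith) (by linarith) (by linarith) (by linarith)
    have e : yn V n + (y.1 - (yn V n).1, y.2 - (yn V n).2) = y := by
      ext
      · simp
      · simp
    rwa [e] at h5
  have hun : (⋃ n ∈ S, W V n) ⊆ {y | y ∈ Hex V ∧ ¬ Thick (5 * δ) (gmat V y)} :=
    Set.iUnion₂_subset hsub
  have hvol : volume (⋃ n ∈ S, W V n) = S.card * ENNReal.ofReal (1 / 16) := by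
    rw [measure_biUnion_finset]
    · rw [Finset.sum_congr rfl fun n _ => W_vol V n, Finset.sum_const, nsmul_eq_mul]
    · intro n hn n' hn' hne
      exact W_disj hV hPK (hS n hn).1 (hS n' hn').1 hne
    · intro n _
      exact W_meas V n
  have h1 : (S.card : ENNReal) * ENNReal.ofReal (1 / 16) ≤
      volume {y | y ∈ Hex V ∧ ¬ Thick (5 * δ) (gmat V y)} := by
    rw [← hvol]
    exact measure_mono hun
  have h2 : (16 : ENNReal) * ENNReal.ofReal (1 / 16) = 1 := by
    have e : (16 : ENNReal) = ENNReal.ofReal 16 := by norm_num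
    rw [e, ← ENNReal.ofReal_mul (by norm_num)]
    norm_num
  calc (S.card : ENNReal) = 16 * ((S.card : ENNReal) * ENNReal.ofReal (1 / 16)) := by
        rw [mul_left_comm, h2, mul_one]
    _ ≤ 16 * volume {y | y ∈ Hex V ∧ ¬ Thick (5 * δ) (gmat V y)} := mul_le_mul_right h1 _

end SAIL.F
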