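import Pool.Agent.SAIL.FAC.Targets
import Pool.Agent.SAIL.ARI.P_EQ
import Pool.Agent.SAIL.ARI.P_GM

/-!
SAIL, part A: target UPQ (upper bound for the number of quadrangles).
-/

open Matrix MeasureTheory Set Filter SAIL SAIL.A

namespace SAIL.F.UPQx

open SAIL.A.eqx

lemma PS_nonneg {ψ : M3 → ℝ} (h : ∀ M, 0 ≤ ψ M) (M : M3) : 0 ≤ PS ψ M :=
  tsum_nonneg fun _ => h _

lemma int_gmat {V : IM} (hV : 0 < V.det) (hf : volume (Hex V) ≠ ⊤) {F : M3 → ℝ} (hF : LF F) :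
    IntegrableOn (fun y : ℝ × ℝ => F (gmat V y)) (Hex V) := by
  obtain ⟨B, hB⟩ := hF.bdd
  exact Measure.integrableOn_of_bounded (hf) (cont_comp p_GM hV hF.cont).aestronglyMeasurable
    (Eventually.of_forall fun y => hB _)

lemma lint_eq {V : IM} (hV : 0 < V.det) (hf : volume (Hex V) ≠ ⊤) {F : M3 → ℝ} (hF : LF F)
    (h0 : ∀ M, 0 ≤ F M) :
    ∫⁻ y in Hex V, ENNReal.ofReal (F (gmat V y)) =
      ENNReal.ofReal (∫ y in Hex V, F (gmat V y)) :=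
  (ofReal_integral_eq_lintegral_ofReal (int_gmat hV hf hF)
    (Eventually.of_forall fun _ => h0 _)).symm

open Classical in
/-- the number of covectors of one cone -/
lemma cnt (hTHN : tTHN) (hQ1 : tQ1) (hQ2 : tQ2) {V : IM} (hV : 0 < V.det)
    (hp : ∀ i, prim (vcol V i)) (hf : volume (Hex V) ≠ ⊤) {a b D : ℝ} (ha : 0 < a) (hb : 0 < b)
    (hN : (Nn V).Finite) (hD : ({n | n ∈ Nn V ∧ ¬ Ins V n}.ncard : ℝ) ≤ D)
    {R1 R2 : ℝ} {ψ1 ψ2 : M3 → ℝ} (h1 : CSF R1 ψ1) (h2 : CSF R2 ψ2) (h10 : ∀ M, 0 ≤ ψ1 M)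
    (h20 : ∀ M, 0 ≤ ψ2 M) (h11 : ∀ M ∈ K1 a b, 1 ≤ ψ1 M) (h21 : ∀ M ∈ K2 b, 1 ≤ ψ2 M)
    (hL1 : LF (PS ψ1)) (hL2 : LF (PS ψ2)) :
    ((Nn V).ncard : ℝ) ≤ D +
      16 * (volume {y | y ∈ Hex V ∧ ¬ Thick (5 * a) (gmat V y)}).toReal +
      (∫ y in Hex V, PS ψ1 (gmat V y)) + (∫ y in Hex V, PS ψ2 (gmat V y)) / 4 := by
  set N : Finset (Fin 3 → ℤ) := hN.toFinset with hNdef
  have hmem : ∀ n, n ∈ N ↔ n ∈ Nn V := fun n => hN.mem_toFinset
  set N0 := N.filter (fun n => ¬ Ins V n) with hN0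
  set N1 := N.filter (fun n => Ins V n ∧ dn V n < a) with hN1
  set N2 := N.filter (fun n => Ins V n ∧ a ≤ dn V n ∧ dn V n ≤ b) with hN2
  set N3 := N.filter (fun n => Ins V n ∧ b ≤ dn V n) with hN3
  have hsub : N ⊆ N0 ∪ (N1 ∪ (N2 ∪ N3)) := by
    intro n hn
    simp only [hN0, hN1, hN2, hN3, Finset.mem_union, Finset.mem_filter]
    by_cases hi : Ins V n
    · by_cases h3 : dn V n < a
      · exact Or.inr (Or.inl ⟨hn, hi, h3⟩)
      · by_cases h4 : dn V n ≤ b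
        · exact Or.inr (Or.inr (Or.inl ⟨hn, hi, not_lt.1 h3, h4⟩))
        · exact Or.inr (Or.inr (Or.inr ⟨hn, hi, (not_le.1 h4).le⟩))
    · exact Or.inl ⟨hn, hi⟩
  have hcard : N.card ≤ N0.card + (N1.card + (N2.card + N3.card)) := by
    refine (Finset.card_le_card hsub).trans ((Finset.card_union_le _ _).trans ?_)
    refine Nat.add_le_add_left ((Finset.card_union_le _ _).trans ?_) _
    exact Nat.add_le_add_left (Finset.card_union_le _ _) _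
  have hNc : ((Nn V).ncard : ℝ) = (N.card : ℝ) := by
    rw [Set.ncard_eq_toFinset_card _ hN]
  have b0 : (N0.card : ℝ) ≤ D := by
    refine le_trans (le_of_eq ?_) hD
    rw [← Set.ncard_coe_finset]
    congr 2
    ext n
    simp only [hN0, Finset.coe_filter, Set.mem_ofPred_eq, hmem]
  have b1 : (N1.card : ℝ) ≤
      16 * (volume {y | y ∈ Hex V ∧ ¬ Thick (5 * a) (gmat V y)}).toReal := by
    have h := hTHN V hV hp a ha N1 (fun n hn => by
      have h' := Finset.mem_filter.1 hn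
      exact ⟨(hmem n).1 h'.1, h'.2.1, h'.2.2⟩)
    have hfin : volume {y | y ∈ Hex V ∧ ¬ Thick (5 * a) (gmat V y)} ≠ ⊤ :=
      ne_top_of_le_ne_top hf (measure_mono fun y hy => hy.1)
    have h3 := ENNReal.toReal_mono (ENNReal.mul_ne_top (by norm_num) hfin) h
    rw [ENNReal.toReal_mul, ENNReal.toReal_natCast] at h3
    simpa using h3
  have b2 : (N2.card : ℝ) ≤ ∫ y in Hex V, PS ψ1 (gmat V y) := by
    have h := hQ1 V hV a b ha R1 ψ1 h1 h10 h11 N2 (fun n hn => by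
      have h' := Finset.mem_filter.1 hn
      exact ⟨(hmem n).1 h'.1, h'.2.1, h'.2.2.1, h'.2.2.2⟩)
    rw [lint_eq hV hf hL1 (PS_nonneg h10), ← ENNReal.ofReal_natCast,
      ENNReal.ofReal_le_ofReal_iff (integral_nonneg fun _ => PS_nonneg h10 _)] at h
    exact h
  have b3 : (N3.card : ℝ) ≤ (∫ y in Hex V, PS ψ2 (gmat V y)) / 4 := by
    have h := hQ2 V hV b hb R2 ψ2 h2 h20 h21 N3 (fun n hn => by
      have h' := Finset.mem_filter.1 hn
      exact ⟨(hmem n).1 h'.1, h'.2.1, h'.2.2⟩)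
    have e4 : (4 : ENNReal) * (N3.card : ENNReal) = ENNReal.ofReal (4 * (N3.card : ℝ)) := by
      rw [ENNReal.ofReal_mul (by norm_num), ENNReal.ofReal_natCast]
      norm_num
    rw [lint_eq hV hf hL2 (PS_nonneg h20), e4,
      ENNReal.ofReal_le_ofReal_iff (integral_nonneg fun _ => PS_nonneg h20 _)] at h
    linarith
  rw [hNc]
  have hc : (N.card : ℝ) ≤ N0.card + (N1.card + (N2.card + N3.card)) := by exact_mod_cast hcard
  linarith

lemma fin_num {ε CA C3 CO C1 e M L W Sv c1' c2' xQ X1 X2 T I1 I2 U : ℝ} (hε : 0 < ε) (hM : 0 < M)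
    (hL : 0 < L) (hW : 0 < W) (hSv : 0 ≤ Sv)
    (he2 : CA * C3 * e ≤ ε / 8) (hL1 : (CA * C3 + CO * C1) * 8 ≤ ε * L)
    (hc : c1' + c2' / 4 ≤ xQ)
    (hT : T ≤ ε / 128 * M * L ^ 4)
    (hX1 : X1 ≤ ε / 8 * (M * L ^ 4)) (hX2 : X2 ≤ ε / 8 * (M * L ^ 4))
    (hI1 : I1 = X1 + c1' / W * Sv) (hI2 : I2 = X2 + c2' / W * Sv)
    (hU : U ≤ C3 * M * (e * L ^ 2 + L) * (CA * L ^ 2) + C1 * M * L ^ 2 * (CO * L) + 16 * T + I1 +
      I2 / 4) :
    U ≤ xQ / W * Sv + ε * M * L ^ 4 := by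
  have hML : 0 < M * L ^ 4 := by positivity
  have hML3 : 0 < M * L ^ 3 := by positivity
  have e1 : C3 * M * (e * L ^ 2 + L) * (CA * L ^ 2) + C1 * M * L ^ 2 * (CO * L) =
      (CA * C3 * e) * (M * L ^ 4) + (CA * C3 + CO * C1) * (M * L ^ 3) := by ring
  have e2 : (CA * C3 * e) * (M * L ^ 4) ≤ ε / 8 * (M * L ^ 4) :=
    mul_le_mul_of_nonneg_right he2 hML.le
  have e3 : (CA * C3 + CO * C1) * (M * L ^ 3) ≤ ε / 8 * L * (M * L ^ 3) :=
    mul_le_mul_of_nonneg_right (by linarith) hML3.le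
  have e4 : ε / 8 * L * (M * L ^ 3) = ε / 8 * (M * L ^ 4) := by ring
  have e5 : c1' / W * Sv + c2' / W * Sv / 4 ≤ xQ / W * Sv := by
    have e6 : c1' / W * Sv + c2' / W * Sv / 4 = (c1' + c2' / 4) / W * Sv := by ring
    rw [e6]
    exact mul_le_mul_of_nonneg_right (div_le_div_of_nonneg_right hc hW.le) hSv
  have e7 : ε / 128 * M * L ^ 4 = ε / 128 * (M * L ^ 4) := by ring
  have e8 : ε * M * L ^ 4 = ε * (M * L ^ 4) := by ring
  rw [e8]
  rw [e7] at hT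
  have e9 : 0 < ε * (M * L ^ 4) := by positivity
  subst hI1 hI2
  nlinarith

/-- choice of the two constants -/
lemma pick {v1 v2 : ENNReal} {xQ : ℝ} (hx : 0 < xQ) (h : v1 + v2 / 4 < ENNReal.ofReal xQ) :
    ∃ c1 c2 : ℝ, v1 < ENNReal.ofReal c1 ∧ v2 < ENNReal.ofReal c2 ∧ c1 + c2 / 4 ≤ xQ := by
  have hv1 : v1 ≠ ⊤ := ne_top_of_lt (lt_of_le_of_lt le_self_add h)
  have hv24 : v2 / 4 ≠ ⊤ := ne_top_of_lt (lt_of_le_of_lt le_add_self h)
  have hv2 : v2 ≠ ⊤ := by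
    intro h'
    rw [h'] at hv24
    exact hv24 (ENNReal.top_div_of_ne_top (by norm_num))
  obtain ⟨x, rfl⟩ : ∃ x : NNReal, v1 = x := ⟨v1.toNNReal, (ENNReal.coe_toNNReal hv1).symm⟩
  obtain ⟨z, rfl⟩ : ∃ z : NNReal, v2 = z := ⟨v2.toNNReal, (ENNReal.coe_toNNReal hv2).symm⟩
  have h' : (x : ℝ) + z / 4 < xQ := by
    have h1 := (ENNReal.toReal_lt_toReal (ENNReal.add_ne_top.2 ⟨hv1, hv24⟩)
      ENNReal.ofReal_ne_top).2 h
    rw [ENNReal.toReal_add hv1 hv24, ENNReal.toReal_div, ENNReal.toReal_ofReal hx.le] at h1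
    simpa using h1
  set η : ℝ := (xQ - (x + z / 4)) / 2 with hη
  have hηp : 0 < η := by rw [hη]; linarith
  refine ⟨x + η, z + η, ?_, ?_, ?_⟩
  · rw [← ENNReal.ofReal_coe_nnreal]
    exact (ENNReal.ofReal_lt_ofReal_iff (by have := x.2; positivity)).2 (by linarith)
  · rw [← ENNReal.ofReal_coe_nnreal]
    exact (ENNReal.ofReal_lt_ofReal_iff (by have := z.2; positivity)).2 (by linarith)
  · rw [hη]; linarith

lemma int_split {V : IM} (hV : 0 < V.det) (hf : volume (Hex V) ≠ ⊤) {F : M3 → ℝ} (hF : LF F)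
    (c : ℝ) : ∫ y in Hex V, F (gmat V y) =
      (∫ y in Hex V, (F (gmat V y) - c)) + c * (volume (Hex V)).toReal := by
  rw [integral_sub (int_gmat hV hf hF) (integrableOn_const hf)]
  rw [setIntegral_const]
  simp only [smul_eq_mul, Measure.real]
  ring

end SAIL.F.UPQx

namespace SAIL.F

open UPQx

open Classical in
/-- Upper bound for quadrangles. -/
theorem p_UPQ (hEQ : tEQ) (hTI : tTIGHT) (hC1 : tC1) (hC3 : tC3) (hC8 : tC8) (hY5 : tY5)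
    (hOUT : tOUT) (hTHN : tTHN) (hALL : tALL) (hQ1 : tQ1) (hQ2 : tQ2) (hAPX : tAPX) (hKC : tKC)
    (hFV : T_FV) (hPS : T_PS) : tUPQ := by
  intro s hs b xQ hb hxQ hvol ε hε
  obtain ⟨C1, hC1p, h1⟩ := hC1
  obtain ⟨C3, hC3p, h3⟩ := hC3
  obtain ⟨C8, hC8p, h8⟩ := hC8
  obtain ⟨CO, hCOp, hO⟩ := hOUT
  obtain ⟨CA, hCAp, hA⟩ := hALL
  set e : ℝ := min 1 (ε / (8 * (CA * C3))) with he
  have hep : 0 < e := lt_min one_pos (by positivity)
  have he1 : e ≤ 1 := min_le_left _ _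
  have he2 : CA * C3 * e ≤ ε / 8 := by
    calc CA * C3 * e ≤ CA * C3 * (ε / (8 * (CA * C3))) :=
          mul_le_mul_of_nonneg_left (min_le_right _ _) (by positivity)
      _ = ε / 8 := by field_simp
  obtain ⟨δ, m₁, hδ, hTI'⟩ := hTI e (ε / 128) hep (by positivity)
  set a : ℝ := δ / 5 with ha
  have hap : 0 < a := by positivity
  have h5a : 5 * a = δ := by rw [ha]; ring
  obtain ⟨c1, c2, hv1, hv2, hcc⟩ := pick hxQ (hvol a hap)
  obtain ⟨⟨⟨RA, hRA⟩, hsA, hclA⟩, -⟩ := hKC a b hap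
  obtain ⟨-, ⟨RB, hRB⟩, hsB, hclB⟩ := hKC b b hb
  obtain ⟨R1, ψ1, hψ1, hψ1b, hψ11, hψ1c⟩ := hAPX (K1 a b) RA hRA hsA hclA c1 hv1
  obtain ⟨R2, ψ2, hψ2, hψ2b, hψ21, hψ2c⟩ := hAPX (K2 b) RB hRB hsB hclB c2 hv2
  have hLF1 := hPS R1 ψ1 hψ1
  have hLF2 := hPS R2 ψ2 hψ2
  obtain ⟨hW1, hW2⟩ := hFV s hs
  set W : ℝ := (volume s).toReal with hWdef
  have hW : 0 < W := ENNReal.toReal_pos hW2.ne' hW1.ne
  have hEQ1 := hEQ s hs R1 ψ1 hψ1
  have hEQ2 := hEQ s hs R2 ψ2 hψ2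
  rw [Metric.tendsto_atTop] at hEQ1 hEQ2
  obtain ⟨N1, hN1⟩ := hEQ1 (ε / 8) (by positivity)
  obtain ⟨N2, hN2⟩ := hEQ2 (ε / 8) (by positivity)
  set Lm : ℝ := (CA * C3 + CO * C1) * 8 / ε with hLm
  refine ⟨max 2 (max m₁ (max N1 (max N2 (Real.exp Lm)))), ?_⟩
  intro m hm'
  have hm2r : (2 : ℝ) ≤ m := (le_max_left _ _).trans hm'
  have hm2 : 2 ≤ m := by exact_mod_cast hm2r
  have hmm₁ : m₁ ≤ m := (le_max_left _ _).trans ((le_max_right _ _).trans hm')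
  have hmN1 : N1 ≤ m := by
    have : (N1 : ℝ) ≤ m :=
      (le_max_left _ _).trans ((le_max_right _ _).trans ((le_max_right _ _).trans hm'))
    exact_mod_cast this
  have hmN2 : N2 ≤ m := by
    have : (N2 : ℝ) ≤ m :=
      (le_max_left _ _).trans ((le_max_right _ _).trans ((le_max_right _ _).trans
        ((le_max_right _ _).trans hm')))
    exact_mod_cast this
  have hmexp : Real.exp Lm ≤ m :=
    (le_max_right _ _).trans ((le_max_right _ _).trans ((le_max_right _ _).trans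
        ((le_max_right _ _).trans hm')))
  have hmpos : (0 : ℝ) < m := by linarith
  set L : ℝ := Real.log m with hLdef
  have hLp : 0 < L := Real.log_pos (by linarith)
  have hLL : Lm ≤ L := by
    have := Real.log_le_log (Real.exp_pos _) hmexp
    rwa [Real.log_exp] at this
  have hL1 : (CA * C3 + CO * C1) * 8 ≤ ε * L := by
    have := (div_le_iff₀ hε).1 hLL
    linarith
  have hM : (0 : ℝ) < (m : ℝ) ^ 6 := by positivity
  have hML : (0 : ℝ) < (m : ℝ) ^ 6 * L ^ 4 := by positivity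
  have hVp : ∀ P ∈ PPf m, 0 < P.2.det ∧ ∀ i, prim (vcol P.2 i) := by
    intro P hP
    obtain ⟨l, hl⟩ := (Finset.mem_filter.1 hP).2.2
    exact ⟨hl.2.2.2.2, hl.2.2.2.1⟩
  have hVf : ∀ P ∈ PPf m, volume (Hex P.2) ≠ ⊤ := fun P hP =>
    (lt_of_le_of_lt (h8 m hm2 P hP) ENNReal.ofReal_lt_top).ne
  set v : IM × IM → ℝ := fun P =>
    (volume {y | y ∈ Hex P.2 ∧ ¬ Thick δ (gmat P.2 y)}).toReal with hv
  set I1 : IM × IM → ℝ := fun P => ∫ y in Hex P.2, PS ψ1 (gmat P.2 y) with hI1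
  set I2 : IM × IM → ℝ := fun P => ∫ y in Hex P.2, PS ψ2 (gmat P.2 y) with hI2
  have hI10 : ∀ P, 0 ≤ I1 P := fun P => integral_nonneg fun _ => PS_nonneg (fun M => (hψ1b M).1) _
  have hI20 : ∀ P, 0 ≤ I2 P := fun P => integral_nonneg fun _ => PS_nonneg (fun M => (hψ2b M).1) _
  -- one pair
  have hone : ∀ P ∈ PPf m, ((Nn P.2).ncard : ℝ) ≤ CO * L + 16 * v P + I1 P + I2 P / 4 := by
    intro P hP
    have h := cnt hTHN hQ1 hQ2 (hVp P hP).1 (hVp P hP).2 (hVf P hP) hap hb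
      (hY5 P.2 (hVp P hP).1).1 (hO m hm2 P hP) hψ1 hψ2 (fun M => (hψ1b M).1)
      (fun M => (hψ2b M).1) (fun M hM => (hψ11 M hM).ge) (fun M hM => (hψ21 M hM).ge) hLF1 hLF2
    rw [h5a] at h
    exact h
  -- split of the sum
  have hsum : ((∑ P ∈ PPf m, (fc 4 P.2).ncard : ℕ) : ℝ) ≤
      C3 * (m : ℝ) ^ 6 * (e * L ^ 2 + L) * (CA * L ^ 2) + C1 * (m : ℝ) ^ 6 * L ^ 2 * (CO * L) +
        16 * (∑ P ∈ (PPf m).filter (Gap e m), v P) + (∑ P ∈ PPf m, I1 P) +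
        (∑ P ∈ PPf m, I2 P) / 4 := by
    have hst1 : ((∑ P ∈ PPf m, (fc 4 P.2).ncard : ℕ) : ℝ) ≤ ∑ P ∈ PPf m, ((Nn P.2).ncard : ℝ) := by
      push_cast
      refine Finset.sum_le_sum fun P hP => ?_
      exact_mod_cast (hY5 P.2 (hVp P hP).1).2
    have hst2 : ∑ P ∈ (PPf m).filter (fun P => ¬ Gap e m P), ((Nn P.2).ncard : ℝ) ≤
        C3 * (m : ℝ) ^ 6 * (e * L ^ 2 + L) * (CA * L ^ 2) := by
      refine (Finset.sum_le_card_nsmul _ _ (CA * L ^ 2) fun P hP =>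
        hA m hm2 P (Finset.mem_filter.1 hP).1).trans ?_
      rw [nsmul_eq_mul]
      exact mul_le_mul_of_nonneg_right (h3 m e hm2 hep he1) (by positivity)
    have hst3 : ∑ P ∈ (PPf m).filter (Gap e m), ((Nn P.2).ncard : ℝ) ≤
        C1 * (m : ℝ) ^ 6 * L ^ 2 * (CO * L) +
          16 * (∑ P ∈ (PPf m).filter (Gap e m), v P) + (∑ P ∈ PPf m, I1 P) +
          (∑ P ∈ PPf m, I2 P) / 4 := by
      have h4 : ∑ P ∈ (PPf m).filter (Gap e m), ((Nn P.2).ncard : ℝ) ≤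
          ∑ P ∈ (PPf m).filter (Gap e m), (CO * L + 16 * v P + I1 P + I2 P / 4) :=
        Finset.sum_le_sum fun P hP => hone P (Finset.mem_filter.1 hP).1
      rw [Finset.sum_add_distrib, Finset.sum_add_distrib, Finset.sum_add_distrib,
        Finset.sum_const, nsmul_eq_mul, ← Finset.mul_sum, ← Finset.sum_div] at h4
      have h5 : (((PPf m).filter (Gap e m)).card : ℝ) * (CO * L) ≤
          C1 * (m : ℝ) ^ 6 * L ^ 2 * (CO * L) := by
        refine mul_le_mul_of_nonneg_right ?_ (by positivity)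
        refine le_trans ?_ (h1 m hm2)
        exact_mod_cast Finset.card_filter_le _ _
      have h6 : ∑ P ∈ (PPf m).filter (Gap e m), I1 P ≤ ∑ P ∈ PPf m, I1 P :=
        Finset.sum_le_sum_of_subset_of_nonneg (Finset.filter_subset _ _) fun P _ _ => hI10 P
      have h7 : ∑ P ∈ (PPf m).filter (Gap e m), I2 P ≤ ∑ P ∈ PPf m, I2 P :=
        Finset.sum_le_sum_of_subset_of_nonneg (Finset.filter_subset _ _) fun P _ _ => hI20 P
      linarith
    have hst4 : ∑ P ∈ PPf m, ((Nn P.2).ncard : ℝ) =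
        (∑ P ∈ (PPf m).filter (Gap e m), ((Nn P.2).ncard : ℝ)) +
          ∑ P ∈ (PPf m).filter (fun P => ¬ Gap e m P), ((Nn P.2).ncard : ℝ) := by
      rw [← Finset.sum_filter_add_sum_filter_not (PPf m) (Gap e m)]
    rw [hst4] at hst1
    linarith
  -- thin part
  have hT : ∑ P ∈ (PPf m).filter (Gap e m), v P ≤ ε / 128 * (m : ℝ) ^ 6 * L ^ 4 := by
    have h4 := hTI' m hmm₁
    have h5 : ∑ P ∈ (PPf m).filter (Gap e m), v P = (∑ P ∈ (PPf m).filter (Gap e m),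
        volume {y | y ∈ Hex P.2 ∧ ¬ Thick δ (gmat P.2 y)}).toReal := by
      rw [ENNReal.toReal_sum]
      intro P hP
      exact ne_top_of_le_ne_top (hVf P (Finset.mem_filter.1 hP).1)
        (measure_mono fun y hy => hy.1)
    rw [h5]
    exact ENNReal.toReal_le_of_le_ofReal (by positivity) h4
  -- main terms
  have hsp : ∀ (ψ : M3 → ℝ), LF (PS ψ) → ∀ c : ℝ,
      ∑ P ∈ PPf m, ∫ y in Hex P.2, PS ψ (gmat P.2 y) =
        (∑ P ∈ PPf m, ∫ y in Hex P.2, (PS ψ (gmat P.2 y) - c)) +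
          c * ∑ P ∈ PPf m, (volume (Hex P.2)).toReal := by
    intro ψ hψ c
    rw [Finset.mul_sum, ← Finset.sum_add_distrib]
    exact Finset.sum_congr rfl fun P hP => int_split (hVp P hP).1 (hVf P hP) hψ c
  have hX : ∀ X : ℝ, dist (X / ((m : ℝ) ^ 6 * L ^ 4)) 0 < ε / 8 → X ≤ ε / 8 * ((m : ℝ) ^ 6 * L ^ 4) := by
    intro X h
    rw [Real.dist_eq, sub_zero] at h
    have h' := (le_abs_self _).trans h.le
    exact (div_le_iff₀ hML).1 h'
  have hSv : 0 ≤ ∑ P ∈ PPf m, (volume (Hex P.2)).toReal :=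
    Finset.sum_nonneg fun _ _ => ENNReal.toReal_nonneg
  have hcc' : (∫ M in Co, ψ1 M) + (∫ M in Co, ψ2 M) / 4 ≤ xQ := by linarith
  exact fin_num hε hM hLp hW hSv he2 hL1 hcc' hT (hX _ (hN1 m hmN1)) (hX _ (hN2 m hmN2))
    (hsp ψ1 hLF1 _) (hsp ψ2 hLF2 _) hsum

end SAIL.F
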