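import Pool.Agent.SAIL.FAC.Targets

/-!
SAIL, part A, item WN: windows of covectors.
-/

namespace SAIL.F

open Matrix MeasureTheory Filter SAIL SAIL.A

namespace WNx

lemma nn_inv (M : M3) (i : Fin 3) : nn M i = M⁻¹ 0 i := by
  unfold nn
  rw [Matrix.inv_def, Ring.inverse_eq_inv', Matrix.smul_apply, smul_eq_mul, div_eq_inv_mul]

lemma nn_scale (s : Fin 3 → ℝ) (hs : ∀ i, s i ≠ 0) (M : M3) (i : Fin 3) :
    nn (Matrix.diagonal s * M) i = nn M i / s i := by
  rw [nn_inv, nn_inv, Matrix.mul_inv_rev]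
  have h : (Matrix.diagonal s)⁻¹ = Matrix.diagonal (fun i => (s i)⁻¹) := by
    apply Matrix.inv_eq_right_inv
    rw [Matrix.diagonal_mul_diagonal]
    have : (fun i => s i * (s i)⁻¹) = fun _ => (1 : ℝ) := by
      funext i; exact mul_inv_cancel₀ (hs i)
    rw [this]; exact Matrix.diagonal_one
  rw [h, Matrix.mul_diagonal, div_eq_mul_inv]

lemma BB_scale (s : Fin 3 → ℝ) (hs : ∀ i, s i ≠ 0) (M : M3) :
    BB (Matrix.diagonal s * M) = BB M := by
  unfold BB
  rw [← Matrix.mul_assoc, Matrix.diagonal_mul_diagonal]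
  congr 2
  funext i
  rw [nn_scale s hs, div_mul_cancel₀ _ (hs i)]

lemma dl_scale (s : Fin 3 → ℝ) (hs : ∀ i, s i ≠ 0) (M : M3) :
    dl (Matrix.diagonal s * M) = dl M := by
  unfold dl
  rw [nn_scale s hs, nn_scale s hs, nn_scale s hs, Matrix.det_mul, Matrix.det_diagonal,
    Fin.prod_univ_three]
  have h0 := hs 0
  have h1 := hs 1
  have h2 := hs 2
  field_simp

lemma det_toR (V : IM) : (toR V).det = (V.det : ℝ) := by
  have h : toR V = (Int.castRingHom ℝ).mapMatrix V := by ext i j; rfl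
  rw [h, ← RingHom.map_det]; rfl

lemma inv_row (V : IM) (hV : 0 < V.det) (n : Fin 3 → ℤ) (γ : GZ)
    (hγ : n ᵥ* γ.1 = ![1, 0, 0]) (i : Fin 3) :
    nn ((toR V)⁻¹ * ic γ) i = nv V n i := by
  have hi : (ic γ)⁻¹ = ic γ⁻¹ := Matrix.inv_eq_right_inv (ic_mul_inv γ)
  have hu : IsUnit (toR V).det := by
    rw [det_toR]; exact isUnit_iff_ne_zero.mpr (by exact_mod_cast hV.ne')
  have hrow : ∀ r, (γ⁻¹ : GZ).1 0 r = n r := by
    have h1 : n = ![1, 0, 0] ᵥ* (γ⁻¹ : GZ).1 := by
      rw [← hγ, Matrix.vecMul_vecMul]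
      have : γ.1 * (γ⁻¹ : GZ).1 = 1 := congrArg Subtype.val (mul_inv_cancel γ)
      rw [this, Matrix.vecMul_one]
    intro r
    conv_rhs => rw [h1]
    simp [Matrix.vecMul, dotProduct, Fin.sum_univ_three]
  rw [nn_inv, Matrix.mul_inv_rev, Matrix.nonsing_inv_nonsing_inv _ hu, hi, Matrix.mul_apply]
  unfold nv vcol dotProduct toR ic
  simp only [Matrix.map_apply]
  push_cast
  refine Finset.sum_congr rfl fun r _ => ?_
  rw [hrow r]

lemma det_M (V : IM) (γ : GZ) : ((toR V)⁻¹ * ic γ).det = (V.det : ℝ)⁻¹ := by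
  rw [Matrix.det_mul, det_ic, mul_one, Matrix.det_nonsing_inv, det_toR, Ring.inverse_eq_inv']

end WNx

open WNx in
theorem p_WN : tWN := by
  intro V hV n hn γ hγ
  have hVr : (0 : ℝ) < V.det := by exact_mod_cast hV
  have hnp : ∀ i, (0 : ℝ) < nv V n i := fun i => by
    have := hn.1 i
    exact_mod_cast this
  have hrow := inv_row V hV n γ hγ
  have hdl : dl ((toR V)⁻¹ * ic γ) = dn V n := by
    unfold dl dn
    rw [hrow, hrow, hrow, det_M, div_eq_mul_inv]
  refine ⟨hrow, hdl, ?_⟩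
  intro s t hs0 hs1 ht0 ht1
  set y := yn V n + (s, t) with hy
  have hg : gmat V y * ic γ =
      Matrix.diagonal (fun i => Real.exp (pos V y i)) * ((toR V)⁻¹ * ic γ) := by
    unfold gmat; rw [Matrix.mul_assoc]
  have hne : ∀ i, Real.exp (pos V y i) ≠ 0 := fun i => (Real.exp_pos _).ne'
  have hdl' : dl (gmat V y * ic γ) = dn V n := by
    rw [hg, dl_scale _ hne, hdl]
  have hnn : ∀ i, nn (gmat V y * ic γ) i = nv V n i / Real.exp (pos V y i) := fun i => by
    rw [hg, nn_scale _ hne, hrow]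
  have hdn : 0 < dn V n := by
    unfold dn
    exact div_pos (mul_pos (mul_pos (hnp 0) (hnp 1)) (hnp 2)) hVr
  have hprod : nn (gmat V y * ic γ) 0 * nn (gmat V y * ic γ) 1 * nn (gmat V y * ic γ) 2 =
      dn V n := by
    rw [hnn, hnn, hnn]
    unfold dn
    have he : Real.exp (pos V y 0) * Real.exp (pos V y 1) * Real.exp (pos V y 2) = V.det := by
      rw [← Real.exp_add, ← Real.exp_add]
      have : pos V y 0 + pos V y 1 + pos V y 2 = Real.log V.det := by
        simp [pos]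
      rw [this, Real.exp_log hVr]
    rw [← he]
    have h0 := hne 0
    have h1 := hne 1
    have h2 := hne 2
    field_simp
  have hkey : ∀ (i : Fin 3) (u : ℝ), pos V y i = Real.log (nv V n i) - Real.log (dn V n) / 3 + u →
      nn (gmat V y * ic γ) i ^ 3 = dn V n * Real.exp (-3 * u) := by
    intro i u hp
    have h1 : nn (gmat V y * ic γ) i = Real.exp (Real.log (dn V n) / 3 - u) := by
      rw [hnn i, hp]
      have h2 : (nv V n i : ℝ) = Real.exp (Real.log (nv V n i)) := (Real.exp_log (hnp i)).symm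
      conv_lhs => rw [h2]
      rw [Real.log_exp, ← Real.exp_sub]
      congr 1
      ring
    rw [h1, ← Real.exp_nat_mul]
    have h3 : ((3 : ℕ) : ℝ) * (Real.log (dn V n) / 3 - u) = Real.log (dn V n) + (-3 * u) := by
      push_cast; ring
    rw [h3, Real.exp_add, Real.exp_log hdn]
  have hwin : ∀ (i : Fin 3) (u : ℝ), 0 ≤ u → u ≤ 1 →
      pos V y i = Real.log (nv V n i) - Real.log (dn V n) / 3 + u →
      nn (gmat V y * ic γ) i ^ 3 ≤ dn V n ∧
      dn V n ≤ Real.exp 3 * nn (gmat V y * ic γ) i ^ 3 := by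
    intro i u hu0 hu1 hp
    rw [hkey i u hp]
    constructor
    · have : Real.exp (-3 * u) ≤ 1 := Real.exp_le_one_iff.mpr (by linarith)
      nlinarith
    · have h1 : Real.exp 3 * (dn V n * Real.exp (-3 * u)) = dn V n * Real.exp (3 + -3 * u) := by
        rw [Real.exp_add]; ring
      rw [h1]
      have : 1 ≤ Real.exp (3 + -3 * u) := Real.one_le_exp (by linarith)
      nlinarith
  refine ⟨⟨?_, ?_⟩, hdl', by rw [hg, BB_scale _ hne]⟩
  · intro i
    rw [hnn]
    exact div_pos (hnp i) (Real.exp_pos _)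
  · intro i hi
    rw [hprod]
    have hi' : i = 0 ∨ i = 1 := by
      fin_cases i
      · exact Or.inl rfl
      · exact Or.inr rfl
      · exact absurd rfl hi
    rcases hi' with rfl | rfl
    · exact hwin 0 s hs0 hs1 (by simp [pos, hy, yn])
    · exact hwin 1 t ht0 ht1 (by simp [pos, hy, yn])

end SAIL.F
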