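import Pool.Agent.SAIL.FAC.P_Y1

/-!
SAIL, part A: target tY2 (structure of bounded faces).
-/

namespace SAIL.F

open Matrix MeasureTheory Filter SAIL SAIL.A

namespace Y2x

lemma hull_eq (h : tY1) {V : IM} (hV : 0 < V.det) :
    hull (cV V) = convexHull ℝ (zr '' Lp V) := by
  unfold hull
  rw [(h V hV).2]

lemma adj_mul_col (V : IM) (i j : Fin 3) :
    (V.adjugate *ᵥ vcol V i) j = if j = i then V.det else 0 := by
  have h := congrFun (congrFun (Matrix.adjugate_mul V) j) i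
  rw [Matrix.mul_apply, Matrix.smul_apply, Matrix.one_apply] at h
  simp only [Matrix.mulVec, dotProduct, vcol]
  rw [h]
  split_ifs <;> simp

lemma Lp_add {V : IM} (hV : 0 < V.det) {z : Fin 3 → ℤ} (hz : z ∈ Lp V) (i : Fin 3) :
    z + vcol V i ∈ Lp V := by
  refine ⟨?_, fun j => ?_⟩
  · intro h0
    have h1 : (V.adjugate *ᵥ (z + vcol V i)) i = 0 := by
      rw [h0, Matrix.mulVec_zero]
      rfl
    rw [Matrix.mulVec_add, Pi.add_apply, adj_mul_col, if_pos rfl] at h1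
    have h2 := hz.2 i
    omega
  · rw [Matrix.mulVec_add, Pi.add_apply, adj_mul_col]
    have h2 := hz.2 j
    split_ifs <;> omega

lemma col_mem_Lp {V : IM} (hV : 0 < V.det) (i : Fin 3) : vcol V i ∈ Lp V := by
  refine ⟨?_, fun j => ?_⟩
  · intro h0
    have h1 : (V.adjugate *ᵥ (vcol V i)) i = 0 := by
      rw [h0, Matrix.mulVec_zero]
      rfl
    rw [adj_mul_col, if_pos rfl] at h1
    omega
  · rw [adj_mul_col]
    split_ifs <;> omega

lemma hull_add {V : IM} (hV : 0 < V.det) {x : Fin 3 → ℝ} (hx : x ∈ convexHull ℝ (zr '' Lp V))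
    (i : Fin 3) : x + zr (vcol V i) ∈ convexHull ℝ (zr '' Lp V) := by
  have h : convexHull ℝ (zr '' Lp V) ⊆
      (fun x => x + zr (vcol V i)) ⁻¹' convexHull ℝ (zr '' Lp V) := by
    apply convexHull_min
    · rintro _ ⟨z, hz, rfl⟩
      show zr z + zr (vcol V i) ∈ convexHull ℝ (zr '' Lp V)
      rw [← Y1x.zr_add]
      exact subset_convexHull _ _ ⟨_, Lp_add hV hz i, rfl⟩
    · exact (convex_convexHull ℝ _).translate_preimage_left _
  exact h hx

/-- an integer point as a combination of the columns -/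
lemma zr_eq_sum {V : IM} (hV : 0 < V.det) (z : Fin 3 → ℤ) :
    zr z = ∑ i, ((toR V)⁻¹ *ᵥ zr z) i • zr (vcol V i) := by
  rw [Y1x.sum_cols, Y1x.mul_inv_vec hV]

/-- a functional negative on the columns is negative on the integer points -/
lemma neg_on_Lp {V : IM} (hV : 0 < V.det) (l : (Fin 3 → ℝ) →ₗ[ℝ] ℝ)
    (hl : ∀ i, l (zr (vcol V i)) < 0) {z : Fin 3 → ℤ} (hz : z ∈ Lp V) : l (zr z) < 0 := by
  rw [Y1x.mem_Lp hV] at hz
  obtain ⟨h1, h2⟩ := hz
  have h3 : ∃ i, ((toR V)⁻¹ *ᵥ zr z) i ≠ 0 := by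
    by_contra hc
    push Not at hc
    have h4 := zr_eq_sum hV z
    simp only [hc, zero_smul, Finset.sum_const_zero] at h4
    exact h1 (Y1x.zr_inj (h4.trans Y1x.zr_zero.symm))
  obtain ⟨j, hj⟩ := h3
  have h5 : l (zr z) = ∑ i, ((toR V)⁻¹ *ᵥ zr z) i * l (zr (vcol V i)) := by
    conv_lhs => rw [zr_eq_sum hV z]
    rw [map_sum]
    refine Finset.sum_congr rfl (fun i _ => ?_)
    rw [map_smul, smul_eq_mul]
  rw [h5]
  have h6 : ∑ i, ((toR V)⁻¹ *ᵥ zr z) i * l (zr (vcol V i)) < ∑ _i : Fin 3, (0 : ℝ) := by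
    refine Finset.sum_lt_sum (fun i _ => mul_nonpos_of_nonneg_of_nonpos (h2 i) (hl i).le)
      ⟨j, Finset.mem_univ _, ?_⟩
    exact mul_neg_of_pos_of_neg (lt_of_le_of_ne (h2 j) (Ne.symm hj)) (hl j)
  simpa using h6

/-- the points of the hull at level one -/
lemma level {S : Set (Fin 3 → ℝ)} (ν : Fin 3 → ℝ) (hS : ∀ x ∈ S, 1 ≤ ν ⬝ᵥ x) :
    ∀ x ∈ convexHull ℝ S, 1 ≤ ν ⬝ᵥ x ∧
      (ν ⬝ᵥ x = 1 → x ∈ convexHull ℝ {y | y ∈ S ∧ ν ⬝ᵥ y = 1}) := by
  have h : convexHull ℝ S ⊆ {x | 1 ≤ ν ⬝ᵥ x ∧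
      (ν ⬝ᵥ x = 1 → x ∈ convexHull ℝ {y | y ∈ S ∧ ν ⬝ᵥ y = 1})} := by
    apply convexHull_min
    · intro x hx
      exact ⟨hS x hx, fun h => subset_convexHull _ _ ⟨hx, h⟩⟩
    · intro x hx y hy a b ha hb hab
      obtain ⟨hx1, hx2⟩ := hx
      obtain ⟨hy1, hy2⟩ := hy
      have h1 : ν ⬝ᵥ (a • x + b • y) = a * (ν ⬝ᵥ x) + b * (ν ⬝ᵥ y) := by
        rw [dotProduct_add, dotProduct_smul, dotProduct_smul, smul_eq_mul, smul_eq_mul]
      refine ⟨?_, fun h2 => ?_⟩
      · rw [h1]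
        nlinarith
      · rw [h1] at h2
        rcases ha.eq_or_lt with ha0 | ha0
        · rw [← ha0] at hab h2 ⊢
          rw [zero_add] at hab
          rw [hab] at h2 ⊢
          rw [zero_smul, one_smul, zero_add]
          apply hy2
          linarith
        rcases hb.eq_or_lt with hb0 | hb0
        · rw [← hb0] at hab h2 ⊢
          rw [add_zero] at hab
          rw [hab] at h2 ⊢
          rw [zero_smul, one_smul, add_zero]
          apply hx2
          linarith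
        have h3 : ν ⬝ᵥ x = 1 := by nlinarith
        have h4 : ν ⬝ᵥ y = 1 := by nlinarith
        exact convex_convexHull ℝ _ (hx2 h3) (hy2 h4) ha hb hab
  exact fun x hx => h hx

/-- three linearly independent points -/
lemma three {T F : Set (Fin 3 → ℝ)} (hF : F = convexHull ℝ T) (ν : Fin 3 → ℝ)
    (hν : ∀ x ∈ F, ν ⬝ᵥ x = 1) (hne : F.Nonempty)
    (hfin : Module.finrank ℝ (vectorSpan ℝ F) = 2) :
    ∃ f : Fin 3 → (Fin 3 → ℝ), (∀ i, f i ∈ T) ∧ LinearIndependent ℝ f := by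
  have hFP : F ⊆ Submodule.span ℝ T := by
    rw [hF]
    exact convexHull_min Submodule.subset_span (Submodule.convex _)
  obtain ⟨x0, hx0⟩ := hne
  have h1 : vectorSpan ℝ F ≤ Submodule.span ℝ T := by
    rw [vectorSpan_def, Submodule.span_le]
    rintro _ ⟨x, hx, y, hy, rfl⟩
    exact Submodule.sub_mem _ (hFP hx) (hFP hy)
  have h2 : ∀ x ∈ vectorSpan ℝ F, ν ⬝ᵥ x = 0 := by
    intro x hx
    rw [vectorSpan_def] at hx
    induction hx using Submodule.span_induction with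
    | mem x hx =>
      obtain ⟨a, ha, b, hb, rfl⟩ := hx
      show ν ⬝ᵥ (a - b) = 0
      rw [dotProduct_sub, hν a ha, hν b hb, sub_self]
    | zero => exact dotProduct_zero ν
    | add x y _ _ hx hy => rw [dotProduct_add, hx, hy, add_zero]
    | smul c x _ hx => rw [dotProduct_smul, hx, smul_zero]
  have h3 : vectorSpan ℝ F < Submodule.span ℝ T := by
    refine lt_of_le_of_ne h1 (fun h => ?_)
    have h4 : x0 ∈ vectorSpan ℝ F := by rw [h]; exact hFP hx0
    have h5 := h2 x0 h4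
    rw [hν x0 hx0] at h5
    exact one_ne_zero h5
  have h6 := Submodule.finrank_lt_finrank_of_lt h3
  have h7 : Module.finrank ℝ (Submodule.span ℝ T) ≤ 3 := by
    have := Submodule.finrank_le (Submodule.span ℝ T)
    rwa [Module.finrank_fin_fun] at this
  have h8 : Module.finrank ℝ (Submodule.span ℝ T) = 3 := by omega
  have h9 := Submodule.exists_fun_fin_finrank_span_eq ℝ T
  rw [h8] at h9
  obtain ⟨f, hf1, -, hf3⟩ := h9
  exact ⟨f, hf1, hf3⟩

end Y2x

theorem p_Y2 (h1 : tY1) : tY2 := by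
  intro V hV F hF
  obtain ⟨hexp, hbd, hfin⟩ := hF
  have hne : F.Nonempty := by
    by_contra hc
    rw [Set.not_nonempty_iff_eq_empty] at hc
    rw [hc, vectorSpan_empty, finrank_bot] at hfin
    norm_num at hfin
  obtain ⟨l, hl⟩ := hexp hne
  rw [Y2x.hull_eq h1 hV] at hl hexp
  obtain ⟨x0, hx0⟩ := id hne
  have hx0' : x0 ∈ convexHull ℝ (zr '' Lp V) ∧ ∀ y ∈ convexHull ℝ (zr '' Lp V), l y ≤ l x0 := by
    rw [hl] at hx0
    exact hx0
  have hv : ∀ i, l (zr (vcol V i)) < 0 := by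
    intro i
    have hle : l (zr (vcol V i)) ≤ 0 := by
      have h2 := hx0'.2 _ (Y2x.hull_add hV hx0'.1 i)
      rw [map_add] at h2
      linarith
    rcases hle.lt_or_eq with h | h
    · exact h
    · exfalso
      have hall : ∀ n : ℕ, x0 + (n : ℝ) • zr (vcol V i) ∈ F := by
        intro n
        have hmem : x0 + (n : ℝ) • zr (vcol V i) ∈ convexHull ℝ (zr '' Lp V) := by
          induction n with
          | zero => simpa using hx0'.1
          | succ n ih =>
            have h2 := Y2x.hull_add hV ih i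
            have h3 : x0 + ((n + 1 : ℕ) : ℝ) • zr (vcol V i) =
                x0 + (n : ℝ) • zr (vcol V i) + zr (vcol V i) := by
              push_cast
              rw [add_smul, one_smul, add_assoc]
            rw [h3]
            exact h2
        rw [hl]
        refine ⟨hmem, fun y hy => ?_⟩
        rw [map_add, map_smul, h, smul_zero, add_zero]
        exact hx0'.2 y hy
      obtain ⟨R, hR⟩ := hbd.exists_norm_le
      have hvne : zr (vcol V i) ≠ 0 := fun h0 =>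
        (Y2x.col_mem_Lp hV i).1 (Y1x.zr_inj (h0.trans Y1x.zr_zero.symm))
      have hvn : 0 < ‖zr (vcol V i)‖ := norm_pos_iff.2 hvne
      obtain ⟨n, hn⟩ := exists_nat_gt ((R + ‖x0‖) / ‖zr (vcol V i)‖)
      rw [div_lt_iff₀ hvn] at hn
      have h4 := hR _ (hall n)
      have h5 : ‖(n : ℝ) • zr (vcol V i)‖ ≤ ‖x0 + (n : ℝ) • zr (vcol V i)‖ + ‖x0‖ := by
        have h6 := norm_sub_le (x0 + (n : ℝ) • zr (vcol V i)) x0
        rwa [add_sub_cancel_left] at h6
      rw [norm_smul, Real.norm_natCast] at h5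
      linarith
  have hneg : ∀ z ∈ Lp V, l (zr z) < 0 := fun z hz =>
    Y2x.neg_on_Lp hV (l : (Fin 3 → ℝ) →ₗ[ℝ] ℝ) hv hz
  have hx0n : l x0 < 0 := by
    have h2 : convexHull ℝ (zr '' Lp V) ⊆ {x | l x < 0} := by
      apply convexHull_min
      · rintro _ ⟨z, hz, rfl⟩
        exact hneg z hz
      · exact convex_halfSpace_lt l.toLinearMap.isLinear 0
    exact h2 hx0'.1
  set ν : Fin 3 → ℝ := fun i => l (Pi.single i 1) / l x0 with hν
  have hνl : ∀ x : Fin 3 → ℝ, ν ⬝ᵥ x = l x / l x0 := by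
    intro x
    have h2 : l x = ∑ i, x i * l (Pi.single i 1) := by
      conv_lhs => rw [← Finset.univ_sum_single x]
      rw [map_sum]
      refine Finset.sum_congr rfl (fun i _ => ?_)
      have h3 : (Pi.single i (x i) : Fin 3 → ℝ) = x i • Pi.single i 1 := by
        rw [← Pi.single_smul, smul_eq_mul, mul_one]
      rw [h3, map_smul, smul_eq_mul]
    rw [h2, dotProduct, Finset.sum_div]
    refine Finset.sum_congr rfl (fun i _ => ?_)
    rw [hν]
    ring
  have hν1 : ∀ z ∈ Lp V, 1 ≤ ν ⬝ᵥ zr z := by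
    intro z hz
    rw [hνl, one_le_div_of_neg hx0n]
    exact hx0'.2 _ (subset_convexHull _ _ ⟨z, hz, rfl⟩)
  have hS : ∀ x ∈ zr '' Lp V, 1 ≤ ν ⬝ᵥ x := by
    rintro _ ⟨z, hz, rfl⟩
    exact hν1 z hz
  have hlev := Y2x.level ν hS
  have hT : {y | y ∈ zr '' Lp V ∧ ν ⬝ᵥ y = 1} = zr '' {z | z ∈ Lp V ∧ ν ⬝ᵥ zr z = 1} := by
    ext y
    constructor
    · rintro ⟨⟨z, hz, rfl⟩, h2⟩
      exact ⟨z, ⟨hz, h2⟩, rfl⟩
    · rintro ⟨z, ⟨hz, h2⟩, rfl⟩
      exact ⟨⟨z, hz, rfl⟩, h2⟩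
  rw [hT] at hlev
  have hF1 : ∀ x ∈ F, ν ⬝ᵥ x = 1 := by
    intro x hx
    have h2 : x ∈ {x ∈ convexHull ℝ (zr '' Lp V) | ∀ y ∈ convexHull ℝ (zr '' Lp V), l y ≤ l x} := by
      rw [← hl]; exact hx
    have h3 : l x = l x0 := le_antisymm (hx0'.2 x h2.1) (h2.2 x0 hx0'.1)
    rw [hνl, h3, div_self hx0n.ne]
  have hFeq : F = convexHull ℝ (zr '' {z | z ∈ Lp V ∧ ν ⬝ᵥ zr z = 1}) := by
    apply Set.Subset.antisymm
    · intro x hx
      have h2 : x ∈ {x ∈ convexHull ℝ (zr '' Lp V) |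
          ∀ y ∈ convexHull ℝ (zr '' Lp V), l y ≤ l x} := by
        rw [← hl]; exact hx
      exact (hlev x h2.1).2 (hF1 x hx)
    · apply convexHull_min
      · rintro _ ⟨z, ⟨hz, h2⟩, rfl⟩
        rw [hl]
        have h3 : l (zr z) = l x0 := by
          rw [hνl, div_eq_one_iff_eq hx0n.ne] at h2
          exact h2
        refine ⟨subset_convexHull _ _ ⟨z, hz, rfl⟩, fun y hy => ?_⟩
        rw [h3]
        exact hx0'.2 y hy
      · exact hexp.convex (convex_convexHull ℝ _)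
  refine ⟨ν, fun i => ?_, hν1, hFeq, ?_⟩
  · rw [hνl]
    exact div_pos_of_neg_of_neg (hv i) hx0n
  · obtain ⟨f, hf1, hf2⟩ := Y2x.three hFeq ν hF1 hne hfin
    choose z hz using hf1
    refine ⟨Matrix.of fun r j => z j r, ?_, fun j => ⟨(hz j).1.1, (hz j).1.2⟩⟩
    intro hdet
    have h2 : (toR (Matrix.of fun r j => z j r)).col = f := by
      funext j
      rw [← (hz j).2]
      rfl
    have h3 : IsUnit (toR (Matrix.of fun r j => z j r)) := by
      rw [← Matrix.linearIndependent_cols_iff_isUnit, h2]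
      exact hf2
    rw [Matrix.isUnit_iff_isUnit_det, Y1x.det_toR, hdet] at h3
    simp at h3

end SAIL.F
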