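import Pool.Agent.SAIL.FAC.Targets

/-!
SAIL, part A: the triangles `FT` are faces (helper76).
-/

namespace SAIL.F

namespace Y3x

open Matrix SAIL SAIL.A

theorem det_toR (W : IM) : (toR W).det = (W.det : ℝ) := by
  unfold toR
  exact (Int.cast_det W).symm

theorem adj_toR (W : IM) : (toR W).adjugate = W.adjugate.map (fun z : ℤ => (z : ℝ)) :=
  ((Int.castRingHom ℝ).map_adjugate W).symm

/-- The coordinates with respect to the columns. -/
noncomputable def xi (W : IM) : (Fin 3 → ℝ) →ₗ[ℝ] (Fin 3 → ℝ) := (toR W)⁻¹.mulVecLin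

theorem xi_apply (W : IM) (x : Fin 3 → ℝ) : xi W x = (toR W)⁻¹ *ᵥ x := rfl

theorem xi_zr (W : IM) (hW : 0 < W.det) (z : Fin 3 → ℤ) (j : Fin 3) :
    xi W (zr z) j = ((W.adjugate *ᵥ z) j : ℝ) / W.det := by
  have hd : (W.det : ℝ) ≠ 0 := by exact_mod_cast hW.ne'
  rw [xi_apply, Matrix.inv_def, Ring.inverse_eq_inv', det_toR, adj_toR, Matrix.smul_mulVec,
    Pi.smul_apply, smul_eq_mul, div_eq_inv_mul]
  congr 1
  simp only [Matrix.mulVec, dotProduct, Matrix.map_apply, zr, Int.cast_sum, Int.cast_mul]

theorem isUnit_toR (W : IM) (hW : 0 < W.det) : IsUnit (toR W).det := by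
  rw [det_toR, isUnit_iff_ne_zero]
  exact_mod_cast hW.ne'

theorem toR_mulVec (W : IM) (y : Fin 3 → ℝ) : toR W *ᵥ y = ∑ j, y j • zr (vcol W j) := by
  ext r
  simp only [Matrix.mulVec, dotProduct, Finset.sum_apply, Pi.smul_apply, smul_eq_mul, zr, vcol,
    toR, Matrix.map_apply]
  exact Finset.sum_congr rfl fun j _ => mul_comm _ _

theorem sum_xi (W : IM) (hW : 0 < W.det) (x : Fin 3 → ℝ) :
    ∑ j, xi W x j • zr (vcol W j) = x := by
  rw [← toR_mulVec, xi_apply, Matrix.mulVec_mulVec, Matrix.mul_nonsing_inv _ (isUnit_toR W hW),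
    Matrix.one_mulVec]

theorem xi_sum (W : IM) (hW : 0 < W.det) (y : Fin 3 → ℝ) :
    xi W (∑ j, y j • zr (vcol W j)) = y := by
  rw [← toR_mulVec, xi_apply, Matrix.mulVec_mulVec, Matrix.nonsing_inv_mul _ (isUnit_toR W hW),
    Matrix.one_mulVec]

theorem xi_col (W : IM) (hW : 0 < W.det) (j : Fin 3) :
    xi W (zr (vcol W j)) = Pi.single j 1 := by
  have h := xi_sum W hW (Pi.single j 1)
  rw [Finset.sum_eq_single j] at h
  · simpa using h
  · intro i _ hi
    rw [Pi.single_eq_of_ne hi, zero_smul]
  · intro hj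
    exact absurd (Finset.mem_univ j) hj

/-- The triangle. -/
theorem mem_tri (W : IM) (hW : 0 < W.det) (x : Fin 3 → ℝ) :
    x ∈ convexHull ℝ (Set.range fun j => zr (vcol W j)) ↔
      (∀ j, 0 ≤ xi W x j) ∧ ∑ j, xi W x j = 1 := by
  constructor
  · intro hx
    have hc : Convex ℝ ((xi W) ⁻¹' (stdSimplex ℝ (Fin 3))) :=
      (convex_stdSimplex ℝ (Fin 3)).linear_preimage (xi W)
    have hs : (Set.range fun j => zr (vcol W j)) ⊆ (xi W) ⁻¹' (stdSimplex ℝ (Fin 3)) := by
      rintro _ ⟨j, rfl⟩
      show xi W (zr (vcol W j)) ∈ stdSimplex ℝ (Fin 3)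
      rw [xi_col W hW]
      exact single_mem_stdSimplex ℝ j
    exact convexHull_min hs hc hx
  · rintro ⟨h1, h2⟩
    rw [← sum_xi W hW x]
    exact (convex_convexHull ℝ _).sum_mem (fun j _ => h1 j) h2
      (fun j _ => subset_convexHull ℝ _ ⟨j, rfl⟩)

/-- The functional. -/
noncomputable def lev (W : IM) : (Fin 3 → ℝ) →ₗ[ℝ] ℝ :=
  (∑ j, LinearMap.proj j) ∘ₗ (xi W)

theorem lev_apply (W : IM) (x : Fin 3 → ℝ) : lev W x = ∑ j, xi W x j := by
  simp [lev]

theorem injective_col (W : IM) (hW : 0 < W.det) :
    Function.Injective (fun j => zr (vcol W j)) := by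
  intro i j h
  have h1 : xi W (zr (vcol W i)) = xi W (zr (vcol W j)) := congrArg _ h
  rw [xi_col W hW, xi_col W hW] at h1
  by_contra hij
  have h2 := congrFun h1 i
  rw [Pi.single_eq_same, Pi.single_eq_of_ne hij] at h2
  exact one_ne_zero h2

theorem affInd (W : IM) (hW : 0 < W.det) :
    AffineIndependent ℝ (fun j => zr (vcol W j)) := by
  classical
  rw [affineIndependent_iff]
  intro s w _ h i hi
  have h1 : ∑ j, (if j ∈ s then w j else 0) • zr (vcol W j) = 0 := by
    rw [← h]
    simp only [ite_smul, zero_smul, Finset.sum_ite_mem, Finset.univ_inter]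
  have h2 := xi_sum W hW (fun j => if j ∈ s then w j else 0)
  rw [h1, map_zero] at h2
  have h3 := congrFun h2 i
  simp only [Pi.zero_apply, if_pos hi] at h3
  exact h3.symm

theorem extr (W : IM) (hW : 0 < W.det) :
    Set.extremePoints ℝ (convexHull ℝ (Set.range fun j => zr (vcol W j))) =
      Set.range (fun j => zr (vcol W j)) := by
  refine Set.Subset.antisymm extremePoints_convexHull_subset ?_
  rintro _ ⟨j, rfl⟩
  have key : ∀ x y : Fin 3 → ℝ,
      x ∈ convexHull ℝ (Set.range fun j => zr (vcol W j)) →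
      y ∈ convexHull ℝ (Set.range fun j => zr (vcol W j)) →
      ∀ a b : ℝ, 0 < a → 0 < b → a + b = 1 → a • x + b • y = zr (vcol W j) →
      x = zr (vcol W j) := by
    intro x y hx hy a b ha hb hab h
    rw [mem_tri W hW] at hx hy
    have h1 : a • xi W x + b • xi W y = Pi.single j 1 := by
      rw [← xi_col W hW, ← h, map_add, map_smul, map_smul]
    have h2 : ∀ i, i ≠ j → xi W x i = 0 := by
      intro i hi
      have h3 := congrFun h1 i
      rw [Pi.single_eq_of_ne hi] at h3
      simp only [Pi.add_apply, Pi.smul_apply, smul_eq_mul] at h3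
      have h4 := mul_nonneg hb.le (hy.1 i)
      have h5 := mul_nonneg ha.le (hx.1 i)
      have h6 : a * xi W x i = 0 := by linarith
      rcases mul_eq_zero.1 h6 with h7 | h7
      · exact absurd h7 ha.ne'
      · exact h7
    have h3 : xi W x j = 1 := by
      rw [← hx.2]
      refine (Finset.sum_eq_single j (fun i _ hi => h2 i hi) ?_).symm
      intro hj
      exact absurd (Finset.mem_univ j) hj
    rw [← sum_xi W hW x, Finset.sum_eq_single j]
    · rw [h3, one_smul]
    · intro i _ hi
      rw [h2 i hi, zero_smul]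
    · intro hj
      exact absurd (Finset.mem_univ j) hj
  refine ⟨subset_convexHull ℝ _ ⟨j, rfl⟩, ?_⟩
  intro x hx y hy hxy
  obtain ⟨a, b, ha, hb, hab, h⟩ := hxy
  exact key x y hx hy a b ha hb hab h

end Y3x

open Matrix SAIL SAIL.A Y3x in
theorem p_Y3 (hY1 : tY1) : tY3 := by
  intro V W hV hFT
  obtain ⟨hW, hcol, hcut⟩ := hFT
  refine ⟨⟨?_, ?_, ?_⟩, extr W hW, ?_⟩
  · -- exposed
    intro _
    have hull_eq : hull (cV V) = convexHull ℝ (zr '' Lp V) := by
      unfold hull
      rw [(hY1 V hV).2]
    have hd : (0 : ℝ) < W.det := by exact_mod_cast hW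
    -- the points of the hull
    have hS : ∀ z ∈ Lp V, 1 < lev W (zr z) ∨
        zr z ∈ convexHull ℝ (Set.range fun j => zr (vcol W j)) := by
      intro z hz
      have e : lev W (zr z) = ((∑ j, (W.adjugate *ᵥ z) j : ℤ) : ℝ) / W.det := by
        rw [lev_apply, Int.cast_sum, Finset.sum_div]
        exact Finset.sum_congr rfl fun j _ => xi_zr W hW z j
      by_cases h : ∑ j, (W.adjugate *ᵥ z) j ≤ W.det
      · right
        obtain ⟨h1, h2⟩ := hcut z hz h
        rw [mem_tri W hW]
        refine ⟨fun j => ?_, ?_⟩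
        · rw [xi_zr W hW]
          exact div_nonneg (by exact_mod_cast h1 j) hd.le
        · rw [← lev_apply, e, h2, div_self hd.ne']
      · left
        push Not at h
        rw [e, one_lt_div hd]
        exact_mod_cast h
    have hconv : ∀ x ∈ convexHull ℝ (zr '' Lp V), 1 < lev W x ∨
        x ∈ convexHull ℝ (Set.range fun j => zr (vcol W j)) := by
      have hlev : ∀ x ∈ convexHull ℝ (Set.range fun j => zr (vcol W j)), lev W x = 1 := by
        intro x hx
        rw [lev_apply]
        exact ((mem_tri W hW x).1 hx).2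
      have hC : Convex ℝ {x | 1 < lev W x ∨
          x ∈ convexHull ℝ (Set.range fun j => zr (vcol W j))} := by
        intro x hx y hy a b ha hb hab
        have hge : ∀ u ∈ {x | 1 < lev W x ∨
            x ∈ convexHull ℝ (Set.range fun j => zr (vcol W j))}, 1 ≤ lev W u := by
          intro u hu
          rcases hu with hu | hu
          · exact hu.le
          · exact (hlev u hu).ge
        have hxy : lev W (a • x + b • y) = a * lev W x + b * lev W y := by
          rw [map_add, map_smul, map_smul, smul_eq_mul, smul_eq_mul]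
        rcases eq_or_lt_of_le ha with ha0 | ha0
        · have hb1 : b = 1 := by linarith
          rw [← ha0, hb1, zero_smul, one_smul, zero_add]
          exact hy
        rcases eq_or_lt_of_le hb with hb0 | hb0
        · have ha1 : a = 1 := by linarith
          rw [← hb0, ha1, zero_smul, one_smul, add_zero]
          exact hx
        have hx1 := hge x hx
        have hy1 := hge y hy
        rcases hx with hx | hx
        · left
          rw [hxy]
          nlinarith [mul_pos ha0 (sub_pos.2 hx), mul_nonneg hb (sub_nonneg.2 hy1)]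
        · rcases hy with hy | hy
          · left
            rw [hxy]
            nlinarith [mul_pos hb0 (sub_pos.2 hy), mul_nonneg ha (sub_nonneg.2 hx1)]
          · right
            exact (convex_convexHull ℝ _) hx hy ha hb hab
      intro x hx
      refine convexHull_min ?_ hC hx
      rintro _ ⟨z, hz, rfl⟩
      exact hS z hz
    have hsub : convexHull ℝ (Set.range fun j => zr (vcol W j)) ⊆ convexHull ℝ (zr '' Lp V) := by
      refine convexHull_mono ?_
      rintro _ ⟨j, rfl⟩
      exact ⟨vcol W j, hcol j, rfl⟩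
    have hlev : ∀ x ∈ convexHull ℝ (Set.range fun j => zr (vcol W j)), lev W x = 1 := by
      intro x hx
      rw [lev_apply]
      exact ((mem_tri W hW x).1 hx).2
    refine ⟨-(LinearMap.toContinuousLinearMap (lev W)), ?_⟩
    have hl : ∀ x, (-(LinearMap.toContinuousLinearMap (lev W))) x = -(lev W x) := fun x => rfl
    rw [hull_eq]
    ext x
    constructor
    · intro hx
      refine ⟨hsub hx, fun y hy => ?_⟩
      rw [hl, hl, hlev x hx]
      rcases hconv y hy with h | h
      · linarith
      · rw [hlev y h]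
    · rintro ⟨hx, hmin⟩
      rcases hconv x hx with h | h
      · exfalso
        have hw0 : zr (vcol W 0) ∈ convexHull ℝ (Set.range fun j => zr (vcol W j)) :=
          subset_convexHull ℝ _ ⟨0, rfl⟩
        have h1 := hmin (zr (vcol W 0)) (hsub hw0)
        rw [hl, hl, hlev _ hw0] at h1
        linarith
      · exact h
  · rw [isBounded_convexHull]
    exact (Set.finite_range _).isBounded
  · rw [← direction_affineSpan, affineSpan_convexHull, direction_affineSpan]
    exact (affInd W hW).finrank_vectorSpan (by simp)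
  · rw [Set.ncard_range_of_injective (injective_col W hW)]
    simp

end SAIL.F
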