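import Pool.Agent.SAIL.FAC.Targets
import Pool.Agent.SAIL.ARI.P_BAS

/-!
SAIL, part A: quadrangular faces are at distance one and contain a unit parallelogram.
-/

namespace SAIL.F.Y4x

open Matrix MeasureTheory Filter SAIL SAIL.A SAIL.F

/-- injective affine maps and extreme points -/
lemma ext_image {E G : Type*} [AddCommGroup E] [Module ℝ E] [AddCommGroup G] [Module ℝ G]
    (Φ : E →ᵃ[ℝ] G) (hinj : Function.Injective Φ) (A : Set E) :
    Set.extremePoints ℝ (Φ '' A) = Φ '' Set.extremePoints ℝ A := by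
  ext y
  constructor
  · intro hy
    rw [mem_extremePoints] at hy
    obtain ⟨⟨x, hx, rfl⟩, h2⟩ := hy
    refine ⟨x, ?_, rfl⟩
    rw [mem_extremePoints]
    refine ⟨hx, fun x1 h1 x2 h2' hseg => ?_⟩
    have := h2 (Φ x1) ⟨x1, h1, rfl⟩ (Φ x2) ⟨x2, h2', rfl⟩
      (by rw [← image_openSegment]; exact ⟨x, hseg, rfl⟩)
    exact ⟨hinj this.1, hinj this.2⟩
  · rintro ⟨x, hx, rfl⟩
    rw [mem_extremePoints] at hx ⊢
    refine ⟨⟨x, hx.1, rfl⟩, ?_⟩
    rintro _ ⟨x1, h1, rfl⟩ _ ⟨x2, h2, rfl⟩ hseg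
    rw [← image_openSegment] at hseg
    obtain ⟨x', hx', he⟩ := hseg
    have := hinj he
    subst this
    obtain ⟨e1, e2⟩ := hx.2 x1 h1 x2 h2 hx'
    exact ⟨by rw [e1], by rw [e2]⟩

/-- real matrix times real vector of integer vector -/
lemma ic_zr (γ : GZ) (z : Fin 3 → ℤ) : ic γ *ᵥ zr z = zr (γ.1 *ᵥ z) := by
  funext i
  simp [ic, zr, Matrix.mulVec, dotProduct, Matrix.map_apply]

lemma adj_zr (V : IM) (z : Fin 3 → ℤ) :
    (toR V).adjugate *ᵥ zr z = fun i => ((V.adjugate *ᵥ z) i : ℝ) := by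
  have h : (toR V).adjugate = V.adjugate.map (fun x : ℤ => (x : ℝ)) := by
    have := RingHom.map_adjugate (Int.castRingHom ℝ) V
    simpa [toR, RingHom.mapMatrix_apply] using this.symm
  rw [h]
  funext i
  simp [zr, Matrix.mulVec, dotProduct, Matrix.map_apply]

/-- the affine parametrisation of the plane at level `h` -/
noncomputable def Ph (γ : GZ) (h : ℤ) : ℝ × ℝ →ᵃ[ℝ] (Fin 3 → ℝ) where
  toFun q := ic γ *ᵥ ![q.1, q.2, (h : ℝ)]
  linear :=
    { toFun := fun q => ic γ *ᵥ ![q.1, q.2, 0]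
      map_add' := by
        intro p q
        rw [← Matrix.mulVec_add]
        congr 1
        funext i
        fin_cases i <;> simp
      map_smul' := by
        intro c q
        rw [RingHom.id_apply, ← Matrix.mulVec_smul]
        congr 1
        funext i
        fin_cases i <;> simp }
  map_vadd' := by
    intro p v
    change ic γ *ᵥ ![(v + p).1, (v + p).2, (h : ℝ)] = ic γ *ᵥ ![v.1, v.2, 0] +
      ic γ *ᵥ ![p.1, p.2, (h : ℝ)]
    rw [← Matrix.mulVec_add]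
    congr 1
    funext i
    fin_cases i <;> simp

lemma Ph_apply (γ : GZ) (h : ℤ) (q : ℝ × ℝ) : Ph γ h q = ic γ *ᵥ ![q.1, q.2, (h : ℝ)] := rfl

lemma Ph_inj (γ : GZ) (h : ℤ) : Function.Injective (Ph γ h) := by
  intro p q hpq
  rw [Ph_apply, Ph_apply] at hpq
  have := congrArg (fun x => ic γ⁻¹ *ᵥ x) hpq
  simp only [Matrix.mulVec_mulVec, ic_inv_mul, Matrix.one_mulVec] at this
  have h0 := congrFun this 0
  have h1 := congrFun this 1
  simp at h0 h1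
  exact Prod.ext h0 h1

lemma Ph_pr (γ : GZ) (h : ℤ) (q : ℤ × ℤ) : Ph γ h (pr q) = zr (γ.1 *ᵥ ![q.1, q.2, h]) := by
  rw [Ph_apply, ← ic_zr]
  congr 1
  funext i
  fin_cases i <;> simp [pr, zr]

/-- primitive covector of a rational plane -/
lemma prim_nu {ν : Fin 3 → ℝ} {W : IM} (hW : W.det ≠ 0)
    (h1 : ∀ j, ν ⬝ᵥ zr (vcol W j) = 1) {v : Fin 3 → ℤ} (hv : 0 < ν ⬝ᵥ zr v) :
    ∃ (n : Fin 3 → ℤ) (h : ℤ), prim n ∧ 1 ≤ h ∧
      ∀ z : Fin 3 → ℤ, ((n ⬝ᵥ z : ℤ) : ℝ) = h * (ν ⬝ᵥ zr z) := by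
  -- the integer covector `(1,1,1) adj W`
  obtain ⟨N, D, hD, hN⟩ : ∃ (N : Fin 3 → ℤ) (D : ℤ), 0 < D ∧
      ∀ z : Fin 3 → ℤ, ((N ⬝ᵥ z : ℤ) : ℝ) = D * (ν ⬝ᵥ zr z) := by
    obtain ⟨D0, hD0⟩ : ∃ D0, D0 = W.det := ⟨_, rfl⟩
    rw [← hD0] at hW
    have key : ∀ z : Fin 3 → ℤ, (((fun j => ∑ i, W.adjugate i j) ⬝ᵥ z : ℤ) : ℝ) =
        D0 * (ν ⬝ᵥ zr z) := by
      intro z
      have e1 : ∀ j, ∑ r, ν r * (W r j : ℝ) = 1 := by
        intro j
        have := h1 j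
        simpa [dotProduct, zr, vcol] using this
      have e2 : ∀ r s, ∑ j, (W r j : ℝ) * (W.adjugate j s : ℝ) =
          if r = s then (D0 : ℝ) else 0 := by
        intro r s
        have := congrFun (congrFun (Matrix.mul_adjugate W) r) s
        rw [Matrix.mul_apply, Matrix.smul_apply, Matrix.one_apply, ← hD0] at this
        have h3 := congrArg (fun x : ℤ => (x : ℝ)) this
        simp only [smul_eq_mul, mul_ite, mul_one, mul_zero] at h3
        push_cast at h3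
        rw [h3]
      have e3 : ∀ s, ∑ j, (W.adjugate j s : ℝ) = ν s * D0 := by
        intro s
        calc ∑ j, (W.adjugate j s : ℝ) = ∑ j, (∑ r, ν r * (W r j : ℝ)) * (W.adjugate j s : ℝ) := by
              refine Finset.sum_congr rfl fun j _ => ?_
              rw [e1, one_mul]
          _ = ∑ r, ν r * ∑ j, (W r j : ℝ) * (W.adjugate j s : ℝ) := by
              simp only [Finset.sum_mul, Finset.mul_sum]
              rw [Finset.sum_comm]
              refine Finset.sum_congr rfl fun r _ => Finset.sum_congr rfl fun j _ => by ring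
          _ = ν s * D0 := by
              simp only [e2]
              simp
      simp only [dotProduct, zr]
      push_cast
      simp only [e3]
      rw [Finset.mul_sum]
      refine Finset.sum_congr rfl fun j _ => by ring
    rcases lt_or_gt_of_ne hW with hneg | hpos
    · refine ⟨-(fun j => ∑ i, W.adjugate i j), -D0, by omega, fun z => ?_⟩
      rw [neg_dotProduct]
      push_cast
      rw [key z]
      ring
    · exact ⟨_, D0, hpos, key⟩
  -- divide by the content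
  have hNne : N ≠ 0 := by
    rintro rfl
    have := hN v
    rw [zero_dotProduct] at this
    have hp : (0 : ℝ) < D * (ν ⬝ᵥ zr v) := mul_pos (by exact_mod_cast hD) hv
    rw [← this] at hp
    simp at hp
  obtain ⟨g, hg, n, hgn, hn⟩ : ∃ g : ℤ, 0 < g ∧ ∃ n : Fin 3 → ℤ, N = g • n ∧ prim n := by
    obtain ⟨g, hg⟩ : ∃ g : ℕ, g = Finset.univ.gcd fun j => (N j).natAbs := ⟨_, rfl⟩
    have hg0 : g ≠ 0 := by
      rw [hg, Ne, Finset.gcd_eq_zero_iff]
      push Not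
      by_contra hcon
      push Not at hcon
      apply hNne
      funext j
      have := hcon j (Finset.mem_univ j)
      simpa using this
    have hdvd : ∀ j, (g : ℤ) ∣ N j := by
      intro j
      rw [Int.natCast_dvd]
      rw [hg]
      exact Finset.gcd_dvd (Finset.mem_univ j)
    choose n hn using hdvd
    refine ⟨g, by exact_mod_cast Nat.pos_of_ne_zero hg0, n, ?_, ?_⟩
    · funext j
      rw [hn j]; rfl
    · intro d hd
      rw [Int.isUnit_iff_natAbs_eq]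
      have h2 : g * d.natAbs ∣ g := by
        conv_rhs => rw [hg]
        refine Finset.dvd_gcd fun j _ => ?_
        rw [hn j, Int.natAbs_mul, Int.natAbs_natCast]
        exact Nat.mul_dvd_mul_left g (Int.natAbs_dvd_natAbs.mpr (hd j))
      have h3 : d.natAbs ∣ 1 := by
        have h4 : g * d.natAbs ∣ g * 1 := by rwa [mul_one]
        exact Nat.dvd_of_mul_dvd_mul_left (Nat.pos_of_ne_zero hg0) h4
      exact Nat.dvd_one.mp h3
  have hgR : (0 : ℝ) < g := by exact_mod_cast hg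
  have hng : ∀ z : Fin 3 → ℤ, (g : ℝ) * ((n ⬝ᵥ z : ℤ) : ℝ) = D * (ν ⬝ᵥ zr z) := by
    intro z
    rw [← hN z, hgn, smul_dotProduct]
    simp
  refine ⟨n, n ⬝ᵥ vcol W 0, hn, ?_, ?_⟩
  · have := hng (vcol W 0)
    rw [h1 0, mul_one] at this
    have hp : (0 : ℝ) < (g : ℝ) * ((n ⬝ᵥ vcol W 0 : ℤ) : ℝ) := by
      rw [this]; exact_mod_cast hD
    have h5 : (0 : ℝ) < ((n ⬝ᵥ vcol W 0 : ℤ) : ℝ) := (pos_iff_pos_of_mul_pos hp).mp hgR
    have h6 : 0 < n ⬝ᵥ vcol W 0 := by exact_mod_cast h5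
    omega
  · intro z
    have e1 := hng (vcol W 0)
    rw [h1 0, mul_one] at e1
    have e2 := hng z
    have : (g : ℝ) * ((n ⬝ᵥ z : ℤ) : ℝ) =
        (g : ℝ) * (((n ⬝ᵥ vcol W 0 : ℤ) : ℝ) * (ν ⬝ᵥ zr z)) := by
      rw [e2, ← mul_assoc, e1]
    exact mul_left_cancel₀ hgR.ne' this

end SAIL.F.Y4x

namespace SAIL.F

open Matrix MeasureTheory Filter SAIL SAIL.A SAIL.F.Y4x

theorem p_Y4 (hY2 : tY2) (hP1 : tP1) (hP2 : tP2) (hLEV : tLEV) : tY4 := by
  intro V hV F hF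
  obtain ⟨hBF, hcard⟩ := hF
  obtain ⟨ν, hν0, hν1, hFe, W, hWd, hW⟩ := hY2 V hV F hBF
  obtain ⟨n, h, hn, hh, hnν⟩ := prim_nu hWd (fun j => (hW j).2) (hν0 0)
  have hhR : (0 : ℝ) < h := by exact_mod_cast (by omega : 0 < h)
  obtain ⟨γ, hγ⟩ := SAIL.A.BASx.row hn
  -- level of the points of the plane
  have hlev0 : ∀ a b : ℤ, n ⬝ᵥ (γ.1 *ᵥ ![a, b, h]) = h := by
    intro a b
    rw [Matrix.dotProduct_mulVec, hγ]
    simp
  have hplane : ∀ z : Fin 3 → ℤ, n ⬝ᵥ z = h → ∃ a b : ℤ, z = γ.1 *ᵥ ![a, b, h] := by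
    intro z hz
    refine ⟨((γ⁻¹).1 *ᵥ z) 0, ((γ⁻¹).1 *ᵥ z) 1, ?_⟩
    have e2 : ((γ⁻¹).1 *ᵥ z) 2 = h := by
      have : n ⬝ᵥ (γ.1 *ᵥ ((γ⁻¹).1 *ᵥ z)) = h := by
        rw [Matrix.mulVec_mulVec, SAIL.A.BASx.mul_inv_self, Matrix.one_mulVec, hz]
      rw [Matrix.dotProduct_mulVec, hγ] at this
      simpa [dotProduct, Fin.sum_univ_three] using this
    have e3 : ![((γ⁻¹).1 *ᵥ z) 0, ((γ⁻¹).1 *ᵥ z) 1, h] = (γ⁻¹).1 *ᵥ z := by
      funext i
      fin_cases i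
      · rfl
      · rfl
      · exact e2.symm
    rw [e3, Matrix.mulVec_mulVec, SAIL.A.BASx.mul_inv_self, Matrix.one_mulVec]
  have hνn : ∀ z : Fin 3 → ℤ, ν ⬝ᵥ zr z = 1 ↔ n ⬝ᵥ z = h := by
    intro z
    have := hnν z
    constructor
    · intro h1
      rw [h1, mul_one] at this
      exact_mod_cast this
    · intro h1
      rw [h1] at this
      have h2 : (h : ℝ) * (ν ⬝ᵥ zr z) = h * 1 := by rw [← this, mul_one]
      exact mul_left_cancel₀ hhR.ne' h2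
  -- the planar set
  let S : Set (ℤ × ℤ) := {q | γ.1 *ᵥ ![q.1, q.2, h] ∈ Lp V}
  have hset : zr '' {z | z ∈ Lp V ∧ ν ⬝ᵥ zr z = 1} = Ph γ h '' (pr '' S) := by
    ext y
    constructor
    · rintro ⟨z, ⟨hz, hz1⟩, rfl⟩
      obtain ⟨a, b, hab⟩ := hplane z ((hνn z).mp hz1)
      refine ⟨pr (a, b), ⟨(a, b), ?_, rfl⟩, ?_⟩
      · change γ.1 *ᵥ ![a, b, h] ∈ Lp V
        rw [← hab]; exact hz
      · rw [Ph_pr, hab]
    · rintro ⟨_, ⟨q, hq, rfl⟩, rfl⟩
      rw [Ph_pr]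
      exact ⟨_, ⟨hq, (hνn _).mpr (hlev0 _ _)⟩, rfl⟩
  have hFS : F = Ph γ h '' convexHull ℝ (pr '' S) := by
    rw [hFe, hset, AffineMap.image_convexHull]
  have hcS : (Set.extremePoints ℝ (convexHull ℝ (pr '' S))).ncard = 4 := by
    rw [← hcard, hFS, ext_image _ (Ph_inj γ h), Set.ncard_image_of_injective _ (Ph_inj γ h)]
  obtain ⟨a, b, c, d, ha, hb, hc, hd, o1, o2, o3, o4⟩ := hP2 S hcS.ge
  -- the convex set
  let K : Set (ℝ × ℝ) := {q | ∀ i, 0 ≤ ((toR V).adjugate *ᵥ Ph γ h q) i}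
  have hK : Convex ℝ K := by
    intro x hx y hy s t hs ht hst i
    have e : Ph γ h (s • x + t • y) = s • Ph γ h x + t • Ph γ h y :=
      Convex.combo_affine_apply hst
    rw [e, Matrix.mulVec_add, Matrix.mulVec_smul, Matrix.mulVec_smul]
    have h1 := mul_nonneg hs (hx i)
    have h2 := mul_nonneg ht (hy i)
    simpa [Pi.add_apply, Pi.smul_apply, smul_eq_mul] using add_nonneg h1 h2
  have hKS : ∀ q : ℤ × ℤ, pr q ∈ K ↔ q ∈ S := by
    intro q
    have e1 : pr q ∈ K ↔ ∀ i, 0 ≤ (V.adjugate *ᵥ (γ.1 *ᵥ ![q.1, q.2, h])) i := by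
      change (∀ i, 0 ≤ ((toR V).adjugate *ᵥ Ph γ h (pr q)) i) ↔ _
      rw [Ph_pr, adj_zr]
      simp only [Int.cast_nonneg_iff]
    rw [e1]
    constructor
    · intro h1
      refine ⟨?_, h1⟩
      intro h0
      have := hlev0 q.1 q.2
      rw [h0, dotProduct_zero] at this
      omega
    · intro h1
      exact h1.2
  obtain ⟨p, u, v, huv, k0, k1, k2, k3⟩ := hP1 K hK a b c d ((hKS a).mpr ha) ((hKS b).mpr hb)
    ((hKS c).mpr hc) ((hKS d).mpr hd) o1 o2 o3 o4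
  have hlevz : ∀ z ∈ Lp V, h ≤ n ⬝ᵥ z := by
    intro z hz
    have h1 := hν1 z hz
    have h2 := hnν z
    have h3 : (h : ℝ) ≤ ((n ⬝ᵥ z : ℤ) : ℝ) := by
      rw [h2]
      nlinarith
    exact_mod_cast h3
  have hpos : ∀ i, 0 < n ⬝ᵥ vcol V i := by
    intro i
    have h2 := hnν (vcol V i)
    have h3 : (0 : ℝ) < ((n ⬝ᵥ vcol V i : ℤ) : ℝ) := by
      rw [h2]
      exact mul_pos hhR (hν0 i)
    exact_mod_cast h3
  have hsum : ∀ x y : ℤ × ℤ, γ.1 *ᵥ ![(x + y).1, (x + y).2, h] =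
      γ.1 *ᵥ ![x.1, x.2, h] + γ.1 *ᵥ ![y.1, y.2, 0] := by
    intro x y
    rw [← Matrix.mulVec_add]
    congr 1
    funext i
    fin_cases i <;> simp
  have hdif : ∀ x y : ℤ × ℤ, γ.1 *ᵥ ![(x - y).1, (x - y).2, h] =
      γ.1 *ᵥ ![x.1, x.2, h] - γ.1 *ᵥ ![y.1, y.2, 0] := by
    intro x y
    rw [← Matrix.mulVec_sub]
    congr 1
    funext i
    fin_cases i <;> simp
  have hcross : crossProduct (γ.1 *ᵥ ![u.1, u.2, 0]) (γ.1 *ᵥ ![v.1, v.2, 0]) = n := by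
    have hdet := γ.2
    rw [Matrix.det_fin_three] at hdet
    have g0 := congrFun hγ 0
    have g1 := congrFun hγ 1
    have g2 := congrFun hγ 2
    simp only [Matrix.vecMul, dotProduct, Fin.sum_univ_three, Matrix.cons_val_zero,
      Matrix.cons_val_one, Matrix.cons_val] at g0 g1 g2
    generalize γ.1 = G at *
    funext i
    fin_cases i
    · simp [crossProduct, Matrix.mulVec, dotProduct, Fin.sum_univ_three]
      linear_combination (G 1 0 * G 2 1 - G 2 0 * G 1 1) * huv - (G 1 1 * G 2 2 - G 2 1 * G 1 2) * g0 -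
        (G 1 2 * G 2 0 - G 2 2 * G 1 0) * g1 - (G 1 0 * G 2 1 - G 2 0 * G 1 1) * g2 + n 0 * hdet
    · simp [crossProduct, Matrix.mulVec, dotProduct, Fin.sum_univ_three]
      linear_combination (G 2 0 * G 0 1 - G 0 0 * G 2 1) * huv - (G 2 1 * G 0 2 - G 0 1 * G 2 2) * g0 -
        (G 2 2 * G 0 0 - G 0 2 * G 2 0) * g1 - (G 2 0 * G 0 1 - G 0 0 * G 2 1) * g2 + n 1 * hdet
    · simp [crossProduct, Matrix.mulVec, dotProduct, Fin.sum_univ_three]
      linear_combination (G 0 0 * G 1 1 - G 1 0 * G 0 1) * huv - (G 0 1 * G 1 2 - G 1 1 * G 0 2) * g0 -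
        (G 0 2 * G 1 0 - G 1 2 * G 0 0) * g1 - (G 0 0 * G 1 1 - G 1 0 * G 0 1) * g2 + n 2 * hdet
  obtain ⟨hh1, hN⟩ := hLEV V hV n h hn hh hpos hlevz (γ.1 *ᵥ ![p.1, p.2, h])
    (γ.1 *ᵥ ![u.1, u.2, 0]) (γ.1 *ᵥ ![v.1, v.2, 0]) (hlev0 _ _) hcross ((hKS p).mp k0)
    (by rw [← hsum]; exact (hKS _).mp k1) (by rw [← hsum]; exact (hKS _).mp k2)
    (by
      rcases k3 with k3 | ⟨k3, k4⟩
      · left; rw [← hsum, ← hsum]; exact (hKS _).mp k3
      · right; exact ⟨by rw [← hdif]; exact (hKS _).mp k3, by rw [← hdif]; exact (hKS _).mp k4⟩)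
  refine ⟨n, hN, ?_⟩
  rw [hFe]
  congr 2
  ext z
  have := hνn z
  rw [hh1] at this
  simp only [Set.mem_ofPred_eq, this]

end SAIL.F
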