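import Pool.Agent.SAIL.FAC.Targets

/-!
SAIL, part A, item Y5: finiteness of `Nn V` and the upper bound for the number of faces with
four vertices.
-/

namespace SAIL.F

open Matrix MeasureTheory Filter SAIL SAIL.A

namespace Y5x

lemma key (V : IM) (n z : Fin 3 → ℤ) :
    ∑ i, (n ⬝ᵥ vcol V i) * (V.adjugate *ᵥ z) i = V.det * (n ⬝ᵥ z) := by
  have h2 : (n ᵥ* V) ⬝ᵥ (V.adjugate *ᵥ z) = n ⬝ᵥ (V *ᵥ (V.adjugate *ᵥ z)) :=
    (Matrix.dotProduct_mulVec _ _ _).symm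
  rw [Matrix.mulVec_mulVec, Matrix.mul_adjugate, Matrix.smul_mulVec, Matrix.one_mulVec,
    dotProduct_smul, smul_eq_mul] at h2
  exact h2

lemma row_ne (V : IM) (hV : 0 < V.det) (i : Fin 3) : V.adjugate i ≠ 0 := by
  intro h
  have h1 : (V.adjugate * V) i i = V.det := by
    rw [Matrix.adjugate_mul]
    simp
  rw [Matrix.mul_apply] at h1
  have h2 : ∑ j, V.adjugate i j * V j i = 0 := by
    refine Finset.sum_eq_zero fun j _ => ?_
    rw [h]
    simp
  omega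

lemma vec_ne (M : IM) (hM : M.det = 1) (r : Fin 3 → ℤ) (hr : r ≠ 0) : r ᵥ* M ≠ 0 := by
  intro h
  apply hr
  have h1 : (r ᵥ* M) ᵥ* M.adjugate = r := by
    rw [Matrix.vecMul_vecMul, Matrix.mul_adjugate, hM, one_smul, Matrix.vecMul_one]
  rw [← h1, h, Matrix.zero_vecMul]

lemma bound (V : IM) (hV : 0 < V.det) (n : Fin 3 → ℤ) (hn : n ∈ Nn V) (i : Fin 3) :
    1 ≤ n ⬝ᵥ vcol V i ∧ n ⬝ᵥ vcol V i ≤ V.det := by
  obtain ⟨hpos, w, d, e, hdet, hw, hd, he, h1, h2, h3, _⟩ := hn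
  refine ⟨hpos i, ?_⟩
  -- an integer point of level one with a positive coordinate
  have hz : ∃ z : Fin 3 → ℤ, z ∈ Lp V ∧ n ⬝ᵥ z = 1 ∧ (V.adjugate *ᵥ z) i ≠ 0 := by
    by_contra hcon
    push Not at hcon
    have e1 := hcon w h1 hw
    have e2 := hcon (w + d) h2 (by rw [dotProduct_add, hw, hd]; norm_num)
    have e3 := hcon (w + e) h3 (by rw [dotProduct_add, hw, he]; norm_num)
    rw [Matrix.mulVec_add, Pi.add_apply, e1, zero_add] at e2 e3
    refine vec_ne _ hdet (V.adjugate i) (row_ne V hV i) ?_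
    funext j
    have hj : (V.adjugate i ᵥ* (Matrix.of fun r => ![w r, d r, e r])) j =
        V.adjugate i ⬝ᵥ fun r => (![w r, d r, e r] : Fin 3 → ℤ) j := rfl
    rw [hj]
    fin_cases j
    · exact e1
    · exact e2
    · exact e3
  obtain ⟨z, hzL, hz1, hz0⟩ := hz
  have hk := key V n z
  rw [hz1, mul_one] at hk
  have hnn : ∀ j ∈ Finset.univ, 0 ≤ (n ⬝ᵥ vcol V j) * (V.adjugate *ᵥ z) j :=
    fun j _ => mul_nonneg (hpos j).le (hzL.2 j)
  have hle := Finset.single_le_sum hnn (Finset.mem_univ i)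
  rw [hk] at hle
  have h5 : 1 ≤ (V.adjugate *ᵥ z) i := by
    have := hzL.2 i
    omega
  have h6 := hpos i
  nlinarith

lemma inj (V : IM) (hV : 0 < V.det) : Function.Injective fun n : Fin 3 → ℤ => n ᵥ* V := by
  intro n n' h
  have h' : n ᵥ* V = n' ᵥ* V := h
  have h1 : (n ᵥ* V) ᵥ* V.adjugate = (n' ᵥ* V) ᵥ* V.adjugate := by rw [h']
  rw [Matrix.vecMul_vecMul, Matrix.vecMul_vecMul, Matrix.mul_adjugate, Matrix.vecMul_smul,
    Matrix.vecMul_smul, Matrix.vecMul_one, Matrix.vecMul_one] at h1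
  funext j
  have h2 := congrFun h1 j
  simp only [Pi.smul_apply, smul_eq_mul] at h2
  exact mul_left_cancel₀ hV.ne' h2

lemma fin (V : IM) (hV : 0 < V.det) : (Nn V).Finite := by
  have hF : (Set.pi Set.univ fun _ : Fin 3 => Set.Icc (1 : ℤ) V.det).Finite :=
    Set.Finite.pi fun _ => Set.finite_Icc _ _
  refine (hF.preimage ((inj V hV).injOn)).subset fun n hn => ?_
  intro i _
  exact bound V hV n hn i

end Y5x

/-- item Y5 -/
theorem p_Y5 (hY4 : tY4) : tY5 := by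
  intro V hV
  have hfin := Y5x.fin V hV
  refine ⟨hfin, ?_⟩
  have hsub : fc 4 V ⊆
      (fun n : Fin 3 → ℤ => convexHull ℝ (zr '' {z | z ∈ Lp V ∧ n ⬝ᵥ z = 1})) '' Nn V := by
    intro F hF
    obtain ⟨n, hn, hE⟩ := hY4 V hV F hF
    exact ⟨n, hn, hE.symm⟩
  exact (Set.ncard_le_ncard hsub (hfin.image _)).trans (Set.ncard_image_le hfin)

end SAIL.F
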