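import Pool.Agent.SAIL.FAC.Targets

/-!
SAIL, part A, item Z1: `Trip m k` is finite with `2 * ∑_{P ∈ PPf m} (fc k P.2).ncard` elements.
-/

namespace SAIL.F.Z1x

open Matrix MeasureTheory Filter SAIL SAIL.A

/-- Triples. -/
abbrev T3 : Type := IM × Set (Fin 3 → ℝ) × Set (Fin 3 → ℝ)

lemma ngng (C : Set (Fin 3 → ℝ)) :
    (fun x : Fin 3 → ℝ => -x) '' ((fun x => -x) '' C) = C := by
  rw [Set.image_image]; simp

/-- Negation of the cone and the face. -/
def nu (p : T3) : T3 := (p.1, (fun x => -x) '' p.2.1, (fun x => -x) '' p.2.2)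

lemma nunu (p : T3) : nu (nu p) = p := by
  obtain ⟨A, C, F⟩ := p
  simp only [nu, ngng]

lemma nu_inj : Function.Injective nu := by
  intro p q h
  rw [← nunu p, ← nunu q, h]

/-- The faces of the positive cones attached to one pair. -/
def one (k : ℕ) (P : IM × IM) : Set T3 := (fun F => (P.1, cV P.2, F)) '' fc k P.2

lemma one_ncard (k : ℕ) (P : IM × IM) : (one k P).ncard = (fc k P.2).ncard := by
  apply Set.ncard_image_of_injective
  intro F F' h
  simp only [Prod.mk.injEq, true_and] at h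
  exact h

lemma one_fin (hZF : tZF) (k : ℕ) (P : IM × IM) (h : 0 < P.2.det) : (one k P).Finite := by
  apply Set.Finite.image
  exact (hZF P.2 h).subset fun F hF => hF.1

lemma pp (m : ℕ) (P : IM × IM) (h : P ∈ PPf m) : nrm P.1 ≤ m ∧ ∃ l, Eig P.1 P.2 l := by
  classical
  unfold PPf at h
  exact (Finset.mem_filter.mp h).2

lemma disj (hZI : tZI) (m k : ℕ) (P Q : IM × IM) (hP : P ∈ PPf m) (hQ : Q ∈ PPf m)
    (hne : P ≠ Q) : Disjoint (one k P) (one k Q) := by
  rw [Set.disjoint_left]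
  rintro x ⟨F, hF, rfl⟩ ⟨F', hF', h⟩
  simp only [Prod.mk.injEq] at h
  obtain ⟨h1, h2, h3⟩ := h
  obtain ⟨-, l, hl⟩ := pp m P hP
  obtain ⟨-, l', hl'⟩ := pp m Q hQ
  rw [h1] at hl'
  have := (hZI P.1 P.2 Q.2 l l' hl hl').1 h2.symm
  exact hne (Prod.ext h1.symm this)

/-- The positive triples. -/
def pos3 (m k : ℕ) : Set T3 := ⋃ P ∈ PPf m, one k P

lemma pos3_fin (hZF : tZF) (m k : ℕ) : (pos3 m k).Finite := by
  apply Set.Finite.biUnion (PPf m).finite_toSet
  intro P hP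
  obtain ⟨-, l, hl⟩ := pp m P hP
  exact one_fin hZF k P hl.2.2.2.2

lemma pos3_ncard (hZI : tZI) (hZF : tZF) (m k : ℕ) :
    (pos3 m k).ncard = ∑ P ∈ PPf m, (fc k P.2).ncard := by
  classical
  have key : ∀ S : Finset (IM × IM), S ⊆ PPf m →
      (⋃ P ∈ S, one k P).ncard = ∑ P ∈ S, (fc k P.2).ncard := by
    intro S
    induction S using Finset.induction_on with
    | empty => intro _; simp
    | insert P S hPS ih =>
      intro hsub
      have hS : S ⊆ PPf m := fun x hx => hsub (Finset.mem_insert_of_mem hx)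
      have hP : P ∈ PPf m := hsub (Finset.mem_insert_self P S)
      rw [Finset.sum_insert hPS, ← ih hS, ← one_ncard k P, Finset.set_biUnion_insert]
      have f1 : (one k P).Finite := by
        obtain ⟨-, l, hl⟩ := pp m P hP
        exact one_fin hZF k P hl.2.2.2.2
      have f2 : (⋃ Q ∈ S, one k Q).Finite := by
        apply Set.Finite.biUnion S.finite_toSet
        intro Q hQ
        obtain ⟨-, l, hl⟩ := pp m Q (hS hQ)
        exact one_fin hZF k Q hl.2.2.2.2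
      apply Set.ncard_union_eq _ f1 f2
      rw [Set.disjoint_iUnion₂_right]
      intro Q hQ
      apply disj hZI m k P Q hP (hS hQ)
      rintro rfl
      exact hPS hQ
  exact key (PPf m) (Finset.Subset.refl _)

lemma pos_neg (hZI : tZI) (m k : ℕ) : Disjoint (pos3 m k) (nu '' pos3 m k) := by
  rw [Set.disjoint_left]
  intro x hx hx'
  simp only [pos3, Set.mem_iUnion] at hx
  obtain ⟨P, hP, F, hF, rfl⟩ := hx
  obtain ⟨y, hy, hxy⟩ := hx'
  simp only [pos3, Set.mem_iUnion] at hy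
  obtain ⟨Q, hQ, F', hF', rfl⟩ := hy
  simp only [nu, Prod.mk.injEq] at hxy
  obtain ⟨h1, h2, h3⟩ := hxy
  obtain ⟨-, l, hl⟩ := pp m P hP
  obtain ⟨-, l', hl'⟩ := pp m Q hQ
  rw [h1] at hl'
  exact (hZI P.1 P.2 Q.2 l l' hl hl').2 h2.symm

lemma trip_eq (hZA : tZA) (hZC : tZC) (hZN : tZN) (hS : tSPEC) (m k : ℕ) :
    Trip m k = pos3 m k ∪ nu '' pos3 m k := by
  ext x
  obtain ⟨A, C, F⟩ := x
  constructor
  · rintro ⟨hA, hC, hF, hk⟩
    obtain ⟨hn, V, l, hV⟩ := (hZA m A).mp hA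
    obtain ⟨V', ⟨l', hV'⟩, hc⟩ := (hZC A V l hV C).mp hC
    have hmem : (A, V') ∈ PPf m := (hS m A V' l' hV' hn).2.2.2.2.2.1
    have hk' : (Set.extremePoints ℝ F).ncard = k := hk
    have hF' : BFace C F := hF
    rcases hc with hc | hc
    · left
      simp only [pos3, Set.mem_iUnion]
      refine ⟨(A, V'), hmem, F, ?_, ?_⟩
      · refine ⟨?_, hk'⟩
        show BFace (cV V') F
        rw [← hc]; exact hF'
      · show (A, cV V', F) = (A, C, F)
        rw [hc]
    · right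
      obtain ⟨h1, h2⟩ := hZN C F hF'
      have hc' : (fun x : Fin 3 → ℝ => -x) '' C = cV V' := by rw [hc, ngng]
      refine ⟨(A, cV V', (fun x => -x) '' F), ?_, ?_⟩
      · simp only [pos3, Set.mem_iUnion]
        refine ⟨(A, V'), hmem, (fun x => -x) '' F, ?_, rfl⟩
        refine ⟨?_, ?_⟩
        · show BFace (cV V') _
          rw [← hc']; exact h1
        · rw [h2]; exact hk'
      · simp only [nu, ngng, ← hc]
  · rintro (h | h)
    · simp only [pos3, Set.mem_iUnion] at h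
      obtain ⟨P, hP, F', hF', h⟩ := h
      simp only [Prod.mk.injEq] at h
      obtain ⟨rfl, rfl, rfl⟩ := h
      obtain ⟨hn, l, hl⟩ := pp m P hP
      refine ⟨(hZA m P.1).mpr ⟨hn, P.2, l, hl⟩, ?_, hF'.1, hF'.2⟩
      exact (hZC P.1 P.2 l hl _).mpr ⟨P.2, ⟨l, hl⟩, Or.inl rfl⟩
    · obtain ⟨y, hy, hxy⟩ := h
      simp only [pos3, Set.mem_iUnion] at hy
      obtain ⟨P, hP, F', hF', rfl⟩ := hy
      simp only [nu, Prod.mk.injEq] at hxy
      obtain ⟨rfl, rfl, rfl⟩ := hxy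
      obtain ⟨hn, l, hl⟩ := pp m P hP
      obtain ⟨h1, h2⟩ := hZN (cV P.2) F' hF'.1
      refine ⟨(hZA m P.1).mpr ⟨hn, P.2, l, hl⟩, ?_, h1, ?_⟩
      · exact (hZC P.1 P.2 l hl _).mpr ⟨P.2, ⟨l, hl⟩, Or.inr rfl⟩
      · show (Set.extremePoints ℝ ((fun x => -x) '' F')).ncard = k
        rw [h2]; exact hF'.2

end SAIL.F.Z1x

namespace SAIL.F

open Matrix MeasureTheory Filter SAIL SAIL.A

theorem p_Z1 (hZA : tZA) (hZC : tZC) (hZI : tZI) (hZN : tZN) (hZF : tZF) (hS : tSPEC) : tZ1 := by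
  intro m k
  rw [Z1x.trip_eq hZA hZC hZN hS m k]
  have f1 := Z1x.pos3_fin hZF m k
  have f2 := f1.image Z1x.nu
  refine ⟨f1.union f2, ?_⟩
  rw [Set.ncard_union_eq (Z1x.pos_neg hZI m k) f1 f2,
    Set.ncard_image_of_injective _ Z1x.nu_inj, Z1x.pos3_ncard hZI hZF m k, two_mul]

end SAIL.F
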