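import Pool.Agent.SAIL.FAC.Targets

/-!
SAIL, part A, target ZA: the matrices of `A_3(m)` are those with an eigenbasis.
-/

namespace SAIL.F

open Matrix MeasureTheory Filter SAIL SAIL.A

namespace ZAx

/-- Polynomials over the rationals of an integer matrix. -/
lemma map_charpoly (A : IM) :
    (A.map fun z : ℤ => (z : ℚ)).charpoly = A.charpoly.map (Int.castRingHom ℚ) := by
  rw [← Matrix.charpoly_map]
  rfl

/-- A rational eigenvalue is an integer, with vanishing determinant. -/
lemma root_int (A : IM) (a : ℚ) (h : (A.map fun z : ℤ => (z : ℚ)).charpoly.eval a = 0) :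
    ∃ z : ℤ, (z : ℚ) = a ∧ (A - Matrix.scalar (Fin 3) z).det = 0 := by
  rw [map_charpoly] at h
  have h1 : IsIntegral ℤ a := by
    refine ⟨A.charpoly, A.charpoly_monic, ?_⟩
    rw [← Polynomial.eval_map]
    exact h
  obtain ⟨z, hz⟩ := IsIntegrallyClosed.isIntegral_iff.mp h1
  have hz' : (z : ℚ) = a := by
    rw [← hz]
    simp
  refine ⟨z, hz', ?_⟩
  have h2 : A.charpoly.eval z = 0 := by
    have h3 : (A.charpoly.map (Int.castRingHom ℚ)).eval ((Int.castRingHom ℚ) z) = 0 := by
      have : (Int.castRingHom ℚ) z = a := by simpa using hz'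
      rw [this]
      exact h
    rw [Polynomial.eval_map_apply] at h3
    simpa using h3
  rw [Matrix.eval_charpoly] at h2
  have h4 : A - Matrix.scalar (Fin 3) z = -(Matrix.scalar (Fin 3) z - A) := by
    abel
  rw [h4, Matrix.det_neg, h2]
  simp

/-- The characteristic polynomial of a matrix with an eigenbasis. -/
lemma charpoly_eig (A V : IM) (l : Fin 3 → ℤ) (h : A * V = V * Matrix.diagonal l)
    (hd : 0 < V.det) : A.charpoly = ∏ i, (Polynomial.X - Polynomial.C (l i)) := by
  rw [← Matrix.charpoly_diagonal]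
  have h1 : A.charmatrix * V.map Polynomial.C =
      V.map Polynomial.C * (Matrix.diagonal l).charmatrix := by
    unfold Matrix.charmatrix
    rw [sub_mul, mul_sub]
    have e1 : (Matrix.scalar (Fin 3) (Polynomial.X : Polynomial ℤ)) * V.map Polynomial.C =
        V.map Polynomial.C * Matrix.scalar (Fin 3) (Polynomial.X : Polynomial ℤ) := by
      exact Matrix.scalar_commute _ (fun r => Commute.all _ r) _
    have e2 : (Polynomial.C : ℤ →+* Polynomial ℤ).mapMatrix A * V.map Polynomial.C =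
        V.map Polynomial.C * (Polynomial.C : ℤ →+* Polynomial ℤ).mapMatrix (Matrix.diagonal l) := by
      have := congrArg (Polynomial.C : ℤ →+* Polynomial ℤ).mapMatrix h
      rw [map_mul, map_mul] at this
      exact this
    rw [e1, e2]
  have h2 := congrArg Matrix.det h1
  rw [Matrix.det_mul, Matrix.det_mul, mul_comm] at h2
  have h3 : (V.map Polynomial.C).det ≠ (0 : Polynomial ℤ) := by
    have : (V.map Polynomial.C).det = Polynomial.C V.det := by
      exact (RingHom.map_det (Polynomial.C : ℤ →+* Polynomial ℤ) V).symm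
    rw [this]
    simpa using hd.ne'
  exact mul_left_cancel₀ h3 h2

end ZAx

open ZAx in
theorem p_ZA (hE : tEXI) : tZA := by
  intro m A
  constructor
  · rintro ⟨⟨a, b, c, hab, hbc, hac, hp⟩, hn⟩
    refine ⟨hn, ?_⟩
    obtain ⟨x, hx, dx⟩ := root_int A a (by rw [hp]; simp)
    obtain ⟨y, hy, dy⟩ := root_int A b (by rw [hp]; simp)
    obtain ⟨z, hz, dz⟩ := root_int A c (by rw [hp]; simp)
    have hxy : x ≠ y := by rintro rfl; exact hab (hx.symm.trans hy)
    have hyz : y ≠ z := by rintro rfl; exact hbc (hy.symm.trans hz)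
    have hxz : x ≠ z := by rintro rfl; exact hac (hx.symm.trans hz)
    rcases lt_or_gt_of_ne hxy with h1 | h1 <;> rcases lt_or_gt_of_ne hyz with h2 | h2 <;>
      rcases lt_or_gt_of_ne hxz with h3 | h3
    · obtain ⟨V, hV⟩ := hE A x y z h1 h2 dx dy dz
      exact ⟨V, _, hV⟩
    · exact absurd (h1.trans h2) (not_lt.mpr h3.le)
    · obtain ⟨V, hV⟩ := hE A x z y h3 h2 dx dz dy
      exact ⟨V, _, hV⟩
    · obtain ⟨V, hV⟩ := hE A z x y h3 h1 dz dx dy
      exact ⟨V, _, hV⟩
    · obtain ⟨V, hV⟩ := hE A y x z h1 h3 dy dx dz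
      exact ⟨V, _, hV⟩
    · obtain ⟨V, hV⟩ := hE A y z x h2 h3 dy dz dx
      exact ⟨V, _, hV⟩
    · exact absurd (h2.trans h1) (not_lt.mpr h3.le)
    · obtain ⟨V, hV⟩ := hE A z y x h2 h1 dz dy dx
      exact ⟨V, _, hV⟩
  · rintro ⟨hn, V, l, hV, h01, h12, -, hd⟩
    refine ⟨⟨(l 0 : ℚ), (l 1 : ℚ), (l 2 : ℚ), ?_, ?_, ?_, ?_⟩, hn⟩
    · exact_mod_cast h01.ne
    · exact_mod_cast h12.ne
    · exact_mod_cast (h01.trans h12).ne
    · rw [map_charpoly, charpoly_eig A V l hV hd, Polynomial.map_prod, Fin.prod_univ_three]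
      simp

end SAIL.F
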