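import Pool.Agent.SAIL.FAC.Targets

/-!
SAIL, part A: the cones of a matrix (job SAILF-ZC).
-/

set_option autoImplicit false

namespace SAIL.F

open Matrix MeasureTheory Filter SAIL SAIL.A

namespace ZCx

/-- signed cone -/
def sc (V : IM) (ε : Fin 3 → ℤ) : Set (Fin 3 → ℝ) :=
  {x | ∃ t : Fin 3 → ℝ, (∀ i, 0 < t i) ∧ x = ∑ i, t i • ((ε i : ℝ) • zr (vcol V i))}

lemma prim_ne_zero (v : Fin 3 → ℤ) (h : prim v) : v ≠ 0 := by
  rintro rfl
  have h2 := h 2 (fun i => by simp)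
  rw [Int.isUnit_iff] at h2
  omega

lemma zr_ne_zero {v : Fin 3 → ℤ} (h : v ≠ 0) : zr v ≠ 0 := by
  intro h0
  apply h
  funext i
  have h1 := congrFun h0 i
  simpa [zr] using h1

lemma map_mulVec (A : IM) (v : Fin 3 → ℤ) :
    (A.map fun z : ℤ => (z : ℝ)) *ᵥ zr v = zr (A *ᵥ v) := by
  funext i
  simp [Matrix.mulVec, dotProduct, zr]

lemma zr_smul (c : ℤ) (v : Fin 3 → ℤ) : zr (c • v) = (c : ℝ) • zr v := by
  funext i
  simp [zr]

lemma eig_col (A V : IM) (l : Fin 3 → ℤ) (h : Eig A V l) (i : Fin 3) :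
    A *ᵥ vcol V i = l i • vcol V i := by
  funext r
  have h1 := congrFun (congrFun h.1 r) i
  rw [Matrix.mul_apply, Matrix.mul_diagonal] at h1
  rw [Matrix.mulVec, dotProduct]
  simp only [vcol, Pi.smul_apply, smul_eq_mul]
  rw [h1, mul_comm]

lemma l_inj (l : Fin 3 → ℤ) (h1 : l 0 < l 1) (h2 : l 1 < l 2) : Function.Injective l := by
  intro i j hij
  fin_cases i <;> fin_cases j <;> simp_all <;> omega

lemma vcol_mul_diag (V : IM) (ε : Fin 3 → ℤ) (i : Fin 3) :
    vcol (V * Matrix.diagonal ε) i = ε i • vcol V i := by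
  funext r
  simp [vcol, Matrix.mul_diagonal, mul_comm]

lemma cV_mul_diag (V : IM) (ε : Fin 3 → ℤ) : cV (V * Matrix.diagonal ε) = sc V ε := by
  unfold cV sc
  simp only [vcol_mul_diag, zr_smul]

lemma neg_cV (V : IM) (ε : Fin 3 → ℤ) :
    (fun x => -x) '' cV (V * Matrix.diagonal (fun i => -ε i)) = sc V ε := by
  rw [cV_mul_diag]
  ext x
  constructor
  · rintro ⟨y, ⟨t, ht, rfl⟩, rfl⟩
    refine ⟨t, ht, ?_⟩
    simp only
    rw [← Finset.sum_neg_distrib]
    refine Finset.sum_congr rfl fun i _ => ?_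
    funext r
    simp
  · rintro ⟨t, ht, rfl⟩
    refine ⟨_, ⟨t, ht, rfl⟩, ?_⟩
    simp only
    rw [← Finset.sum_neg_distrib]
    refine Finset.sum_congr rfl fun i _ => ?_
    funext r
    simp

lemma eig_sign (A V : IM) (l : Fin 3 → ℤ) (h : Eig A V l) (ε : Fin 3 → ℤ)
    (hε : ∀ i, ε i = 1 ∨ ε i = -1) (hd : 0 < ∏ i, ε i) : Eig A (V * Matrix.diagonal ε) l := by
  obtain ⟨hAV, h1, h2, hp, hdet⟩ := h
  refine ⟨?_, h1, h2, ?_, ?_⟩
  · rw [← Matrix.mul_assoc, hAV, Matrix.mul_assoc, Matrix.mul_assoc,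
      Matrix.diagonal_mul_diagonal, Matrix.diagonal_mul_diagonal]
    congr 2
    funext i
    exact mul_comm _ _
  · intro i d hdv
    apply hp i d
    intro r
    have h3 := hdv r
    rw [vcol_mul_diag] at h3
    simp only [Pi.smul_apply, smul_eq_mul] at h3
    rcases hε i with h4 | h4
    · rw [h4, one_mul] at h3
      exact h3
    · rw [h4, neg_one_mul, Int.dvd_neg] at h3
      exact h3
  · rw [Matrix.det_mul, Matrix.det_diagonal]
    exact mul_pos hdet hd

lemma eigvec (A V : IM) (l : Fin 3 → ℤ) (h : Eig A V l) (v : Fin 3 → ℝ) (μ : ℝ) (hv : v ≠ 0)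
    (he : (A.map fun z : ℤ => (z : ℝ)) *ᵥ v = μ • v) :
    ∃ (j : Fin 3) (s : ℝ), s ≠ 0 ∧ v = s • zr (vcol V j) ∧ μ = l j := by
  obtain ⟨hAV, hl1, hl2, hp, hdet⟩ := h
  have hinj := l_inj l hl1 hl2
  set Vr : M3 := V.map (fun z : ℤ => (z : ℝ)) with hVr
  set Ar : M3 := A.map (fun z : ℤ => (z : ℝ)) with hAr
  have hdr : Vr.det = (V.det : ℝ) := by
    have h1 := (Int.castRingHom ℝ).map_det V
    rw [eq_comm] at h1
    exact h1
  have hu : IsUnit Vr.det := by
    rw [hdr]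
    exact isUnit_iff_ne_zero.2 (by exact_mod_cast hdet.ne')
  have hmul : Ar * Vr = Vr * Matrix.diagonal (fun i => (l i : ℝ)) := by
    ext r i
    have h1 := congrFun (congrFun hAV r) i
    rw [Matrix.mul_apply, Matrix.mul_diagonal] at h1
    rw [Matrix.mul_apply, Matrix.mul_diagonal]
    simp only [hVr, hAr, Matrix.map_apply]
    exact_mod_cast h1
  set c : Fin 3 → ℝ := Vr⁻¹ *ᵥ v with hc
  have hVc : Vr *ᵥ c = v := by
    rw [hc, Matrix.mulVec_mulVec, Matrix.mul_nonsing_inv _ hu, Matrix.one_mulVec]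
  have h1 : Vr *ᵥ (Matrix.diagonal (fun i => (l i : ℝ)) *ᵥ c) = Vr *ᵥ (μ • c) := by
    rw [Matrix.mulVec_mulVec, ← hmul, ← Matrix.mulVec_mulVec, hVc, he, Matrix.mulVec_smul, hVc]
  have h2 : Matrix.diagonal (fun i => (l i : ℝ)) *ᵥ c = μ • c := by
    have h3 : ∀ x : Fin 3 → ℝ, Vr⁻¹ *ᵥ (Vr *ᵥ x) = x := by
      intro x
      rw [Matrix.mulVec_mulVec, Matrix.nonsing_inv_mul _ hu, Matrix.one_mulVec]
    rw [← h3 (Matrix.diagonal (fun i => (l i : ℝ)) *ᵥ c), h1, h3]
  have h3 : ∀ j, (l j : ℝ) * c j = μ * c j := by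
    intro j
    have h4 := congrFun h2 j
    rw [Matrix.mulVec_diagonal] at h4
    simpa using h4
  have hc0 : c ≠ 0 := by
    intro h0
    apply hv
    rw [← hVc, h0, Matrix.mulVec_zero]
  obtain ⟨j, hj⟩ := Function.ne_iff.1 hc0
  have hj' : c j ≠ 0 := hj
  have hμ : μ = l j := (mul_right_cancel₀ hj' (h3 j)).symm
  refine ⟨j, c j, hj', ?_, hμ⟩
  have h4 : ∀ k, k ≠ j → c k = 0 := by
    intro k hk
    by_contra h0
    have h5 : (l k : ℝ) = l j := by rw [← hμ]; exact mul_right_cancel₀ h0 (h3 k)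
    exact hk (hinj (by exact_mod_cast h5))
  funext r
  rw [← hVc, Matrix.mulVec, dotProduct, Finset.sum_eq_single j]
  · simp only [hVr, Matrix.map_apply, Pi.smul_apply, smul_eq_mul, zr, vcol]
    ring
  · intro k _ hk
    rw [h4 k hk, mul_zero]
  · intro h0
    exact absurd (Finset.mem_univ j) h0

lemma prod_sign (ε : Fin 3 → ℤ) (hε : ∀ i, ε i = 1 ∨ ε i = -1) :
    0 < ∏ i, ε i ∨ 0 < ∏ i, (-ε i) := by
  rw [Fin.prod_univ_three, Fin.prod_univ_three]
  rcases hε 0 with h0 | h0 <;> rcases hε 1 with h1 | h1 <;> rcases hε 2 with h2 | h2 <;>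
    simp [h0, h1, h2]

end ZCx

open ZCx

theorem p_ZC : tZC := by
  intro A V l h C
  constructor
  · rintro ⟨v, lam, hinj, hv, rfl⟩
    choose σ s hs hvs hlam using fun i => eigvec A V l h (v i) (lam i) (hv i).1 (hv i).2
    have hσ : Function.Injective σ := by
      intro i k hik
      apply hinj
      rw [hlam i, hlam k, hik]
    let e : Fin 3 ≃ Fin 3 := Equiv.ofBijective σ (Finite.injective_iff_bijective.1 hσ)
    have he : ∀ j, σ (e.symm j) = j := fun j => e.apply_symm_apply j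
    let ε : Fin 3 → ℤ := fun j => if 0 < s (e.symm j) then 1 else -1
    have hε : ∀ i, ε i = 1 ∨ ε i = -1 := by
      intro i
      simp only [ε]
      split_ifs
      · exact Or.inl rfl
      · exact Or.inr rfl
    have habs : ∀ j, |s (e.symm j)| * (ε j : ℝ) = s (e.symm j) := by
      intro j
      simp only [ε]
      split_ifs with h0
      · rw [abs_of_pos h0]; simp
      · rw [abs_of_nonpos (not_lt.1 h0)]; simp
    have hC : {x | ∃ t : Fin 3 → ℝ, (∀ i, 0 < t i) ∧ x = ∑ i, t i • v i} = sc V ε := by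
      ext x
      constructor
      · rintro ⟨t, ht, rfl⟩
        refine ⟨fun j => t (e.symm j) * |s (e.symm j)|, fun j =>
          mul_pos (ht _) (abs_pos.2 (hs _)), ?_⟩
        rw [← Equiv.sum_comp e.symm (fun i => t i • v i)]
        refine Finset.sum_congr rfl fun j _ => ?_
        rw [hvs (e.symm j), he j, smul_smul, smul_smul, mul_assoc, habs j]
      · rintro ⟨t, ht, rfl⟩
        refine ⟨fun i => t (e i) / |s i|, fun i => div_pos (ht _) (abs_pos.2 (hs _)), ?_⟩
        rw [← Equiv.sum_comp e.symm (fun i => (t (e i) / |s i|) • v i)]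
        refine Finset.sum_congr rfl fun j _ => ?_
        rw [hvs (e.symm j), he j, smul_smul, smul_smul, e.apply_symm_apply]
        congr 1
        have h1 : |s (e.symm j)| ≠ 0 := abs_ne_zero.2 (hs _)
        have h2 := habs j
        calc t j * (ε j : ℝ) = t j / |s (e.symm j)| * (|s (e.symm j)| * (ε j : ℝ)) := by
              field_simp
          _ = t j / |s (e.symm j)| * s (e.symm j) := by rw [h2]
    rw [hC]
    rcases prod_sign ε hε with hp | hp
    · exact ⟨V * Matrix.diagonal ε, ⟨l, eig_sign A V l h ε hε hp⟩,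
        Or.inl (cV_mul_diag V ε).symm⟩
    · refine ⟨V * Matrix.diagonal (fun i => -ε i), ⟨l, eig_sign A V l h _ ?_ hp⟩,
        Or.inr (neg_cV V ε).symm⟩
      intro i
      rcases hε i with h0 | h0 <;> simp [h0]
  · rintro ⟨V', ⟨l', h'⟩, hC⟩
    have hinj : Function.Injective (fun i => (l' i : ℝ)) := by
      intro i j hij
      have hij' : (l' i : ℝ) = l' j := hij
      exact l_inj l' h'.2.1 h'.2.2.1 (by exact_mod_cast hij')
    have hne : ∀ i, zr (vcol V' i) ≠ 0 := fun i => zr_ne_zero (prim_ne_zero _ (h'.2.2.2.1 i))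
    rcases hC with rfl | rfl
    · refine ⟨fun i => zr (vcol V' i), fun i => (l' i : ℝ), hinj, fun i => ⟨hne i, ?_⟩, rfl⟩
      rw [map_mulVec, eig_col A V' l' h' i, zr_smul]
    · refine ⟨fun i => -zr (vcol V' i), fun i => (l' i : ℝ), hinj,
        fun i => ⟨neg_ne_zero.2 (hne i), ?_⟩, ?_⟩
      · rw [Matrix.mulVec_neg, map_mulVec, eig_col A V' l' h' i, zr_smul, smul_neg]
      · ext x
        constructor
        · rintro ⟨y, ⟨t, ht, rfl⟩, rfl⟩
          refine ⟨t, ht, ?_⟩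
          simp only [smul_neg, Finset.sum_neg_distrib]
        · rintro ⟨t, ht, rfl⟩
          refine ⟨_, ⟨t, ht, rfl⟩, ?_⟩
          simp only [smul_neg, Finset.sum_neg_distrib]

end SAIL.F
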