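import Pool.Agent.SAIL.FAC.P_Y2

/-!
SAIL, part A: target tZF (finitely many faces).
-/

namespace SAIL.F

open Matrix MeasureTheory Filter SAIL SAIL.A

namespace ZFx

/-- the finite set of integer points which can be vertices -/
def bx (V : IM) : Set (Fin 3 → ℤ) :=
  {z | ∀ i, 0 ≤ (V.adjugate *ᵥ z) i ∧ (V.adjugate *ᵥ z) i ≤ V.det}

lemma bx_finite {V : IM} (hV : 0 < V.det) : (bx V).Finite := by
  have hinj : Function.Injective (fun z : Fin 3 → ℤ => V.adjugate *ᵥ z) := by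
    intro z z' h
    have h1 : V *ᵥ (V.adjugate *ᵥ z) = V *ᵥ (V.adjugate *ᵥ z') := congrArg (V *ᵥ ·) h
    rw [Matrix.mulVec_mulVec, Matrix.mulVec_mulVec, Matrix.mul_adjugate, Matrix.smul_mulVec,
      Matrix.smul_mulVec, Matrix.one_mulVec, Matrix.one_mulVec] at h1
    funext i
    have h2 := congrFun h1 i
    simp only [Pi.smul_apply, smul_eq_mul] at h2
    exact mul_left_cancel₀ hV.ne' h2
  have hfin : (Set.Icc (0 : Fin 3 → ℤ) (fun _ => V.det)).Finite := Set.finite_Icc _ _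
  refine (hfin.preimage (hinj.injOn)).subset ?_
  intro z hz
  exact ⟨fun i => (hz i).1, fun i => (hz i).2⟩

lemma mem_bx {V : IM} (hV : 0 < V.det) {ν : Fin 3 → ℝ} (h1 : ∀ z ∈ Lp V, 1 ≤ ν ⬝ᵥ zr z)
    {z : Fin 3 → ℤ} (hz : z ∈ Lp V) (h2 : ν ⬝ᵥ zr z = 1) : z ∈ bx V := by
  have hd : (0 : ℝ) < V.det := by exact_mod_cast hV
  have hz' := (Y1x.mem_Lp hV z).1 hz
  intro i
  refine ⟨hz.2 i, ?_⟩
  have h3 : ν ⬝ᵥ zr z = ∑ j, ((toR V)⁻¹ *ᵥ zr z) j * (ν ⬝ᵥ zr (vcol V j)) := by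
    conv_lhs => rw [Y2x.zr_eq_sum hV z]
    rw [dotProduct_sum]
    refine Finset.sum_congr rfl (fun j _ => ?_)
    rw [dotProduct_smul, smul_eq_mul]
  have h4 : ((toR V)⁻¹ *ᵥ zr z) i ≤ ∑ j, ((toR V)⁻¹ *ᵥ zr z) j * (ν ⬝ᵥ zr (vcol V j)) := by
    have h5 : ((toR V)⁻¹ *ᵥ zr z) i ≤ ((toR V)⁻¹ *ᵥ zr z) i * (ν ⬝ᵥ zr (vcol V i)) :=
      le_mul_of_one_le_right (hz'.2 i) (h1 _ (Y2x.col_mem_Lp hV i))
    refine h5.trans (Finset.single_le_sum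
      (f := fun j => ((toR V)⁻¹ *ᵥ zr z) j * (ν ⬝ᵥ zr (vcol V j)))
      (fun j _ => mul_nonneg (hz'.2 j) ?_) (Finset.mem_univ i))
    linarith [h1 _ (Y2x.col_mem_Lp hV j)]
  rw [← h3, h2, Y1x.inv_mulVec_zr, div_le_one hd] at h4
  exact_mod_cast h4

end ZFx

theorem p_ZF (hY2 : tY2) : tZF := by
  intro V hV
  refine ((ZFx.bx_finite hV).finite_subsets.image
    (fun s : Set (Fin 3 → ℤ) => convexHull ℝ (zr '' s))).subset ?_
  intro F hF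
  obtain ⟨ν, -, h1, h2, -⟩ := hY2 V hV F hF
  exact ⟨{z | z ∈ Lp V ∧ ν ⬝ᵥ zr z = 1}, fun z hz => ZFx.mem_bx hV h1 hz.1 hz.2, h2.symm⟩

end SAIL.F
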