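import Pool.Agent.SAIL.FAC.Targets

/-!
SAIL, part A: the cones of an eigenbasis are distinct.
-/

namespace SAIL.F

open Matrix MeasureTheory Filter SAIL SAIL.A

namespace ZIx

lemma prim_dvd {v : Fin 3 → ℤ} (hv : prim v) {a d : ℤ} (h : ∀ r, a ∣ d * v r) : a ∣ d := by
  have h1 : IsUnit (Finset.univ.gcd v) := hv _ fun i => Finset.gcd_dvd (Finset.mem_univ i)
  have h2 : a ∣ Finset.univ.gcd (fun r => d * v r) := Finset.dvd_gcd fun r _ => h r
  rw [Finset.gcd_mul_left] at h2
  have h3 : a ∣ normalize d := (IsUnit.dvd_mul_right h1).1 h2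
  exact (dvd_normalize_iff).1 h3

lemma zr_sum (V : IM) (c : Fin 3 → ℝ) : ∑ i, c i • zr (vcol V i) = (toR V) *ᵥ c := by
  ext r
  simp [Matrix.mulVec, dotProduct, toR, zr, vcol, mul_comm]

lemma det_toR (V : IM) : (toR V).det = (V.det : ℝ) := by
  have h := (Int.castRingHom ℝ).map_det V
  simp only [eq_intCast] at h
  rw [h]
  rfl

lemma unique {V : IM} (hV : 0 < V.det) {c c' : Fin 3 → ℝ}
    (h : ∑ i, c i • zr (vcol V i) = ∑ i, c' i • zr (vcol V i)) : c = c' := by
  rw [zr_sum, zr_sum] at h
  have h1 : (toR V).det ≠ 0 := by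
    rw [det_toR]
    exact_mod_cast hV.ne'
  have h2 : (toR V) *ᵥ (c - c') = 0 := by
    rw [Matrix.mulVec_sub, h, sub_self]
  exact sub_eq_zero.1 (Matrix.eq_zero_of_mulVec_eq_zero h1 h2)

lemma eig {A V V' : IM} {l l' : Fin 3 → ℤ} (h : Eig A V l) (h' : Eig A V' l') :
    ∃ e : Fin 3 → ℤ, (∀ i, e i = 1 ∨ e i = -1) ∧ ∀ i r, V' r i = e i * V r i := by
  obtain ⟨a1, a2, a3, a4, a5⟩ := h
  obtain ⟨b1, b2, b3, b4, b5⟩ := h'
  set P := V.adjugate * V' with hP
  -- the rows of the adjugate are left eigenvectors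
  have e1 : V.adjugate * A = Matrix.diagonal l * V.adjugate := by
    have h1 : V.adjugate * A * V = V.det • Matrix.diagonal l := by
      rw [mul_assoc, a1, ← mul_assoc, Matrix.adjugate_mul]
      simp
    have h2 : V.det • (V.adjugate * A) = V.det • (Matrix.diagonal l * V.adjugate) := by
      have h3 : V.adjugate * A * V * V.adjugate = V.det • (V.adjugate * A) := by
        rw [mul_assoc (V.adjugate * A), Matrix.mul_adjugate, Matrix.mul_smul, Matrix.mul_one]
      rw [← h3, h1, Matrix.smul_mul]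
    exact smul_right_injective _ a5.ne' h2
  have e2 : Matrix.diagonal l * P = P * Matrix.diagonal l' := by
    rw [hP, ← mul_assoc, ← e1, mul_assoc, b1, mul_assoc]
  have e3 : ∀ i j, l i * P i j = P i j * l' j := by
    intro i j
    have h1 := congrFun (congrFun e2 i) j
    rwa [Matrix.diagonal_mul, Matrix.mul_diagonal] at h1
  have e4 : ∀ i j, P i j ≠ 0 → l i = l' j := by
    intro i j hij
    have h1 := e3 i j
    rw [mul_comm] at h1
    exact mul_left_cancel₀ hij h1
  have hdet : P.det ≠ 0 := by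
    rw [hP, Matrix.det_mul, Matrix.det_adjugate]
    exact mul_ne_zero (pow_ne_zero _ a5.ne') b5.ne'
  have e5 : ∀ i, ∃ j, P i j ≠ 0 := by
    intro i
    by_contra hcon
    push Not at hcon
    exact hdet (Matrix.det_eq_zero_of_row_eq_zero i hcon)
  obtain ⟨j0, h0⟩ := e5 0
  obtain ⟨j1, h1⟩ := e5 1
  obtain ⟨j2, h2⟩ := e5 2
  have f0 := e4 0 j0 h0
  have f1 := e4 1 j1 h1
  have f2 := e4 2 j2 h2
  have hl : l 0 = l' 0 ∧ l 1 = l' 1 ∧ l 2 = l' 2 := by
    fin_cases j0 <;> fin_cases j1 <;> fin_cases j2 <;> simp at f0 f1 f2 <;> omega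
  obtain ⟨g0, g1, g2⟩ := hl
  have e6 : ∀ i j, i ≠ j → P i j = 0 := by
    intro i j hij
    by_contra hcon
    have h3 := e4 i j hcon
    fin_cases i <;> fin_cases j <;> simp at hij h3 <;> omega
  have e7 : V * P = V.det • V' := by
    rw [hP, ← mul_assoc, Matrix.mul_adjugate]
    simp
  have e8 : ∀ i r, V.det * V' r i = P i i * V r i := by
    intro i r
    have h3 := congrFun (congrFun e7 r) i
    rw [Matrix.mul_apply, Finset.sum_eq_single i] at h3
    · rw [Matrix.smul_apply, smul_eq_mul] at h3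
      rw [← h3]
      ring
    · intro j _ hj
      rw [e6 j i hj, mul_zero]
    · intro hi
      exact absurd (Finset.mem_univ i) hi
  have e9 : ∀ i, P i i = V.det ∨ P i i = -V.det := by
    intro i
    have d1 : V.det ∣ P i i := by
      refine prim_dvd (a4 i) (v := vcol V i) fun r => ?_
      exact ⟨V' r i, (e8 i r).symm⟩
    have d2 : P i i ∣ V.det := by
      refine prim_dvd (b4 i) (v := vcol V' i) fun r => ?_
      exact ⟨V r i, e8 i r⟩
    exact (Int.natAbs_eq_natAbs_iff).1 (Int.natAbs_eq_of_dvd_dvd d2 d1)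
  refine ⟨fun i => if P i i = V.det then 1 else -1, ?_, ?_⟩
  · intro i
    by_cases hi : P i i = V.det
    · left
      simp [hi]
    · right
      simp [hi]
  · intro i r
    have h3 := e8 i r
    by_cases hi : P i i = V.det
    · simp only [hi, if_true, one_mul]
      rw [hi] at h3
      exact mul_left_cancel₀ a5.ne' h3
    · simp only [hi, if_false]
      have hi2 := (e9 i).resolve_left hi
      rw [hi2] at h3
      have h4 : V.det * V' r i = V.det * (-1 * V r i) := by rw [h3]; ring
      exact mul_left_cancel₀ a5.ne' h4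

lemma coef {V V' : IM} {e : Fin 3 → ℤ} (he : ∀ i r, V' r i = e i * V r i) (t : Fin 3 → ℝ) :
    ∑ i, t i • zr (vcol V' i) = ∑ i, (t i * e i) • zr (vcol V i) := by
  refine Finset.sum_congr rfl fun i _ => ?_
  ext r
  simp only [Pi.smul_apply, zr, vcol, smul_eq_mul, he i r]
  push_cast
  ring

end ZIx

open ZIx in
theorem p_ZI : tZI := by
  intro A V V' l l' h h'
  obtain ⟨e, he, heV⟩ := eig h h'
  have hV : 0 < V.det := h.2.2.2.2
  have hV' : 0 < V'.det := h'.2.2.2.2
  have hx : ∑ i, (1 : ℝ) • zr (vcol V i) ∈ cV V := ⟨fun _ => 1, fun _ => one_pos, rfl⟩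
  constructor
  · intro hc
    rw [hc] at hx
    obtain ⟨t, ht, hs⟩ := hx
    rw [coef heV] at hs
    have h1 := unique hV (c := fun _ => 1) hs
    have h2 : ∀ i, e i = 1 := by
      intro i
      have h3 := congrFun h1 i
      rcases he i with h4 | h4
      · exact h4
      · exfalso
        rw [h4] at h3
        push_cast at h3
        linarith [ht i]
    ext r i
    rw [heV i r, h2 i, one_mul]
  · intro hc
    rw [hc] at hx
    obtain ⟨y, ⟨t, ht, hs⟩, hy⟩ := hx
    have hy' : ∑ i, (1 : ℝ) • zr (vcol V i) = ∑ i, (-(t i * e i)) • zr (vcol V i) := by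
      rw [← hy, hs, coef heV]
      simp only [neg_smul, Finset.sum_neg_distrib]
    have h1 := unique hV (c := fun _ => 1) hy'
    have h2 : ∀ i, e i = -1 := by
      intro i
      have h3 := congrFun h1 i
      rcases he i with h4 | h4
      · exfalso
        rw [h4] at h3
        push_cast at h3
        linarith [ht i]
      · exact h4
    have h5 : V' = -V := by
      ext r i
      rw [heV i r, h2 i, Matrix.neg_apply]
      ring
    rw [h5, Matrix.det_neg] at hV'
    simp at hV'
    linarith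

end SAIL.F
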