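import Pool.Agent.SAIL.FAC.Targets

/-!
SAIL, part A: item ZN, the central symmetry.
-/

namespace SAIL.F

open Matrix MeasureTheory Filter SAIL SAIL.A

namespace ZNx

abbrev E3 := Fin 3 → ℝ

/-- the central symmetry -/
abbrev ng : E3 ≃ₗ[ℝ] E3 := LinearEquiv.neg ℝ

lemma img (S : Set E3) : (fun x => -x) '' S = ng '' S := rfl

lemma ng_ng (x : E3) : ng (ng x) = x := neg_neg x

lemma mem_img (S : Set E3) (x : E3) : x ∈ ng '' S ↔ -x ∈ S := by
  constructor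
  · rintro ⟨y, hy, rfl⟩
    change - (-y) ∈ S
    rwa [neg_neg]
  · intro h
    exact ⟨-x, h, neg_neg x⟩

lemma img_cl (C : Set E3) : closure (ng '' C) = ng '' closure C :=
  ((Homeomorph.neg E3).image_closure C).symm

lemma zp_neg (x : E3) : -x ∈ Zp ↔ x ∈ Zp := by
  have key : ∀ y : E3, y ∈ Zp → -y ∈ Zp := by
    rintro y ⟨z, rfl⟩
    refine ⟨-z, ?_⟩
    funext i
    simp
  constructor
  · intro h
    have h2 := key _ h
    rwa [neg_neg] at h2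
  · exact key x

lemma img_hull (C : Set E3) : hull (ng '' C) = ng '' hull C := by
  unfold hull
  have h1 := (ng : E3 →ₗ[ℝ] E3).image_convexHull {x | x ∈ closure C ∧ x ∈ Zp ∧ x ≠ 0}
  have h2 : {x | x ∈ closure (ng '' C) ∧ x ∈ Zp ∧ x ≠ 0} =
      (ng : E3 →ₗ[ℝ] E3) '' {x | x ∈ closure C ∧ x ∈ Zp ∧ x ≠ 0} := by
    ext x
    rw [img_cl]
    change (x ∈ ng '' closure C ∧ x ∈ Zp ∧ x ≠ 0) ↔
      x ∈ ng '' {x | x ∈ closure C ∧ x ∈ Zp ∧ x ≠ 0}
    rw [mem_img, mem_img]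
    change (-x ∈ closure C ∧ x ∈ Zp ∧ x ≠ 0) ↔ (-x ∈ closure C ∧ -x ∈ Zp ∧ -x ≠ 0)
    rw [zp_neg, neg_ne_zero]
  rw [h2]
  exact h1.symm

lemma exp_neg {A B : Set E3} (h : IsExposed ℝ A B) : IsExposed ℝ (ng '' A) (ng '' B) := by
  intro hne
  obtain ⟨l, hl⟩ := h (Set.image_nonempty.1 hne)
  refine ⟨-l, ?_⟩
  ext x
  rw [mem_img]
  constructor
  · intro hx
    rw [hl] at hx
    refine ⟨(mem_img A x).2 hx.1, fun y hy => ?_⟩
    have h2 := hx.2 (-y) ((mem_img A y).1 hy)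
    rw [map_neg, map_neg] at h2
    exact h2
  · rintro ⟨hx1, hx2⟩
    rw [hl]
    refine ⟨(mem_img A x).1 hx1, fun y hy => ?_⟩
    have h2 := hx2 (-y) ((mem_img A (-y)).2 (by rwa [neg_neg]))
    change -(l (-y)) ≤ -(l x) at h2
    rw [map_neg, neg_neg] at h2
    rw [map_neg]
    exact h2

end ZNx

open ZNx in
theorem p_ZN : tZN := by
  rintro C F ⟨h1, h2, h3⟩
  refine ⟨⟨?_, ?_, ?_⟩, ?_⟩
  · rw [img, img, img_hull]
    exact exp_neg h1
  · rw [Set.image_neg_eq_neg]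
    exact h2.neg
  · have e : vectorSpan ℝ ((fun x => -x) '' F) =
        (vectorSpan ℝ F).map ((ng : E3 ≃ₗ[ℝ] E3) : E3 →ₗ[ℝ] E3) :=
      (AffineMap.map_vectorSpan ((ng : E3 →ₗ[ℝ] E3).toAffineMap) (s := F)).symm
    rw [e, LinearEquiv.finrank_map_eq, h3]
  · rw [img, ← image_extremePoints]
    exact Set.ncard_image_of_injective _ ng.injective

end SAIL.F
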