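import Pool.Agent.SAIL.ARI.Main
import Pool.Agent.SAIL.FAC.P_ALL
import Pool.Agent.SAIL.FAC.P_ANSc
import Pool.Agent.SAIL.FAC.P_APM
import Pool.Agent.SAIL.FAC.P_APX
import Pool.Agent.SAIL.FAC.P_KC
import Pool.Agent.SAIL.FAC.P_LEV
import Pool.Agent.SAIL.FAC.P_LOTc
import Pool.Agent.SAIL.FAC.P_NB
import Pool.Agent.SAIL.FAC.P_NI
import Pool.Agent.SAIL.FAC.P_OUT
import Pool.Agent.SAIL.FAC.P_P1
import Pool.Agent.SAIL.FAC.P_P2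
import Pool.Agent.SAIL.FAC.P_PK
import Pool.Agent.SAIL.FAC.P_PR
import Pool.Agent.SAIL.FAC.P_Q1
import Pool.Agent.SAIL.FAC.P_Q2
import Pool.Agent.SAIL.FAC.P_QP
import Pool.Agent.SAIL.FAC.P_RD
import Pool.Agent.SAIL.FAC.P_SC
import Pool.Agent.SAIL.FAC.P_T1c
import Pool.Agent.SAIL.FAC.P_T2
import Pool.Agent.SAIL.FAC.P_THN
import Pool.Agent.SAIL.FAC.P_UPQ
import Pool.Agent.SAIL.FAC.P_WN
import Pool.Agent.SAIL.FAC.P_Y1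
import Pool.Agent.SAIL.FAC.P_Y2
import Pool.Agent.SAIL.FAC.P_Y3
import Pool.Agent.SAIL.FAC.P_Y4
import Pool.Agent.SAIL.FAC.P_Y5
import Pool.Agent.SAIL.FAC.P_Z1
import Pool.Agent.SAIL.FAC.P_ZA
import Pool.Agent.SAIL.FAC.P_ZC
import Pool.Agent.SAIL.FAC.P_ZF
import Pool.Agent.SAIL.FAC.P_ZI
import Pool.Agent.SAIL.FAC.P_ZN
import Pool.Agent.SAIL.HAQ.P_H1
import Pool.Agent.SAIL.HAQ.P_H1a
import Pool.Agent.SAIL.HAQ.P_H1b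
import Pool.Agent.SAIL.HAQ.P_H1c
import Pool.Agent.SAIL.HAQ.P_H1d
import Pool.Agent.SAIL.HAQ.P_H1e
import Pool.Agent.SAIL.HAQ.P_H2
import Pool.Agent.SAIL.HAQ.P_H2a
import Pool.Agent.SAIL.HAQ.P_H2b
import Pool.Agent.SAIL.HAQ.P_H2c
import Pool.Agent.SAIL.HAQ.P_H2n
import Pool.Agent.SAIL.HAQ.P_H3
import Pool.Agent.SAIL.HAQ.P_HC
import Pool.Agent.SAIL.HAQ.P_HK
import Pool.Agent.SAIL.HAQ.P_HQ1

/-!
SAIL, part A and the quadrangular part of H, assembled.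
-/

namespace SAIL.FACM

open SAIL SAIL.A SAIL.F SAIL.ARIM

theorem fY1 : tY1 := p_Y1
theorem fY2 : tY2 := p_Y2 fY1
theorem fY3 : tY3 := p_Y3 fY1
theorem fP1 : tP1 := p_P1
theorem fP2 : tP2 := p_P2
theorem fLEV : tLEV := p_LEV
theorem fY4 : tY4 := p_Y4 fY2 fP1 fP2 fLEV
theorem fY5 : tY5 := p_Y5 fY4
theorem fZF : tZF := p_ZF fY2
theorem fZA : tZA := p_ZA aEXI
theorem fZC : tZC := p_ZC
theorem fZI : tZI := p_ZI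
theorem fZN : tZN := p_ZN
theorem fZ1 : tZ1 := p_Z1 fZA fZC fZI fZN fZF aSPEC
theorem fPK : tPK := p_PK
theorem fNB : tNB := p_NB aADJ
theorem fNI : tNI := p_NI aADJ fNB
theorem fOUT : tOUT := p_OUT aADJ aSPEC fPK fNB fNI fY5
theorem fTHN : tTHN := p_THN fPK aGM
theorem fALL : tALL := p_ALL fTHN fOUT fNB fY5 aC8
theorem fRD : tRD := p_RD
theorem fPR : tPR := p_PR
theorem fWN : tWN := p_WN
theorem fQ1 : tQ1 := p_Q1 fRD fWN SAIL.ERGA.FIN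
theorem fQ2 : tQ2 := p_Q2 fPR fWN SAIL.ERGA.FIN
theorem fAPX : tAPX := p_APX
theorem fAPM : tAPM := p_APM
theorem fKC : tKC := p_KC
theorem fSC : tSC := p_SC SAIL.ERGA.RMUL
theorem fT1 : tT1c := p_T1c fY3 fZF
theorem fT2 : tT2 := p_T2
theorem fLOT : tLOTc := p_LOTc aEQ aC8 fT1 fT2 fAPM fSC SAIL.ERGA.FV SAIL.ERGA.PSl
theorem fUPQ : tUPQ := p_UPQ aEQ aTIGHT aC1 aC3 aC8 fY5 fOUT fTHN fALL fQ1 fQ2 fAPX fKC
  SAIL.ERGA.FV SAIL.ERGA.PSl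
theorem fQP : tQP := p_QP fY1

/-- The lattice answer, from the two volume inequalities. -/
theorem fANS {x y c : ℝ} (hx : 0 < x) (hc : 0 < c) (hxy : c * x < y) (hq : tHQ x) (ht : tHT y) :
    (∀ m k : ℕ, (Trip m k).Finite) ∧ ∃ m₀ : ℝ, ∀ m : ℕ, m₀ ≤ m →
      0 < (Trip m 4).ncard ∧ c * ((Trip m 4).ncard : ℝ) ≤ ((Trip m 3).ncard : ℝ) :=
  p_ANSc fZ1 fUPQ fLOT aLB fQP SAIL.ERGA.FDE SAIL.ERGA.FV hx hc hxy hq ht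

end SAIL.FACM
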