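import Pool.Agent.SAIL.FAC.Targets

/-!
SAIL, part A: four extreme points are a convex quadrilateral.
-/

namespace SAIL.F

open Matrix MeasureTheory Filter SAIL SAIL.A

namespace P2x

lemma pr_inj {x y : ℤ × ℤ} (h : pr x = pr y) : x = y := by
  unfold pr at h
  have h1 := congrArg Prod.fst h
  have h2 := congrArg Prod.snd h
  simp only at h1 h2
  ext
  · exact_mod_cast h1
  · exact_mod_cast h2

/-- an extreme point is not in the hull of the other points -/
lemma key {K : Set (ℝ × ℝ)} (hK : Convex ℝ K) (a : Fin 4 → ℤ × ℤ) (ha : Function.Injective a)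
    (hE : ∀ i, pr (a i) ∈ Set.extremePoints ℝ K) (l : Fin 4 → ℤ) (h0 : ∑ i, l i = 0)
    (h1 : ∑ i, l i * (a i).1 = 0) (h2 : ∑ i, l i * (a i).2 = 0) (i : Fin 4) (hi : 0 < l i)
    (hn : ∀ j, j ≠ i → l j ≤ 0) : False := by
  have hc := (hK.mem_extremePoints_iff_convex_sdiff.1 (hE i)).2
  have hpos : (0 : ℝ) < l i := by exact_mod_cast hi
  have hsum : ∑ j ∈ Finset.univ.erase i, l j = -l i := by
    have := Finset.add_sum_erase Finset.univ l (Finset.mem_univ i)
    rw [h0] at this
    linarith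
  have hsum1 : ∑ j ∈ Finset.univ.erase i, l j * (a j).1 = -(l i * (a i).1) := by
    have := Finset.add_sum_erase Finset.univ (fun j => l j * (a j).1) (Finset.mem_univ i)
    rw [h1] at this
    linarith
  have hsum2 : ∑ j ∈ Finset.univ.erase i, l j * (a j).2 = -(l i * (a i).2) := by
    have := Finset.add_sum_erase Finset.univ (fun j => l j * (a j).2) (Finset.mem_univ i)
    rw [h2] at this
    linarith
  have hmem := hc.sum_mem (t := Finset.univ.erase i) (w := fun j => -(l j : ℝ) / l i)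
    (z := fun j => pr (a j)) ?_ ?_ ?_
  · apply hmem.2
    rw [Set.mem_singleton_iff]
    have e1 : ∑ j ∈ Finset.univ.erase i, (l j : ℝ) * (a j).1 = -(l i * (a i).1) := by
      exact_mod_cast hsum1
    have e2 : ∑ j ∈ Finset.univ.erase i, (l j : ℝ) * (a j).2 = -(l i * (a i).2) := by
      exact_mod_cast hsum2
    ext
    · rw [Prod.fst_sum]
      simp only [pr, Prod.smul_mk, smul_eq_mul]
      have e3 : ∀ j, -(l j : ℝ) / l i * (a j).1 = -(1 / (l i : ℝ)) * (l j * (a j).1) := by
        intro j; ring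
      rw [Finset.sum_congr rfl fun j _ => e3 j, ← Finset.mul_sum, e1]
      field_simp
    · rw [Prod.snd_sum]
      simp only [pr, Prod.smul_mk, smul_eq_mul]
      have e3 : ∀ j, -(l j : ℝ) / l i * (a j).2 = -(1 / (l i : ℝ)) * (l j * (a j).2) := by
        intro j; ring
      rw [Finset.sum_congr rfl fun j _ => e3 j, ← Finset.mul_sum, e2]
      field_simp
  · intro j hj
    have hj' : (l j : ℝ) ≤ 0 := by exact_mod_cast hn j (Finset.ne_of_mem_erase hj)
    exact div_nonneg (by linarith) hpos.le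
  · have e0 : ∑ j ∈ Finset.univ.erase i, (l j : ℝ) = -(l i : ℝ) := by exact_mod_cast hsum
    rw [← Finset.sum_div, Finset.sum_neg_distrib, e0]
    field_simp
  · intro j hj
    refine ⟨extremePoints_subset (hE j), ?_⟩
    intro h
    rw [Set.mem_singleton_iff] at h
    exact Finset.ne_of_mem_erase hj (ha (pr_inj h))

lemma half {p q r s : ℤ} (h0 : p + q + r + s = 0) (hp : 0 < p)
    (k : 0 < q ∨ 0 < r ∨ 0 < s) (m2 : q < 0 → p < 0 ∨ r < 0 ∨ s < 0)
    (m3 : r < 0 → p < 0 ∨ q < 0 ∨ s < 0) (m4 : s < 0 → p < 0 ∨ q < 0 ∨ r < 0) :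
    (0 < q ∧ r < 0 ∧ s < 0) ∨ (0 < r ∧ q < 0 ∧ s < 0) ∨ (0 < s ∧ q < 0 ∧ r < 0) := by
  rcases k with h | h | h
  · left
    rcases lt_or_ge r 0 with g | g
    · rcases m3 g with g' | g' | g'
      · exact absurd hp (not_lt.2 g'.le)
      · exact absurd h (not_lt.2 g'.le)
      · exact ⟨h, g, g'⟩
    · have g1 : s < 0 := by linarith
      rcases m4 g1 with g' | g' | g'
      · exact absurd hp (not_lt.2 g'.le)
      · exact absurd h (not_lt.2 g'.le)
      · exact absurd g' (not_lt.2 g)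
  · right; left
    rcases lt_or_ge q 0 with g | g
    · rcases m2 g with g' | g' | g'
      · exact absurd hp (not_lt.2 g'.le)
      · exact absurd h (not_lt.2 g'.le)
      · exact ⟨h, g, g'⟩
    · have g1 : s < 0 := by linarith
      rcases m4 g1 with g' | g' | g'
      · exact absurd hp (not_lt.2 g'.le)
      · exact absurd g' (not_lt.2 g)
      · exact absurd h (not_lt.2 g'.le)
  · right; right
    rcases lt_or_ge q 0 with g | g
    · rcases m2 g with g' | g' | g'
      · exact absurd hp (not_lt.2 g'.le)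
      · exact ⟨h, g, g'⟩
      · exact absurd h (not_lt.2 g'.le)
    · have g1 : r < 0 := by linarith
      rcases m3 g1 with g' | g' | g'
      · exact absurd hp (not_lt.2 g'.le)
      · exact absurd g' (not_lt.2 g)
      · exact absurd h (not_lt.2 g'.le)

section four

variable {K : Set (ℝ × ℝ)} (hK : Convex ℝ K) (a : Fin 4 → ℤ × ℤ) (ha : Function.Injective a)
    (hE : ∀ i, pr (a i) ∈ Set.extremePoints ℝ K)

include hK ha hE

/-- the signs of an affine relation -/
lemma key8 {p q r s : ℤ} (h0 : p + q + r + s = 0)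
    (h1 : p * (a 0).1 + q * (a 1).1 + r * (a 2).1 + s * (a 3).1 = 0)
    (h2 : p * (a 0).2 + q * (a 1).2 + r * (a 2).2 + s * (a 3).2 = 0) :
    (0 < p → 0 < q ∨ 0 < r ∨ 0 < s) ∧ (0 < q → 0 < p ∨ 0 < r ∨ 0 < s) ∧
    (0 < r → 0 < p ∨ 0 < q ∨ 0 < s) ∧ (0 < s → 0 < p ∨ 0 < q ∨ 0 < r) := by
  have hk := key hK a ha hE ![p, q, r, s]
    (by simp only [Fin.sum_univ_four]; simpa using h0)
    (by simp only [Fin.sum_univ_four]; simpa using h1)
    (by simp only [Fin.sum_univ_four]; simpa using h2)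
  refine ⟨?_, ?_, ?_, ?_⟩
  · intro k1
    by_contra k4
    push Not at k4
    obtain ⟨k2, k3, k4⟩ := k4
    refine hk 0 k1 fun j hj => ?_
    fin_cases j
    · exact absurd rfl hj
    · exact k2
    · exact k3
    · exact k4
  · intro k1
    by_contra k4
    push Not at k4
    obtain ⟨k2, k3, k4⟩ := k4
    refine hk 1 k1 fun j hj => ?_
    fin_cases j
    · exact k2
    · exact absurd rfl hj
    · exact k3
    · exact k4
  · intro k1
    by_contra k4
    push Not at k4
    obtain ⟨k2, k3, k4⟩ := k4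
    refine hk 2 k1 fun j hj => ?_
    fin_cases j
    · exact k2
    · exact k3
    · exact absurd rfl hj
    · exact k4
  · intro k1
    by_contra k4
    push Not at k4
    obtain ⟨k2, k3, k4⟩ := k4
    refine hk 3 k1 fun j hj => ?_
    fin_cases j
    · exact k2
    · exact k3
    · exact k4
    · exact absurd rfl hj

/-- the positive case -/
lemma keyp {p q r s : ℤ} (h0 : p + q + r + s = 0)
    (h1 : p * (a 0).1 + q * (a 1).1 + r * (a 2).1 + s * (a 3).1 = 0)
    (h2 : p * (a 0).2 + q * (a 1).2 + r * (a 2).2 + s * (a 3).2 = 0) (hp : 0 < p) :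
    (0 < q ∧ r < 0 ∧ s < 0) ∨ (0 < r ∧ q < 0 ∧ s < 0) ∨ (0 < s ∧ q < 0 ∧ r < 0) := by
  obtain ⟨k1, -, -, -⟩ := key8 hK a ha hE h0 h1 h2
  obtain ⟨-, m2, m3, m4⟩ := key8 hK a ha hE (p := -p) (q := -q) (r := -r) (s := -s)
    (by linarith) (by linarith) (by linarith)
  simp only [Left.neg_pos_iff] at m2 m3 m4
  exact half h0 hp (k1 hp) m2 m3 m4

/-- three distinct extreme points are not on a line -/
lemma noncol : ori (a 0) (a 1) (a 2) ≠ 0 := by
  intro h
  unfold ori at h
  -- an affine relation with vanishing last coefficient is trivial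
  have tri : ∀ p q r : ℤ, p + q + r = 0 → p * (a 0).1 + q * (a 1).1 + r * (a 2).1 = 0 →
      p * (a 0).2 + q * (a 1).2 + r * (a 2).2 = 0 → p = 0 := by
    intro p q r e0 e1 e2
    rcases lt_trichotomy p 0 with hp | hp | hp
    · have := keyp hK a ha hE (p := -p) (q := -q) (r := -r) (s := 0) (by linarith)
        (by linarith) (by linarith) (by linarith)
      rcases this with ⟨-, -, g⟩ | ⟨-, -, g⟩ | ⟨g, -, -⟩
      · exact absurd g (lt_irrefl 0)
      · exact absurd g (lt_irrefl 0)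
      · exact absurd g (lt_irrefl 0)
    · exact hp
    · have := keyp hK a ha hE (p := p) (q := q) (r := r) (s := 0) (by linarith)
        (by linarith) (by linarith) hp
      rcases this with ⟨-, -, g⟩ | ⟨-, -, g⟩ | ⟨g, -, -⟩
      · exact absurd g (lt_irrefl 0)
      · exact absurd g (lt_irrefl 0)
      · exact absurd g (lt_irrefl 0)
  have hx := tri ((a 1).1 - (a 2).1) ((a 2).1 - (a 0).1) ((a 0).1 - (a 1).1)
    (by ring) (by ring) (by linarith)
  have hy := tri ((a 1).2 - (a 2).2) ((a 2).2 - (a 0).2) ((a 0).2 - (a 1).2)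
    (by ring) (by linarith) (by ring)
  have h3 : a 1 = a 2 := Prod.ext (by linarith) (by linarith)
  exact absurd (ha h3) (by decide)

end four

end P2x

open P2x in
theorem p_P2 : tP2 := by
  intro S hS
  set K := convexHull ℝ (pr '' S) with hKdef
  have hK : Convex ℝ K := convex_convexHull ℝ _
  have hfin : (Set.extremePoints ℝ K).Finite := by
    by_contra hcon
    rw [Set.Infinite.ncard hcon] at hS
    exact absurd hS (by norm_num)
  have hcard : 4 ≤ hfin.toFinset.card := by
    rw [← Set.ncard_eq_toFinset_card _ hfin]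
    exact hS
  let f : Fin 4 → ℝ × ℝ := fun i => (hfin.toFinset.equivFin.symm (Fin.castLE hcard i) : ℝ × ℝ)
  have hf : Function.Injective f := by
    intro i j hij
    have h1 := Subtype.ext (hij : (hfin.toFinset.equivFin.symm (Fin.castLE hcard i) : ℝ × ℝ) =
      hfin.toFinset.equivFin.symm (Fin.castLE hcard j))
    exact Fin.castLE_injective hcard (hfin.toFinset.equivFin.symm.injective h1)
  have hfE : ∀ i, f i ∈ Set.extremePoints ℝ K := fun i =>
    hfin.mem_toFinset.1 (hfin.toFinset.equivFin.symm (Fin.castLE hcard i)).2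
  have hex : ∀ i, ∃ x, x ∈ S ∧ pr x = f i := by
    intro i
    have h1 : f i ∈ pr '' S := extremePoints_convexHull_subset (hfE i)
    exact h1
  choose a haS hpa using hex
  have ha : Function.Injective a := by
    intro i j hij
    apply hf
    rw [← hpa, ← hpa, hij]
  have hE : ∀ i, pr (a i) ∈ Set.extremePoints ℝ K := fun i => by rw [hpa]; exact hfE i
  have o4 : ori (a 1) (a 2) (a 3) ≠ 0 := by
    have h1 := noncol hK (a ∘ ![1, 2, 3, 0]) (ha.comp (by decide)) fun i => hE _
    exact h1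
  have s0 := haS 0
  have s1 := haS 1
  have s2 := haS 2
  have s3 := haS 3
  rcases lt_or_gt_of_ne o4 with h | h
  · have hrel := keyp hK a ha hE (p := -ori (a 1) (a 2) (a 3)) (q := ori (a 0) (a 2) (a 3))
      (r := -ori (a 0) (a 1) (a 3)) (s := ori (a 0) (a 1) (a 2)) (by unfold ori; ring)
      (by unfold ori; ring) (by unfold ori; ring) (by linarith)
    rcases hrel with ⟨g1, g2, g3⟩ | ⟨g1, g2, g3⟩ | ⟨g1, g2, g3⟩
    · refine ⟨a 0, a 2, a 1, a 3, s0, s2, s1, s3, ?_, ?_, ?_, ?_⟩ <;>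
        (unfold ori at h g1 g2 g3 ⊢; linarith)
    · refine ⟨a 3, a 2, a 1, a 0, s3, s2, s1, s0, ?_, ?_, ?_, ?_⟩ <;>
        (unfold ori at h g1 g2 g3 ⊢; linarith)
    · refine ⟨a 0, a 1, a 3, a 2, s0, s1, s3, s2, ?_, ?_, ?_, ?_⟩ <;>
        (unfold ori at h g1 g2 g3 ⊢; linarith)
  · have hrel := keyp hK a ha hE (p := ori (a 1) (a 2) (a 3)) (q := -ori (a 0) (a 2) (a 3))
      (r := ori (a 0) (a 1) (a 3)) (s := -ori (a 0) (a 1) (a 2)) (by unfold ori; ring)
      (by unfold ori; ring) (by unfold ori; ring) h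
    rcases hrel with ⟨g1, g2, g3⟩ | ⟨g1, g2, g3⟩ | ⟨g1, g2, g3⟩
    · refine ⟨a 0, a 3, a 1, a 2, s0, s3, s1, s2, ?_, ?_, ?_, ?_⟩ <;>
        (unfold ori at h g1 g2 g3 ⊢; linarith)
    · refine ⟨a 0, a 1, a 2, a 3, s0, s1, s2, s3, ?_, ?_, ?_, ?_⟩ <;>
        (unfold ori at h g1 g2 g3 ⊢; linarith)
    · refine ⟨a 0, a 2, a 3, a 1, s0, s2, s3, s1, ?_, ?_, ?_, ?_⟩ <;>
        (unfold ori at h g1 g2 g3 ⊢; linarith)

end SAIL.F
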