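import Pool.Agent.SAIL.FAC.Targets

/-!
SAIL, part A: target tY1 (closure of the cone, integer points).
-/

namespace SAIL.F

open Matrix MeasureTheory Filter SAIL SAIL.A

namespace Y1x

lemma det_toR (V : IM) : (toR V).det = (V.det : ℝ) := by
  have h := RingHom.map_det (Int.castRingHom ℝ) V
  rw [eq_intCast] at h
  rw [h]
  rfl

lemma adj_toR (V : IM) : (toR V).adjugate = toR V.adjugate := by
  have h := RingHom.map_adjugate (Int.castRingHom ℝ) V
  exact h.symm

lemma unit_toR {V : IM} (hV : 0 < V.det) : IsUnit (toR V).det := by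
  rw [det_toR, isUnit_iff_ne_zero]
  exact_mod_cast hV.ne'

lemma toR_mulVec_zr (A : IM) (z : Fin 3 → ℤ) : toR A *ᵥ zr z = zr (A *ᵥ z) := by
  funext i
  simp only [Matrix.mulVec, dotProduct, toR, zr, Matrix.map_apply]
  push_cast
  rfl

/-- the coordinates of an integer point -/
lemma inv_mulVec_zr (V : IM) (z : Fin 3 → ℤ) (i : Fin 3) :
    ((toR V)⁻¹ *ᵥ zr z) i = ((V.adjugate *ᵥ z) i : ℝ) / V.det := by
  rw [Matrix.inv_def, Matrix.smul_mulVec, adj_toR, toR_mulVec_zr, det_toR, Ring.inverse_eq_inv']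
  simp only [Pi.smul_apply, zr, smul_eq_mul]
  rw [inv_mul_eq_div]

/-- a combination of the columns -/
lemma sum_cols (V : IM) (t : Fin 3 → ℝ) : ∑ i, t i • zr (vcol V i) = toR V *ᵥ t := by
  funext r
  simp only [Matrix.mulVec, dotProduct, toR, zr, vcol, Matrix.map_apply, Finset.sum_apply,
    Pi.smul_apply, smul_eq_mul]
  refine Finset.sum_congr rfl (fun i _ => ?_)
  ring

lemma mul_inv_vec {V : IM} (hV : 0 < V.det) (x : Fin 3 → ℝ) :
    toR V *ᵥ ((toR V)⁻¹ *ᵥ x) = x := by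
  rw [Matrix.mulVec_mulVec, Matrix.mul_nonsing_inv _ (unit_toR hV), Matrix.one_mulVec]

lemma inv_mul_vec {V : IM} (hV : 0 < V.det) (x : Fin 3 → ℝ) :
    (toR V)⁻¹ *ᵥ (toR V *ᵥ x) = x := by
  rw [Matrix.mulVec_mulVec, Matrix.nonsing_inv_mul _ (unit_toR hV), Matrix.one_mulVec]

lemma cV_eq {V : IM} (hV : 0 < V.det) : cV V = {x | ∀ i, 0 < ((toR V)⁻¹ *ᵥ x) i} := by
  ext x
  constructor
  · rintro ⟨t, ht, rfl⟩
    intro i
    rw [sum_cols, inv_mul_vec hV]
    exact ht i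
  · intro hx
    refine ⟨(toR V)⁻¹ *ᵥ x, hx, ?_⟩
    rw [sum_cols, mul_inv_vec hV]

lemma closure_cV {V : IM} (hV : 0 < V.det) :
    closure (cV V) = {x | ∀ i, 0 ≤ ((toR V)⁻¹ *ᵥ x) i} := by
  apply Set.Subset.antisymm
  · apply closure_minimal
    · rw [cV_eq hV]
      intro x hx i
      exact (hx i).le
    · have h1 : {x : Fin 3 → ℝ | ∀ i, 0 ≤ ((toR V)⁻¹ *ᵥ x) i} =
          ⋂ i, {x | 0 ≤ ((toR V)⁻¹ *ᵥ x) i} := by
        ext x
        simp
      rw [h1]
      refine isClosed_iInter (fun i => isClosed_le continuous_const ?_)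
      exact (continuous_apply i).comp (Continuous.matrix_mulVec continuous_const continuous_id)
  · intro x hx
    have h2 : Tendsto (fun s : ℝ => x + s • (toR V *ᵥ fun _ => (1 : ℝ))) (nhdsWithin 0 (Set.Ioi 0))
        (nhds x) := by
      have h3 : Tendsto (fun s : ℝ => x + s • (toR V *ᵥ fun _ => (1 : ℝ))) (nhds 0) (nhds x) := by
        have h4 : Continuous (fun s : ℝ => x + s • (toR V *ᵥ fun _ => (1 : ℝ))) := by fun_prop
        have h5 := h4.tendsto 0
        simpa using h5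
      exact h3.mono_left nhdsWithin_le_nhds
    refine mem_closure_of_tendsto h2 ?_
    filter_upwards [self_mem_nhdsWithin] with s hs
    have hs' : (0 : ℝ) < s := hs
    rw [cV_eq hV]
    intro i
    rw [Matrix.mulVec_add, Matrix.mulVec_smul, inv_mul_vec hV]
    have h6 := hx i
    simp only [Pi.add_apply, Pi.smul_apply, smul_eq_mul, mul_one]
    linarith

lemma zr_inj : Function.Injective zr := by
  intro a b h
  funext i
  have h1 := congrFun h i
  simp only [zr] at h1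
  exact_mod_cast h1

lemma zr_zero : zr 0 = 0 := by
  funext i
  simp [zr]

lemma zr_add (a b : Fin 3 → ℤ) : zr (a + b) = zr a + zr b := by
  funext i
  simp [zr]

lemma mem_Lp {V : IM} (hV : 0 < V.det) (z : Fin 3 → ℤ) :
    z ∈ Lp V ↔ z ≠ 0 ∧ ∀ i, 0 ≤ ((toR V)⁻¹ *ᵥ zr z) i := by
  have hd : (0 : ℝ) < V.det := by exact_mod_cast hV
  unfold Lp
  simp only [Set.mem_ofPred_eq, inv_mulVec_zr]
  refine and_congr_right (fun _ => forall_congr' (fun i => ?_))
  constructor
  · intro h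
    have h1 : (0 : ℝ) ≤ ((V.adjugate *ᵥ z) i : ℝ) := by exact_mod_cast h
    exact div_nonneg h1 hd.le
  · intro h
    have h1 : (0 : ℝ) ≤ ((V.adjugate *ᵥ z) i : ℝ) := by
      by_contra hc
      push Not at hc
      exact absurd h (not_le.2 (div_neg_of_neg_of_pos hc hd))
    exact_mod_cast h1

end Y1x

theorem p_Y1 : tY1 := by
  intro V hV
  refine ⟨Y1x.closure_cV hV, ?_⟩
  ext x
  constructor
  · rintro ⟨h1, ⟨z, rfl⟩, h3⟩
    refine ⟨z, ?_, rfl⟩
    rw [Y1x.mem_Lp hV]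
    refine ⟨?_, ?_⟩
    · rintro rfl
      exact h3 (by funext i; simp)
    · rw [Y1x.closure_cV hV] at h1
      exact h1
  · rintro ⟨z, hz, rfl⟩
    rw [Y1x.mem_Lp hV] at hz
    refine ⟨?_, ⟨z, rfl⟩, ?_⟩
    · rw [Y1x.closure_cV hV]
      exact hz.2
    · intro h
      exact hz.1 (Y1x.zr_inj (h.trans Y1x.zr_zero.symm))

end SAIL.F
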