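import Pool.Agent.SAIL.FAC.Def

/-!
SAIL, part A: targets. Index arithmetic `i+1`, `i+2` is cyclic in `Fin 3`.
-/

namespace SAIL.F

open Matrix MeasureTheory Filter SAIL SAIL.A

/-! ## Z: reduction of `Trip` to sums over `PPf` -/

def tZA : Prop := ∀ (m : ℕ) (A : IM), A ∈ A3 m ↔ nrm A ≤ m ∧ ∃ V l, Eig A V l

def tZC : Prop := ∀ A V l, Eig A V l → ∀ C, ACone A C ↔
  ∃ V', (∃ l', Eig A V' l') ∧ (C = cV V' ∨ C = (fun x => -x) '' cV V')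

def tZI : Prop := ∀ A V V' l l', Eig A V l → Eig A V' l' →
  (cV V = cV V' → V = V') ∧ cV V ≠ (fun x => -x) '' cV V'

def tZN : Prop := ∀ C F : Set (Fin 3 → ℝ), BFace C F →
  BFace ((fun x => -x) '' C) ((fun x => -x) '' F) ∧
  (Set.extremePoints ℝ ((fun x => -x) '' F)).ncard = (Set.extremePoints ℝ F).ncard

def tZF : Prop := ∀ V : IM, 0 < V.det → {F | BFace (cV V) F}.Finite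

def tZ1 : Prop := ∀ m k : ℕ, (Trip m k).Finite ∧
  (Trip m k).ncard = 2 * ∑ P ∈ PPf m, (fc k P.2).ncard

/-! ## Y: structure of faces -/

def tY1 : Prop := ∀ V : IM, 0 < V.det →
  closure (cV V) = {x | ∀ i, 0 ≤ ((toR V)⁻¹ *ᵥ x) i} ∧
  {x | x ∈ closure (cV V) ∧ x ∈ Zp ∧ x ≠ 0} = zr '' Lp V

def tY2 : Prop := ∀ V : IM, 0 < V.det → ∀ F, BFace (cV V) F → ∃ ν : Fin 3 → ℝ,
  (∀ i, 0 < ν ⬝ᵥ zr (vcol V i)) ∧ (∀ z ∈ Lp V, 1 ≤ ν ⬝ᵥ zr z) ∧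
  F = convexHull ℝ (zr '' {z | z ∈ Lp V ∧ ν ⬝ᵥ zr z = 1}) ∧
  ∃ W : IM, W.det ≠ 0 ∧ ∀ j, vcol W j ∈ Lp V ∧ ν ⬝ᵥ zr (vcol W j) = 1

def tY3 : Prop := ∀ V W : IM, 0 < V.det → FT V W →
  BFace (cV V) (convexHull ℝ (Set.range fun j => zr (vcol W j))) ∧
  Set.extremePoints ℝ (convexHull ℝ (Set.range fun j => zr (vcol W j))) =
    Set.range (fun j => zr (vcol W j)) ∧
  (Set.range fun j => zr (vcol W j)).ncard = 3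

/-- Orientation of a lattice triangle in the plane. -/
def ori (a b c : ℤ × ℤ) : ℤ := (b.1 - a.1) * (c.2 - a.2) - (b.2 - a.2) * (c.1 - a.1)

/-- An integer point of the plane as a real point. -/
def pr (a : ℤ × ℤ) : ℝ × ℝ := ((a.1 : ℝ), (a.2 : ℝ))

def tP1 : Prop := ∀ K : Set (ℝ × ℝ), Convex ℝ K → ∀ a b c d : ℤ × ℤ,
  pr a ∈ K → pr b ∈ K → pr c ∈ K → pr d ∈ K →
  0 < ori a b c → 0 < ori b c d → 0 < ori c d a → 0 < ori d a b →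
  ∃ p u v : ℤ × ℤ, u.1 * v.2 - u.2 * v.1 = 1 ∧ pr p ∈ K ∧ pr (p + u) ∈ K ∧ pr (p + v) ∈ K ∧
    (pr (p + u + v) ∈ K ∨ (pr (p - u) ∈ K ∧ pr (p - v) ∈ K))

def tP2 : Prop := ∀ S : Set (ℤ × ℤ), 4 ≤ (Set.extremePoints ℝ (convexHull ℝ (pr '' S))).ncard →
  ∃ a b c d, a ∈ S ∧ b ∈ S ∧ c ∈ S ∧ d ∈ S ∧
    0 < ori a b c ∧ 0 < ori b c d ∧ 0 < ori c d a ∧ 0 < ori d a b

def tLEV : Prop := ∀ V : IM, 0 < V.det → ∀ (n : Fin 3 → ℤ) (h : ℤ), prim n → 1 ≤ h →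
  (∀ i, 0 < n ⬝ᵥ vcol V i) → (∀ z ∈ Lp V, h ≤ n ⬝ᵥ z) →
  ∀ p u v : Fin 3 → ℤ, n ⬝ᵥ p = h → crossProduct u v = n →
  p ∈ Lp V → p + u ∈ Lp V → p + v ∈ Lp V →
  (p + u + v ∈ Lp V ∨ (p - u ∈ Lp V ∧ p - v ∈ Lp V)) → h = 1 ∧ n ∈ Nn V

def tY4 : Prop := ∀ V : IM, 0 < V.det → ∀ F ∈ fc 4 V, ∃ n ∈ Nn V,
  F = convexHull ℝ (zr '' {z | z ∈ Lp V ∧ n ⬝ᵥ z = 1})

def tY5 : Prop := ∀ V : IM, 0 < V.det → (Nn V).Finite ∧ (fc 4 V).ncard ≤ (Nn V).ncard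

/-! ## N: counting covectors -/

def tPK : Prop := ∀ V : IM, 0 < V.det → ∀ n ∈ Nn V, ∀ n' ∈ Nn V, n ≠ n' →
  ∃ i, 2 * nv V n i ≤ nv V n' i

def tNB : Prop := ∀ V : IM, 0 < V.det → (∀ i, prim (vcol V i)) → ∀ n ∈ Nn V,
  (∀ i, 1 ≤ nv V n i ∧ (cn V i : ℤ) * nv V n i ≤ V.det) ∧
  nv V n 0 * nv V n 1 * nv V n 2 ≤ V.det

def tNI : Prop := ∀ V : IM, 0 < V.det → (∀ i, prim (vcol V i)) → ∀ n ∈ Nn V, ¬ Ins V n →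
  (∃ i, nv V n i < 8) ∨ ∃ i : Fin 3, nv V n (i + 1) * nv V n (i + 2) < 21 * (cn V i : ℤ)

def tOUT : Prop := ∃ C : ℝ, 0 < C ∧ ∀ m : ℕ, 2 ≤ m → ∀ P ∈ PPf m,
  ({n | n ∈ Nn P.2 ∧ ¬ Ins P.2 n}.ncard : ℝ) ≤ C * Real.log m

def tTHN : Prop := ∀ V : IM, 0 < V.det → (∀ i, prim (vcol V i)) → ∀ δ : ℝ, 0 < δ →
  ∀ S : Finset (Fin 3 → ℤ), (∀ n ∈ S, n ∈ Nn V ∧ Ins V n ∧ dn V n < δ) →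
  (S.card : ENNReal) ≤ 16 * volume {y | y ∈ Hex V ∧ ¬ Thick (5 * δ) (gmat V y)}

def tALL : Prop := ∃ C : ℝ, 0 < C ∧ ∀ m : ℕ, 2 ≤ m → ∀ P ∈ PPf m,
  ((Nn P.2).ncard : ℝ) ≤ C * Real.log m ^ 2

def tRD : Prop := ∀ V : IM, 0 < V.det → ∀ n ∈ Nn V, ∃ γ : GZ, n ᵥ* γ.1 = ![1, 0, 0] ∧
  Rdc ((toR V)⁻¹ * ic γ)

def tPR : Prop := ∀ V : IM, 0 < V.det → ∀ n ∈ Nn V, ∃ S : Finset GZ, S.card = 4 ∧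
  ∀ γ ∈ S, n ᵥ* γ.1 = ![1, 0, 0] ∧ ∀ i, 0 ≤ BB ((toR V)⁻¹ * ic γ) i 0 ∧
    0 ≤ BB ((toR V)⁻¹ * ic γ) i 0 + BB ((toR V)⁻¹ * ic γ) i 1 ∧
    0 ≤ BB ((toR V)⁻¹ * ic γ) i 0 + BB ((toR V)⁻¹ * ic γ) i 2 ∧
    0 ≤ BB ((toR V)⁻¹ * ic γ) i 0 + BB ((toR V)⁻¹ * ic γ) i 1 + BB ((toR V)⁻¹ * ic γ) i 2

def tWN : Prop := ∀ V : IM, 0 < V.det → ∀ n ∈ Nn V, ∀ γ : GZ, n ᵥ* γ.1 = ![1, 0, 0] →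
  (∀ i, nn ((toR V)⁻¹ * ic γ) i = nv V n i) ∧ dl ((toR V)⁻¹ * ic γ) = dn V n ∧
  ∀ s t : ℝ, 0 ≤ s → s ≤ 1 → 0 ≤ t → t ≤ 1 →
    WdQ (gmat V (yn V n + (s, t)) * ic γ) ∧ dl (gmat V (yn V n + (s, t)) * ic γ) = dn V n ∧
    BB (gmat V (yn V n + (s, t)) * ic γ) = BB ((toR V)⁻¹ * ic γ)

def tQ1 : Prop := ∀ V : IM, 0 < V.det → ∀ a b : ℝ, 0 < a → ∀ (R : ℝ) (ψ : M3 → ℝ), CSF R ψ →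
  (∀ M, 0 ≤ ψ M) → (∀ M ∈ K1 a b, 1 ≤ ψ M) → ∀ S : Finset (Fin 3 → ℤ),
  (∀ n ∈ S, n ∈ Nn V ∧ Ins V n ∧ a ≤ dn V n ∧ dn V n ≤ b) →
  (S.card : ENNReal) ≤ ∫⁻ y in Hex V, ENNReal.ofReal (PS ψ (gmat V y))

def tQ2 : Prop := ∀ V : IM, 0 < V.det → ∀ a : ℝ, 0 < a → ∀ (R : ℝ) (ψ : M3 → ℝ), CSF R ψ →
  (∀ M, 0 ≤ ψ M) → (∀ M ∈ K2 a, 1 ≤ ψ M) → ∀ S : Finset (Fin 3 → ℤ),
  (∀ n ∈ S, n ∈ Nn V ∧ Ins V n ∧ a ≤ dn V n) →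
  4 * (S.card : ENNReal) ≤ ∫⁻ y in Hex V, ENNReal.ofReal (PS ψ (gmat V y))

/-! ## T: counting triangles from below -/

def tT1 : Prop := ∀ (N : ℕ) (E : Fin N → IM) (U : Fin N → Set M3), (∀ i, Fam (E i) (U i)) →
  (∀ i j, i ≠ j → ∀ γ : GZ, γ.1 * E i ≠ E j) → ∀ V : IM, 0 < V.det →
  (∀ i, {γ : GZ | (toR V)⁻¹ * toR (γ.1 * E i) ∈ U i}.Finite) ∧
  ∑ i, {γ : GZ | (toR V)⁻¹ * toR (γ.1 * E i) ∈ U i}.ncard ≤ 3 * (fc 3 V).ncard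

def tT2 : Prop := ∀ (E : IM) (U : Set M3), Fam E U → ∀ (R : ℝ) (ψ : M3 → ℝ), CSF R ψ →
  (∀ M, 0 ≤ ψ M ∧ ψ M ≤ 1) → (∀ M, ψ M ≠ 0 → M * toR E ∈ U ∧ WdT (M * toR E)) →
  ∀ V : IM, 0 < V.det → {γ : GZ | (toR V)⁻¹ * toR (γ.1 * E) ∈ U}.Finite →
  ∫⁻ y in Hex V, ENNReal.ofReal (PS ψ (gmat V y)) ≤
    ({γ : GZ | (toR V)⁻¹ * toR (γ.1 * E) ∈ U}.ncard : ENNReal)

/-! ## X: approximation and volumes -/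

def tAPM : Prop := ∀ O : Set M3, IsOpen O → O ⊆ Om → (∀ t : ℝ, 0 < t → ∀ M ∈ O, t • M ∈ O) →
  ∀ c : ℝ, 0 ≤ c → ENNReal.ofReal c < volume (O ∩ Co) →
  ∃ (R : ℝ) (ψ : M3 → ℝ), CSF R ψ ∧ (∀ M, 0 ≤ ψ M ∧ ψ M ≤ 1) ∧ (∀ M, ψ M ≠ 0 → M ∈ O) ∧
    c ≤ ∫ M in Co, ψ M

def tAPX : Prop := ∀ (K : Set M3) (R : ℝ), K ⊆ KK R → (∀ t : ℝ, 0 < t → ∀ M ∈ K, t • M ∈ K) →
  IsClosed {M | M ∈ K ∧ M.det = 1} → ∀ c : ℝ, volume (K ∩ Co) < ENNReal.ofReal c →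
  ∃ (R' : ℝ) (ψ : M3 → ℝ), CSF R' ψ ∧ (∀ M, 0 ≤ ψ M ∧ ψ M ≤ 1) ∧ (∀ M ∈ K, ψ M = 1) ∧
    ∫ M in Co, ψ M ≤ c

def tKC : Prop := ∀ a b : ℝ, 0 < a →
  ((∃ R, K1 a b ⊆ KK R) ∧ (∀ t : ℝ, 0 < t → ∀ M ∈ K1 a b, t • M ∈ K1 a b) ∧
    IsClosed {M | M ∈ K1 a b ∧ M.det = 1}) ∧
  ((∃ R, K2 a ⊆ KK R) ∧ (∀ t : ℝ, 0 < t → ∀ M ∈ K2 a, t • M ∈ K2 a) ∧
    IsClosed {M | M ∈ K2 a ∧ M.det = 1})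

def tSC : Prop := ∀ (E : IM) (U : Set M3), Fam E U →
  volume ({M | M * toR E ∈ U ∧ WdT (M * toR E)} ∩ Co) = vU U ∧
  IsOpen {M | M * toR E ∈ U ∧ WdT (M * toR E)} ∧
  {M | M * toR E ∈ U ∧ WdT (M * toR E)} ⊆ Om ∧
  ∀ t : ℝ, 0 < t → ∀ M, (M * toR E ∈ U ∧ WdT (M * toR E)) →
    ((t • M) * toR E ∈ U ∧ WdT ((t • M) * toR E))

/-- Part H: the inequality of volumes. -/
def tHAAR : Prop := ∃ (N : ℕ) (E : Fin N → IM) (U : Fin N → Set M3) (b xT xQ : ℝ),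
  (∀ i, Fam (E i) (U i)) ∧ (∀ i j, i ≠ j → ∀ γ : GZ, γ.1 * E i ≠ E j) ∧
  0 < b ∧ 0 < xQ ∧ xQ < xT ∧ ENNReal.ofReal (3 * xT) < ∑ i, vU (U i) ∧
  ∀ a : ℝ, 0 < a → volume (K1 a b ∩ Co) + volume (K2 b ∩ Co) / 4 < ENNReal.ofReal xQ

/-! ## F: assembly -/

/-- Upper bound for quadrangles. -/
def tUPQ : Prop := ∀ s : Set M3, FD s → ∀ b xQ : ℝ, 0 < b → 0 < xQ →
  (∀ a : ℝ, 0 < a → volume (K1 a b ∩ Co) + volume (K2 b ∩ Co) / 4 < ENNReal.ofReal xQ) →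
  ∀ ε : ℝ, 0 < ε → ∃ m₀ : ℝ, ∀ m : ℕ, m₀ ≤ m →
  ((∑ P ∈ PPf m, (fc 4 P.2).ncard : ℕ) : ℝ) ≤
    xQ / (volume s).toReal * ∑ P ∈ PPf m, (volume (Hex P.2)).toReal +
      ε * (m : ℝ) ^ 6 * Real.log m ^ 4

/-- Lower bound for triangles. -/
def tLOT : Prop := ∀ s : Set M3, FD s → ∀ (N : ℕ) (E : Fin N → IM) (U : Fin N → Set M3) (xT : ℝ),
  (∀ i, Fam (E i) (U i)) → (∀ i j, i ≠ j → ∀ γ : GZ, γ.1 * E i ≠ E j) → 0 < xT →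
  ENNReal.ofReal (3 * xT) < ∑ i, vU (U i) →
  ∀ ε : ℝ, 0 < ε → ∃ m₀ : ℝ, ∀ m : ℕ, m₀ ≤ m →
  xT / (volume s).toReal * ∑ P ∈ PPf m, (volume (Hex P.2)).toReal -
      ε * (m : ℝ) ^ 6 * Real.log m ^ 4 ≤ ((∑ P ∈ PPf m, (fc 3 P.2).ncard : ℕ) : ℝ)

/-- One quadrangular face. -/
def tQP : Prop := ∃ V : IM, 0 < V.det ∧ (∀ i, prim (vcol V i)) ∧ (fc 4 V).Nonempty

/-- The answer. -/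
def tANS : Prop := (∀ m k : ℕ, (Trip m k).Finite) ∧ ∃ c m₀ : ℝ, 1 < c ∧ ∀ m : ℕ, m₀ ≤ m →
  0 < (Trip m 4).ncard ∧ c * ((Trip m 4).ncard : ℝ) ≤ ((Trip m 3).ncard : ℝ)

end SAIL.F
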