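import Pool.Agent.SAIL.FAC.Targets

/-!
SAIL, part A: variants for families of corner matrices (row `i` is dominated by its `i`-th
entry), for which the labelling of the vertices is unique.
-/

namespace SAIL.F

open Matrix MeasureTheory Filter SAIL SAIL.A

/-- Corner matrices: each diagonal entry is more than half of the row sum. -/
def Cor : Set M3 := {D | ∀ i, ∑ j, D i j < 2 * D i i}

def tT1c : Prop := ∀ (N : ℕ) (E : Fin N → IM) (U : Fin N → Set M3), (∀ i, Fam (E i) (U i)) →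
  (∀ i, U i ⊆ Cor) → (∀ i j, i ≠ j → ∀ γ : GZ, γ.1 * E i ≠ E j) → ∀ V : IM, 0 < V.det →
  (∀ i, {γ : GZ | (toR V)⁻¹ * toR (γ.1 * E i) ∈ U i}.Finite) ∧
  ∑ i, {γ : GZ | (toR V)⁻¹ * toR (γ.1 * E i) ∈ U i}.ncard ≤ (fc 3 V).ncard

def tLOTc : Prop := ∀ s : Set M3, FD s → ∀ (N : ℕ) (E : Fin N → IM) (U : Fin N → Set M3) (xT : ℝ),
  (∀ i, Fam (E i) (U i)) → (∀ i, U i ⊆ Cor) → (∀ i j, i ≠ j → ∀ γ : GZ, γ.1 * E i ≠ E j) →
  0 < xT → ENNReal.ofReal xT < ∑ i, vU (U i) →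
  ∀ ε : ℝ, 0 < ε → ∃ m₀ : ℝ, ∀ m : ℕ, m₀ ≤ m →
  xT / (volume s).toReal * ∑ P ∈ PPf m, (volume (Hex P.2)).toReal -
      ε * (m : ℝ) ^ 6 * Real.log m ^ 4 ≤ ((∑ P ∈ PPf m, (fc 3 P.2).ncard : ℕ) : ℝ)

/-- Part H, triangles: the total volume of the families exceeds `x`. -/
def tHT (x : ℝ) : Prop := ∃ (N : ℕ) (E : Fin N → IM) (U : Fin N → Set M3),
  (∀ i, Fam (E i) (U i)) ∧ (∀ i, U i ⊆ Cor) ∧ (∀ i j, i ≠ j → ∀ γ : GZ, γ.1 * E i ≠ E j) ∧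
  ENNReal.ofReal x < ∑ i, vU (U i)

/-- Part H, quadrangles: the volume of `K1` and a quarter of the volume of `K2` are below `x`. -/
def tHQ (x : ℝ) : Prop := ∃ b : ℝ, 0 < b ∧
  ∀ a : ℝ, 0 < a → volume (K1 a b ∩ Co) + volume (K2 b ∩ Co) / 4 < ENNReal.ofReal x

end SAIL.F
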